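import Pool.Agent.Work.MP_c3bd4f_hd.Interface

/-! # Block EXV -/

set_option autoImplicit false
set_option linter.unusedSectionVars false
set_option linter.unusedVariables false

open scoped ContDiff Manifold Topology ENNReal
open Set MeasureTheory

noncomputable section

namespace HDC

theorem EXV_meas {X Y : Type} [TopologicalSpace X] [MeasurableSpace X] [OpensMeasurableSpace X]
    [TopologicalSpace Y] [MeasurableSpace Y] [BorelSpace Y] {f : X → Y} {s : Set X}
    (hf : ContinuousOn f s) (hs : MeasurableSet s) {B : Set Y} (hB : MeasurableSet B) :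
    MeasurableSet (s ∩ f ⁻¹' B) := by
  have h1 : MeasurableSet ((s.domRestrict f) ⁻¹' B) :=
    (continuousOn_iff_continuous_domRestrict.1 hf).measurable hB
  have h2 := hs.subtype_image h1
  have h3 : s ∩ f ⁻¹' B = Subtype.val '' ((s.domRestrict f) ⁻¹' B) := by
    ext x
    constructor
    · rintro ⟨hx, hxB⟩
      exact ⟨⟨x, hx⟩, hxB, rfl⟩
    · rintro ⟨⟨y, hy⟩, hyB, rfl⟩
      exact ⟨hy, hyB⟩
  rw [h3]
  exact h2

/-- the density in a chart -/
def EXV_rho (n : ℕ) {M : Type} [TopologicalSpace M] (Ω : Fam (2 * n) M)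
    (c : OpenPartialHomeomorph M (EE (2 * n))) (x : EE (2 * n)) : ℝ≥0∞ :=
  ENNReal.ofReal |top (2 * n) ((Ω c x) ^ n)|

section

variable {n : ℕ} {M : Type} [TopologicalSpace M] [ChartedSpace (EE (2 * n)) M]
  [IsManifold 𝓘(ℝ, EE (2 * n)) ∞ M]

theorem EXV_compat (hDET : Stmt_DET) {Ω : Fam (2 * n) M} (hΩ : IsForm 2 Ω)
    (c : OpenPartialHomeomorph M (EE (2 * n))) (hc : c ∈ atlas (EE (2 * n)) M)
    (c' : OpenPartialHomeomorph M (EE (2 * n))) (hc' : c' ∈ atlas (EE (2 * n)) M)
    (x : EE (2 * n)) (hx : x ∈ c.target) (hx' : c.symm x ∈ c'.source) :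
    ENNReal.ofReal |(fderiv ℝ (fun y => c' (c.symm y)) x).det| *
      EXV_rho n Ω c' (c' (c.symm x)) = EXV_rho n Ω c x := by
  have h1 := hΩ.compat c hc c' hc' x hx hx'
  unfold EXV_rho
  rw [h1, ← map_pow, hDET, abs_mul, ENNReal.ofReal_mul (abs_nonneg _)]

variable [MeasurableSpace M] [BorelSpace M]

theorem EXV_symm_image (c : OpenPartialHomeomorph M (EE (2 * n))) {S : Set (EE (2 * n))}
    (hS : MeasurableSet S) (hSc : S ⊆ c.target) : MeasurableSet (c.symm '' S) := by
  have h1 : c.symm '' S = c.source ∩ c ⁻¹' S := by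
    ext p
    constructor
    · rintro ⟨x, hx, rfl⟩
      refine ⟨c.map_target (hSc hx), ?_⟩
      show c (c.symm x) ∈ S
      rw [c.right_inv (hSc hx)]
      exact hx
    · rintro ⟨hp, hpS⟩
      exact ⟨c p, hpS, c.left_inv hp⟩
  rw [h1]
  exact EXV_meas c.continuousOn c.open_source.measurableSet hS

/-- the value of a volume measure on a measurable set -/
theorem EXV_val (Ω : Fam (2 * n) M) (vol : Measure M) (hvol : IsVol n Ω vol)
    (c : ℕ → OpenPartialHomeomorph M (EE (2 * n))) (hc : ∀ k, c k ∈ atlas (EE (2 * n)) M)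
    (P : ℕ → Set M) (hP : ∀ k, MeasurableSet (P k)) (hPc : ∀ k, P k ⊆ (c k).source)
    (hd : Pairwise (Function.onFun Disjoint P)) (hU : ⋃ k, P k = univ) (A : Set M)
    (hA : MeasurableSet A) :
    vol A = ∑' k, ∫⁻ x in (c k).target ∩ (c k).symm ⁻¹' (A ∩ P k), EXV_rho n Ω (c k) x := by
  have h1 : A = ⋃ k, A ∩ P k := by rw [← inter_iUnion, hU, inter_univ]
  have h2 : vol A = ∑' k, vol (A ∩ P k) := by
    conv_lhs => rw [h1]
    refine measure_iUnion ?_ fun k => hA.inter (hP k)
    intro i j hij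
    exact (hd hij).mono inter_subset_right inter_subset_right
  rw [h2]
  refine tsum_congr fun k => ?_
  have h3 : A ∩ P k = (c k).symm '' ((c k).target ∩ (c k).symm ⁻¹' (A ∩ P k)) := by
    ext p
    constructor
    · intro hp
      have hps := hPc k hp.2
      refine ⟨c k p, ⟨(c k).map_source hps, ?_⟩, (c k).left_inv hps⟩
      show (c k).symm (c k p) ∈ A ∩ P k
      rw [(c k).left_inv hps]
      exact hp
    · rintro ⟨x, ⟨hx, hx2⟩, rfl⟩
      exact hx2
  have h4 : MeasurableSet ((c k).target ∩ (c k).symm ⁻¹' (A ∩ P k)) :=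
    EXV_meas (c k).continuousOn_symm (c k).open_target.measurableSet (hA.inter (hP k))
  conv_lhs => rw [h3]
  exact hvol (c k) (hc k) _ h4 inter_subset_left

/-- the volume measure -/
def EXV_vol (Ω : Fam (2 * n) M) (c : ℕ → OpenPartialHomeomorph M (EE (2 * n)))
    (P : ℕ → Set M) : Measure M :=
  Measure.sum fun k => Measure.map (c k).symm
    (((volume : Measure (EE (2 * n))).withDensity (EXV_rho n Ω (c k))).restrict
      ((c k).target ∩ (c k).symm ⁻¹' (P k)))

theorem EXV_vol_apply (Ω : Fam (2 * n) M) (c : ℕ → OpenPartialHomeomorph M (EE (2 * n)))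
    (P : ℕ → Set M) (hP : ∀ k, MeasurableSet (P k)) (A : Set M) (hA : MeasurableSet A) :
    EXV_vol Ω c P A =
      ∑' k, ∫⁻ x in (c k).target ∩ (c k).symm ⁻¹' (A ∩ P k), EXV_rho n Ω (c k) x := by
  unfold EXV_vol
  rw [Measure.sum_apply _ hA]
  refine tsum_congr fun k => ?_
  have h1 : MeasurableSet ((c k).target ∩ (c k).symm ⁻¹' (P k)) :=
    EXV_meas (c k).continuousOn_symm (c k).open_target.measurableSet (hP k)
  have h2 : MeasurableSet ((c k).target ∩ (c k).symm ⁻¹' (A ∩ P k)) :=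
    EXV_meas (c k).continuousOn_symm (c k).open_target.measurableSet (hA.inter (hP k))
  have h3 : AEMeasurable (c k).symm
      (((volume : Measure (EE (2 * n))).withDensity (EXV_rho n Ω (c k))).restrict
        ((c k).target ∩ (c k).symm ⁻¹' (P k))) :=
    ((c k).continuousOn_symm.mono inter_subset_left).aemeasurable h1
  rw [Measure.map_apply_of_aemeasurable h3 hA, Measure.restrict_apply' h1]
  have h4 : (c k).symm ⁻¹' A ∩ ((c k).target ∩ (c k).symm ⁻¹' (P k)) =
      (c k).target ∩ (c k).symm ⁻¹' (A ∩ P k) := by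
    ext x
    simp only [mem_inter_iff, mem_preimage]
    tauto
  rw [h4, withDensity_apply _ h2]

theorem EXV_isVol (hTRN : Stmt_TRN) (hDET : Stmt_DET) (Ω : Fam (2 * n) M) (hΩ : IsForm 2 Ω)
    (c : ℕ → OpenPartialHomeomorph M (EE (2 * n))) (hc : ∀ k, c k ∈ atlas (EE (2 * n)) M)
    (P : ℕ → Set M) (hP : ∀ k, MeasurableSet (P k)) (hPc : ∀ k, P k ⊆ (c k).source)
    (hd : Pairwise (Function.onFun Disjoint P)) (hU : ⋃ k, P k = univ) :
    IsVol n Ω (EXV_vol Ω c P) := by
  intro b hb S hS hSb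
  rw [EXV_vol_apply Ω c P hP _ (EXV_symm_image b hS hSb)]
  have hSk : ∀ k, MeasurableSet (S ∩ (b.target ∩ b.symm ⁻¹' (P k))) := fun k =>
    hS.inter (EXV_meas b.continuousOn_symm b.open_target.measurableSet (hP k))
  have h1 : ∀ k, ∫⁻ x in (c k).target ∩ (c k).symm ⁻¹' (b.symm '' S ∩ P k),
      EXV_rho n Ω (c k) x = ∫⁻ x in S ∩ (b.target ∩ b.symm ⁻¹' (P k)), EXV_rho n Ω b x := by
    intro k
    obtain ⟨hO, hsm, -⟩ := hTRN (2 * n) M b hb (c k) (hc k)
    have h2 : (c k).target ∩ (c k).symm ⁻¹' (b.symm '' S ∩ P k) =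
        (fun y => c k (b.symm y)) '' (S ∩ (b.target ∩ b.symm ⁻¹' (P k))) := by
      ext y
      constructor
      · rintro ⟨hy, ⟨x, hxS, hxy⟩, hyP⟩
        refine ⟨x, ⟨hxS, hSb hxS, ?_⟩, ?_⟩
        · show b.symm x ∈ P k
          rw [hxy]
          exact hyP
        · show c k (b.symm x) = y
          rw [hxy, (c k).right_inv hy]
      · rintro ⟨x, ⟨hxS, hxb, hxP⟩, rfl⟩
        have hx3 : b.symm x ∈ P k := hxP
        have hx4 := hPc k hx3
        refine ⟨(c k).map_source hx4, ?_⟩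
        show (c k).symm (c k (b.symm x)) ∈ b.symm '' S ∩ P k
        rw [(c k).left_inv hx4]
        exact ⟨⟨x, hxS, rfl⟩, hx3⟩
    have h3 : ∀ x ∈ S ∩ (b.target ∩ b.symm ⁻¹' (P k)),
        HasFDerivWithinAt (fun y => c k (b.symm y)) (fderiv ℝ (fun y => c k (b.symm y)) x)
          (S ∩ (b.target ∩ b.symm ⁻¹' (P k))) x := by
      intro x hx
      have hx1 : x ∈ {x | x ∈ b.target ∧ b.symm x ∈ (c k).source} := ⟨hx.2.1, hPc k hx.2.2⟩
      have h4 : ContDiffAt ℝ ∞ (fun y => c k (b.symm y)) x :=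
        (hsm x hx1).contDiffAt (hO.mem_nhds hx1)
      exact (h4.differentiableAt (by simp)).hasFDerivAt.hasFDerivWithinAt
    have h5 : InjOn (fun y => c k (b.symm y)) (S ∩ (b.target ∩ b.symm ⁻¹' (P k))) := by
      intro x hx x' hx' hxx
      have h6 : b.symm x = b.symm x' :=
        (c k).injOn (hPc k hx.2.2) (hPc k hx'.2.2) hxx
      exact b.symm.injOn (by rw [b.symm_source]; exact hx.2.1)
        (by rw [b.symm_source]; exact hx'.2.1) h6
    rw [h2, lintegral_image_eq_lintegral_abs_det_fderiv_mul volume (hSk k) h3 h5]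
    refine setLIntegral_congr_fun (hSk k) ?_
    intro x hx
    exact EXV_compat hDET hΩ b hb (c k) (hc k) x hx.2.1 (hPc k hx.2.2)
  rw [tsum_congr h1]
  have h7 : S = ⋃ k, S ∩ (b.target ∩ b.symm ⁻¹' (P k)) := by
    ext x
    constructor
    · intro hx
      have h8 : b.symm x ∈ ⋃ k, P k := by rw [hU]; exact mem_univ _
      obtain ⟨k, hk⟩ := mem_iUnion.1 h8
      exact mem_iUnion.2 ⟨k, hx, hSb hx, hk⟩
    · intro hx
      obtain ⟨k, hk⟩ := mem_iUnion.1 hx
      exact hk.1
  have h9 : Pairwise (Function.onFun Disjoint fun k => S ∩ (b.target ∩ b.symm ⁻¹' (P k))) := by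
    intro i j hij
    refine Set.disjoint_left.2 ?_
    intro x hx hx'
    exact Set.disjoint_left.1 (hd hij) hx.2.2 hx'.2.2
  have h10 : ∫⁻ x in S, EXV_rho n Ω b x =
      ∑' k, ∫⁻ x in S ∩ (b.target ∩ b.symm ⁻¹' (P k)), EXV_rho n Ω b x := by
    conv_lhs => rw [h7]
    exact lintegral_iUnion hSk h9 _
  rw [← h10]
  rfl

end

theorem p_EXV (hTRN : Stmt_TRN) (hDNC : Stmt_DNC) (hDET : Stmt_DET) : Stmt_EXV := by
  intro n M _ _ _ _ _ _ _ Ω hΩ
  rcases isEmpty_or_nonempty M with hM | hM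
  · refine ⟨0, ?_, ?_⟩
    · intro c hc S hS hSc
      have h1 : S = ∅ := by
        rw [Set.eq_empty_iff_forall_notMem]
        intro x hx
        exact hM.elim (c.symm x)
      rw [h1]
      simp
    · intro vol' _
      exact Measure.eq_zero_of_isEmpty vol'
  · obtain ⟨s, hs, hsU⟩ := TopologicalSpace.countable_cover_nhds
      (fun p : M => (chartAt (EE (2 * n)) p).open_source.mem_nhds (mem_chart_source _ p))
    have hsne : s.Nonempty := by
      obtain ⟨p⟩ := hM
      have h1 : p ∈ ⋃ x ∈ s, (chartAt (EE (2 * n)) x).source := by rw [hsU]; exact mem_univ _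
      obtain ⟨x, hx, -⟩ := mem_iUnion₂.1 h1
      exact ⟨x, hx⟩
    obtain ⟨q, hq⟩ := hs.exists_eq_range hsne
    have hcov : ⋃ k, (chartAt (EE (2 * n)) (q k)).source = univ := by
      rw [← hsU, hq, biUnion_range]
    have hP : ∀ k, MeasurableSet
        (disjointed (fun k => (chartAt (EE (2 * n)) (q k)).source) k) := fun k =>
      MeasurableSet.disjointed (fun i => (chartAt (EE (2 * n)) (q i)).open_source.measurableSet) k
    have hPc : ∀ k, disjointed (fun k => (chartAt (EE (2 * n)) (q k)).source) k ⊆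
        (chartAt (EE (2 * n)) (q k)).source := fun k =>
      disjointed_subset (fun k => (chartAt (EE (2 * n)) (q k)).source) k
    have hd : Pairwise (Function.onFun Disjoint
        (disjointed (fun k => (chartAt (EE (2 * n)) (q k)).source))) := disjoint_disjointed _
    have hU : ⋃ k, disjointed (fun k => (chartAt (EE (2 * n)) (q k)).source) k = univ := by
      rw [iUnion_disjointed, hcov]
    have hc : ∀ k, chartAt (EE (2 * n)) (q k) ∈ atlas (EE (2 * n)) M := fun k =>
      chart_mem_atlas _ _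
    have hV := EXV_isVol hTRN hDET Ω hΩ.form (fun k => chartAt (EE (2 * n)) (q k)) hc
      (disjointed fun k => (chartAt (EE (2 * n)) (q k)).source) hP hPc hd hU
    refine ⟨_, hV, ?_⟩
    intro vol' hV'
    refine Measure.ext fun A hA => ?_
    rw [EXV_val Ω vol' hV' (fun k => chartAt (EE (2 * n)) (q k)) hc _ hP hPc hd hU A hA,
      EXV_val Ω _ hV (fun k => chartAt (EE (2 * n)) (q k)) hc _ hP hPc hd hU A hA]

end HDC
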