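import Pool.Agent.Work.MP_c3bd4f_hd.Interface

set_option autoImplicit false

/-!
# Infinite Hofer diameter, block ALG: commutation rules (helper89)
-/

open scoped ContDiff Manifold Topology
open Set MeasureTheory

noncomputable section

namespace HDC

theorem ALG_ctr_io_mul {N : ℕ} (v : EE N) (a : VV N) (b : Lam N) :
    ctr v (io a * b) = a v • b - io a * ctr v b :=
  CliffordAlgebra.contractLeft_ι_mul (Q := (0 : QuadraticForm ℝ (VV N))) _ _ _

theorem ALG_ctr_io {N : ℕ} (v : EE N) (a : VV N) : ctr v (io a) = algebraMap ℝ (Lam N) (a v) :=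
  CliffordAlgebra.contractLeft_ι (0 : QuadraticForm ℝ (VV N)) _ _

theorem ALG_ctr_alg {N : ℕ} (v : EE N) (r : ℝ) : ctr v (algebraMap ℝ (Lam N) r) = 0 :=
  CliffordAlgebra.contractLeft_algebraMap (0 : QuadraticForm ℝ (VV N)) _ _

theorem ALG_inv_io {N : ℕ} (a : VV N) : inv (io a) = -io a :=
  CliffordAlgebra.involute_ι (Q := (0 : QuadraticForm ℝ (VV N))) a

theorem ALG_inv_alg {N : ℕ} (r : ℝ) : inv (algebraMap ℝ (Lam N) r) = algebraMap ℝ (Lam N) r :=
  AlgHom.commutes _ r

theorem ALG_comm {N : ℕ} (a : VV N) (x : Lam N) : io a * x = inv x * io a := by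
  induction x using ExteriorAlgebra.induction with
  | algebraMap r => rw [ALG_inv_alg]; exact (Algebra.commutes r (io a)).symm
  | ι b =>
    have h := ExteriorAlgebra.ι_add_mul_swap (R := ℝ) a b
    show io a * io b = inv (io b) * io a
    rw [ALG_inv_io, neg_mul]
    exact eq_neg_of_add_eq_zero_left h
  | mul x y hx hy => rw [← mul_assoc, hx, mul_assoc, hy, map_mul, mul_assoc]
  | add x y hx hy => rw [mul_add, hx, hy, map_add, add_mul]

theorem ALG_ctr_mul {N : ℕ} (v : EE N) (x : Lam N) : ∀ y : Lam N,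
    ctr v (x * y) = ctr v x * y + inv x * ctr v y := by
  induction x using ExteriorAlgebra.induction with
  | algebraMap r =>
    intro y
    rw [ALG_ctr_alg, zero_mul, zero_add, ALG_inv_alg, ← Algebra.smul_def, ← Algebra.smul_def,
      map_smul]
  | ι b =>
    intro y
    show ctr v (io b * y) = ctr v (io b) * y + inv (io b) * ctr v y
    rw [ALG_ctr_io_mul, ALG_ctr_io, ALG_inv_io, ← Algebra.smul_def, neg_mul, sub_eq_add_neg]
  | mul x z hx hz =>
    intro y
    rw [mul_assoc, hx, hz, hx z, map_mul]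
    noncomm_ring
  | add x z hx hz =>
    intro y
    rw [add_mul, map_add, hx, hz, map_add, map_add]
    noncomm_ring

theorem ALG_ctr_inv {N : ℕ} (v : EE N) (x : Lam N) : ctr v (inv x) = -inv (ctr v x) := by
  induction x using ExteriorAlgebra.induction with
  | algebraMap r => rw [ALG_inv_alg, ALG_ctr_alg, map_zero, neg_zero]
  | ι b =>
    show ctr v (inv (io b)) = -inv (ctr v (io b))
    rw [ALG_inv_io, map_neg, ALG_ctr_io, ALG_inv_alg]
  | mul x y hx hy =>
    rw [map_mul, ALG_ctr_mul, ALG_ctr_mul, map_add, map_mul, map_mul, hx, hy]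
    noncomm_ring
  | add x y hx hy => rw [map_add, map_add, hx, hy, map_add, map_add, neg_add]

theorem p_ALG : Stmt_ALG := by
  intro N
  refine ⟨ALG_comm, ALG_ctr_mul, ALG_ctr_io, ALG_ctr_alg, ALG_ctr_inv, ?_, ?_⟩
  · intro v u x
    unfold ctr
    rw [map_add, map_add, LinearMap.add_apply]
  · intro r v x
    unfold ctr
    rw [map_smul, map_smul, LinearMap.smul_apply]

end HDC
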