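import Pool.Agent.Work.MP_c3bd4f_hd.Interface

/-! # Block CAL: the Calabi invariant depends on the time one map only (helper71) -/

set_option autoImplicit false

open scoped ContDiff Manifold Topology
open Set MeasureTheory

noncomputable section

namespace HDC

theorem p_CAL (hFO2 : Stmt_FO2) (hTRL : Stmt_TRL) (hMN1 : Stmt_MN1) (hMN2 : Stmt_MN2) :
    Stmt_CAL := by
  intro i m M _ _ _ _ _ _ _ Ω μ vol _ H φ hΩ hvol hμ hdμ hH hG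
  obtain ⟨Φ, hΦ, hΦ1⟩ := hG
  obtain ⟨K, hK, hK0⟩ := hH.supp
  have hHS : HS (2 * i + 1 + m) Ω H Φ := ⟨hΩ, hH, hΦ⟩
  obtain ⟨hmul, -, -, hcon, hat, hpow, -, -⟩ := hFO2 (2 * (2 * i + 1 + m)) M
  have hg : IsForm (2 * i + 1 + 2 * m) (μ * Ω ^ m) :=
    hat _ _ (hmul _ _ _ _ (hcon _ μ hμ) (hcon _ _ (hpow m Ω hΩ.form))) 0 ⟨le_rfl, zero_le_one⟩
  have h1 := hTRL (2 * i + 1 + m) M Ω vol H Φ K hHS hK hK0 (2 * i) (2 * i + 1 + 2 * m) μ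
    (μ * Ω ^ m) hμ hg 1 ⟨zero_le_one, le_rfl⟩
  rw [hΦ1] at h1
  rw [h1]
  have h2 : (∫ t in (0 : ℝ)..1, ∫ p, dn (2 * i + 1 + m) Ω
      (PBK (Φ t) (Lie (XX Ω H t) μ) * (μ * Ω ^ m)) p ∂vol) =
      ∫ t in (0 : ℝ)..1, -((2 * (i : ℝ) + m + 2) * ∫ p, H t p ∂vol) := by
    apply intervalIntegral.integral_congr
    intro t ht
    rw [uIcc_of_le zero_le_one] at ht
    show (∫ p, dn (2 * i + 1 + m) Ω (PBK (Φ t) (Lie (XX Ω H t) μ) * (μ * Ω ^ m)) p ∂vol) =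
      -((2 * (i : ℝ) + m + 2) * ∫ p, H t p ∂vol)
    rw [hMN2 i m M Ω μ vol H Φ K hHS hvol hK hK0 hμ hdμ t ht,
      hMN1 i m M Ω μ vol H K hΩ hvol hH hK hK0 hμ hdμ t ht]
  rw [h2, intervalIntegral.integral_neg, intervalIntegral.integral_const_mul]
  unfold Cal
  have h3 : (2 * (i : ℝ) + m + 2) ≠ 0 := by positivity
  field_simp

end HDC
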