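import Pool.Agent.Work.MP_c3bd4f_hd.Interface

set_option autoImplicit false

/-! # Block CNG: only the values on the targets matter (helper78) -/

open scoped ContDiff Manifold Topology
open Set MeasureTheory

noncomputable section

namespace HDC

theorem p_CNG : Stmt_CNG := by
  refine ⟨?_, ?_⟩
  · intro N M _ _ f g h
    refine ⟨?_, ?_, ?_⟩
    · intro c hc x hx
      have h1 : f c =ᶠ[𝓝 x] g c := by
        filter_upwards [c.open_target.mem_nhds hx] with y hy
        exact h c hc y hy
      show D (f c) x = D (g c) x
      unfold D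
      rw [h1.fderiv_eq]
    · intro φ c hc x hx
      show pb _ (f (chartAt (EE N) (φ (c.symm x))) (chartAt (EE N) (φ (c.symm x)) (φ (c.symm x)))) =
        pb _ (g (chartAt (EE N) (φ (c.symm x))) (chartAt (EE N) (φ (c.symm x)) (φ (c.symm x))))
      rw [h _ (chart_mem_atlas (EE N) _) _ (mem_chart_target (EE N) _)]
    · intro X c hc x hx
      show ctr (X c x) (f c x) = ctr (X c x) (g c x)
      rw [h c hc x hx]
  · intro n M _ _ Ω f g h
    funext p
    unfold dn
    rw [h _ (chart_mem_atlas (EE (2 * n)) p) _ (mem_chart_target (EE (2 * n)) p)]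

end HDC
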