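import Pool.Agent.Work.MP_c3bd4f_hd.Interface

set_option autoImplicit false

open scoped ContDiff Manifold Topology
open Set MeasureTheory

noncomputable section

namespace HDC

theorem p_CPW (hA : Stmt_ALG) (hD : Stmt_DEG) : Stmt_CPW := by
  intro N w hw
  obtain ⟨hA1, hA2, hA3, hA4, hA5, hA6, hA7⟩ := hA N
  obtain ⟨hD1, hD2, hD3, hD4, hD5, hD6, hD7, hD8⟩ := hD N
  have comm : ∀ y : Lam N, w * y = y * w := by
    intro y
    induction y using ExteriorAlgebra.induction with
    | algebraMap r => exact (Algebra.commutes r w).symm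
    | ι a =>
      have h := hD6 2 1 w (io a) hw (hD7 a)
      have h1 : ((-1 : ℝ)) ^ (2 * 1) = 1 := by norm_num
      rw [h1, one_smul] at h
      exact h
    | mul a b ha hb => rw [← mul_assoc, ha, mul_assoc, hb, mul_assoc]
    | add a b ha hb => rw [mul_add, ha, hb, add_mul]
  refine ⟨comm, ?_⟩
  intro v k
  induction k with
  | zero =>
    rw [zero_add, pow_one, pow_zero, mul_one]
    simp
  | succ k ih =>
    have hinv : inv w = w := by
      rw [hD1 2 w hw]
      norm_num
    rw [pow_succ' w (k + 1), hA2, hinv, ih, mul_smul_comm, ← mul_assoc, comm (ctr v w), mul_assoc,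
      ← pow_succ']
    push_cast
    rw [add_smul ((k : ℝ) + 1) 1, one_smul, add_comm]

end HDC
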