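import Pool.Agent.Work.MP_c3bd4f_hd.Interface

set_option autoImplicit false

open scoped ContDiff Manifold Topology
open Set MeasureTheory

noncomputable section

namespace HDC

theorem CTN_dual (N : ℕ) (v : EE N) : ∑ i : Fin N, dxB N i v • ee (N := N) i = v := by
  have h := (EuclideanSpace.basisFun (Fin N) ℝ).toBasis.sum_repr v
  rw [← h]
  refine Finset.sum_congr rfl fun i _ => ?_
  have e1 : (EuclideanSpace.basisFun (Fin N) ℝ).toBasis i = ee i := by
    rw [OrthonormalBasis.coe_toBasis, EuclideanSpace.basisFun_apply]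
    rfl
  have e2 : dxB N i v = (EuclideanSpace.basisFun (Fin N) ℝ).toBasis.repr v i := by
    unfold dxB
    rw [Module.Basis.coe_dualBasis]
    rfl
  rw [h, e1, e2]

theorem p_CTN (hA : Stmt_ALG) (hD : Stmt_DRV) : Stmt_CTN := by
  intro N X f x hX hf
  obtain ⟨hA1, hA2, hA3, hA4, hA5, hA6, hA7⟩ := hA N
  obtain ⟨-, hD2, -⟩ := hD N (EE N) x
  obtain ⟨L, hL, hL'⟩ := hD2 X f _ _ hX.hasFDerivAt hf.hasFDerivAt
  have h1 : D (fun y => ctr (X y) (f y)) x = ∑ i, dx i *
      (ctr (fderiv ℝ X x (ee i)) (f x) + ctr (X x) (fderiv ℝ f x (ee i))) := by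
    unfold D
    rw [hL.fderiv]
    simp only [hL']
  have h2 : ctr (X x) (D f x) = ∑ i, (dxB N i (X x) • fderiv ℝ f x (ee i) -
      dx i * ctr (X x) (fderiv ℝ f x (ee i))) := by
    unfold D
    rw [map_sum]
    refine Finset.sum_congr rfl fun i _ => ?_
    rw [hA2]
    have e1 : ctr (X x) (dx (N := N) i) = algebraMap ℝ (Lam N) (dxB N i (X x)) := hA3 _ _
    have e2 : inv (dx (N := N) i) = - dx i := CliffordAlgebra.involute_ι _
    rw [e1, e2, neg_mul, ← Algebra.smul_def, sub_eq_add_neg]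
  have h3 : fderiv ℝ f x (X x) = ∑ i, dxB N i (X x) • fderiv ℝ f x (ee i) := by
    conv_lhs => rw [← CTN_dual N (X x)]
    rw [map_sum]
    refine Finset.sum_congr rfl fun i _ => ?_
    rw [map_smul]
  rw [h1, h2, h3, ← Finset.sum_add_distrib, ← Finset.sum_add_distrib]
  refine Finset.sum_congr rfl fun i _ => ?_
  rw [mul_add]
  abel

end HDC
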