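import Pool.Agent.Work.MP_c3bd4f_hd.Interface

/-! # Block DDZ: `d d = 0` and the differential of a function (MP_c3bd4f_gt, helper95) -/

set_option autoImplicit false

open scoped ContDiff Manifold Topology
open Set MeasureTheory

noncomputable section

namespace HDC

/-- left multiplication by `dx i` -/
def DDZ_L {N : ℕ} (i : Fin N) : Lam N →L[ℝ] Lam N :=
  LinearMap.toContinuousLinearMap (LinearMap.mulLeft ℝ (dx i))

theorem DDZ_L_apply {N : ℕ} (i : Fin N) (y : Lam N) : DDZ_L i y = dx i * y := rfl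

theorem DDZ_swap {N : ℕ} (i k : Fin N) : dx k * dx i = -(dx i * dx k) := by
  unfold dx
  exact eq_neg_of_add_eq_zero_left (ExteriorAlgebra.ι_add_mul_swap (R := ℝ) (dxB N k) (dxB N i))

theorem DDZ_one {N : ℕ} (f : EE N → Lam N) (x : EE N) (hf : ContDiffAt ℝ 2 f x) :
    D (D f) x = 0 := by
  have hd : DifferentiableAt ℝ (fderiv ℝ f) x := by
    have h1 : ContDiffAt ℝ 1 (fderiv ℝ f) x := hf.fderiv_right (m := 1) (by norm_num)
    exact h1.differentiableAt (by norm_num)
  have hs : IsSymmSndFDerivAt ℝ f x := hf.isSymmSndFDerivAt (by simp)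
  set f2 := fderiv ℝ (fderiv ℝ f) x with hf2
  have hD : HasFDerivAt (D f)
      (∑ i : Fin N, (DDZ_L i).comp ((ContinuousLinearMap.apply ℝ (Lam N) (ee i)).comp f2)) x := by
    have h2 : D f = fun y => ∑ i : Fin N, DDZ_L i (fderiv ℝ f y (ee i)) := by
      funext y
      rfl
    rw [h2]
    refine HasFDerivAt.fun_sum fun i _ => ?_
    exact (DDZ_L i).hasFDerivAt.comp x
      ((ContinuousLinearMap.apply ℝ (Lam N) (ee i)).hasFDerivAt.comp x hd.hasFDerivAt)
  have h3 : D (D f) x = ∑ k : Fin N, ∑ i : Fin N, dx k * dx i * f2 (ee k) (ee i) := by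
    show ∑ k : Fin N, dx k * fderiv ℝ (D f) x (ee k) = _
    rw [hD.fderiv]
    refine Finset.sum_congr rfl fun k _ => ?_
    rw [_root_.sum_apply, Finset.mul_sum]
    refine Finset.sum_congr rfl fun i _ => ?_
    simp only [ContinuousLinearMap.comp_apply, ContinuousLinearMap.apply_apply, DDZ_L_apply]
    rw [mul_assoc]
  have h4 : D (D f) x = -D (D f) x := by
    conv_lhs => rw [h3, Finset.sum_comm]
    rw [h3, ← Finset.sum_neg_distrib]
    refine Finset.sum_congr rfl fun k _ => ?_
    rw [← Finset.sum_neg_distrib]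
    refine Finset.sum_congr rfl fun i _ => ?_
    rw [DDZ_swap k i, neg_mul]
    congr 2
    exact hs.eq _ _
  have h5 : (2 : ℝ) • D (D f) x = 0 := by
    rw [two_smul]
    nth_rewrite 1 [h4]
    exact neg_add_cancel _
  exact (smul_eq_zero.1 h5).resolve_left two_ne_zero

theorem DDZ_two {N : ℕ} (h : EE N → ℝ) (x : EE N) (hh : DifferentiableAt ℝ h x) :
    D (fun y => algebraMap ℝ (Lam N) (h y)) x = io (fderiv ℝ h x).toLinearMap := by
  have h1 : HasFDerivAt (fun y => algebraMap ℝ (Lam N) (h y))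
      ((LinearMap.toContinuousLinearMap (Algebra.linearMap ℝ (Lam N))).comp (fderiv ℝ h x)) x :=
    (LinearMap.toContinuousLinearMap (Algebra.linearMap ℝ (Lam N))).hasFDerivAt.comp x
      hh.hasFDerivAt
  have h2 : D (fun y => algebraMap ℝ (Lam N) (h y)) x =
      ∑ i : Fin N, fderiv ℝ h x (ee i) • dx i := by
    show ∑ i : Fin N, dx i * fderiv ℝ (fun y => algebraMap ℝ (Lam N) (h y)) x (ee i) = _
    rw [h1.fderiv]
    refine Finset.sum_congr rfl fun i _ => ?_
    show dx i * algebraMap ℝ (Lam N) (fderiv ℝ h x (ee i)) = _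
    rw [← Algebra.commutes, ← Algebra.smul_def]
  rw [h2]
  have h3 : (fderiv ℝ h x).toLinearMap = ∑ i : Fin N, fderiv ℝ h x (ee i) • dxB N i := by
    refine Eq.trans (Module.Basis.sum_dual_apply_smul_coord
      (EuclideanSpace.basisFun (Fin N) ℝ).toBasis (fderiv ℝ h x).toLinearMap).symm ?_
    refine Finset.sum_congr rfl fun i _ => ?_
    rw [OrthonormalBasis.coe_toBasis, EuclideanSpace.basisFun_apply]
    rw [dxB, Module.Basis.coe_dualBasis]
    rfl
  rw [h3, map_sum]
  refine Finset.sum_congr rfl fun i _ => ?_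
  rw [map_smul]
  rfl

/-- block DDZ -/
theorem p_DDZ (_h : Stmt_ALG) : Stmt_DDZ := by
  intro N
  exact ⟨fun f x hf => DDZ_one f x hf, fun h x hh => DDZ_two h x hh⟩

end HDC
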