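import Pool.Agent.Work.MP_c3bd4f_hd.Interface

set_option autoImplicit false

open scoped ContDiff Manifold Topology
open Set MeasureTheory

noncomputable section

namespace HDC

lemma DEG_e0 {N : ℕ} : (⋀[ℝ]^0 (VV N)) = (1 : Submodule ℝ (Lam N)) := pow_zero _

lemma DEG_es {N : ℕ} (k : ℕ) : (⋀[ℝ]^(k + 1) (VV N)) =
    LinearMap.range (ExteriorAlgebra.ι ℝ : VV N →ₗ[ℝ] Lam N) * ⋀[ℝ]^k (VV N) := pow_succ' _ _

lemma DEG_ind {N : ℕ} {P : ℕ → Lam N → Prop} (h0 : ∀ r : ℝ, P 0 (algebraMap ℝ (Lam N) r))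
    (hs : ∀ (k : ℕ) (a : VV N) (y : Lam N), y ∈ ⋀[ℝ]^k (VV N) → P k y → P (k + 1) (io a * y))
    (ha : ∀ (k : ℕ) (x y : Lam N), P k x → P k y → P k (x + y)) :
    ∀ (k : ℕ) (x : Lam N), x ∈ ⋀[ℝ]^k (VV N) → P k x := by
  intro k
  induction k with
  | zero =>
    intro x hx
    rw [DEG_e0] at hx
    obtain ⟨r, rfl⟩ := Submodule.mem_one.1 hx
    exact h0 r
  | succ k ih =>
    intro x hx
    rw [DEG_es] at hx
    refine Submodule.mul_induction_on hx ?_ (fun x y => ha (k + 1) x y)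
    rintro m ⟨a, rfl⟩ y hy
    exact hs k a y hy (ih y hy)

lemma DEG_io_mul {N : ℕ} (k : ℕ) (a : VV N) (y : Lam N) (hy : y ∈ ⋀[ℝ]^k (VV N)) :
    io a * y ∈ ⋀[ℝ]^(k + 1) (VV N) := by
  rw [DEG_es]
  exact Submodule.mul_mem_mul ⟨a, rfl⟩ hy

lemma DEG_scal {N : ℕ} (r : ℝ) : algebraMap ℝ (Lam N) r ∈ ⋀[ℝ]^0 (VV N) := by
  rw [DEG_e0]
  exact Submodule.mem_one.2 ⟨r, rfl⟩

theorem p_DEG (hALG : Stmt_ALG) (hPBA : Stmt_PBA) : Stmt_DEG := by
  intro N
  obtain ⟨A1, A2, A3, A4, A5, A6, A7⟩ := hALG N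
  obtain ⟨B1, -, -, -, -⟩ := hPBA N
  have h1 : ∀ (k : ℕ) (x : Lam N), x ∈ ⋀[ℝ]^k (VV N) → inv x = (-1 : ℝ) ^ k • x := by
    apply DEG_ind
    · intro r
      rw [pow_zero, one_smul]
      exact AlgHom.commutes _ r
    · intro k a y _ hy
      rw [map_mul, hy, pow_succ]
      have h9 : inv (io a) = -(io a : Lam N) := CliffordAlgebra.involute_ι a
      rw [h9]
      rw [mul_smul_comm, mul_neg, mul_one, neg_smul, neg_mul, smul_neg]
    · intro k x y hx hy
      rw [map_add, hx, hy, smul_add]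
  have hctr : ∀ (v : EE N) (a : VV N) (y : Lam N), ctr v (io a * y) = a v • y - io a * ctr v y := by
    intro v a y
    have h9 : inv (io a) = -(io a : Lam N) := CliffordAlgebra.involute_ι a
    rw [A2, A3, h9, ← Algebra.smul_def, neg_mul, sub_eq_add_neg]
  have h23 : ∀ (v : EE N) (k : ℕ) (x : Lam N), x ∈ ⋀[ℝ]^k (VV N) →
      (k = 0 → ctr v x = 0) ∧ ∀ j, k = j + 1 → ctr v x ∈ ⋀[ℝ]^j (VV N) := by
    intro v
    apply DEG_ind
    · intro r
      exact ⟨fun _ => A4 v r, fun j hj => by omega⟩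
    · intro k a y hy hyP
      refine ⟨fun h => by omega, fun j hj => ?_⟩
      obtain rfl : j = k := by omega
      rw [hctr]
      apply Submodule.sub_mem _ (Submodule.smul_mem _ _ hy)
      rcases j with _ | j
      · rw [hyP.1 rfl, mul_zero]
        exact Submodule.zero_mem _
      · exact DEG_io_mul j a _ (hyP.2 j rfl)
    · intro k x y hx hy
      refine ⟨fun h => by rw [map_add, hx.1 h, hy.1 h, add_zero], fun j hj => ?_⟩
      rw [map_add]
      exact Submodule.add_mem _ (hx.2 j hj) (hy.2 j hj)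
  refine ⟨h1, fun k x v hx => (h23 v (k + 1) x hx).2 k rfl, fun x v hx => (h23 v 0 x hx).1 rfl,
    ?_, ?_, ?_, ?_, fun r => DEG_scal r⟩
  · intro k A
    revert k
    apply DEG_ind
    · intro r
      rw [AlgHom.commutes]
      exact DEG_scal r
    · intro k a y _ hy
      rw [map_mul, B1]
      exact DEG_io_mul k _ _ hy
    · intro k x y hx hy
      rw [map_add]
      exact Submodule.add_mem _ hx hy
  · intro k x hk hx
    have h0 : Module.finrank ℝ (⋀[ℝ]^k (VV N)) = 0 := by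
      rw [exteriorPower.finrank_eq]
      apply Nat.choose_eq_zero_of_lt
      have h5 : Module.finrank ℝ (VV N) = N := by
        rw [Module.finrank_eq_card_basis (dxB N), Fintype.card_fin]
      rw [h5]
      exact hk
    have h2 : (⋀[ℝ]^k (VV N)) = ⊥ := Submodule.finrank_eq_zero.1 h0
    rw [h2] at hx
    exact (Submodule.mem_bot ℝ).1 hx
  · intro k l x y hx hy
    revert k x
    apply DEG_ind
    · intro r
      rw [zero_mul, pow_zero, one_smul]
      exact Algebra.commutes r y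
    · intro k a z hz hzP
      rw [mul_assoc, hzP, mul_smul_comm, ← mul_assoc, A1, h1 l y hy, smul_mul_assoc,
        smul_mul_assoc, smul_smul, ← mul_assoc, ← pow_add, add_mul, one_mul]
    · intro k x y' hx hy'
      rw [add_mul, hx, hy', mul_add, smul_add]
  · intro a
    have h := DEG_io_mul 0 a 1 (by
      have := DEG_scal (N := N) 1
      rwa [map_one] at this)
    rwa [mul_one] at h

end HDC
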