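import Pool.Agent.Work.MP_c3bd4f_hd.Interface

set_option autoImplicit false

/-! # Block DET: the top coefficient of a pullback -/

open scoped ContDiff Manifold Topology
open Set MeasureTheory

noncomputable section

namespace HDC

theorem p_DET (hTOP : Stmt_TOP) : Stmt_DET := by
  intro N A x
  have hk : ∀ (k : ℕ) (v : Fin k → VV N), ExteriorAlgebra.ιMulti ℝ k v ∈ ⋀[ℝ]^k (VV N) :=
    fun k v => ExteriorAlgebra.ιMulti_range ℝ k ⟨v, rfl⟩
  have h : (top N).comp (pb A).toLinearMap = LinearMap.det A.toLinearMap • top N := by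
    apply ExteriorAlgebra.lhom_ext
    intro k
    ext v
    show top N (pb A (ExteriorAlgebra.ιMulti ℝ k v)) =
      LinearMap.det A.toLinearMap * top N (ExteriorAlgebra.ιMulti ℝ k v)
    have h1 : pb A (ExteriorAlgebra.ιMulti ℝ k v) =
        ExteriorAlgebra.ιMulti ℝ k (A.toLinearMap.dualMap ∘ v) :=
      ExteriorAlgebra.map_apply_ιMulti _ _
    rw [h1]
    by_cases hN : k = N
    · subst hN
      have h2 := AlternatingMap.eq_smul_basis_det (dxB k)
        ((top k).compAlternatingMap (ExteriorAlgebra.ιMulti ℝ k))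
      have h3 : ∀ w : Fin k → VV k, top k (ExteriorAlgebra.ιMulti ℝ k w) =
          top k (ExteriorAlgebra.ιMulti ℝ k (dxB k)) * (dxB k).det w :=
        fun w => congrArg (fun f : VV k [⋀^Fin k]→ₗ[ℝ] ℝ => f w) h2
      rw [h3, h3 v, Module.Basis.det_comp, LinearMap.det_dualMap]
      ring
    · rw [(hTOP N).1 k _ hN (hk k _), (hTOP N).1 k _ hN (hk k _), mul_zero]
  exact congrArg (fun f : Lam N →ₗ[ℝ] ℝ => f x) h

end HDC
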