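import Pool.Agent.Work.MP_c3bd4f_hd.Interface

set_option autoImplicit false

open scoped ContDiff Manifold Topology
open Set MeasureTheory

noncomputable section

namespace HDC

theorem DGD_proj (N k : ℕ) : ∃ P : Lam N →L[ℝ] Lam N,
    (∀ w ∈ ⋀[ℝ]^k (VV N), P w = w) ∧ ∀ w, P w ∈ ⋀[ℝ]^k (VV N) := by
  obtain ⟨g, hg⟩ := LinearMap.exists_leftInverse_of_injective
    (⋀[ℝ]^k (VV N) : Submodule ℝ (Lam N)).subtype
    (Submodule.ker_subtype _)
  refine ⟨LinearMap.toContinuousLinearMap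
    ((⋀[ℝ]^k (VV N) : Submodule ℝ (Lam N)).subtype ∘ₗ g), ?_, ?_⟩
  · intro w hw
    have h1 := LinearMap.congr_fun hg ⟨w, hw⟩
    have h2 : g w = ⟨w, hw⟩ := by simpa using h1
    show ((g w : (⋀[ℝ]^k (VV N) : Submodule ℝ (Lam N))) : Lam N) = w
    rw [h2]
  · intro w
    exact (g w).2

theorem DGD_fderiv (N k : ℕ) (f : EE N → Lam N) (x : EE N)
    (hf : ∀ᶠ y in 𝓝 x, f y ∈ ⋀[ℝ]^k (VV N)) (v : EE N) :
    fderiv ℝ f x v ∈ ⋀[ℝ]^k (VV N) := by
  by_cases hd : DifferentiableAt ℝ f x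
  · obtain ⟨P, hP1, hP2⟩ := DGD_proj N k
    have h1 : HasFDerivAt f (fderiv ℝ f x) x := hd.hasFDerivAt
    have h2 : HasFDerivAt (fun y => P (f y)) (P.comp (fderiv ℝ f x)) x :=
      P.hasFDerivAt.comp x h1
    have h3 : (fun y => P (f y)) =ᶠ[𝓝 x] f := by
      filter_upwards [hf] with y hy
      exact hP1 _ hy
    have h4 : HasFDerivAt f (P.comp (fderiv ℝ f x)) x := h2.congr_of_eventuallyEq h3.symm
    have h5 : fderiv ℝ f x = P.comp (fderiv ℝ f x) := h1.unique h4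
    rw [h5]
    exact hP2 _
  · rw [fderiv_zero_of_not_differentiableAt hd]
    exact Submodule.zero_mem _

theorem p_DGD (_ : Stmt_SMA) : Stmt_DGD := by
  intro N k f x hf
  unfold D
  refine Submodule.sum_mem _ fun i _ => ?_
  have h1 : dx i ∈ ⋀[ℝ]^1 (VV N) := by
    have h0 : (⋀[ℝ]^1 (VV N) : Submodule ℝ (Lam N)) = LinearMap.range (ExteriorAlgebra.ι ℝ) :=
      pow_one _
    rw [h0]
    exact LinearMap.mem_range_self _ _
  have h2 := DGD_fderiv N k f x hf (ee i)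
  have h3 := SetLike.mul_mem_graded (A := fun i : ℕ => (⋀[ℝ]^i (VV N) : Submodule ℝ (Lam N))) h1 h2
  rw [add_comm] at h3
  exact h3

end HDC
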