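import Pool.Agent.Work.MP_c3bd4f_hd.Interface

set_option autoImplicit false

/-!
# MP_c3bd4f_gt, THEOREM HC, block DRV: derivatives of products, contractions and pullbacks
-/

open scoped ContDiff Manifold Topology
open Set MeasureTheory

noncomputable section

namespace HDC

/-- directional derivatives -/
theorem DRV_dir {X Z : Type*} [NormedAddCommGroup X] [NormedSpace ℝ X] [NormedAddCommGroup Z]
    [NormedSpace ℝ Z] (G : X → Z) (G' : X →L[ℝ] Z) (p w : X) (h : HasFDerivAt G G' p) :
    HasDerivAt (fun s : ℝ => G (p + s • w)) (G' w) 0 := by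
  have h1 : HasDerivAt (fun s : ℝ => p + s • w) w 0 := by
    simpa using ((hasDerivAt_id (0 : ℝ)).smul_const w).const_add p
  have h2 : HasFDerivAt G G' (p + (0 : ℝ) • w) := by simpa using h
  exact h2.comp_hasDerivAt (0 : ℝ) h1

theorem DRV_aff {Z : Type*} [NormedAddCommGroup Z] [NormedSpace ℝ Z] (z c : Z) :
    HasDerivAt (fun s : ℝ => z + s • c) c 0 := by
  simpa using ((hasDerivAt_id (0 : ℝ)).smul_const c).const_add z

theorem DRV_eq {X Z : Type*} [NormedAddCommGroup X] [NormedSpace ℝ X] [NormedAddCommGroup Z]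
    [NormedSpace ℝ Z] (G : X → Z) (G' : X →L[ℝ] Z) (p w : X) (h : HasFDerivAt G G' p) (z c : Z)
    (hc : ∀ s : ℝ, G (p + s • w) = z + s • c) : G' w = c := by
  have h1 := DRV_dir G G' p w h
  have h2 : (fun s : ℝ => G (p + s • w)) = fun s : ℝ => z + s • c := funext hc
  rw [h2] at h1
  exact h1.unique (DRV_aff z c)

theorem DRV_bil {P X Y Z : Type*} [NormedAddCommGroup P] [NormedSpace ℝ P]
    [NormedAddCommGroup X] [NormedSpace ℝ X] [NormedAddCommGroup Y] [NormedSpace ℝ Y]
    [NormedAddCommGroup Z] [NormedSpace ℝ Z] (G : X × Y → Z) (hG : ContDiff ℝ ∞ G) (x : P)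
    (f : P → X) (g : P → Y) (f' : P →L[ℝ] X) (g' : P →L[ℝ] Y) (hf : HasFDerivAt f f' x)
    (hg : HasFDerivAt g g' x) (c1 : X → Z) (c2 : Y → Z)
    (h1 : ∀ u, HasDerivAt (fun s : ℝ => G (f x + s • u, g x)) (c1 u) 0)
    (h2 : ∀ u, HasDerivAt (fun s : ℝ => G (f x, g x + s • u)) (c2 u) 0) :
    ∃ L : P →L[ℝ] Z, HasFDerivAt (fun y => G (f y, g y)) L x ∧
      ∀ v, L v = c1 (f' v) + c2 (g' v) := by
  have hd : HasFDerivAt G (fderiv ℝ G (f x, g x)) (f x, g x) :=
    ((hG.differentiable (by simp)) (f x, g x)).hasFDerivAt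
  refine ⟨(fderiv ℝ G (f x, g x)).comp (f'.prod g'), ?_, fun v => ?_⟩
  · exact HasFDerivAt.comp x hd (hf.prodMk hg)
  · have e1 : fderiv ℝ G (f x, g x) (f' v, 0) = c1 (f' v) := by
      have h3 := DRV_dir G _ (f x, g x) (f' v, 0) hd
      have h4 : (fun s : ℝ => G ((f x, g x) + s • (f' v, (0 : Y)))) =
          fun s : ℝ => G (f x + s • f' v, g x) := by
        funext s
        simp
      rw [h4] at h3
      exact h3.unique (h1 _)
    have e2 : fderiv ℝ G (f x, g x) (0, g' v) = c2 (g' v) := by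
      have h3 := DRV_dir G _ (f x, g x) (0, g' v) hd
      have h4 : (fun s : ℝ => G ((f x, g x) + s • ((0 : X), g' v))) =
          fun s : ℝ => G (f x, g x + s • g' v) := by
        funext s
        simp
      rw [h4] at h3
      exact h3.unique (h2 _)
    rw [← e1, ← e2, ← map_add]
    simp

theorem DRV_pb {N : ℕ} (hSMA : Stmt_SMA) (A B : EE N →L[ℝ] EE N) (y : Lam N) :
    HasDerivAt (fun s : ℝ => pb (A + s • B) y) (dpb A B y) 0 := by
  obtain ⟨-, -, h3, -⟩ := hSMA N
  have hd : HasFDerivAt (fun q : (EE N →L[ℝ] EE N) × Lam N => pb q.1 q.2) _ (A, y) :=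
    ((h3.differentiable (by simp)) (A, y)).hasFDerivAt
  have h4 := DRV_dir _ _ (A, y) (B, 0) hd
  have h5 : (fun s : ℝ => (fun q : (EE N →L[ℝ] EE N) × Lam N => pb q.1 q.2)
      ((A, y) + s • (B, (0 : Lam N)))) = fun s : ℝ => pb (A + s • B) y := by
    funext s
    simp
  rw [h5] at h4
  rw [dpb, h4.deriv]
  exact h4

theorem DRV_ctr_add {N : ℕ} (v u : EE N) (x : Lam N) : ctr (v + u) x = ctr v x + ctr u x := by
  unfold ctr
  rw [map_add, map_add]
  rfl

theorem DRV_ctr_smul {N : ℕ} (r : ℝ) (v : EE N) (x : Lam N) : ctr (r • v) x = r • ctr v x := by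
  unfold ctr
  rw [map_smul, map_smul]
  rfl

theorem p_DRV (hSMA : Stmt_SMA) : Stmt_DRV := by
  intro N P _ _ x
  obtain ⟨s1, s2, s3, s4, s5, s6, s7⟩ := hSMA N
  have hmul : ∀ (P : Type) [NormedAddCommGroup P] [NormedSpace ℝ P] (x : P)
      (f g : P → Lam N) (f' g' : P →L[ℝ] Lam N), HasFDerivAt f f' x → HasFDerivAt g g' x →
      ∃ L : P →L[ℝ] Lam N, HasFDerivAt (fun y => f y * g y) L x ∧
        ∀ v, L v = f' v * g x + f x * g' v := by
    intro P _ _ x f g f' g' hf hg
    refine DRV_bil (fun q : Lam N × Lam N => q.1 * q.2) s1 x f g f' g' hf hg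
      (fun u => u * g x) (fun u => f x * u) (fun u => ?_) (fun u => ?_)
    · have h : (fun s : ℝ => (fun q : Lam N × Lam N => q.1 * q.2) (f x + s • u, g x)) =
          fun s : ℝ => f x * g x + s • (u * g x) := by
        funext s
        simp only [add_mul, smul_mul_assoc]
      rw [h]
      exact DRV_aff _ _
    · have h : (fun s : ℝ => (fun q : Lam N × Lam N => q.1 * q.2) (f x, g x + s • u)) =
          fun s : ℝ => f x * g x + s • (f x * u) := by
        funext s
        simp only [mul_add, mul_smul_comm]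
      rw [h]
      exact DRV_aff _ _
  refine ⟨hmul P x, ?_, ?_, ?_, ?_, ?_, ?_⟩
  · intro X f X' f' hX hf
    refine DRV_bil (fun q : EE N × Lam N => ctr q.1 q.2) s2 x X f X' f' hX hf
      (fun u => ctr u (f x)) (fun u => ctr (X x) u) (fun u => ?_) (fun u => ?_)
    · have h : (fun s : ℝ => (fun q : EE N × Lam N => ctr q.1 q.2) (X x + s • u, f x)) =
          fun s : ℝ => ctr (X x) (f x) + s • ctr u (f x) := by
        funext s
        simp only [DRV_ctr_add, DRV_ctr_smul]
      rw [h]
      exact DRV_aff _ _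
    · have h : (fun s : ℝ => (fun q : EE N × Lam N => ctr q.1 q.2) (X x, f x + s • u)) =
          fun s : ℝ => ctr (X x) (f x) + s • ctr (X x) u := by
        funext s
        simp only [map_add, map_smul]
      rw [h]
      exact DRV_aff _ _
  · intro A f A' f' hA hf
    refine DRV_bil (fun q : (EE N →L[ℝ] EE N) × Lam N => pb q.1 q.2) s3 x A f A' f' hA hf
      (fun u => dpb (A x) u (f x)) (fun u => pb (A x) u) (fun u => ?_) (fun u => ?_)
    · exact DRV_pb hSMA (A x) u (f x)
    · have h : (fun s : ℝ => (fun q : (EE N →L[ℝ] EE N) × Lam N => pb q.1 q.2)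
          (A x, f x + s • u)) = fun s : ℝ => pb (A x) (f x) + s • pb (A x) u := by
        funext s
        simp only [map_add, map_smul]
      rw [h]
      exact DRV_aff _ _
  · intro A B a
    have h : (fun s : ℝ => pb (A + s • B) (io a)) =
        fun s : ℝ => io (a ∘ₗ A.toLinearMap) + s • io (a ∘ₗ B.toLinearMap) := by
      funext s
      rw [← map_smul, ← map_add]
      unfold pb
      rw [ExteriorAlgebra.map_apply_ι]
      congr 1
      ext v
      simp [LinearMap.dualMap_apply]
    unfold dpb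
    rw [h, (DRV_aff _ _).deriv]
  · intro A B y z
    obtain ⟨L, hL, hLv⟩ := hmul ℝ 0 (fun s : ℝ => pb (A + s • B) y) (fun s : ℝ => pb (A + s • B) z)
      _ _ (DRV_pb hSMA A B y).hasFDerivAt (DRV_pb hSMA A B z).hasFDerivAt
    have h1 : HasDerivAt (fun s : ℝ => pb (A + s • B) y * pb (A + s • B) z) (L 1) 0 :=
      hL.hasDerivAt
    have h2 : (fun s : ℝ => pb (A + s • B) (y * z)) =
        fun s : ℝ => pb (A + s • B) y * pb (A + s • B) z := by
      funext s
      rw [map_mul]
    have h3 : dpb A B (y * z) = L 1 := by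
      unfold dpb
      rw [h2, h1.deriv]
    have h4 : A + (0 : ℝ) • B = A := by
      ext v
      simp
    rw [h3, hLv, h4]
    simp
  · intro A B y z
    have h1 := (DRV_pb hSMA A B y).add (DRV_pb hSMA A B z)
    have h2 : (fun s : ℝ => pb (A + s • B) (y + z)) =
        (fun s : ℝ => pb (A + s • B) y) + fun s : ℝ => pb (A + s • B) z := by
      funext s
      rw [map_add]
      rfl
    rw [show dpb A B (y + z) = deriv (fun s : ℝ => pb (A + s • B) (y + z)) 0 from rfl, h2, h1.deriv]
  · intro A B r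
    unfold dpb
    have h2 : (fun s : ℝ => pb (A + s • B) (algebraMap ℝ (Lam N) r)) =
        fun _ : ℝ => algebraMap ℝ (Lam N) r := by
      funext s
      rw [AlgHom.commutes]
    rw [h2]
    exact deriv_const _ _

end HDC
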