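import Pool.Agent.Work.MP_c3bd4f_hd.Interface

set_option autoImplicit false

open scoped ContDiff Manifold Topology
open Set MeasureTheory

noncomputable section

namespace HDC

theorem p_EX1 (hSHP : Stmt_SHP) : Stmt_EX1 := by
  classical
  intro n M _ _ _ Ω hΩ p0
  obtain ⟨hS1, hS2⟩ := hSHP (2 * n)
  set c := chartAt (EE (2 * n)) p0 with hc
  have hca : c ∈ atlas (EE (2 * n)) M := chart_mem_atlas _ _
  have hx0 : c p0 ∈ c.target := c.map_source (mem_chart_source _ _)
  obtain ⟨r, hr, hrt⟩ := Metric.isOpen_iff.1 c.open_target _ hx0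
  have hCt : Metric.closedBall (c p0) (r / 2) ⊆ c.target :=
    (Metric.closedBall_subset_ball (by linarith)).trans hrt
  let f : ContDiffBump (c p0) := ⟨r / 4, r / 2, by linarith, by linarith⟩
  have hf0 : ∀ x ∉ Metric.closedBall (c p0) (r / 2), f x = 0 := by
    intro x hx
    refine f.zero_of_le_dist ?_
    rw [Metric.mem_closedBall, not_le] at hx
    exact hx.le
  have hfs : ContDiff ℝ ∞ (f : EE (2 * n) → ℝ) := f.contDiff
  have hnd : ∀ x ∈ c.target, Nd (Ω c x) := fun x hx =>
    ⟨hΩ.form.deg c hca x hx, hΩ.nondeg c hca x hx⟩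
  let Y : EE (2 * n) → EE (2 * n) := fun x =>
    if x ∈ c.target then sh (Ω c x) (fderiv ℝ (f : EE (2 * n) → ℝ) x) else 0
  have hYt : ∀ x ∈ c.target, Y x = sh (Ω c x) (fderiv ℝ (f : EE (2 * n) → ℝ) x) := fun x hx =>
    if_pos hx
  have hYc : ∀ x ∈ c.target,
      ctr (Y x) (Ω c x) = io (fderiv ℝ (f : EE (2 * n) → ℝ) x).toLinearMap := by
    intro x hx
    rw [hYt x hx]
    exact hS1 _ _ (hnd x hx)
  have hY0 : ∀ x ∉ Metric.closedBall (c p0) (r / 2), Y x = 0 := by
    intro x hx
    by_cases hxt : x ∈ c.target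
    · refine hΩ.nondeg c hca x hxt _ ?_
      rw [hYc x hxt]
      have h1 : (f : EE (2 * n) → ℝ) =ᶠ[𝓝 x] fun _ => (0 : ℝ) := by
        filter_upwards [Metric.isClosed_closedBall.isOpen_compl.mem_nhds hx] with y hy
        exact hf0 y hy
      have h2 : fderiv ℝ (f : EE (2 * n) → ℝ) x = 0 := by
        rw [h1.fderiv_eq]
        simp
      rw [h2]
      simp
    · exact if_neg hxt
  have hdf : ContDiff ℝ ∞ (fderiv ℝ (f : EE (2 * n) → ℝ)) :=
    hfs.fderiv_right (m := ∞) le_rfl
  have hYs : ContDiff ℝ ∞ Y := by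
    rw [contDiff_iff_contDiffAt]
    intro x
    by_cases hxt : x ∈ c.target
    · have h1 : ContDiffOn ℝ ∞
          (fun q => sh (Ω c q) (fderiv ℝ (f : EE (2 * n) → ℝ) q)) c.target :=
        hS2 (EE (2 * n)) c.target (Ω c) _ (hΩ.form.smooth c hca) hdf.contDiffOn hnd
      have h2 := h1.contDiffAt (c.open_target.mem_nhds hxt)
      refine h2.congr_of_eventuallyEq ?_
      filter_upwards [c.open_target.mem_nhds hxt] with y hy
      exact hYt y hy
    · have hxC : x ∉ Metric.closedBall (c p0) (r / 2) := fun h => hxt (hCt h)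
      have h2 : ContDiffAt ℝ ∞ (fun _ : EE (2 * n) => (0 : EE (2 * n))) x := contDiffAt_const
      refine h2.congr_of_eventuallyEq ?_
      filter_upwards [Metric.isClosed_closedBall.isOpen_compl.mem_nhds hxC] with y hy
      exact hY0 y hy
  refine ⟨c, hca, Metric.closedBall (c p0) (r / 2), f, Y, isCompact_closedBall _ _, hCt, hfs, hf0,
    fun x => f.nonneg, ⟨c p0, Metric.mem_closedBall_self (by linarith), ?_⟩, hYs, hY0, hYc⟩
  exact f.pos_of_mem_ball (Metric.mem_ball_self (by
    change 0 < r / 2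
    linarith))

end HDC
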