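import Pool.Agent.Work.MP_c3bd4f_hd.Interface

set_option autoImplicit false

/-!
# Infinite Hofer diameter, block EX2: the function `exH c b` (helper89)
-/

open scoped ContDiff Manifold Topology
open Set MeasureTheory

noncomputable section

namespace HDC

theorem p_EX2 : Stmt_EX2 := by
  intro N M _ _ _ _ c hc C b hC hCt hb hb0
  have hcm : c ∈ IsManifold.maximalAtlas 𝓘(ℝ, EE N) ∞ M :=
    IsManifold.subset_maximalAtlas hc
  have hK : IsCompact (c.symm '' C) := hC.image_of_continuousOn (c.continuousOn_symm.mono hCt)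
  have hKs : c.symm '' C ⊆ c.source := by
    rintro _ ⟨x, hx, rfl⟩
    exact c.map_target (hCt hx)
  have h0 : ∀ p ∉ c.symm '' C, exH c b p = 0 := by
    intro p hp
    unfold exH
    split_ifs with hps
    · refine hb0 _ fun h => hp ⟨c p, h, c.left_inv hps⟩
    · rfl
  have hsm : ContMDiff 𝓘(ℝ, EE N) 𝓘(ℝ, ℝ) ∞ (exH c b) := by
    intro p
    by_cases hp : p ∈ c.source
    · have h1 : ContMDiffAt 𝓘(ℝ, EE N) 𝓘(ℝ, EE N) ∞ c p :=
        (contMDiffOn_of_mem_maximalAtlas hcm).contMDiffAt (c.open_source.mem_nhds hp)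
      have h2 : ContMDiffAt 𝓘(ℝ, EE N) 𝓘(ℝ, ℝ) ∞ (fun q => b (c q)) p :=
        hb.contMDiff.contMDiffAt.comp p h1
      refine h2.congr_of_eventuallyEq ?_
      filter_upwards [c.open_source.mem_nhds hp] with q hq
      unfold exH
      rw [if_pos hq]
    · have h1 : p ∉ c.symm '' C := fun h => hp (hKs h)
      have h2 : ContMDiffAt 𝓘(ℝ, EE N) 𝓘(ℝ, ℝ) ∞ (fun _ : M => (0 : ℝ)) p := contMDiffAt_const
      refine h2.congr_of_eventuallyEq ?_
      filter_upwards [hK.isClosed.isOpen_compl.mem_nhds h1] with q hq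
      exact h0 q hq
  refine ⟨hsm.continuous, hK, h0, fun s => ⟨?_, c.symm '' C, hK, fun t _ p hp => ?_⟩⟩
  · have h1 : ContMDiff (𝓘(ℝ, ℝ).prod 𝓘(ℝ, EE N)) 𝓘(ℝ, ℝ) ∞ (fun q : ℝ × M => exH c b q.2) :=
      hsm.comp contMDiff_snd
    exact (contMDiff_const.mul h1).contMDiffOn
  · show s * exH c b p = 0
    rw [h0 p hp, mul_zero]

end HDC
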