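import Pool.Agent.Work.MP_c3bd4f_hd.Interface

set_option autoImplicit false

/-! # Block EX3: the isotopy `exPhi c ψ` (helper97) -/

open scoped ContDiff Manifold Topology
open Set MeasureTheory

noncomputable section

namespace HDC

theorem p_EX3 (hTRN : Stmt_TRN) (hXHS : Stmt_XHS) (hEX2 : Stmt_EX2) : Stmt_EX3 := by
  intro N M _ _ _ _ Ω hΩ hnd c hc C b Y s ψ hC hCt hb hb0 hY hψ hfl hfix hinv
  obtain ⟨-, hK, hH0, hHam⟩ := hEX2 N M c hc C b hC hCt hb hb0
  have hH := hHam s
  obtain ⟨hTVF, hXe, -⟩ := hXHS N M Ω (fun _ p => s * exH c b p) hΩ hnd hH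
  have hcm : c ∈ IsManifold.maximalAtlas 𝓘(ℝ, EE N) ∞ M := IsManifold.subset_maximalAtlas hc
  have hKs : c.symm '' C ⊆ c.source := by
    rintro _ ⟨x, hx, rfl⟩
    exact c.map_target (hCt hx)
  have hmap : ∀ t, ∀ x ∈ c.target, ψ t x ∈ c.target := by
    intro t x hx
    by_cases h : x ∈ C
    · exact hCt (hinv t x h)
    · rw [hfix t x h]; exact hx
  have hPin : ∀ t, ∀ p ∈ c.source, exPhi c ψ t p = c.symm (ψ t (c p)) := by
    intro t p hp
    unfold exPhi
    rw [if_pos hp]
  have hPout : ∀ t, ∀ p ∉ c.symm '' C, exPhi c ψ t p = p := by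
    intro t p hp
    unfold exPhi
    split_ifs with h
    · rw [hfix t (c p) fun h1 => hp ⟨c p, h1, c.left_inv h⟩, c.left_inv h]
    · rfl
  have hPc : ∀ t, ∀ p ∈ c.source, exPhi c ψ t p ∈ c.source := by
    intro t p hp
    rw [hPin t p hp]
    exact c.map_target (hmap t _ (c.map_source hp))
  refine ⟨?_, ?_, ?_⟩
  · -- smoothness
    rintro ⟨t, p⟩ -
    refine ContMDiffAt.contMDiffWithinAt ?_
    by_cases hp : p ∈ c.source
    · have h1 : ContMDiffAt 𝓘(ℝ, EE N) 𝓘(ℝ, EE N) ∞ c p :=
        (contMDiffOn_of_mem_maximalAtlas hcm).contMDiffAt (c.open_source.mem_nhds hp)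
      have h2 : ContMDiffAt (𝓘(ℝ, ℝ).prod 𝓘(ℝ, EE N)) (𝓘(ℝ, ℝ).prod 𝓘(ℝ, EE N)) ∞
          (fun q : ℝ × M => ((q.1, c q.2) : ℝ × EE N)) (t, p) :=
        contMDiffAt_fst.prodMk (h1.comp_of_eq contMDiffAt_snd rfl)
      have h3 : ContMDiff (𝓘(ℝ, ℝ).prod 𝓘(ℝ, EE N)) 𝓘(ℝ, EE N) ∞
          (fun q : ℝ × EE N => ψ q.1 q.2) := by
        rw [← modelWithCornersSelf_prod, chartedSpaceSelf_prod]
        exact hψ.contMDiff
      have h4 : ContMDiffAt (𝓘(ℝ, ℝ).prod 𝓘(ℝ, EE N)) 𝓘(ℝ, EE N) ∞
          (fun q : ℝ × M => ψ q.1 (c q.2)) (t, p) :=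
        (h3 (t, c p)).comp (t, p) h2
      have h5 : ContMDiffAt 𝓘(ℝ, EE N) 𝓘(ℝ, EE N) ∞ c.symm (ψ t (c p)) :=
        (contMDiffOn_symm_of_mem_maximalAtlas hcm).contMDiffAt
          (c.open_target.mem_nhds (hmap t _ (c.map_source hp)))
      have h6 : ContMDiffAt (𝓘(ℝ, ℝ).prod 𝓘(ℝ, EE N)) 𝓘(ℝ, EE N) ∞
          (fun q : ℝ × M => c.symm (ψ q.1 (c q.2))) (t, p) := h5.comp (t, p) h4
      refine h6.congr_of_eventuallyEq ?_
      filter_upwards [(isOpen_univ.prod c.open_source).mem_nhds (⟨mem_univ _, hp⟩ :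
        ((t, p) : ℝ × M) ∈ univ ×ˢ c.source)] with q hq
      exact hPin q.1 q.2 hq.2
    · have h1 : p ∉ c.symm '' C := fun h => hp (hKs h)
      have h2 : ContMDiffAt (𝓘(ℝ, ℝ).prod 𝓘(ℝ, EE N)) 𝓘(ℝ, EE N) ∞
          (fun q : ℝ × M => q.2) (t, p) := contMDiffAt_snd
      refine h2.congr_of_eventuallyEq ?_
      filter_upwards [(isOpen_univ.prod hK.isClosed.isOpen_compl).mem_nhds
        (⟨mem_univ _, h1⟩ : ((t, p) : ℝ × M) ∈ univ ×ˢ (c.symm '' C)ᶜ)] with q hq
      exact hPout q.1 q.2 hq.2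
  · intro p
    by_cases hp : p ∈ c.source
    · rw [hPin 0 p hp, hfl.1, c.left_inv hp]
    · exact hPout 0 p fun h => hp (hKs h)
  · -- the differential equation
    intro t ht p c' hc' hq
    by_cases hp : p ∈ c.source
    · set z : EE N := ψ t (c p) with hz
      have hzt : z ∈ c.target := hmap t _ (c.map_source hp)
      have hqz : exPhi c ψ t p = c.symm z := hPin t p hp
      rw [hqz] at hq ⊢
      -- the vector field in the chart `c`
      have hX : XX Ω (fun _ p => s * exH c b p) t c z = s • Y z := by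
        have h1 := hXe t ht c hc z hzt
        have h2 : (fun y => s * exH c b (c.symm y)) =ᶠ[𝓝 z] fun y => s * b y := by
          filter_upwards [c.open_target.mem_nhds hzt] with y hy
          unfold exH
          rw [if_pos (c.map_target hy), c.right_inv hy]
        have h3 : fderiv ℝ (fun y => s * exH c b (c.symm y)) z = s • fderiv ℝ b z := by
          rw [h2.fderiv_eq]
          exact fderiv_const_mul ((hb.differentiable (by simp)) z) s
        have h1' : ctr (XX Ω (fun _ p => s * exH c b p) t c z) (Ω c z) =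
            io (fderiv ℝ (fun y => s * exH c b (c.symm y)) z).toLinearMap := h1
        rw [h3] at h1'
        have h4 : ctr (s • Y z) (Ω c z) = io (s • fderiv ℝ b z).toLinearMap := by
          have h5 : ctr (s • Y z) (Ω c z) = s • ctr (Y z) (Ω c z) := by
            unfold ctr
            rw [map_smul, map_smul, LinearMap.smul_apply]
          rw [h5, hY z hzt]
          have h6 : (s • fderiv ℝ b z).toLinearMap = s • (fderiv ℝ b z).toLinearMap := rfl
          rw [h6, map_smul]
        have h7 : ctr (XX Ω (fun _ p => s * exH c b p) t c z - s • Y z) (Ω c z) = 0 := by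
          have h8 : ctr (XX Ω (fun _ p => s * exH c b p) t c z - s • Y z) (Ω c z) =
              ctr (XX Ω (fun _ p => s * exH c b p) t c z) (Ω c z) - ctr (s • Y z) (Ω c z) := by
            unfold ctr
            rw [map_sub, map_sub, LinearMap.sub_apply]
          rw [h8, h1', h4, sub_self]
        exact sub_eq_zero.1 (hnd c hc z hzt _ h7)
      obtain ⟨hO, hsm, -⟩ := hTRN N M c hc c' hc'
      have hzO : z ∈ {x | x ∈ c.target ∧ c.symm x ∈ c'.source} := ⟨hzt, hq⟩
      have hdT : DifferentiableAt ℝ (fun y => c' (c.symm y)) z :=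
        ((hsm.contDiffAt (hO.mem_nhds hzO)).differentiableAt (by simp))
      refine ⟨fderiv ℝ (fun y => c' (c.symm y)) z (s • Y z), ?_, ?_⟩
      · have h0 : HasDerivAt (fun σ => ψ σ (c p)) (s • Y z) t := hfl.2 (c p) t
        have h1 : HasDerivAt (fun σ => c' (c.symm (ψ σ (c p))))
            (fderiv ℝ (fun y => c' (c.symm y)) z (s • Y z)) t :=
          HasFDerivAt.comp_hasDerivAt_of_eq (l := fun y => c' (c.symm y))
            (f := fun σ => ψ σ (c p)) t hdT.hasFDerivAt h0 hz
        have h2 : (fun σ => c' (exPhi c ψ σ p)) = fun σ => c' (c.symm (ψ σ (c p))) := by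
          funext σ
          rw [hPin σ p hp]
        rw [h2]
        exact h1.hasDerivWithinAt
      · have h1 := hTVF.compat t ht c hc c' hc' z hzt hq
        rw [hX] at h1
        have h2 : c' (c.symm z) ∈ c'.target := c'.map_source hq
        rw [h1]
        exact hXe t ht c' hc' _ h2
    · have hpK : p ∉ c.symm '' C := fun h => hp (hKs h)
      have hq' : exPhi c ψ t p = p := hPout t p hpK
      rw [hq'] at hq ⊢
      refine ⟨0, ?_, ?_⟩
      · have h2 : (fun σ => c' (exPhi c ψ σ p)) = fun _ => c' p := by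
          funext σ
          rw [hPout σ p hpK]
        rw [h2]
        exact hasDerivWithinAt_const _ _ _
      · have h1 : (fun y => s * exH c b (c'.symm y)) =ᶠ[𝓝 (c' p)] fun _ => (0 : ℝ) := by
          have h3 : c'.target ∩ c'.symm ⁻¹' (c.symm '' C)ᶜ ∈ 𝓝 (c' p) :=
            (c'.isOpen_inter_preimage_symm hK.isClosed.isOpen_compl).mem_nhds
              ⟨c'.map_source hq, by
                show c'.symm (c' p) ∈ (c.symm '' C)ᶜ
                rw [c'.left_inv hq]; exact hpK⟩
          filter_upwards [h3] with y hy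
          rw [hH0 _ hy.2, mul_zero]
        have h2 : fderiv ℝ (fun y => s * exH c b (c'.symm y)) (c' p) = 0 := by
          rw [h1.fderiv_eq]
          simp
        show ctr 0 (Ω c' (c' p)) = io (fderiv ℝ (fun y => s * exH c b (c'.symm y)) (c' p)).toLinearMap
        rw [h2]
        have h4 : ctr (0 : EE N) (Ω c' (c' p)) = 0 := by
          unfold ctr
          rw [map_zero, map_zero, LinearMap.zero_apply]
        rw [h4]
        simp

end HDC
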