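import Pool.Agent.Work.MP_c3bd4f_hd.Interface

set_option autoImplicit false

open scoped ContDiff Manifold Topology
open Set MeasureTheory

noncomputable section

namespace HDC

theorem p_EXH (hVOL : Stmt_VOL) (hFSM : Stmt_FSM) (hGFL : Stmt_GFL) (hFXP : Stmt_FXP)
    (hEX1 : Stmt_EX1) (hEX2 : Stmt_EX2) (hEX3 : Stmt_EX3) : Stmt_EXH := by
  intro n M _ _ _ _ _ _ _ hne Ω vol _ hΩ hvol
  obtain ⟨c, hc, C, b, Y, hC, hCt, hb, hb0, hbn, ⟨x1, hx1, hbx1⟩, hY, hY0, hctr⟩ :=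
    hEX1 n M Ω hΩ (Classical.choice hne)
  obtain ⟨hcont, hK, hK0, hHam⟩ := hEX2 (2 * n) M c hc C b hC hCt hb hb0
  have hx1t : x1 ∈ c.target := hCt hx1
  have hval : exH c b (c.symm x1) = b x1 := by
    have h1 : c.symm x1 ∈ c.source := c.map_target hx1t
    rw [exH, if_pos h1, c.right_inv hx1t]
  have hnn : ∀ p, 0 ≤ exH c b p := by
    intro p
    unfold exH
    split_ifs
    · exact hbn _
    · exact le_rfl
  have hcs : HasCompactSupport (exH c b) := HasCompactSupport.intro hK (fun p hp => hK0 p hp)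
  have hopen : vol.IsOpenPosMeasure := ⟨fun U hU hUn => ((hVOL n M Ω vol hΩ hvol).1 U hU hUn).ne'⟩
  refine ⟨exH c b, ?_, fun s => ⟨hHam s, ?_⟩⟩
  · exact hcont.integral_pos_of_hasCompactSupport_nonneg_nonzero hcs hnn
      (x := c.symm x1) (by rw [hval]; exact hbx1.ne')
  · have hsY : ContDiff ℝ ∞ (fun x => s • Y x) := hY.const_smul s
    have hsc : HasCompactSupport (fun x => s • Y x) :=
      HasCompactSupport.intro hC (fun x hx => by rw [hY0 x hx, smul_zero])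
    have hs0 : ∀ x ∉ C, (fun x => s • Y x) x = 0 := fun x hx => by
      simp only [hY0 x hx, smul_zero]
    obtain ⟨ψ, hψ⟩ := hGFL (EE (2 * n)) (fun x => s • Y x) hsY hsc
    have hψs : ContDiff ℝ ∞ (fun q : ℝ × EE (2 * n) => ψ q.1 q.2) :=
      contDiff_infty.2 (fun k => hFSM k (EE (2 * n)) (fun x => s • Y x) ψ hsY hψ)
    obtain ⟨hf1, hf2⟩ := hFXP (EE (2 * n)) (fun x => s • Y x) ψ C hsY hsc hψ hs0
    exact ⟨exPhi c ψ 1, exPhi c ψ, hEX3 (2 * n) M Ω hΩ.form hΩ.nondeg c hc C b Y s ψ hC hCt hb hb0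
      hctr hψs hψ hf1 hf2, rfl⟩

end HDC
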