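import Pool.Agent.Work.MP_c3bd4f_hd.Interface

set_option autoImplicit false

open scoped ContDiff Manifold Topology
open Set MeasureTheory

noncomputable section

namespace HDC

theorem X_FCO_pos (hLPF : Stmt_LPF) {V : Type} [NormedAddCommGroup V] [NormedSpace ℝ V]
    [FiniteDimensional ℝ V] {F : V → V} {Φ : ℝ → V → V} (hF : ContDiff ℝ 1 F)
    (hΦ : IsFlow F Φ) (x0 : V) {R : ℝ} (hR : 0 < R) :
    ∃ δ C : ℝ, 0 < δ ∧ 0 ≤ C ∧ ∀ x ∈ Metric.ball x0 δ, ∀ t ∈ Icc (0 : ℝ) R,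
      ‖Φ t x - Φ t x0‖ ≤ C * ‖x - x0‖ := by
  have hF' : ContDiff ℝ 1 (fun y => R • F y) := contDiff_const.smul hF
  have hΦ' : IsFlow (fun y => R • F y) (fun s => Φ (R * s)) := by
    refine ⟨fun x => ?_, fun x s => ?_⟩
    · simp only [mul_zero]
      exact hΦ.1 x
    · have h5 : HasDerivAt (fun s : ℝ => R * s) R s := by
        simpa using (hasDerivAt_id s).const_mul R
      exact (hΦ.2 x (R * s)).scomp s h5
  obtain ⟨δ, C, hδ, hC, h⟩ := hLPF V (fun y => R • F y) (fun s => Φ (R * s)) hF' hΦ' x0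
  refine ⟨δ, C, hδ, hC, fun x hx t ht => ?_⟩
  have h1 := h x hx x0 (Metric.mem_ball_self hδ) (t / R)
    ⟨div_nonneg ht.1 hR.le, by rw [div_le_one hR]; exact ht.2⟩
  have h9 : R * (t / R) = t := by field_simp
  simp only [h9] at h1
  exact h1

theorem p_FCO (hLPF : Stmt_LPF) : Stmt_FCO := by
  intro V _ _ _ F Φ hF hΦ
  rw [continuous_iff_continuousAt]
  rintro ⟨t0, x0⟩
  have hR : 0 < |t0| + 1 := by positivity
  obtain ⟨δ1, C1, hδ1, hC1, h1⟩ := X_FCO_pos hLPF hF hΦ x0 hR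
  have hΦ' : IsFlow (fun y => -F y) (fun s => Φ (-s)) := by
    refine ⟨fun x => ?_, fun x s => ?_⟩
    · simp only [neg_zero]
      exact hΦ.1 x
    · have h5 : HasDerivAt (fun s : ℝ => -s) (-1) s := hasDerivAt_neg s
      have h6 := (hΦ.2 x (-s)).scomp s h5
      rw [neg_one_smul] at h6
      exact h6
  obtain ⟨δ2, C2, hδ2, hC2, h2⟩ := X_FCO_pos hLPF hF.neg hΦ' x0 hR
  have hb : ∀ x ∈ Metric.ball x0 (min δ1 δ2), ∀ t : ℝ, |t| ≤ |t0| + 1 →
      ‖Φ t x - Φ t x0‖ ≤ (C1 + C2) * ‖x - x0‖ := by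
    intro x hx t ht
    have hn := norm_nonneg (x - x0)
    rcases le_total 0 t with h | h
    · have h3 := h1 x (Metric.ball_subset_ball (min_le_left _ _) hx) t
        ⟨h, by rwa [abs_of_nonneg h] at ht⟩
      nlinarith [mul_nonneg hC2 hn]
    · have h3 := h2 x (Metric.ball_subset_ball (min_le_right _ _) hx) (-t)
        ⟨by linarith, by rwa [abs_of_nonpos h] at ht⟩
      simp only [neg_neg] at h3
      nlinarith [mul_nonneg hC1 hn]
  have hct : Continuous (fun t => Φ t x0) :=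
    continuous_iff_continuousAt.2 fun t => (hΦ.2 x0 t).continuousAt
  have hlim : Filter.Tendsto (fun q : ℝ × V =>
      (C1 + C2) * ‖q.2 - x0‖ + ‖Φ q.1 x0 - Φ t0 x0‖) (𝓝 (t0, x0)) (𝓝 0) := by
    have hcc : Continuous (fun q : ℝ × V =>
        (C1 + C2) * ‖q.2 - x0‖ + ‖Φ q.1 x0 - Φ t0 x0‖) :=
      (continuous_const.mul (continuous_snd.sub continuous_const).norm).add
        ((hct.comp continuous_fst).sub continuous_const).norm
    have h3 := hcc.tendsto (t0, x0)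
    simpa using h3
  have hev : ∀ᶠ q : ℝ × V in 𝓝 (t0, x0), q.2 ∈ Metric.ball x0 (min δ1 δ2) ∧
      |q.1| ≤ |t0| + 1 := by
    have h3 : ∀ᶠ q : ℝ × V in 𝓝 (t0, x0), q.2 ∈ Metric.ball x0 (min δ1 δ2) :=
      (continuous_snd.tendsto (t0, x0)).eventually
        (Metric.ball_mem_nhds x0 (lt_min hδ1 hδ2))
    have h4 : ∀ᶠ q : ℝ × V in 𝓝 (t0, x0), |q.1| < |t0| + 1 :=
      ((continuous_abs.comp continuous_fst).tendsto (t0, x0)).eventually_lt_const
        (by simp)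
    filter_upwards [h3, h4] with q hq1 hq2
    exact ⟨hq1, hq2.le⟩
  rw [ContinuousAt, tendsto_iff_norm_sub_tendsto_zero]
  refine squeeze_zero' (Filter.Eventually.of_forall fun q => norm_nonneg _) ?_ hlim
  filter_upwards [hev] with q hq
  have h5 := hb q.2 hq.1 q.1 hq.2
  calc ‖Φ q.1 q.2 - Φ t0 x0‖ = ‖(Φ q.1 q.2 - Φ q.1 x0) + (Φ q.1 x0 - Φ t0 x0)‖ := by
        congr 1; abel
    _ ≤ ‖Φ q.1 q.2 - Φ q.1 x0‖ + ‖Φ q.1 x0 - Φ t0 x0‖ := norm_add_le _ _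
    _ ≤ (C1 + C2) * ‖q.2 - x0‖ + ‖Φ q.1 x0 - Φ t0 x0‖ := by linarith

end HDC
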