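import Pool.Agent.Work.MP_c3bd4f_hd.Interface

/-! # Block FIN: the theorem (helper71) -/

set_option autoImplicit false

open scoped ContDiff Manifold Topology
open Set MeasureTheory

noncomputable section

namespace HDC

theorem p_FIN (hCAL : Stmt_CAL) (hNCP : Stmt_NCP) (hHOF : Stmt_HOF) (hEXH : Stmt_EXH) :
    Stmt_FIN := by
  intro n j M _ _ _ _ _ _ _ _ Ω μ vol hj hjn hΩ hvol hfin hμ hdμ
  obtain ⟨i, rfl⟩ : ∃ i, j = i + 1 := ⟨j - 1, by omega⟩
  obtain ⟨m, rfl⟩ : ∃ m, n = 2 * i + 1 + m := ⟨n - (2 * i + 1), by omega⟩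
  haveI : IsFiniteMeasure vol := ⟨hfin⟩
  have hμ' : IsForm (2 * i + 1) μ := by
    have h0 : 2 * (i + 1) - 1 = 2 * i + 1 := by omega
    rwa [h0] at hμ
  have h1 : ∀ (H H' : ℝ → M → ℝ) (φ : M → M), IsHam (2 * (2 * i + 1 + m)) H →
      IsHam (2 * (2 * i + 1 + m)) H' → Generates Ω H φ → Generates Ω H' φ →
      Cal vol H = Cal vol H' := by
    intro H H' φ hH hH' hG hG'
    rw [hCAL i m M Ω μ vol H φ hΩ hvol hμ' hdμ hH hG,
      hCAL i m M Ω μ vol H' φ hΩ hvol hμ' hdμ hH' hG']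
  have hbd : ∀ H : ℝ → M → ℝ, IsHam (2 * (2 * i + 1 + m)) H →
      |Cal vol H| ≤ (vol univ).toReal * len H := by
    intro H hH
    obtain ⟨K, hK, hK0⟩ := hH.supp
    obtain ⟨p, hp⟩ := hNCP i m M Ω μ vol hΩ hvol hμ' hdμ K hK
    exact hHOF _ M vol H hH ⟨p, fun t ht => hK0 t ht p hp⟩
  have h2 : ∀ (H : ℝ → M → ℝ) (φ : M → M), IsHam (2 * (2 * i + 1 + m)) H → Generates Ω H φ →
      |Cal vol H| ≤ (vol univ).toReal * hofer Ω φ := by
    intro H φ hH hG
    rcases (ENNReal.toReal_nonneg (a := vol univ)).lt_or_eq with hV | hV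
    · have h3 : |Cal vol H| / (vol univ).toReal ≤ hofer Ω φ := by
        unfold hofer
        refine le_csInf ⟨len H, H, hH, hG, rfl⟩ ?_
        rintro l ⟨H', hH', hG', rfl⟩
        rw [div_le_iff₀ hV, h1 H H' φ hH hH' hG hG', mul_comm]
        exact hbd H' hH'
      rw [div_le_iff₀ hV, mul_comm] at h3
      exact h3
    · have h3 := hbd H hH
      rw [← hV, zero_mul] at h3
      rw [← hV, zero_mul]
      exact h3
  refine ⟨h1, h2, ?_⟩
  intro C
  obtain ⟨H0, hpos, hgen⟩ := hEXH (2 * i + 1 + m) M Ω vol hΩ hvol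
  have hV : 0 < (vol univ).toReal := by
    rcases (ENNReal.toReal_nonneg (a := vol univ)).lt_or_eq with h | h
    · exact h
    · exfalso
      have h3 : vol univ = 0 := by
        rcases (ENNReal.toReal_eq_zero_iff _).1 h.symm with h' | h'
        · exact h'
        · exact absurd h' (measure_ne_top vol univ)
      have h4 : vol = 0 := Measure.measure_univ_eq_zero.1 h3
      rw [h4] at hpos
      simp at hpos
  obtain ⟨hH, φ, hφ⟩ := hgen (C * (vol univ).toReal / ∫ p, H0 p ∂vol)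
  refine ⟨φ, ⟨_, hH, hφ⟩, ?_⟩
  have h3 := h2 _ φ hH hφ
  have h4 : Cal vol (fun (_ : ℝ) p => (C * (vol univ).toReal / ∫ p, H0 p ∂vol) * H0 p) =
      C * (vol univ).toReal := by
    unfold Cal
    rw [intervalIntegral.integral_const, integral_const_mul, sub_zero, one_smul]
    field_simp
  rw [h4] at h3
  have h5 : C * (vol univ).toReal ≤ (vol univ).toReal * hofer Ω φ := (le_abs_self _).trans h3
  rw [mul_comm] at h5
  exact le_of_mul_le_mul_left h5 hV

end HDC
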