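import Pool.Agent.Work.MP_c3bd4f_hd.Interface

set_option autoImplicit false

/-!
# Block FO1 (helper16): the exterior derivative of a form is a form
-/

open scoped ContDiff Manifold Topology
open Set MeasureTheory

noncomputable section

namespace HDC

theorem FO1_smooth (hPDL : Stmt_PDL) (hSMA : Stmt_SMA) {N : ℕ} {M : Type} [TopologicalSpace M]
    [ChartedSpace (EE N) M] {k : ℕ} {F : ℝ → Fam N M} (hF : TForm k F)
    (c : OpenPartialHomeomorph M (EE N)) (hc : c ∈ atlas (EE N) M) :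
    ContDiffOn ℝ ∞ (fun q : ℝ × EE N => dF (F q.1) c q.2) (Icc 0 1 ×ˢ c.target) := by
  have hU : (Icc (0 : ℝ) 1 ×ˢ (univ : Set (EE N))) ∩ (univ ×ˢ c.target) =
      Icc (0 : ℝ) 1 ×ˢ c.target := by
    rw [prod_inter_prod, inter_univ, univ_inter]
  have h1 := (hPDL (EE N) (Lam N) (fun q : ℝ × EE N => F q.1 c q.2) (univ ×ˢ c.target)
    (isOpen_univ.prod c.open_target) (by rw [hU]; exact hF.smooth c hc)).2
  rw [hU] at h1
  have h2 : ∀ i : Fin N, ContDiffOn ℝ ∞ (fun q : ℝ × EE N =>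
      dx i * fderiv ℝ (fun y => F q.1 c y) q.2 (ee i)) (Icc 0 1 ×ˢ c.target) := by
    intro i
    exact (hSMA N).1.comp_contDiffOn (contDiffOn_const.prodMk (h1.clm_apply contDiffOn_const))
  have h3 : ContDiffOn ℝ ∞ (fun q : ℝ × EE N => ∑ i : Fin N,
      dx i * fderiv ℝ (fun y => F q.1 c y) q.2 (ee i)) (Icc 0 1 ×ˢ c.target) :=
    ContDiffOn.sum fun i _ => h2 i
  exact h3

theorem p_FO1 (hNAT : Stmt_NAT) (hPDL : Stmt_PDL) (hTRN : Stmt_TRN) (hSMA : Stmt_SMA)
    (hDGD : Stmt_DGD) : Stmt_FO1 := by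
  intro N M _ _ _ k F hF
  refine ⟨fun c hc => FO1_smooth hPDL hSMA hF c hc, fun t ht => ⟨fun c hc => ?_, ?_, ?_⟩⟩
  · exact (FO1_smooth hPDL hSMA hF c hc).comp (contDiff_prodMk_right t).contDiffOn
      fun x hx => ⟨ht, hx⟩
  · intro c hc c' hc' x hx hx'
    obtain ⟨hV, hψ, -⟩ := hTRN N M c hc c' hc'
    have hxV : {x | x ∈ c.target ∧ c.symm x ∈ c'.source} ∈ 𝓝 x := hV.mem_nhds ⟨hx, hx'⟩
    have hev : F t c =ᶠ[𝓝 x] fun y => pb (fderiv ℝ (fun z => c' (c.symm z)) y)
        (F t c' (c' (c.symm y))) := by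
      filter_upwards [hxV] with y hy
      exact (hF.form t ht).compat c hc c' hc' y hy.1 hy.2
    have hd : DifferentiableAt ℝ (F t c') (c' (c.symm x)) :=
      (((hF.form t ht).smooth c' hc').contDiffAt
        (c'.open_target.mem_nhds (c'.map_source hx'))).differentiableAt (by simp)
    have h2 : ContDiffAt ℝ 2 (fun z => c' (c.symm z)) x :=
      (hψ.contDiffAt hxV).of_le (by norm_cast)
    have h3 := hNAT N (fun z => c' (c.symm z)) (F t c') x h2 hd
    change D (F t c) x = pb _ (D (F t c') _)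
    rw [← h3]
    unfold D
    rw [hev.fderiv_eq]
  · intro c hc x hx
    refine hDGD N k (F t c) x ?_
    filter_upwards [c.open_target.mem_nhds hx] with y hy
    exact (hF.form t ht).deg c hc y hy

end HDC
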