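import Pool.Agent.Work.MP_c3bd4f_hd.Interface

set_option autoImplicit false

/-!
# Block FO2 (MP_c3bd4f_gt): algebraic operations on forms (helper88)
-/

open scoped ContDiff Manifold Topology
open Set MeasureTheory

noncomputable section

namespace HDC

theorem FO2_mem {N : ℕ} {k l : ℕ} {x y : Lam N} (hx : x ∈ ⋀[ℝ]^k (VV N))
    (hy : y ∈ ⋀[ℝ]^l (VV N)) : x * y ∈ ⋀[ℝ]^(k + l) (VV N) := by
  have h : (⋀[ℝ]^(k + l) (VV N) : Submodule ℝ (Lam N)) =
      (⋀[ℝ]^k (VV N) : Submodule ℝ (Lam N)) * (⋀[ℝ]^l (VV N) : Submodule ℝ (Lam N)) :=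
    pow_add _ _ _
  rw [h]
  exact Submodule.mul_mem_mul hx hy

section

variable {N : ℕ} {M : Type} [TopologicalSpace M] [ChartedSpace (EE N) M]

theorem FO2_mul (hS : Stmt_SMA) {k l : ℕ} {f g : Fam N M} (hf : IsForm k f) (hg : IsForm l g) :
    IsForm (k + l) (f * g) := by
  refine ⟨fun c hc => ?_, fun c hc c' hc' x hx hx' => ?_, fun c hc x hx => ?_⟩
  · exact (hS N).1.comp_contDiffOn ((hf.smooth c hc).prodMk (hg.smooth c hc))
  · show f c x * g c x = pb _ (f c' _ * g c' _)
    rw [map_mul, ← hf.compat c hc c' hc' x hx hx', ← hg.compat c hc c' hc' x hx hx']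
  · exact FO2_mem (hf.deg c hc x hx) (hg.deg c hc x hx)

theorem FO2_add {k : ℕ} {f g : Fam N M} (hf : IsForm k f) (hg : IsForm k g) :
    IsForm k (f + g) := by
  refine ⟨fun c hc => ?_, fun c hc c' hc' x hx hx' => ?_, fun c hc x hx => ?_⟩
  · exact (hf.smooth c hc).add (hg.smooth c hc)
  · show f c x + g c x = pb _ (f c' _ + g c' _)
    rw [map_add, ← hf.compat c hc c' hc' x hx hx', ← hg.compat c hc c' hc' x hx hx']
  · exact Submodule.add_mem _ (hf.deg c hc x hx) (hg.deg c hc x hx)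

theorem FO2_sub {k : ℕ} {f g : Fam N M} (hf : IsForm k f) (hg : IsForm k g) :
    IsForm k (f - g) := by
  refine ⟨fun c hc => ?_, fun c hc c' hc' x hx hx' => ?_, fun c hc x hx => ?_⟩
  · exact (hf.smooth c hc).sub (hg.smooth c hc)
  · show f c x - g c x = pb _ (f c' _ - g c' _)
    rw [map_sub, ← hf.compat c hc c' hc' x hx hx', ← hg.compat c hc c' hc' x hx hx']
  · exact Submodule.sub_mem _ (hf.deg c hc x hx) (hg.deg c hc x hx)

theorem FO2_smul {k : ℕ} {f : Fam N M} (r : ℝ) (hf : IsForm k f) : IsForm k (r • f) := by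
  refine ⟨fun c hc => ?_, fun c hc c' hc' x hx hx' => ?_, fun c hc x hx => ?_⟩
  · exact (hf.smooth c hc).const_smul r
  · show r • f c x = pb _ (r • f c' _)
    rw [map_smul, ← hf.compat c hc c' hc' x hx hx']
  · exact Submodule.smul_mem _ _ (hf.deg c hc x hx)

theorem FO2_congr {k : ℕ} {f g : Fam N M} (h : EqF f g) (hf : IsForm k f) : IsForm k g := by
  refine ⟨fun c hc => ?_, fun c hc c' hc' x hx hx' => ?_, fun c hc x hx => ?_⟩
  · exact (hf.smooth c hc).congr fun x hx => (h c hc x hx).symm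
  · rw [← h c hc x hx, ← h c' hc' _ (c'.map_source hx')]
    exact hf.compat c hc c' hc' x hx hx'
  · rw [← h c hc x hx]
    exact hf.deg c hc x hx

end

theorem p_FO2 (hS : Stmt_SMA) (hD : Stmt_DEG) : Stmt_FO2 := by
  intro N M _ _ _
  refine ⟨?_, ?_, ?_, ?_, ?_, ?_, ?_, ?_⟩
  · intro k l F G hF hG
    refine ⟨fun c hc => ?_, fun t ht => FO2_mul hS (hF.form t ht) (hG.form t ht)⟩
    exact (hS N).1.comp_contDiffOn ((hF.smooth c hc).prodMk (hG.smooth c hc))
  · intro k F G hF hG
    refine ⟨⟨fun c hc => ?_, fun t ht => FO2_add (hF.form t ht) (hG.form t ht)⟩,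
      ⟨fun c hc => ?_, fun t ht => FO2_sub (hF.form t ht) (hG.form t ht)⟩⟩
    · exact (hF.smooth c hc).add (hG.smooth c hc)
    · exact (hF.smooth c hc).sub (hG.smooth c hc)
  · intro k F r hF
    refine ⟨fun c hc => ?_, fun t ht => FO2_smul r (hF.form t ht)⟩
    exact (hF.smooth c hc).const_smul r
  · intro k f hf
    refine ⟨fun c hc => ?_, fun t _ => hf⟩
    exact (hf.smooth c hc).comp contDiffOn_snd fun q hq => hq.2
  · intro k F hF t ht
    exact hF.form t ht
  · intro j f hf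
    induction j with
    | zero =>
      rw [pow_zero]
      refine ⟨fun c hc => contDiffOn_const, fun c hc c' hc' x hx hx' => ?_, fun c hc x hx => ?_⟩
      · show (1 : Lam N) = pb _ (1 : Lam N)
        rw [map_one]
      · have h := (hD N).2.2.2.2.2.2.2 1
        rw [map_one] at h
        exact h
    | succ j ih =>
      rw [pow_succ]
      exact FO2_mul hS ih hf
  · intro k f ρ hρ hf
    refine ⟨fun c hc => ?_, fun c hc c' hc' x hx hx' => ?_, fun c hc x hx => ?_⟩
    · exact (hρ c hc).smul (hf.smooth c hc)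
    · show ρ (c.symm x) • f c x = pb _ (ρ (c'.symm (c' (c.symm x))) • f c' _)
      rw [map_smul, ← hf.compat c hc c' hc' x hx hx', c'.left_inv hx']
    · exact Submodule.smul_mem _ _ (hf.deg c hc x hx)
  · intro k F G h hF
    refine ⟨fun c hc => ?_, fun t ht => FO2_congr (h t ht) (hF.form t ht)⟩
    exact (hF.smooth c hc).congr fun q hq => (h q.1 hq.1 c hc q.2 hq.2).symm

end HDC
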