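import Pool.Agent.Work.MP_c3bd4f_hd.Interface

set_option autoImplicit false

open scoped ContDiff Manifold Topology
open Set MeasureTheory

noncomputable section

namespace HDC

theorem p_FO3 (hS : Stmt_SMA) (hD : Stmt_DEG) (hP : Stmt_PBA) : Stmt_FO3 := by
  intro N M _ _ _ k X F hX hF
  obtain ⟨-, hS2, -⟩ := hS N
  obtain ⟨-, hD2, -⟩ := hD N
  obtain ⟨-, -, -, hP4, -⟩ := hP N
  have hsm : ∀ c ∈ atlas (EE N) M, ContDiffOn ℝ ∞
      (fun q : ℝ × EE N => cF (X q.1) (F q.1) c q.2) (Icc 0 1 ×ˢ c.target) := by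
    intro c hc
    have h1 : ContDiffOn ℝ ∞ (fun q : ℝ × EE N => (X q.1 c q.2, F q.1 c q.2))
        (Icc 0 1 ×ˢ c.target) := (hX.smooth c hc).prodMk (hF.smooth c hc)
    have h2 := hS2.comp_contDiffOn h1
    exact h2
  refine ⟨hsm, ?_⟩
  intro t ht
  refine ⟨?_, ?_, ?_⟩
  · intro c hc
    have h1 : ContDiffOn ℝ ∞ (fun x : EE N => (t, x)) c.target :=
      contDiffOn_const.prodMk contDiffOn_id
    have h2 : MapsTo (fun x : EE N => (t, x)) c.target (Icc (0 : ℝ) 1 ×ˢ c.target) :=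
      fun x hx => ⟨ht, hx⟩
    have h3 := (hsm c hc).comp h1 h2
    exact h3
  · intro c hc c' hc' x hx hx'
    change ctr (X t c x) (F t c x) = pb _ (ctr (X t c' (c' (c.symm x))) (F t c' (c' (c.symm x))))
    rw [(hF.form t ht).compat c hc c' hc' x hx hx', ← hP4, hX.compat t ht c hc c' hc' x hx hx']
  · intro c hc x hx
    exact hD2 k _ _ ((hF.form t ht).deg c hc x hx)

end HDC
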