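import Pool.Agent.Work.MP_c3bd4f_hd.Interface

set_option autoImplicit false

open scoped ContDiff Manifold Topology
open Set MeasureTheory

noncomputable section

namespace HDC

theorem X_FSD_uniq {W : Type} [NormedAddCommGroup W] [NormedSpace ℝ W]
    {A : ℝ → W →L[ℝ] W} (hA : Continuous A) {R : ℝ} (hR : 0 < R) {y z : ℝ → W}
    (h0 : y 0 = z 0) (hy : ∀ t ∈ Ioo (-R) R, HasDerivAt y (A t (y t)) t)
    (hz : ∀ t ∈ Ioo (-R) R, HasDerivAt z (A t (z t)) t) :
    ∀ t ∈ Ioo (-R) R, y t = z t := by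
  obtain ⟨C, hC⟩ := (isCompact_Icc (a := -R) (b := R)).exists_bound_of_continuousOn
    hA.continuousOn
  have h := ODE_solution_unique_of_mem_Ioo (v := fun t y => A t y) (s := fun _ => univ)
    (K := Real.toNNReal C) (f := y) (g := z) (a := -R) (b := R) (t₀ := 0)
    (fun t ht => by
      have h1 : LipschitzWith (Real.toNNReal C) (A t) :=
        (A t).lipschitz.weaken (by
          rw [← NNReal.coe_le_coe]
          exact (hC t ⟨ht.1.le, ht.2.le⟩).trans (Real.le_coe_toNNReal C))
      exact h1.lipschitzOnWith)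
    ⟨by linarith, hR⟩ (fun t ht => ⟨hy t ht, mem_univ _⟩) (fun t ht => ⟨hz t ht, mem_univ _⟩) h0
  exact fun t ht => h ht

theorem X_FSD_cont {V : Type} [NormedAddCommGroup V] [NormedSpace ℝ V] {F : V → V}
    {Φ : ℝ → V → V} (hΦ : IsFlow F Φ) (x : V) : Continuous (fun t => Φ t x) :=
  continuous_iff_continuousAt.2 fun t => (hΦ.2 x t).continuousAt

theorem X_FSD_scale {V : Type} [NormedAddCommGroup V] [NormedSpace ℝ V] {F : V → V}
    {Φ : ℝ → V → V} (hΦ : IsFlow F Φ) (R : ℝ) :
    IsFlow (fun y => R • F y) (fun s => Φ (R * s)) := by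
  refine ⟨fun x => ?_, fun x s => ?_⟩
  · simp only [mul_zero]
    exact hΦ.1 x
  · have h5 : HasDerivAt (fun s : ℝ => R * s) R s := by
      simpa using (hasDerivAt_id s).const_mul R
    exact (hΦ.2 x (R * s)).scomp s h5

theorem X_FSD_pos (hFLW : Stmt_FLW) {V : Type} [NormedAddCommGroup V] [NormedSpace ℝ V]
    [FiniteDimensional ℝ V] {F : V → V} {Φ : ℝ → V → V} (hF : ContDiff ℝ 1 F)
    (hΦ : IsFlow F Φ) (x : V) {J : ℝ → V →L[ℝ] V} (hJ0 : J 0 = ContinuousLinearMap.id ℝ V)
    (hJ : ∀ t, HasDerivAt J ((fderiv ℝ F (Φ t x)).comp (J t)) t) (t : ℝ) (ht : 0 ≤ t) :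
    HasStrictFDerivAt (Φ t) (J t) x := by
  set R : ℝ := t + 1 with hRd
  have hR : 0 < R := by linarith
  have hF' : ContDiff ℝ 1 (fun y => R • F y) := contDiff_const.smul hF
  have hfd : ∀ y, fderiv ℝ (fun y => R • F y) y = R • fderiv ℝ F y := fun y =>
    fderiv_fun_const_smul ((hF.differentiable (by norm_num)) y) R
  obtain ⟨D, hD0, hD1, hD2⟩ := hFLW V (fun y => R • F y) (fun s => Φ (R * s)) hF'
    (X_FSD_scale hΦ R) x
  have hA : Continuous (fun s : ℝ =>
      ContinuousLinearMap.compL ℝ V V V (R • fderiv ℝ F (Φ (R * s) x))) := by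
    have h1 : Continuous (fun s : ℝ => fderiv ℝ F (Φ (R * s) x)) :=
      (hF.continuous_fderiv (by norm_num)).comp
        ((X_FSD_cont hΦ x).comp (continuous_const.mul continuous_id))
    have h2 : Continuous (fun s : ℝ => R • fderiv ℝ F (Φ (R * s) x)) := h1.const_smul R
    exact (ContinuousLinearMap.compL ℝ V V V).continuous.comp h2
  have hJs : ∀ s : ℝ, HasDerivAt (fun s => J (R * s))
      (ContinuousLinearMap.compL ℝ V V V (R • fderiv ℝ F (Φ (R * s) x)) (J (R * s))) s := by
    intro s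
    have h5 : HasDerivAt (fun s : ℝ => R * s) R s := by
      simpa using (hasDerivAt_id s).const_mul R
    have h6 := (hJ (R * s)).scomp s h5
    have h7 : ContinuousLinearMap.compL ℝ V V V (R • fderiv ℝ F (Φ (R * s) x)) (J (R * s)) =
        R • (fderiv ℝ F (Φ (R * s) x)).comp (J (R * s)) := by
      rw [ContinuousLinearMap.compL_apply, ContinuousLinearMap.smul_comp]
    rw [h7]
    exact h6
  have hDs : ∀ s ∈ Ioo (-1 : ℝ) 1, HasDerivAt D
      (ContinuousLinearMap.compL ℝ V V V (R • fderiv ℝ F (Φ (R * s) x)) (D s)) s := by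
    intro s hs
    have h6 := hD1 s ⟨hs.1, by linarith [hs.2]⟩
    rw [hfd] at h6
    rw [ContinuousLinearMap.compL_apply]
    exact h6
  have hag := X_FSD_uniq hA one_pos (y := D) (z := fun s => J (R * s))
    (by simp only [mul_zero]; rw [hD0, hJ0]) hDs (fun s _ => hJs s)
  have hs0 : 0 ≤ t / R := div_nonneg ht hR.le
  have hs1 : t / R < 1 := by rw [div_lt_one hR]; linarith
  have h8 := hD2 (t / R) ⟨hs0, hs1.le⟩
  have h9 : R * (t / R) = t := by field_simp
  rw [hag (t / R) ⟨by linarith, hs1⟩] at h8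
  simp only [h9] at h8
  exact h8

theorem p_FSD (hFLW : Stmt_FLW) (hLIG : Stmt_LIG) : Stmt_FSD := by
  intro V _ _ _ F Φ hF hΦ
  have hfd : Continuous (fderiv ℝ F) := hF.continuous_fderiv (by norm_num)
  have hex : ∀ x : V, ∃ y : ℝ → (V →L[ℝ] V), y 0 = ContinuousLinearMap.id ℝ V ∧
      ∀ t, HasDerivAt y (ContinuousLinearMap.compL ℝ V V V (fderiv ℝ F (Φ t x)) (y t)) t := by
    intro x
    refine hLIG (V →L[ℝ] V) (fun t => ContinuousLinearMap.compL ℝ V V V (fderiv ℝ F (Φ t x)))
      ?_ _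
    exact (ContinuousLinearMap.compL ℝ V V V).continuous.comp
      (hfd.comp (X_FSD_cont hΦ x))
  choose y hy0 hy using hex
  have hder : ∀ x t, HasDerivAt (y x) ((fderiv ℝ F (Φ t x)).comp (y x t)) t := by
    intro x t
    have h := hy x t
    rwa [ContinuousLinearMap.compL_apply] at h
  refine ⟨fun t x => y x t, hy0, hder, fun t x => ?_⟩
  rcases le_total 0 t with ht | ht
  · exact X_FSD_pos hFLW hF hΦ x (hy0 x) (hder x) t ht
  · have hF' : ContDiff ℝ 1 (fun y => -F y) := hF.neg
    have hΦ' : IsFlow (fun y => -F y) (fun s => Φ (-s)) := by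
      refine ⟨fun x => ?_, fun x s => ?_⟩
      · simp only [neg_zero]
        exact hΦ.1 x
      · have h5 : HasDerivAt (fun s : ℝ => -s) (-1) s := hasDerivAt_neg s
        have h6 := (hΦ.2 x (-s)).scomp s h5
        rw [neg_one_smul] at h6
        exact h6
    have h1 := X_FSD_pos hFLW hF' hΦ' x (J := fun s => y x (-s)) (by
      simp only [neg_zero]; exact hy0 x) (fun s => by
        have h5 : HasDerivAt (fun s : ℝ => -s) (-1) s := hasDerivAt_neg s
        have h6 := (hder x (-s)).scomp s h5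
        rw [neg_one_smul] at h6
        have h7 : fderiv ℝ (fun y => -F y) (Φ (-s) x) = -fderiv ℝ F (Φ (-s) x) :=
          fderiv_fun_neg
        rw [h7, ContinuousLinearMap.neg_comp]
        exact h6) (-t) (by linarith)
    simp only [neg_neg] at h1
    exact h1

end HDC
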