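import Pool.Agent.Work.MP_c3bd4f_hd.Interface

set_option autoImplicit false

open scoped ContDiff Manifold Topology
open Set MeasureTheory

noncomputable section

namespace HDC

theorem p_FSM (hFSD : Stmt_FSD) (hFCO : Stmt_FCO) : Stmt_FSM := by
  intro k
  induction k with
  | zero =>
    intro V _ _ _ F Φ hF hΦ
    rw [Nat.cast_zero, contDiff_zero]
    exact hFCO V F Φ (hF.of_le (by norm_cast)) hΦ
  | succ k ih =>
    intro V _ _ _ F Φ hF hΦ
    have hF1 : ContDiff ℝ 1 F := hF.of_le (by norm_cast)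
    obtain ⟨J, hJ0, hJ, hJs⟩ := hFSD V F Φ hF1 hΦ
    have hc : Continuous (fun q : ℝ × V => Φ q.1 q.2) := hFCO V F Φ hF1 hΦ
    have hfdS : ContDiff ℝ ∞ (fderiv ℝ F) := hF.fderiv_right (by norm_cast)
    have hF2 : ContDiff ℝ ∞ (fun q : V × (V →L[ℝ] V) => (F q.1, (fderiv ℝ F q.1).comp q.2)) :=
      (hF.comp contDiff_fst).prodMk ((hfdS.comp contDiff_fst).clm_comp contDiff_snd)
    have hΦ2 : IsFlow (fun q : V × (V →L[ℝ] V) => (F q.1, (fderiv ℝ F q.1).comp q.2))
        (fun t q => (Φ t q.1, (J t q.1).comp q.2)) := by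
      refine ⟨fun q => ?_, fun q t => ?_⟩
      · simp only [hΦ.1, hJ0, ContinuousLinearMap.id_comp]
      · have h1 := (hJ q.1 t).clm_comp (hasDerivAt_const t q.2)
        rw [ContinuousLinearMap.comp_zero, add_zero, ContinuousLinearMap.comp_assoc] at h1
        exact (hΦ.2 q.1 t).prodMk h1
    have hk2 := ih (V × (V →L[ℝ] V)) _ _ hF2 hΦ2
    have hkΦ : ContDiff ℝ k (fun q : ℝ × V => Φ q.1 q.2) := ih V F Φ hF hΦ
    have hkJ : ContDiff ℝ k (fun q : ℝ × V => J q.1 q.2) := by
      have h1 : ContDiff ℝ k (fun q : ℝ × V =>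
          ((q.1, (q.2, ContinuousLinearMap.id ℝ V)) : ℝ × (V × (V →L[ℝ] V)))) :=
        contDiff_fst.prodMk (contDiff_snd.prodMk contDiff_const)
      have h2 := (contDiff_snd.comp hk2).comp h1
      have h3 : (fun q : ℝ × V => J q.1 q.2) = ((Prod.snd ∘
          (fun q : ℝ × (V × (V →L[ℝ] V)) => (Φ q.1 q.2.1, (J q.1 q.2.1).comp q.2.2))) ∘
          (fun q : ℝ × V =>
          ((q.1, (q.2, ContinuousLinearMap.id ℝ V)) : ℝ × (V × (V →L[ℝ] V))))) := by
        funext q
        simp only [Function.comp_apply, ContinuousLinearMap.comp_id]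
      rw [h3]
      exact h2
    have hcJ : Continuous (fun q : ℝ × V => J q.1 q.2) := hkJ.continuous
    have hder : ∀ q : ℝ × V, HasFDerivAt (fun q : ℝ × V => Φ q.1 q.2)
        ((ContinuousLinearMap.toSpanSingleton ℝ (F (Φ q.1 q.2))).coprod (J q.1 q.2)) q := by
      intro q
      have h := hasStrictFDerivAt_uncurry_coprod (𝕜 := ℝ) (u := q) (f := Φ)
        (f₁ := fun t x => ContinuousLinearMap.toSpanSingleton ℝ (F (Φ t x))) (f₂ := J)
        (Filter.Eventually.of_forall fun v => (hΦ.2 v.2 v.1).hasFDerivAt)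
        (Filter.Eventually.of_forall fun v => (hJs v.1 v.2).hasFDerivAt)
        (((ContinuousLinearMap.toSpanSingletonCLE (𝕜 := ℝ) (E := V)).continuous.comp
          (hF1.continuous.comp hc)).continuousAt)
        hcJ.continuousAt
      exact h.hasFDerivAt
    have hkD : ContDiff ℝ k (fun q : ℝ × V =>
        (ContinuousLinearMap.toSpanSingleton ℝ (F (Φ q.1 q.2))).coprod (J q.1 q.2)) := by
      have h1 : ContDiff ℝ k (fun q : ℝ × V =>
          ContinuousLinearMap.toSpanSingleton ℝ (F (Φ q.1 q.2))) :=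
        (ContinuousLinearMap.toSpanSingletonCLE (𝕜 := ℝ) (E := V)).contDiff.comp
          ((hF.of_le (by norm_cast; exact le_top)).comp hkΦ)
      have h2 : (fun q : ℝ × V =>
          (ContinuousLinearMap.toSpanSingleton ℝ (F (Φ q.1 q.2))).coprod (J q.1 q.2)) =
          fun q : ℝ × V => (ContinuousLinearMap.toSpanSingleton ℝ (F (Φ q.1 q.2))).comp
            (ContinuousLinearMap.fst ℝ ℝ V) + (J q.1 q.2).comp
            (ContinuousLinearMap.snd ℝ ℝ V) := by
        funext q
        ext v <;> simp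
      rw [h2]
      exact (h1.clm_comp contDiff_const).add (hkJ.clm_comp contDiff_const)
    have := (contDiff_succ_iff_hasFDerivAt (𝕜 := ℝ) (n := k)
      (f := fun q : ℝ × V => Φ q.1 q.2)).2 ⟨_, hkD, hder⟩
    exact_mod_cast this

end HDC
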