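import Pool.Agent.Work.MP_c3bd4f_hd.Interface

set_option autoImplicit false

open scoped ContDiff Manifold Topology
open Set MeasureTheory

noncomputable section

namespace HDC

theorem FXP_unique {V : Type} [NormedAddCommGroup V] [NormedSpace ℝ V] [FiniteDimensional ℝ V]
    (F : V → V) (hF : ContDiff ℝ ∞ F) (hc : HasCompactSupport F) (f g : ℝ → V)
    (hf : ∀ t, HasDerivAt f (F (f t)) t) (hg : ∀ t, HasDerivAt g (F (g t)) t) (t₀ : ℝ)
    (h : f t₀ = g t₀) : f = g := by
  obtain ⟨K, hK⟩ := ContDiff.lipschitzWith_of_hasCompactSupport hc hF (by simp)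
  exact ODE_solution_unique_univ (v := fun _ => F) (s := fun _ => univ) (K := K)
    (fun t => hK.lipschitzOnWith) (fun t => ⟨hf t, mem_univ _⟩) (fun t => ⟨hg t, mem_univ _⟩) h

theorem p_FXP : Stmt_FXP := by
  intro V _ _ _ F Φ C hF hc hΦ hC
  have h0 : ∀ x : V, x ∉ C → ∀ t, HasDerivAt (fun _ : ℝ => x) (F ((fun _ : ℝ => x) t)) t := by
    intro x hx t
    simp only [hC x hx]
    exact hasDerivAt_const t x
  constructor
  · intro t x hx
    have h1 := FXP_unique F hF hc (fun s => Φ s x) (fun _ => x) (fun t => hΦ.2 x t) (h0 x hx) 0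
      (hΦ.1 x)
    exact congrFun h1 t
  · intro t x hx
    by_contra hy
    have h1 := FXP_unique F hF hc (fun s => Φ s x) (fun _ => Φ t x) (fun t => hΦ.2 x t)
      (h0 (Φ t x) hy) t rfl
    have h2 : Φ 0 x = Φ t x := congrFun h1 0
    rw [hΦ.1 x] at h2
    rw [← h2] at hy
    exact hy hx

end HDC
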