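import Pool.Agent.Work.MP_c3bd4f_hd.Interface

set_option autoImplicit false

open scoped ContDiff Manifold Topology NNReal
open Set MeasureTheory

noncomputable section

namespace HDC

theorem GFL_local {V : Type} [NormedAddCommGroup V] [NormedSpace ℝ V] [FiniteDimensional ℝ V]
    {F : V → V} {K L : ℝ≥0} (hK : LipschitzWith K F) (hL : ∀ x, ‖F x‖ ≤ L) (T : ℝ) (hT : 0 < T)
    (x : V) : ∃ α : ℝ → V, α 0 = x ∧
      ∀ t ∈ Icc (-T) T, HasDerivWithinAt α (F (α t)) (Icc (-T) T) t := by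
  have : CompleteSpace V := FiniteDimensional.complete ℝ V
  have hP : IsPicardLindelof (fun _ : ℝ => F) (tmin := -T) (tmax := T)
      ⟨0, by constructor <;> linarith⟩ x (⟨T, hT.le⟩ * L) 0 L K := by
    refine ⟨fun t _ => hK.lipschitzOnWith, fun y _ => continuousOn_const, fun t _ y _ => hL y, ?_⟩
    have h1 : max (T - (0 : ℝ)) (0 - -T) = T := by
      rw [sub_zero, zero_sub, neg_neg, max_self]
    have h2 : ((⟨T, hT.le⟩ * L : ℝ≥0) : ℝ) = T * L := rfl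
    rw [h2]
    change (L : ℝ) * max (T - (0 : ℝ)) (0 - -T) ≤ T * L - ((0 : ℝ≥0) : ℝ)
    rw [h1, NNReal.coe_zero]
    linarith [mul_comm T (L : ℝ)]
  obtain ⟨α, h0, hα⟩ := hP.exists_eq_forall_mem_Icc_hasDerivWithinAt₀
  exact ⟨α, h0, hα⟩

theorem p_GFL : Stmt_GFL := by
  intro V _ _ _ F hF hc
  obtain ⟨K, hK⟩ := ContDiff.lipschitzWith_of_hasCompactSupport hc hF (by simp)
  obtain ⟨L0, hL0⟩ := hc.exists_bound_of_continuous hF.continuous
  have hL : ∀ x, ‖F x‖ ≤ ((⟨max L0 0, le_max_right _ _⟩ : ℝ≥0) : ℝ) := fun x =>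
    (hL0 x).trans (le_max_left _ _)
  have loc : ∀ (n : ℕ) (x : V), ∃ α : ℝ → V, α 0 = x ∧
      ∀ t ∈ Icc (-((n : ℝ) + 1)) ((n : ℝ) + 1),
        HasDerivWithinAt α (F (α t)) (Icc (-((n : ℝ) + 1)) ((n : ℝ) + 1)) t := fun n x =>
    GFL_local hK hL _ (by positivity) x
  choose α h0 hα using loc
  have hd : ∀ (n : ℕ) (x : V) (t : ℝ), t ∈ Ioo (-((n : ℝ) + 1)) ((n : ℝ) + 1) →
      HasDerivAt (α n x) (F (α n x t)) t := fun n x t ht =>
    (hα n x t ⟨ht.1.le, ht.2.le⟩).hasDerivAt (Icc_mem_nhds ht.1 ht.2)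
  have huniq : ∀ (m n : ℕ), m ≤ n → ∀ (x : V),
      EqOn (α m x) (α n x) (Icc (-((m : ℝ) + 1)) ((m : ℝ) + 1)) := by
    intro m n hmn x
    have hmn' : (m : ℝ) ≤ n := by exact_mod_cast hmn
    have hm0 : (0 : ℝ) ≤ m := Nat.cast_nonneg m
    refine ODE_solution_unique_of_mem_Icc (v := fun _ => F) (s := fun _ => univ) (K := K)
      (t₀ := 0) (fun t _ => hK.lipschitzOnWith) ⟨by linarith, by linarith⟩
      (fun t ht => (hα m x t ht).continuousWithinAt) (fun t ht => hd m x t ht)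
      (fun _ _ => mem_univ _) ?_ ?_ (fun _ _ => mem_univ _) (by rw [h0, h0])
    · intro t ht
      exact ((hα n x t ⟨by linarith [ht.1], by linarith [ht.2]⟩).continuousWithinAt).mono
        (Icc_subset_Icc (by linarith) (by linarith))
    · intro t ht
      exact hd n x t ⟨by linarith [ht.1], by linarith [ht.2]⟩
  have hΦ : ∀ (n : ℕ) (x : V) (t : ℝ), t ∈ Icc (-((n : ℝ) + 1)) ((n : ℝ) + 1) →
      α ⌈|t|⌉₊ x t = α n x t := by
    intro n x t ht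
    have h1 : |t| ≤ (⌈|t|⌉₊ : ℝ) := Nat.le_ceil _
    have h2 := abs_le.1 h1
    rcases le_total ⌈|t|⌉₊ n with h | h
    · exact huniq _ _ h x ⟨by linarith [h2.1], by linarith [h2.2]⟩
    · exact (huniq _ _ h x ht).symm
  refine ⟨fun t x => α ⌈|t|⌉₊ x t, ?_, ?_⟩
  · intro x
    exact h0 _ x
  · intro x t
    have h1 : |t| ≤ (⌈|t|⌉₊ : ℝ) := Nat.le_ceil _
    have h2 := abs_le.1 h1
    have h3 : t ∈ Ioo (-((⌈|t|⌉₊ : ℝ) + 1)) ((⌈|t|⌉₊ : ℝ) + 1) :=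
      ⟨by linarith [h2.1], by linarith [h2.2]⟩
    have h4 := hd ⌈|t|⌉₊ x t h3
    refine h4.congr_of_eventuallyEq ?_
    filter_upwards [Ioo_mem_nhds h3.1 h3.2] with s hs
    exact hΦ ⌈|t|⌉₊ x s ⟨hs.1.le, hs.2.le⟩

end HDC
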