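import Pool.Agent.Work.MP_c3bd4f_hd.Interface

set_option autoImplicit false

/-! Block HMS: the local expressions of a Hamiltonian. -/

open scoped ContDiff Manifold Topology
open Set MeasureTheory

noncomputable section

namespace HDC

theorem p_HMS (hDEG : Stmt_DEG) : Stmt_HMS := by
  intro N M _ _ _ H hH
  have h1 : ∀ c ∈ atlas (EE N) M,
      ContDiffOn ℝ ∞ (fun q : ℝ × EE N => H q.1 (c.symm q.2)) (Icc 0 1 ×ˢ c.target) := by
    intro c hc
    have hcm : c ∈ IsManifold.maximalAtlas 𝓘(ℝ, EE N) ∞ M := IsManifold.subset_maximalAtlas hc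
    have hs : ContMDiffOn 𝓘(ℝ, EE N) 𝓘(ℝ, EE N) ∞ c.symm c.target :=
      contMDiffOn_symm_of_mem_maximalAtlas hcm
    have hid : ContMDiffOn 𝓘(ℝ, ℝ) 𝓘(ℝ, ℝ) ∞ (id : ℝ → ℝ) (Icc 0 1) := contMDiffOn_id
    have hp := hid.prodMap hs
    have hcomp := hH.smooth.comp hp (fun q hq => ⟨hq.1, mem_univ _⟩)
    rw [← contMDiffOn_iff_contDiffOn, modelWithCornersSelf_prod, ← chartedSpaceSelf_prod]
    exact hcomp
  refine ⟨h1, hH.smooth.continuousOn, ?_⟩
  have hsm : ∀ c ∈ atlas (EE N) M,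
      ContDiffOn ℝ ∞ (fun q : ℝ × EE N => hF N (H q.1) c q.2) (Icc 0 1 ×ˢ c.target) := by
    intro c hc
    have hl : ContDiff ℝ ∞ (fun r : ℝ => algebraMap ℝ (Lam N) r) :=
      (LinearMap.toContinuousLinearMap (Algebra.linearMap ℝ (Lam N))).contDiff
    exact hl.comp_contDiffOn (h1 c hc)
  refine ⟨hsm, fun t ht => ⟨fun c hc => ?_, fun c hc c' hc' x hx hx' => ?_, fun c hc x hx => ?_⟩⟩
  · exact (hsm c hc).comp (g := fun q : ℝ × EE N => hF N (H q.1) c q.2) (f := fun x : EE N => (t, x))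
      (contDiff_const.prodMk contDiff_id).contDiffOn fun x hx => ⟨ht, hx⟩
  · show algebraMap ℝ (Lam N) (H t (c.symm x)) =
      pb _ (algebraMap ℝ (Lam N) (H t (c'.symm (c' (c.symm x)))))
    rw [c'.left_inv hx', AlgHom.commutes]
  · exact (hDEG N).2.2.2.2.2.2.2 _

end HDC
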