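import Pool.Agent.Work.MP_c3bd4f_hd.Interface

set_option autoImplicit false

open scoped ContDiff Manifold Topology
open Set MeasureTheory

noncomputable section

namespace HDC

theorem p_INT (hDNC : Stmt_DNC) : Stmt_INT := by
  intro n M _ _ _ _ _ _ _ Ω vol _ hΩ k f K hf hK hCS
  obtain ⟨-, -, -, h4, h5⟩ := hDNC n M Ω hΩ
  exact (h4 k f hf).integrable_of_hasCompactSupport
    (HasCompactSupport.intro hK (h5 K f hCS))

end HDC
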