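import Pool.Agent.Work.MP_c3bd4f_hd.Interface

set_option autoImplicit false

/-!
# Infinite Hofer diameter, block INV: the integral is invariant (helper89)
-/

open scoped ContDiff Manifold Topology
open Set MeasureTheory

noncomputable section

namespace HDC

theorem p_INV (hDEG : Stmt_DEG) (hCNG : Stmt_CNG) (hFO1 : Stmt_FO1) (hFO2 : Stmt_FO2)
    (hFO3 : Stmt_FO3) (hXHS : Stmt_XHS) (hPBT : Stmt_PBT) (hPBO : Stmt_PBO) (hOFK : Stmt_OFK)
    (hINT : Stmt_INT) (hSTM : Stmt_STM) (hTRL : Stmt_TRL) : Stmt_INV := by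
  intro n M _ _ _ _ _ _ _ Ω vol _ H Φ K hn hHS hvol hK hH f hf hCS T hT
  have symp := hHS.symp
  have hSm : SmI (2 * n) Φ := hHS.iso.smooth
  obtain ⟨-, -, -, f4, f5, f6, -, -⟩ := hFO2 (2 * n) M
  obtain ⟨hX, -, -⟩ := hXHS (2 * n) M Ω H symp.form symp.nondeg hHS.ham
  obtain ⟨-, o2, -, -⟩ := hOFK n M Ω H Φ K hHS hK hH
  obtain ⟨cng1, cng2⟩ := hCNG
  have hf' : ∀ m, m = 2 * n → IsForm m f := by
    rintro m rfl
    exact hf
  have hfk : IsForm (2 * n - 1 + 1) f := hf' _ (by omega)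
  have hone : IsForm 0 (1 : Fam (2 * n) M) := by
    have := f6 0 Ω symp.form
    rw [pow_zero] at this
    exact this
  -- the differential of `f` vanishes
  have hdf : EqF (dF f) 0 := by
    have h1 := f5 _ _ (hFO1 (2 * n) M (2 * n) (fun _ => f) (f4 _ f hf)) 0 ⟨le_rfl, zero_le_one⟩
    intro c hc x hx
    exact (hDEG (2 * n)).2.2.2.2.1 (2 * n + 1) _ (Nat.lt_succ_self _) (h1.deg c hc x hx)
  have hh : TForm (2 * n - 1) (fun t => cF (XX Ω H t) f) :=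
    hFO3 (2 * n) M (2 * n - 1) (XX Ω H) (fun _ => f) hX (f4 _ f hfk)
  have hPh := hPBT (2 * n) M Φ (2 * n - 1) _ hSm hh
  have hzero : ∀ t ∈ Icc (0 : ℝ) 1,
      ∫ p, dn n Ω (PBK (Φ t) (Lie (XX Ω H t) f)) p ∂vol = 0 := by
    intro t ht
    have e1 : EqF (Lie (XX Ω H t) f) (dF (cF (XX Ω H t) f)) := by
      intro c hc x hx
      show dF (cF (XX Ω H t) f) c x + ctr (XX Ω H t c x) (dF f c x) = _
      rw [hdf c hc x hx]
      show _ + ctr (XX Ω H t c x) 0 = _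
      rw [map_zero, add_zero]
    have e2 := (cng1 (2 * n) M _ _ e1).2.1 (Φ t)
    have e3 := (hPBO (2 * n) M Φ (2 * n - 1) (cF (XX Ω H t) f) hSm hHS.iso.zero
      (f5 _ _ hh t ht)).1 t ht
    have e4 : EqF (PBK (Φ t) (Lie (XX Ω H t) f)) (dF (PBK (Φ t) (cF (XX Ω H t) f))) := by
      intro c hc x hx
      rw [e2 c hc x hx, e3 c hc x hx]
    rw [cng2 n M Ω _ _ e4]
    refine hSTM n M Ω vol symp hvol K hK (2 * n - 1) _ (f5 _ _ hPh t ht) ?_
    intro c hc x hx hxK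
    rw [o2 t ht _ _ (f5 _ _ hh t ht) c hc x hx hxK]
    show ctr (XX Ω H t c x) (f c x) = 0
    rw [hCS c hc x hx hxK, map_zero]
  have key := hTRL n M Ω vol H Φ K hHS hK hH (2 * n - 1) 0 f 1 hfk hone T hT
  have hR : ∫ t in (0 : ℝ)..T, ∫ p, dn n Ω (PBK (Φ t) (Lie (XX Ω H t) f) * 1) p ∂vol = 0 := by
    have : ∫ t in (0 : ℝ)..T, ∫ p, dn n Ω (PBK (Φ t) (Lie (XX Ω H t) f) * 1) p ∂vol =
        ∫ t in (0 : ℝ)..T, (0 : ℝ) := by
      refine intervalIntegral.integral_congr fun t ht => ?_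
      rw [uIcc_of_le hT.1] at ht
      show ∫ p, dn n Ω (PBK (Φ t) (Lie (XX Ω H t) f) * 1) p ∂vol = 0
      rw [mul_one]
      exact hzero t ⟨ht.1, ht.2.trans hT.2⟩
    rw [this]
    simp
  rw [hR, mul_one] at key
  have hPf := f5 _ _ (hPBT (2 * n) M Φ (2 * n) (fun _ => f) hSm (f4 _ f hf)) T hT
  have hPCS : CS K (PBK (Φ T) f) := by
    intro c hc x hx hxK
    rw [o2 T hT _ _ hf c hc x hx hxK]
    exact hCS c hc x hx hxK
  have i1 := hINT n M Ω vol symp (2 * n) (PBK (Φ T) f) K hPf hK hPCS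
  have i2 := hINT n M Ω vol symp (2 * n) f K hf hK hCS
  have hsub : ∀ p, dn n Ω (PBK (Φ T) f - f) p = dn n Ω (PBK (Φ T) f) p - dn n Ω f p := by
    intro p
    unfold dn
    rw [← sub_div, ← map_sub]
    rfl
  have hint : ∫ p, dn n Ω (PBK (Φ T) f - f) p ∂vol =
      ∫ p, dn n Ω (PBK (Φ T) f) p ∂vol - ∫ p, dn n Ω f p ∂vol := by
    rw [← integral_sub i1 i2]
    exact integral_congr_ae (Filter.Eventually.of_forall hsub)
  rw [hint] at key
  exact sub_eq_zero.1 key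

end HDC
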