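import Pool.Agent.Work.MP_c3bd4f_hd.Interface

set_option autoImplicit false

/-!
# Infinite Hofer diameter, block LBZ: Leibniz rule (helper89)
-/

open scoped ContDiff Manifold Topology
open Set MeasureTheory

noncomputable section

namespace HDC

theorem p_LBZ (hALG : Stmt_ALG) (hDRV : Stmt_DRV) : Stmt_LBZ := by
  intro N f g x hf hg
  obtain ⟨L, hL, hLv⟩ := (hDRV N (EE N) x).1 f g _ _ hf.hasFDerivAt hg.hasFDerivAt
  unfold D
  rw [hL.fderiv, Finset.sum_mul, Finset.mul_sum, ← Finset.sum_add_distrib]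
  refine Finset.sum_congr rfl fun i _ => ?_
  have h : dx i * f x = inv (f x) * dx i := (hALG N).1 (dxB N i) (f x)
  rw [hLv, mul_add, ← mul_assoc, ← mul_assoc, h, mul_assoc (inv (f x))]

end HDC
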