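import Pool.Agent.Work.MP_c3bd4f_hd.Interface

/-! # Block LIE: the Lie derivative of a form is a form (MP_c3bd4f, THEOREM HC) -/

set_option autoImplicit false

open scoped ContDiff Manifold Topology
open Set MeasureTheory

noncomputable section

namespace HDC

theorem p_LIE (hFO1 : Stmt_FO1) (hFO2 : Stmt_FO2) (hFO3 : Stmt_FO3) : Stmt_LIE := by
  intro N M _ _ _ k X F hX hF
  have h1 : TForm (k + 1) (fun t => dF (cF (X t) (F t))) :=
    hFO1 N M k (fun t => cF (X t) (F t)) (hFO3 N M k X F hX hF)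
  have h2 : TForm (k + 1) (fun t => cF (X t) (dF (F t))) :=
    hFO3 N M (k + 1) X (fun t => dF (F t)) hX (hFO1 N M (k + 1) F hF)
  exact ((hFO2 N M).2.1 (k + 1) _ _ h1 h2).1

end HDC
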