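import Pool.Agent.Work.MP_c3bd4f_hd.Interface

set_option autoImplicit false

/-! # Block LNI (helper54) -/

open scoped ContDiff Manifold Topology
open Set MeasureTheory

noncomputable section

namespace HDC

/-- uniform continuity in the time -/
theorem LNI_unif {M : Type} [TopologicalSpace M] {H : ℝ → M → ℝ} {K : Set M} (hK : IsCompact K)
    (h0 : ∀ t ∈ Icc (0 : ℝ) 1, ∀ p ∉ K, H t p = 0)
    (hc : ContinuousOn (fun q : ℝ × M => H q.1 q.2) (Icc 0 1 ×ˢ univ)) {t0 : ℝ}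
    (ht0 : t0 ∈ Icc (0 : ℝ) 1) {ε : ℝ} (hε : 0 < ε) :
    ∀ᶠ t in 𝓝[Icc (0 : ℝ) 1] t0, ∀ p, |H t p - H t0 p| < ε := by
  have hc0 : Continuous (H t0) :=
    hc.comp_continuous (f := fun p : M => (t0, p)) (continuous_const.prodMk continuous_id)
      (fun p => ⟨ht0, mem_univ p⟩)
  have h1 : ∀ᶠ t in 𝓝 t0, ∀ p ∈ K, t ∈ Icc (0 : ℝ) 1 → |H t p - H t0 p| < ε := by
    refine hK.eventually_forall_of_forall_eventually
      (P := fun t p => t ∈ Icc (0 : ℝ) 1 → |H t p - H t0 p| < ε) ?_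
    intro y _
    have h2 := hc (t0, y) ⟨ht0, mem_univ y⟩
    have h3 := Metric.tendsto_nhds.1 h2 (ε / 2) (by positivity)
    rw [eventually_nhdsWithin_iff] at h3
    have h4 : ∀ᶠ z : ℝ × M in 𝓝 (t0, y), dist (H t0 z.2) (H t0 y) < ε / 2 :=
      Metric.tendsto_nhds.1 ((hc0.comp continuous_snd).tendsto (t0, y)) (ε / 2) (by positivity)
    filter_upwards [h3, h4] with z hz3 hz4 hz
    have h5 := hz3 ⟨hz, mem_univ _⟩
    rw [Real.dist_eq] at h5 hz4
    have e : H z.1 z.2 - H t0 z.2 = (H z.1 z.2 - H t0 y) - (H t0 z.2 - H t0 y) := by ring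
    rw [e]
    have h6 := abs_sub (H z.1 z.2 - H t0 y) (H t0 z.2 - H t0 y)
    have h5' : |H z.1 z.2 - H t0 y| < ε / 2 := h5
    linarith
  have h2 : ∀ᶠ t in 𝓝[Icc (0 : ℝ) 1] t0, t ∈ Icc (0 : ℝ) 1 := self_mem_nhdsWithin
  filter_upwards [nhdsWithin_le_nhds h1, h2] with t ht ht' p
  by_cases hp : p ∈ K
  · exact ht p hp ht'
  · rw [h0 t ht' p hp, h0 t0 ht0 p hp, sub_zero, abs_zero]
    exact hε

/-- boundedness -/
theorem LNI_bdd {M : Type} [TopologicalSpace M] {H : ℝ → M → ℝ} {K : Set M} (hK : IsCompact K)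
    (h0 : ∀ t ∈ Icc (0 : ℝ) 1, ∀ p ∉ K, H t p = 0)
    (hc : ContinuousOn (fun q : ℝ × M => H q.1 q.2) (Icc 0 1 ×ˢ univ)) {t : ℝ}
    (ht : t ∈ Icc (0 : ℝ) 1) : BddAbove (range (H t)) ∧ BddBelow (range (H t)) := by
  have hc0 : Continuous (H t) :=
    hc.comp_continuous (f := fun p : M => (t, p)) (continuous_const.prodMk continuous_id)
      (fun p => ⟨ht, mem_univ p⟩)
  obtain ⟨C, hC⟩ := hK.exists_bound_of_continuousOn hc0.continuousOn
  have h1 : ∀ p, |H t p| ≤ |C| := by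
    intro p
    by_cases hp : p ∈ K
    · exact (hC p hp).trans (le_abs_self C)
    · rw [h0 t ht p hp, abs_zero]
      exact abs_nonneg C
  refine ⟨⟨|C|, ?_⟩, ⟨-|C|, ?_⟩⟩
  · rintro _ ⟨p, rfl⟩
    exact (abs_le.1 (h1 p)).2
  · rintro _ ⟨p, rfl⟩
    exact (abs_le.1 (h1 p)).1

theorem p_LNI (hHMS : Stmt_HMS) : Stmt_LNI := by
  intro N M _ _ _ _ H hH
  obtain ⟨-, hc, -⟩ := hHMS N M H hH
  obtain ⟨K, hK, h0⟩ := hH.supp
  have hb : ∀ t ∈ Icc (0 : ℝ) 1, BddAbove (range (H t)) ∧ BddBelow (range (H t)) :=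
    fun t ht => LNI_bdd hK h0 hc ht
  refine ⟨?_, ?_, hb⟩
  · intro t0 ht0
    refine Metric.tendsto_nhds.2 fun ε hε => ?_
    have h1 := LNI_unif hK h0 hc ht0 (ε := ε / 2) (by positivity)
    have h2 : ∀ᶠ t in 𝓝[Icc (0 : ℝ) 1] t0, t ∈ Icc (0 : ℝ) 1 := self_mem_nhdsWithin
    filter_upwards [h1, h2] with t h3 ht
    have a1 : (⨆ p, H t p) ≤ (⨆ p, H t0 p) + ε / 2 := by
      refine ciSup_le fun p => ?_
      have := (abs_lt.1 (h3 p)).2
      have := le_ciSup (hb t0 ht0).1 p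
      linarith
    have a2 : (⨆ p, H t0 p) ≤ (⨆ p, H t p) + ε / 2 := by
      refine ciSup_le fun p => ?_
      have := (abs_lt.1 (h3 p)).1
      have := le_ciSup (hb t ht).1 p
      linarith
    rw [Real.dist_eq, abs_lt]
    constructor <;> linarith
  · intro t0 ht0
    refine Metric.tendsto_nhds.2 fun ε hε => ?_
    have h1 := LNI_unif hK h0 hc ht0 (ε := ε / 2) (by positivity)
    have h2 : ∀ᶠ t in 𝓝[Icc (0 : ℝ) 1] t0, t ∈ Icc (0 : ℝ) 1 := self_mem_nhdsWithin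
    filter_upwards [h1, h2] with t h3 ht
    have a1 : (⨅ p, H t p) - ε / 2 ≤ ⨅ p, H t0 p := by
      refine le_ciInf fun p => ?_
      have := (abs_lt.1 (h3 p)).2
      have := ciInf_le (hb t ht).2 p
      linarith
    have a2 : (⨅ p, H t0 p) - ε / 2 ≤ ⨅ p, H t p := by
      refine le_ciInf fun p => ?_
      have := (abs_lt.1 (h3 p)).1
      have := ciInf_le (hb t0 ht0).2 p
      linarith
    rw [Real.dist_eq, abs_lt]
    constructor <;> linarith

end HDC
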