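import Pool.Agent.Work.MP_c3bd4f_hd.Interface

/-! # Block MN1: the integral of `bet * Ω ^ (i + m + 1)` (helper71) -/

set_option autoImplicit false

open scoped ContDiff Manifold Topology
open Set MeasureTheory

noncomputable section

namespace HDC

/-- The exterior derivative vanishes outside of the closed set `L`. -/
theorem MN1_csd {N : ℕ} {M : Type} [TopologicalSpace M] [ChartedSpace (EE N) M] {L : Set M}
    (hL : IsClosed L) {f : Fam N M} (hf : CS L f) : CS L (dF f) := by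
  intro c hc x hx hxL
  have h1 : ∀ᶠ y in 𝓝 x, y ∈ c.target := c.open_target.mem_nhds hx
  have h2 : ∀ᶠ y in 𝓝 x, c.symm y ∉ L := by
    have h3 : ContinuousAt c.symm x := c.continuousAt_symm hx
    exact h3.eventually (hL.isOpen_compl.mem_nhds hxL)
  have h3 : f c =ᶠ[𝓝 x] fun _ => 0 := by
    filter_upwards [h1, h2] with y hy1 hy2
    exact hf c hc y hy1 hy2
  show D (f c) x = 0
  unfold D
  rw [h3.fderiv_eq]
  simp

/-- The algebra at a point: `ctr X u * w ^ (k + 1)`. -/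
theorem MN1_alg (hALG : Stmt_ALG) (hDEG : Stmt_DEG) (hCPW : Stmt_CPW) {N i k : ℕ}
    (hN : N < 2 * i + 1 + (k + 1) * 2) {w u : Lam N} (hw : w ∈ ⋀[ℝ]^2 (VV N))
    (hu : u ∈ ⋀[ℝ]^(2 * i + 1) (VV N)) (X : EE N) (a : VV N) (ha : ctr X w = io a) :
    ctr X u * w ^ (k + 1) = -(((k : ℝ) + 1) • (io a * (u * w ^ k))) := by
  obtain ⟨d1, -, -, -, d5, d6, d7, -⟩ := hDEG N
  obtain ⟨-, a2, -, -, -, -, -⟩ := hALG N
  have hwk : w ^ (k + 1) ∈ ⋀[ℝ]^((k + 1) * 2) (VV N) := by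
    have := SetLike.pow_mem_graded (A := fun j : ℕ => ⋀[ℝ]^j (VV N)) (k + 1) hw
    simpa [smul_eq_mul] using this
  have hprod : u * w ^ (k + 1) = 0 := by
    apply d5 (2 * i + 1 + (k + 1) * 2) _ hN
    exact SetLike.mul_mem_graded (A := fun j : ℕ => ⋀[ℝ]^j (VV N)) hu hwk
  have hinv : inv u = -u := by
    rw [d1 _ u hu, pow_succ, pow_mul]
    norm_num
  have h1 := a2 X u (w ^ (k + 1))
  rw [hprod, map_zero, hinv, (hCPW N w hw).2 X k, ha] at h1
  have h2 : u * io a = -(io a * u) := by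
    rw [d6 _ _ u (io a) hu (d7 a), mul_one, pow_succ, pow_mul]
    norm_num
  have h3 : ctr X u * w ^ (k + 1) = u * (((k : ℝ) + 1) • (io a * w ^ k)) := by
    have h4 : ctr X u * w ^ (k + 1) + -(u * (((k : ℝ) + 1) • (io a * w ^ k))) = 0 := by
      rw [← neg_mul]
      exact h1.symm
    exact eq_of_sub_eq_zero (by rw [sub_eq_add_neg]; exact h4)
  rw [h3, mul_smul_comm, ← mul_assoc, h2, neg_mul, smul_neg, mul_assoc]

/-- Powers of a closed form are closed. -/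
theorem MN1_Dpow (hLBZ : Stmt_LBZ) {N : ℕ} {f : EE N → Lam N} {x : EE N}
    (hf : DifferentiableAt ℝ f x) (hfk : ∀ k : ℕ, DifferentiableAt ℝ (fun y => f y ^ k) x)
    (hD : D f x = 0) (k : ℕ) : D (fun y => f y ^ k) x = 0 := by
  induction k with
  | zero =>
    simp only [pow_zero]
    unfold D
    simp
  | succ k ih =>
    simp only [pow_succ]
    rw [hLBZ N (fun y => f y ^ k) f x (hfk k) hf, ih, hD, zero_mul, mul_zero, add_zero]

theorem p_MN1 (hALG : Stmt_ALG) (hDEG : Stmt_DEG) (hCPW : Stmt_CPW) (hDDZ : Stmt_DDZ)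
    (hLBZ : Stmt_LBZ) (hCNG : Stmt_CNG) (hFO1 : Stmt_FO1) (hFO2 : Stmt_FO2) (hHMS : Stmt_HMS)
    (hXHS : Stmt_XHS) (hDNC : Stmt_DNC) (hINT : Stmt_INT) (hSTM : Stmt_STM) : Stmt_MN1 := by
  intro i m M _ _ _ _ _ _ _ Ω μ vol _ H K hΩ hvol hH hK hK0 hμ hdμ t ht
  obtain ⟨hmul, -, hsmul, hcon, hat, hpow, -, -⟩ := hFO2 (2 * (2 * i + 1 + m)) M
  obtain ⟨hms1, hms2, hms3⟩ := hHMS (2 * (2 * i + 1 + m)) M H hH
  obtain ⟨hX1, hX2, -⟩ := hXHS (2 * (2 * i + 1 + m)) M Ω H hΩ.form hΩ.nondeg hH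
  have h01 : (0 : ℝ) ∈ Icc (0 : ℝ) 1 := ⟨le_rfl, zero_le_one⟩
  -- the forms
  have hhF : IsForm 0 (hF (2 * (2 * i + 1 + m)) (H t)) := hms3.form t ht
  have hmulF : ∀ (k l : ℕ) (f g : Fam (2 * (2 * i + 1 + m)) M), IsForm k f → IsForm l g → IsForm (k + l) (f * g) :=
    fun k l f g hf hg => hat _ _ (hmul _ _ _ _ (hcon _ f hf) (hcon _ g hg)) 0 h01
  have hpowF : ∀ k : ℕ, IsForm (2 * k) (Ω ^ k) := fun k => hpow k Ω hΩ.form
  set f : Fam (2 * (2 * i + 1 + m)) M := hF (2 * (2 * i + 1 + m)) (H t) * (μ * Ω ^ (i + m)) with hf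
  have hfF : IsForm (0 + (2 * i + 1 + 2 * (i + m))) f :=
    hmulF _ _ _ _ hhF (hmulF _ _ _ _ hμ (hpowF (i + m)))
  have hhC : ∀ g : Fam (2 * (2 * i + 1 + m)) M, CS K (hF (2 * (2 * i + 1 + m)) (H t) * g) := by
    intro g c hc x hx hxK
    show algebraMap ℝ (Lam (2 * (2 * i + 1 + m))) (H t (c.symm x)) * g c x = 0
    rw [hK0 t ht _ hxK, map_zero, zero_mul]
  have hfC : CS K f := hhC _
  -- the pointwise identity
  have hpt : ∀ c ∈ atlas (EE (2 * (2 * i + 1 + m))) M, ∀ x ∈ c.target,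
      (bet i Ω μ H t * Ω ^ (i + m + 1)) c x =
        (2 * (i : ℝ) + m + 2) • ((hF (2 * (2 * i + 1 + m)) (H t) * Ω ^ (2 * i + 1 + m)) c x) -
        ((i : ℝ) + m + 1) • (dF f c x) := by
    intro c hc x hx
    have hnh : c.target ∈ 𝓝 x := c.open_target.mem_nhds hx
    have hw : Ω c x ∈ ⋀[ℝ]^2 (VV (2 * (2 * i + 1 + m))) := hΩ.form.deg c hc x hx
    have hu : μ c x ∈ ⋀[ℝ]^(2 * i + 1) (VV (2 * (2 * i + 1 + m))) := hμ.deg c hc x hx
    have ha := hX2 t ht c hc x hx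
    have hdiff : ∀ (k : ℕ) (g : Fam (2 * (2 * i + 1 + m)) M), IsForm k g → DifferentiableAt ℝ (g c) x :=
      fun k g hg => ((hg.smooth c hc).contDiffAt hnh).differentiableAt (by simp)
    have hdH : DifferentiableAt ℝ (fun y => H t (c.symm y)) x := by
      have h1 : ContDiffOn ℝ ∞ (fun y => H t (c.symm y)) c.target := by
        have h2 := hms1 c hc
        exact h2.comp (f := fun y : EE (2 * (2 * i + 1 + m)) => (t, y)) (contDiff_const.prodMk contDiff_id).contDiffOn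
          (fun y hy => ⟨ht, hy⟩)
      exact (h1.contDiffAt hnh).differentiableAt (by simp)
    set a : EE (2 * (2 * i + 1 + m)) →L[ℝ] ℝ := fderiv ℝ (fun y => H t (c.symm y)) x with haa
    -- the exterior derivative of `f`
    have hDf : dF f c x = io a.toLinearMap * (μ c x * Ω c x ^ (i + m)) +
        algebraMap ℝ (Lam (2 * (2 * i + 1 + m))) (H t (c.symm x)) * (Ω c x ^ (i + 1) * Ω c x ^ (i + m)) := by
      have e1 : DifferentiableAt ℝ (fun y => algebraMap ℝ (Lam (2 * (2 * i + 1 + m))) (H t (c.symm y))) x :=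
        hdiff 0 _ hhF
      have e2 : DifferentiableAt ℝ (μ c) x := hdiff _ _ hμ
      have e3 : DifferentiableAt ℝ (fun y => Ω c y ^ (i + m)) x := hdiff _ _ (hpowF (i + m))
      have e3' := MN1_Dpow hLBZ (hdiff _ _ hΩ.form) (fun k => hdiff _ _ (hpowF k))
        (hΩ.closed c hc x hx) (i + m)
      have e4 : DifferentiableAt ℝ (fun y => μ c y * Ω c y ^ (i + m)) x :=
        hdiff _ _ (hmulF _ _ _ _ hμ (hpowF (i + m)))
      show D (fun y => algebraMap ℝ (Lam (2 * (2 * i + 1 + m))) (H t (c.symm y)) * (μ c y * Ω c y ^ (i + m))) x = _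
      rw [hLBZ (2 * (2 * i + 1 + m)) (fun y => algebraMap ℝ (Lam (2 * (2 * i + 1 + m))) (H t (c.symm y)))
        (fun y => μ c y * Ω c y ^ (i + m)) x e1 e4, (hDDZ (2 * (2 * i + 1 + m))).2 _ x hdH,
        hLBZ (2 * (2 * i + 1 + m)) (μ c) (fun y => Ω c y ^ (i + m)) x e2 e3, e3', mul_zero, add_zero,
        AlgHom.commutes]
      have e5 : D (μ c) x = Ω c x ^ (i + 1) := hdμ c hc x hx
      rw [e5]
    have hNlt : 2 * (2 * i + 1 + m) < 2 * i + 1 + (i + m + 1) * 2 := by omega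
    have hal := MN1_alg hALG hDEG hCPW (k := i + m) hNlt hw hu (XX Ω H t c x) a.toLinearMap ha
    have hb : (bet i Ω μ H t * Ω ^ (i + m + 1)) c x =
        ((i : ℝ) + 1) • (algebraMap ℝ (Lam (2 * (2 * i + 1 + m))) (H t (c.symm x)) * Ω c x ^ i) *
          Ω c x ^ (i + m + 1) + ctr (XX Ω H t c x) (μ c x) * Ω c x ^ (i + m + 1) := by
      show (((i : ℝ) + 1) • (algebraMap ℝ (Lam (2 * (2 * i + 1 + m))) (H t (c.symm x)) * Ω c x ^ i) +
        ctr (XX Ω H t c x) (μ c x)) * Ω c x ^ (i + m + 1) = _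
      rw [add_mul]
    have hc' : (hF (2 * (2 * i + 1 + m)) (H t) * Ω ^ (2 * i + 1 + m)) c x =
        algebraMap ℝ (Lam (2 * (2 * i + 1 + m))) (H t (c.symm x)) * Ω c x ^ (2 * i + 1 + m) := rfl
    rw [hb, hal, hDf, hc']
    have e6 : Ω c x ^ i * Ω c x ^ (i + m + 1) = Ω c x ^ (2 * i + 1 + m) := by
      rw [← pow_add]
      congr 1
      omega
    have e7 : Ω c x ^ (i + 1) * Ω c x ^ (i + m) = Ω c x ^ (2 * i + 1 + m) := by
      rw [← pow_add]
      congr 1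
      omega
    rw [smul_mul_assoc, mul_assoc, e6, e7]
    push_cast
    module
  -- the densities
  have hdn : ∀ p, dn (2 * i + 1 + m) Ω (bet i Ω μ H t * Ω ^ (i + m + 1)) p =
      (2 * (i : ℝ) + m + 2) * dn (2 * i + 1 + m) Ω (hF (2 * (2 * i + 1 + m)) (H t) * Ω ^ (2 * i + 1 + m)) p -
      ((i : ℝ) + m + 1) * dn (2 * i + 1 + m) Ω (dF f) p := by
    intro p
    unfold dn
    rw [hpt _ (chart_mem_atlas _ p) _ (mem_chart_target _ p), map_sub, map_smul, map_smul,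
      smul_eq_mul, smul_eq_mul, sub_div, mul_div_assoc, mul_div_assoc]
  have hdH : ∀ p, dn (2 * i + 1 + m) Ω (hF (2 * (2 * i + 1 + m)) (H t) * Ω ^ (2 * i + 1 + m)) p = H t p := by
    intro p
    have h1 : top (2 * (2 * i + 1 + m))
        ((Ω (chartAt (EE (2 * (2 * i + 1 + m))) p) (chartAt (EE (2 * (2 * i + 1 + m))) p p)) ^ (2 * i + 1 + m)) ≠ 0 :=
      (hDNC (2 * i + 1 + m) M Ω hΩ).1 _ (chart_mem_atlas _ p) _ (mem_chart_target _ p)
    have h2 : (hF (2 * (2 * i + 1 + m)) (H t) * Ω ^ (2 * i + 1 + m)) (chartAt (EE (2 * (2 * i + 1 + m))) p) (chartAt (EE (2 * (2 * i + 1 + m))) p p) =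
        (H t p) • (Ω (chartAt (EE (2 * (2 * i + 1 + m))) p) (chartAt (EE (2 * (2 * i + 1 + m))) p p)) ^ (2 * i + 1 + m) := by
      show algebraMap ℝ (Lam (2 * (2 * i + 1 + m))) (H t ((chartAt (EE (2 * (2 * i + 1 + m))) p).symm (chartAt (EE (2 * (2 * i + 1 + m))) p p))) *
        (Ω (chartAt (EE (2 * (2 * i + 1 + m))) p) (chartAt (EE (2 * (2 * i + 1 + m))) p p)) ^ (2 * i + 1 + m) = _
      rw [(chartAt (EE (2 * (2 * i + 1 + m))) p).left_inv (mem_chart_source _ p), Algebra.smul_def]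
    unfold dn
    rw [h2, map_smul, smul_eq_mul, mul_div_assoc, div_self h1, mul_one]
  have hKc : IsClosed K := hK.isClosed
  have hi1 : Integrable (dn (2 * i + 1 + m) Ω (hF (2 * (2 * i + 1 + m)) (H t) * Ω ^ (2 * i + 1 + m))) vol :=
    hINT (2 * i + 1 + m) M Ω vol hΩ _ _ K (hmulF _ _ _ _ hhF (hpowF _)) hK (hhC _)
  have hdfF : IsForm (0 + (2 * i + 1 + 2 * (i + m)) + 1) (dF f) :=
    hat _ _ (hFO1 (2 * (2 * i + 1 + m)) M _ (fun _ => f) (hcon _ f hfF)) 0 h01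
  have hi2 : Integrable (dn (2 * i + 1 + m) Ω (dF f)) vol :=
    hINT (2 * i + 1 + m) M Ω vol hΩ _ _ K hdfF hK (MN1_csd hKc hfC)
  have h0 : ∫ p, dn (2 * i + 1 + m) Ω (dF f) p ∂vol = 0 :=
    hSTM (2 * i + 1 + m) M Ω vol hΩ hvol K hK _ f hfF hfC
  have h1 : ∫ p, dn (2 * i + 1 + m) Ω (bet i Ω μ H t * Ω ^ (i + m + 1)) p ∂vol =
      ∫ p, ((2 * (i : ℝ) + m + 2) *
        dn (2 * i + 1 + m) Ω (hF (2 * (2 * i + 1 + m)) (H t) * Ω ^ (2 * i + 1 + m)) p -
      ((i : ℝ) + m + 1) * dn (2 * i + 1 + m) Ω (dF f) p) ∂vol := by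
    congr 1
    ext p
    exact hdn p
  rw [h1, integral_sub (hi1.const_mul _) (hi2.const_mul _), integral_const_mul,
    integral_const_mul, h0, mul_zero, sub_zero]
  congr 2
  ext p
  exact hdH p

end HDC
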