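import Pool.Agent.Work.MP_c3bd4f_hd.Interface

set_option autoImplicit false

open scoped ContDiff Manifold Topology
open Set MeasureTheory

noncomputable section

namespace HDC

theorem MN2_ctr0 {N : ℕ} (x : Lam N) : ctr 0 x = 0 := by
  unfold ctr
  rw [map_zero, map_zero]
  rfl

theorem MN2_Dconst {N : ℕ} (r : Lam N) (x : EE N) : D (fun _ => r) x = 0 := by
  unfold D
  simp

theorem MN2_Dadd {N : ℕ} (f g : EE N → Lam N) (x : EE N) (hf : DifferentiableAt ℝ f x)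
    (hg : DifferentiableAt ℝ g x) : D (fun y => f y + g y) x = D f x + D g x := by
  unfold D
  rw [fderiv_fun_add hf hg, ← Finset.sum_add_distrib]
  refine Finset.sum_congr rfl fun i _ => ?_
  rw [add_apply, mul_add]

theorem MN2_Dsmul {N : ℕ} (f : EE N → Lam N) (x : EE N) (r : ℝ) (h : DifferentiableAt ℝ f x) :
    D (fun y => r • f y) x = r • D f x := by
  unfold D
  rw [fderiv_fun_const_smul h, Finset.smul_sum]
  refine Finset.sum_congr rfl fun i _ => ?_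
  rw [smul_apply, mul_smul_comm]

theorem MN2_diff {N : ℕ} {M : Type} [TopologicalSpace M] [ChartedSpace (EE N) M] (k : ℕ)
    (f : Fam N M) (hf : IsForm k f) (c : OpenPartialHomeomorph M (EE N)) (hc : c ∈ atlas (EE N) M)
    (x : EE N) (hx : x ∈ c.target) : DifferentiableAt ℝ (f c) x :=
  ((hf.smooth c hc).contDiffAt (c.open_target.mem_nhds hx)).differentiableAt (by simp)

/-- the differential of a form vanishes where the form vanishes -/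
theorem MN2_CSd {N : ℕ} {M : Type} [TopologicalSpace M] [T2Space M] [ChartedSpace (EE N) M]
    (L : Set M) (hL : IsCompact L) (f : Fam N M) (hf : CS L f) : CS L (dF f) := by
  intro c hc x hx hxL
  have hopen : IsOpen (c.target ∩ c.symm ⁻¹' Lᶜ) :=
    c.isOpen_inter_preimage_symm hL.isClosed.isOpen_compl
  have hev : f c =ᶠ[𝓝 x] fun _ => 0 := by
    filter_upwards [hopen.mem_nhds ⟨hx, hxL⟩] with y hy
    exact hf c hc y hy.1 hy.2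
  change D (f c) x = 0
  unfold D
  rw [hev.fderiv_eq]
  simp

theorem MN2_CSmul {N : ℕ} {M : Type} [TopologicalSpace M] [ChartedSpace (EE N) M]
    (L : Set M) (f g : Fam N M) (hf : CS L f) : CS L (f * g) := by
  intro c hc x hx hxL
  change f c x * g c x = 0
  rw [hf c hc x hx hxL, zero_mul]

/-- powers of a closed form are closed -/
theorem MN2_pow (h4 : Stmt_LBZ) (h7 : Stmt_FO2) {N : ℕ} {M : Type} [TopologicalSpace M]
    [ChartedSpace (EE N) M] [IsManifold 𝓘(ℝ, EE N) ∞ M] (Ω : Fam N M) (hΩ : IsForm 2 Ω)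
    (hcl : EqF (dF Ω) 0) (k : ℕ) (c : OpenPartialHomeomorph M (EE N)) (hc : c ∈ atlas (EE N) M)
    (x : EE N) (hx : x ∈ c.target) : D (fun y => (Ω c y) ^ k) x = 0 := by
  obtain ⟨-, -, -, -, -, f6, -⟩ := h7 N M
  induction k with
  | zero =>
    simp only [pow_zero]
    exact MN2_Dconst 1 x
  | succ k ih =>
    have e : (fun y => (Ω c y) ^ (k + 1)) = fun y => (Ω c y) ^ k * Ω c y := by
      funext y
      rw [pow_succ]
    have hcl' : D (Ω c) x = 0 := hcl c hc x hx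
    rw [e, h4 N (fun y => (Ω c y) ^ k) (Ω c) x (MN2_diff (2 * k) (Ω ^ k) (f6 k Ω hΩ) c hc x hx)
      (MN2_diff 2 Ω hΩ c hc x hx), ih, hcl', zero_mul, mul_zero, add_zero]

theorem MN2_dnadd {n : ℕ} {M : Type} [TopologicalSpace M] [ChartedSpace (EE (2 * n)) M]
    (Ω f g : Fam (2 * n) M) (p : M) : dn n Ω (f + g) p = dn n Ω f p + dn n Ω g p := by
  unfold dn
  rw [← add_div]
  congr 1
  exact map_add (top (2 * n)) _ _

/-- the Lie derivative of `μ` -/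
theorem MN2_a (h2 : Stmt_CPW) (h3 : Stmt_DDZ) (h4 : Stmt_LBZ) (h7 : Stmt_FO2) {N : ℕ} {M : Type}
    [TopologicalSpace M] [ChartedSpace (EE N) M] [IsManifold 𝓘(ℝ, EE N) ∞ M] (Ω μ : Fam N M)
    (i : ℕ) (H : ℝ → M → ℝ) (hΩ : IsForm 2 Ω) (hcl : EqF (dF Ω) 0)
    (hdμ : EqF (dF μ) (Ω ^ (i + 1))) (t : ℝ)
    (hH : ∀ c ∈ atlas (EE N) M, ∀ x ∈ c.target, DifferentiableAt ℝ (fun y => H t (c.symm y)) x)
    (hX : ∀ c ∈ atlas (EE N) M, ∀ x ∈ c.target, ctr (XX Ω H t c x) (Ω c x) =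
      io (fderiv ℝ (fun y => H t (c.symm y)) x).toLinearMap)
    (k1 k2 : ℕ) (hF1 : IsForm k1 (hF N (H t))) (hF2 : IsForm k2 (cF (XX Ω H t) μ)) :
    EqF (Lie (XX Ω H t) μ) (dF (bet i Ω μ H t)) := by
  intro c hc x hx
  obtain ⟨-, -, -, -, -, f6, -⟩ := h7 N M
  have hw : Ω c x ∈ ⋀[ℝ]^2 (VV N) := hΩ.deg c hc x hx
  have e1 : D (μ c) x = (Ω c x) ^ (i + 1) := hdμ c hc x hx
  have d1 : DifferentiableAt ℝ (hF N (H t) c) x := MN2_diff k1 _ hF1 c hc x hx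
  have d2 : DifferentiableAt ℝ (fun y => (Ω c y) ^ i) x :=
    MN2_diff (2 * i) (Ω ^ i) (f6 i Ω hΩ) c hc x hx
  have d3 : DifferentiableAt ℝ (cF (XX Ω H t) μ c) x := MN2_diff k2 _ hF2 c hc x hx
  have d4 : DifferentiableAt ℝ (fun y => hF N (H t) c y * (Ω c y) ^ i) x := by
    have hm := (h7 N M).1 k1 (2 * i) (fun _ => hF N (H t)) (fun _ => Ω ^ i)
      ((h7 N M).2.2.2.1 k1 _ hF1) ((h7 N M).2.2.2.1 (2 * i) _ (f6 i Ω hΩ))
    exact MN2_diff _ _ ((h7 N M).2.2.2.2.1 _ _ hm 0 ⟨le_refl _, zero_le_one⟩) c hc x hx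
  have e2 : D (hF N (H t) c) x = io (fderiv ℝ (fun y => H t (c.symm y)) x).toLinearMap :=
    (h3 N).2 (fun y => H t (c.symm y)) x (hH c hc x hx)
  have e3 : dF (bet i Ω μ H t) c x =
      ((i : ℝ) + 1) • D (fun y => hF N (H t) c y * (Ω c y) ^ i) x + D (cF (XX Ω H t) μ c) x := by
    have e4 : dF (bet i Ω μ H t) c x =
        D (fun y => ((i : ℝ) + 1) • (hF N (H t) c y * (Ω c y) ^ i) + cF (XX Ω H t) μ c y) x := rfl
    rw [e4, MN2_Dadd (fun y => ((i : ℝ) + 1) • (hF N (H t) c y * (Ω c y) ^ i))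
      (cF (XX Ω H t) μ c) x (d4.fun_const_smul _) d3,
      MN2_Dsmul (fun y => hF N (H t) c y * (Ω c y) ^ i) x _ d4]
  have e5 : Lie (XX Ω H t) μ c x = D (cF (XX Ω H t) μ c) x + ctr (XX Ω H t c x) (D (μ c) x) := rfl
  rw [e3, e5, e1, (h2 N (Ω c x) hw).2 (XX Ω H t c x) i, hX c hc x hx,
    h4 N (hF N (H t) c) (fun y => (Ω c y) ^ i) x d1 d2, e2, MN2_pow h4 h7 Ω hΩ hcl i c hc x hx,
    mul_zero, add_zero, add_comm]

theorem MN2_main (h1 : Stmt_DEG) (h2 : Stmt_CPW) (h3 : Stmt_DDZ) (h4 : Stmt_LBZ) (h5 : Stmt_CNG)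
    (h6 : Stmt_FO1) (h7 : Stmt_FO2) (h8 : Stmt_FO3) (h9 : Stmt_HMS) (h10 : Stmt_XHS)
    (h11 : Stmt_PBT) (h12 : Stmt_PBO) (h13 : Stmt_OMI) (h14 : Stmt_OFK) (h15 : Stmt_INT)
    (h16 : Stmt_STM) (h17 : Stmt_INV) (n i m : ℕ) (hn : n = 2 * i + 1 + m)
    (M : Type) [TopologicalSpace M] [T2Space M]
    [SecondCountableTopology M]
    [ChartedSpace (EE (2 * n)) M] [IsManifold 𝓘(ℝ, EE (2 * n)) ∞ M]
    [MeasurableSpace M] [BorelSpace M] (Ω μ : Fam (2 * n) M) (vol : Measure M)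
    [IsFiniteMeasure vol] (H : ℝ → M → ℝ) (Φ : ℝ → M → M) (K : Set M)
    (hHS : HS n Ω H Φ) (hvol : IsVol n Ω vol) (hK : IsCompact K)
    (hHK : ∀ t ∈ Icc (0 : ℝ) 1, ∀ p ∉ K, H t p = 0) (hμ : IsForm (2 * i + 1) μ)
    (hdμ : EqF (dF μ) (Ω ^ (i + 1))) (t : ℝ) (ht : t ∈ Icc (0 : ℝ) 1) :
    ∫ p, dn n Ω (PBK (Φ t) (Lie (XX Ω H t) μ) * (μ * Ω ^ m)) p ∂vol =
      -∫ p, dn n Ω (bet i Ω μ H t * Ω ^ (i + m + 1)) p ∂vol := by
  obtain ⟨f1, f2, f3, f4, f5, f6, f7, f8⟩ := h7 (2 * n) M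
  obtain ⟨g1, g2, g3, g4, g5, g6, g7, g8⟩ := h1 (2 * n)
  have hΩ := hHS.symp.form
  have hcl := hHS.symp.closed
  obtain ⟨x1, x2, x3⟩ := h10 (2 * n) M Ω H hΩ hHS.symp.nondeg hHS.ham
  obtain ⟨hs1, hs2, hs3⟩ := h9 (2 * n) M H hHS.ham
  have hsm : SmI (2 * n) Φ := hHS.iso.smooth
  obtain ⟨k1, k2, k3, k4⟩ := h14 n M Ω H Φ K hHS hK hHK
  have ht0 : (0 : ℝ) ∈ Icc (0 : ℝ) 1 := ⟨le_refl _, zero_le_one⟩
  -- `bet` is a time dependent form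
  have hb1 : TForm (2 * i) (fun s => hF (2 * n) (H s) * Ω ^ i) := by
    have := f1 0 (2 * i) _ (fun _ => Ω ^ i) hs3 (f4 (2 * i) _ (f6 i Ω hΩ))
    rwa [zero_add] at this
  have hb2 : TForm (2 * i) (fun s => ((i : ℝ) + 1) • (hF (2 * n) (H s) * Ω ^ i)) := f3 _ _ _ hb1
  have hb3 : TForm (2 * i) (fun s => cF (XX Ω H s) μ) :=
    h8 (2 * n) M (2 * i) (XX Ω H) (fun _ => μ) x1 (f4 _ _ hμ)
  have hbT : TForm (2 * i) (fun s => bet i Ω μ H s) := (f2 _ _ _ hb2 hb3).1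
  have hbt : IsForm (2 * i) (bet i Ω μ H t) := f5 _ _ hbT t ht
  have hbCS : CS K (bet i Ω μ H t) := by
    intro c hc x hx hxK
    change ((i : ℝ) + 1) • (algebraMap ℝ (Lam (2 * n)) (H t (c.symm x)) * (Ω c x) ^ i) +
      ctr (XX Ω H t c x) (μ c x) = 0
    rw [hHK t ht _ hxK, map_zero, zero_mul, smul_zero, k3 t ht c hc x hx hxK, MN2_ctr0, add_zero]
  -- the Lie derivative
  have hHd : ∀ c ∈ atlas (EE (2 * n)) M, ∀ x ∈ c.target,
      DifferentiableAt ℝ (fun y => H t (c.symm y)) x := by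
    intro c hc x hx
    have h1' : ContDiffOn ℝ ∞ (fun y => H t (c.symm y)) c.target := by
      have h2' : ContDiffOn ℝ ∞ (fun y : EE (2 * n) => ((t, y) : ℝ × EE (2 * n))) c.target :=
        (contDiff_const.prodMk contDiff_id).contDiffOn
      exact (hs1 c hc).comp h2' (fun y hy => ⟨ht, hy⟩)
    exact (h1'.contDiffAt (c.open_target.mem_nhds hx)).differentiableAt (by simp)
  have ha : EqF (Lie (XX Ω H t) μ) (dF (bet i Ω μ H t)) :=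
    MN2_a h2 h3 h4 h7 Ω μ i H hΩ hcl hdμ t hHd (fun c hc x hx => x2 t ht c hc x hx) 0 (2 * i)
      (f5 _ _ hs3 t ht) (f5 _ _ hb3 t ht)
  -- the pullback of `bet`
  have hPT : TForm (2 * i) (fun s => PBK (Φ s) (bet i Ω μ H s)) :=
    h11 (2 * n) M Φ (2 * i) (fun s => bet i Ω μ H s) hsm hbT
  set b : Fam (2 * n) M := PBK (Φ t) (bet i Ω μ H t) with hbdef
  have hbF : IsForm (2 * i) b := f5 _ _ hPT t ht
  have hbCS' : CS K b := by
    intro c hc x hx hxK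
    rw [hbdef, k2 t ht (2 * i) _ hbt c hc x hx hxK]
    exact hbCS c hc x hx hxK
  have hLie : EqF (PBK (Φ t) (Lie (XX Ω H t) μ)) (dF b) := by
    intro c hc x hx
    have e1 := (h5.1 (2 * n) M _ _ ha).2.1 (Φ t) c hc x hx
    have e2 := (h12 (2 * n) M Φ (2 * i) (bet i Ω μ H t) hsm hHS.iso.zero hbt).1 t ht c hc x hx
    rw [e1, ← e2]
  -- forms
  have hdb : IsForm (2 * i + 1) (dF b) :=
    f5 _ _ (h6 (2 * n) M (2 * i) (fun _ => b) (f4 _ _ hbF)) 0 ht0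
  have hμm : IsForm (2 * i + 1 + 2 * m) (μ * Ω ^ m) :=
    f5 _ _ (f1 _ _ (fun _ => μ) (fun _ => Ω ^ m) (f4 _ _ hμ) (f4 _ _ (f6 m Ω hΩ))) 0 ht0
  have hf0 : IsForm (2 * i + (2 * i + 1 + 2 * m)) (b * (μ * Ω ^ m)) :=
    f5 _ _ (f1 _ _ (fun _ => b) (fun _ => μ * Ω ^ m) (f4 _ _ hbF) (f4 _ _ hμm)) 0 ht0
  have hf1 : IsForm (2 * i + 1 + (2 * i + 1 + 2 * m)) (dF b * (μ * Ω ^ m)) :=
    f5 _ _ (f1 _ _ (fun _ => dF b) (fun _ => μ * Ω ^ m) (f4 _ _ hdb) (f4 _ _ hμm)) 0 ht0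
  have hf2 : IsForm (2 * i + 2 * (i + m + 1)) (b * Ω ^ (i + m + 1)) :=
    f5 _ _ (f1 _ _ (fun _ => b) (fun _ => Ω ^ (i + m + 1)) (f4 _ _ hbF)
      (f4 _ _ (f6 (i + m + 1) Ω hΩ))) 0 ht0
  have hf3 : IsForm (2 * n) (bet i Ω μ H t * Ω ^ (i + m + 1)) := by
    have := f5 _ _ (f1 _ _ (fun _ => bet i Ω μ H t) (fun _ => Ω ^ (i + m + 1)) (f4 _ _ hbt)
      (f4 _ _ (f6 (i + m + 1) Ω hΩ))) 0 ht0
    have e : 2 * i + 2 * (i + m + 1) = 2 * n := by omega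
    rwa [e] at this
  -- the product rule
  have hc1 : EqF (dF (b * (μ * Ω ^ m))) (dF b * (μ * Ω ^ m) + b * Ω ^ (i + m + 1)) := by
    intro c hc x hx
    have d1 := MN2_diff _ _ hbF c hc x hx
    have d2 := MN2_diff _ _ hμm c hc x hx
    have d3 := MN2_diff _ _ hμ c hc x hx
    have d4 := MN2_diff _ _ (f6 m Ω hΩ) c hc x hx
    have e1 : dF (b * (μ * Ω ^ m)) c x = D (fun y => b c y * (μ * Ω ^ m) c y) x := rfl
    have e2 : D ((μ * Ω ^ m) c) x = (Ω c x) ^ (i + 1) * (Ω c x) ^ m := by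
      have e3 : D ((μ * Ω ^ m) c) x = D (fun y => μ c y * (Ω ^ m) c y) x := rfl
      have e4 : D ((Ω ^ m) c) x = 0 := MN2_pow h4 h7 Ω hΩ hcl m c hc x hx
      have e5 : D (μ c) x = (Ω c x) ^ (i + 1) := hdμ c hc x hx
      rw [e3, h4 (2 * n) (μ c) ((Ω ^ m) c) x d3 d4, e4, e5, mul_zero, add_zero]
      rfl
    have e6 : inv (b c x) = b c x := by
      rw [g1 (2 * i) (b c x) (hbF.deg c hc x hx)]
      simp
    rw [e1, h4 (2 * n) (b c) ((μ * Ω ^ m) c) x d1 d2, e2, e6]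
    change D (b c) x * (μ c x * (Ω c x) ^ m) + b c x * ((Ω c x) ^ (i + 1) * (Ω c x) ^ m) =
      D (b c) x * (μ c x * (Ω c x) ^ m) + b c x * (Ω c x) ^ (i + m + 1)
    rw [← pow_add]
    congr 3
    omega
  have hOm := h13 n M Ω H Φ hHS t ht
  have hc2 : EqF (b * Ω ^ (i + m + 1)) (PBK (Φ t) (bet i Ω μ H t * Ω ^ (i + m + 1))) := by
    intro c hc x hx
    have e1 : PBK (Φ t) (bet i Ω μ H t * Ω ^ (i + m + 1)) c x =
        PBK (Φ t) (bet i Ω μ H t) c x * (PBK (Φ t) Ω c x) ^ (i + m + 1) := by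
      unfold PBK
      rw [← map_pow, ← map_mul]
      rfl
    rw [e1, hOm c hc x hx]
    rfl
  -- integration
  have i0 := h16 n M Ω vol hHS.symp hvol K hK _ _ hf0 (MN2_CSmul K _ _ hbCS')
  have i1 := h15 n M Ω vol hHS.symp _ _ K hf1 hK (MN2_CSmul K _ _ (MN2_CSd K hK b hbCS'))
  have i2 := h15 n M Ω vol hHS.symp _ _ K hf2 hK (MN2_CSmul K _ _ hbCS')
  have i3 := h17 n M Ω vol H Φ K (by omega) hHS hvol hK hHK _ hf3 (MN2_CSmul K _ _ hbCS) t ht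
  rw [h5.2 n M Ω _ _ hc1] at i0
  have i4 : ∫ p, dn n Ω (dF b * (μ * Ω ^ m) + b * Ω ^ (i + m + 1)) p ∂vol =
      ∫ p, dn n Ω (dF b * (μ * Ω ^ m)) p ∂vol + ∫ p, dn n Ω (b * Ω ^ (i + m + 1)) p ∂vol := by
    rw [← integral_add i1 i2]
    refine integral_congr_ae (Filter.Eventually.of_forall fun p => ?_)
    exact MN2_dnadd Ω _ _ p
  have i5 : dn n Ω (PBK (Φ t) (Lie (XX Ω H t) μ) * (μ * Ω ^ m)) = dn n Ω (dF b * (μ * Ω ^ m)) := by
    refine h5.2 n M Ω _ _ ?_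
    intro c hc x hx
    change PBK (Φ t) (Lie (XX Ω H t) μ) c x * (μ * Ω ^ m) c x = dF b c x * (μ * Ω ^ m) c x
    rw [hLie c hc x hx]
  rw [h5.2 n M Ω _ _ hc2] at i4
  rw [i5]
  linarith

/-- MN2 -/
theorem p_MN2 (h1 : Stmt_DEG) (h2 : Stmt_CPW) (h3 : Stmt_DDZ) (h4 : Stmt_LBZ) (h5 : Stmt_CNG)
    (h6 : Stmt_FO1) (h7 : Stmt_FO2) (h8 : Stmt_FO3) (h9 : Stmt_HMS) (h10 : Stmt_XHS)
    (h11 : Stmt_PBT) (h12 : Stmt_PBO) (h13 : Stmt_OMI) (h14 : Stmt_OFK) (h15 : Stmt_INT)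
    (h16 : Stmt_STM) (h17 : Stmt_INV) : Stmt_MN2 := by
  intro i m M _ _ _ _ _ _ _ Ω μ vol _ H Φ K hHS hvol hK hHK hμ hdμ t ht
  exact MN2_main h1 h2 h3 h4 h5 h6 h7 h8 h9 h10 h11 h12 h13 h14 h15 h16 h17 (2 * i + 1 + m) i m rfl
    M Ω μ vol H Φ K hHS hvol hK hHK hμ hdμ t ht

end HDC
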