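import Pool.Agent.Work.MP_c3bd4f_hd.Interface

/-!
Block MXP: mixed partial derivatives commute.
-/

set_option autoImplicit false

open scoped ContDiff Manifold Topology
open Set MeasureTheory

noncomputable section

namespace HDC

theorem p_MXP : Stmt_MXP := by
  intro E F _ _ _ _ f t x hf
  have hev : ∀ᶠ q in 𝓝 (t, x), DifferentiableAt ℝ f q := by
    have h1 := hf.eventually (by decide)
    filter_upwards [h1] with q hq
    exact hq.differentiableAt (by decide)
  have hg : DifferentiableAt ℝ (fderiv ℝ f) (t, x) := by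
    have h1 : ContDiffAt ℝ 1 (fderiv ℝ f) (t, x) := hf.fderiv_right (by decide)
    exact h1.differentiableAt (by decide)
  have hsym := hf.isSymmSndFDerivAt (by rw [minSmoothness_of_isRCLikeNormedField])
  set g' := fderiv ℝ (fderiv ℝ f) (t, x) with hg'
  -- the first side
  have hc1 : Filter.Tendsto (fun s : ℝ => (s, x)) (𝓝 t) (𝓝 (t, x)) :=
    (Continuous.prodMk continuous_id continuous_const).continuousAt
  have e1 : (fun s => fderiv ℝ (fun y => f (s, y)) x) =ᶠ[𝓝 t]
      fun s => (fderiv ℝ f (s, x)).comp (ContinuousLinearMap.inr ℝ ℝ E) := by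
    filter_upwards [hc1.eventually hev] with s hs
    have h1 : HasFDerivAt (fun y : E => (s, y)) (ContinuousLinearMap.inr ℝ ℝ E) x := by
      exact hasFDerivAt_prodMk_right s x
    exact (hs.hasFDerivAt.comp x h1).fderiv
  have h2 : HasDerivAt (fun s => (fderiv ℝ f (s, x)).comp (ContinuousLinearMap.inr ℝ ℝ E))
      ((g' (1, 0)).comp (ContinuousLinearMap.inr ℝ ℝ E)) t := by
    have h3 : HasDerivAt (fun s : ℝ => (s, x)) ((1 : ℝ), (0 : E)) t :=
      (hasDerivAt_id t).prodMk (hasDerivAt_const t x)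
    have h4 : HasDerivAt (fun s => fderiv ℝ f (s, x)) (g' (1, 0)) t :=
      hg.hasFDerivAt.comp_hasDerivAt t h3
    have h5 := ((ContinuousLinearMap.compL ℝ E (ℝ × E) F).flip
      (ContinuousLinearMap.inr ℝ ℝ E)).hasFDerivAt.comp_hasDerivAt t h4
    exact h5
  -- the second side
  have hc2 : Filter.Tendsto (fun y : E => (t, y)) (𝓝 x) (𝓝 (t, x)) :=
    (Continuous.prodMk continuous_const continuous_id).continuousAt
  have e2 : (fun y => deriv (fun s => f (s, y)) t) =ᶠ[𝓝 x] fun y => fderiv ℝ f (t, y) (1, 0) := by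
    filter_upwards [hc2.eventually hev] with y hy
    have h3 : HasDerivAt (fun s : ℝ => (s, y)) ((1 : ℝ), (0 : E)) t :=
      (hasDerivAt_id t).prodMk (hasDerivAt_const t y)
    exact (hy.hasFDerivAt.comp_hasDerivAt t h3).deriv
  have h6 : HasFDerivAt (fun y => fderiv ℝ f (t, y) (1, 0))
      ((ContinuousLinearMap.apply ℝ F ((1 : ℝ), (0 : E))).comp (g'.comp (ContinuousLinearMap.inr ℝ ℝ E))) x := by
    have h7 : HasFDerivAt (fun y : E => (t, y)) (ContinuousLinearMap.inr ℝ ℝ E) x :=
      hasFDerivAt_prodMk_right t x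
    have h8 : HasFDerivAt (fun y => fderiv ℝ f (t, y)) (g'.comp (ContinuousLinearMap.inr ℝ ℝ E)) x :=
      hg.hasFDerivAt.comp x h7
    exact (ContinuousLinearMap.apply ℝ F ((1 : ℝ), (0 : E))).hasFDerivAt.comp x h8
  have h9 : fderiv ℝ (fun y => deriv (fun s => f (s, y)) t) x =
      (g' (1, 0)).comp (ContinuousLinearMap.inr ℝ ℝ E) := by
    rw [e2.fderiv_eq, h6.fderiv]
    ext v
    have h10 := hsym.eq ((1 : ℝ), (0 : E)) ((0 : ℝ), v)
    simp only [ContinuousLinearMap.comp_apply, ContinuousLinearMap.inr_apply]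
    exact h10.symm
  rw [h9]
  exact h2.congr_of_eventuallyEq e1

end HDC
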