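import Pool.Agent.Work.MP_c3bd4f_hd.Interface

set_option autoImplicit false

open scoped ContDiff Manifold Topology
open Set MeasureTheory

noncomputable section

namespace HDC

theorem NAT_dxB {N : ℕ} (k : Fin N) (v : EE N) : dxB N k v = v k := by
  unfold dxB
  rw [Module.Basis.dualBasis_apply]
  simp

theorem NAT_vexp {N : ℕ} (v : EE N) : v = ∑ k, dxB N k v • ee k := by
  ext l
  simp only [NAT_dxB, ee]
  simp [Pi.single_apply]

theorem NAT_bexp {N : ℕ} (b : VV N) : io b = ∑ l, b (ee l) • dx l := by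
  have h : b = ∑ l, b (ee l) • dxB N l := by
    apply LinearMap.ext
    intro v
    have h1 : b v = b (∑ k, dxB N k v • ee k) := by rw [← NAT_vexp v]
    rw [h1, map_sum]
    simp only [map_smul, smul_eq_mul, LinearMap.sum_apply, LinearMap.smul_apply]
    exact Finset.sum_congr rfl fun k _ => mul_comm _ _
  conv_lhs => rw [h]
  rw [map_sum]
  simp only [map_smul]
  rfl

theorem NAT_anti {N : ℕ} (a b : VV N) : (io a : Lam N) * io b = -(io b * io a) := by
  have h := ExteriorAlgebra.ι_add_mul_swap (R := ℝ) a b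
  exact eq_neg_of_add_eq_zero_left h

theorem NAT_sym {N : ℕ} (c : Fin N → Fin N → ℝ) (hc : ∀ i l, c i l = c l i) :
    ∑ i, ∑ l, c i l • (dx i * dx l : Lam N) = 0 := by
  have h1 : ∑ i, ∑ l, c i l • (dx i * dx l : Lam N) = -∑ i, ∑ l, c i l • (dx i * dx l : Lam N) := by
    conv_lhs => rw [Finset.sum_comm]
    rw [← Finset.sum_neg_distrib]
    refine Finset.sum_congr rfl fun i _ => ?_
    rw [← Finset.sum_neg_distrib]
    refine Finset.sum_congr rfl fun l _ => ?_
    rw [hc l i, ← smul_neg]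
    congr 1
    exact NAT_anti _ _
  have h2 : (2 : ℝ) • ∑ i, ∑ l, c i l • (dx i * dx l : Lam N) = 0 := by
    rw [two_smul]
    exact add_eq_zero_iff_eq_neg.mpr h1
  exact (smul_eq_zero.mp h2).resolve_left two_ne_zero

theorem p_NAT (hALG : Stmt_ALG) (hPBA : Stmt_PBA) (hDRV : Stmt_DRV) : Stmt_NAT := by
  intro N φ f x hφ hf
  obtain ⟨hcomm, -⟩ := hALG N
  obtain ⟨hpbio, -, -, -, hpbinv⟩ := hPBA N
  obtain ⟨-, -, hD3, hd4, hd5, hd6, hd7⟩ := hDRV N (EE N) x
  have hφ1 : DifferentiableAt ℝ φ x := hφ.differentiableAt (by norm_num)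
  have hA : HasFDerivAt (fderiv ℝ φ) (fderiv ℝ (fderiv ℝ φ) x) x := by
    have h1 : ContDiffAt ℝ 1 (fderiv ℝ φ) x := hφ.fderiv_right (by norm_num)
    exact (h1.differentiableAt (by norm_num)).hasFDerivAt
  have hsym : ∀ v u, fderiv ℝ (fderiv ℝ φ) x v u = fderiv ℝ (fderiv ℝ φ) x u v := by
    have h1 := hφ.isSymmSndFDerivAt (n := 2) (by simp)
    intro v u
    exact h1 v u
  have hff : HasFDerivAt (fun y => f (φ y)) ((fderiv ℝ f (φ x)).comp (fderiv ℝ φ x)) x :=
    hf.hasFDerivAt.comp x hφ1.hasFDerivAt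
  obtain ⟨L, hL, hLv⟩ := hD3 (fderiv ℝ φ) (fun y => f (φ y)) _ _ hA hff
  set A : EE N →L[ℝ] EE N := fderiv ℝ φ x with hAdef
  set A' := fderiv ℝ (fderiv ℝ φ) x with hA'def
  set f' := fderiv ℝ f (φ x) with hf'def
  have hS : ∀ y : Lam N, ∑ i, dx i * dpb A (A' (ee i)) y = 0 := by
    intro y
    induction y using ExteriorAlgebra.induction with
    | algebraMap r => simp only [hd7, mul_zero, Finset.sum_const_zero]
    | ι a =>
      have h1 : ∀ i, dx i * dpb A (A' (ee i)) (io a) =
          ∑ l, a (A' (ee i) (ee l)) • (dx i * dx l : Lam N) := by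
        intro i
        rw [hd4, NAT_bexp, Finset.mul_sum]
        refine Finset.sum_congr rfl fun l _ => ?_
        rw [mul_smul_comm]
        rfl
      have h2 : ∑ i, dx i * dpb A (A' (ee i)) (io a) =
          ∑ i, ∑ l, a (A' (ee i) (ee l)) • (dx i * dx l : Lam N) :=
        Finset.sum_congr rfl fun i _ => h1 i
      exact h2.trans (NAT_sym _ fun i l => by rw [hsym])
    | mul y z hy hz =>
      have h1 : ∀ i, dx i * dpb A (A' (ee i)) (y * z) =
          dx i * dpb A (A' (ee i)) y * pb A z + inv (pb A y) * (dx i * dpb A (A' (ee i)) z) := by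
        intro i
        rw [hd5, mul_add, ← mul_assoc, ← mul_assoc]
        have h2 : dx i * pb A y = inv (pb A y) * dx i := hcomm _ _
        rw [h2, mul_assoc (inv (pb A y))]
      rw [Finset.sum_congr rfl fun i _ => h1 i, Finset.sum_add_distrib, ← Finset.sum_mul,
        ← Finset.mul_sum, hy, hz, zero_mul, mul_zero, add_zero]
    | add y z hy hz =>
      simp only [hd6, mul_add, Finset.sum_add_distrib, hy, hz, add_zero]
  have hLHS : D (fun y => pb (fderiv ℝ φ y) (f (φ y))) x =
      ∑ i, dx i * (dpb A (A' (ee i)) (f (φ x)) + pb A (f' (A (ee i)))) := by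
    unfold D
    rw [hL.fderiv]
    refine Finset.sum_congr rfl fun i _ => ?_
    rw [hLv]
    rfl
  rw [hLHS]
  simp only [mul_add, Finset.sum_add_distrib]
  rw [hS, zero_add]
  have hR : pb A (D f (φ x)) = ∑ k, ∑ i, dxB N k (A (ee i)) • (dx i * pb A (f' (ee k)) : Lam N) := by
    unfold D
    rw [map_sum]
    refine Finset.sum_congr rfl fun k _ => ?_
    rw [map_mul]
    have h1 : pb A (dx k) = io (dxB N k ∘ₗ A.toLinearMap) := hpbio A _
    rw [h1, NAT_bexp, Finset.sum_mul]
    refine Finset.sum_congr rfl fun i _ => ?_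
    rw [smul_mul_assoc]
    rfl
  rw [hR, Finset.sum_comm]
  refine Finset.sum_congr rfl fun i _ => ?_
  have h3 : f' (A (ee i)) = ∑ k, dxB N k (A (ee i)) • f' (ee k) := by
    conv_lhs => rw [NAT_vexp (A (ee i))]
    rw [map_sum]
    simp only [map_smul]
  rw [h3, map_sum, Finset.mul_sum]
  refine Finset.sum_congr rfl fun k _ => ?_
  rw [map_smul, mul_smul_comm]

end HDC
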