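import Pool.Agent.Work.MP_c3bd4f_hd.Interface

set_option autoImplicit false

open scoped ContDiff Manifold Topology
open Set MeasureTheory

noncomputable section

namespace HDC

theorem NCP_ctr_zero {N : ℕ} (w : Lam N) : ctr (0 : EE N) w = 0 := by
  simp [ctr]

theorem NCP_const {N : ℕ} {M : Type} [TopologicalSpace M] [ChartedSpace (EE N) M]
    (hK : CompactSpace M) (Ω : Fam N M) (a : ℝ) :
    IsHam N (fun (_ : ℝ) (_ : M) => a) ∧ Generates Ω (fun (_ : ℝ) (_ : M) => a) id := by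
  refine ⟨⟨contMDiffOn_const, univ, isCompact_univ, fun t _ p hp => absurd (mem_univ p) hp⟩,
    fun _ p => p, ⟨contMDiffOn_snd, fun p => rfl, ?_⟩, rfl⟩
  intro t _ p c _ _
  refine ⟨0, hasDerivWithinAt_const _ _ _, ?_⟩
  rw [NCP_ctr_zero]
  have h1 : fderiv ℝ (fun _ : EE N => a) (c p) = 0 := by simp
  rw [h1]
  simp

theorem p_NCP (hVOL : Stmt_VOL) (hCAL : Stmt_CAL) : Stmt_NCP := by
  intro i m M _ _ _ _ _ _ _ _ Ω μ vol _ hΩ hvol hμ hdμ K hK
  by_contra hcon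
  push Not at hcon
  have hKu : K = univ := eq_univ_of_forall hcon
  have hcomp : CompactSpace M := ⟨hKu ▸ hK⟩
  obtain ⟨h1a, h1b⟩ := NCP_const (N := 2 * (2 * i + 1 + m)) hcomp Ω 1
  obtain ⟨h0a, h0b⟩ := NCP_const (N := 2 * (2 * i + 1 + m)) hcomp Ω 0
  have e1 := hCAL i m M Ω μ vol _ id hΩ hvol hμ hdμ h1a h1b
  have e0 := hCAL i m M Ω μ vol _ id hΩ hvol hμ hdμ h0a h0b
  have e2 : Cal vol (fun (_ : ℝ) (_ : M) => (1 : ℝ)) = Cal vol (fun (_ : ℝ) (_ : M) => (0 : ℝ)) :=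
    e1.trans e0.symm
  have e3 : Cal vol (fun (_ : ℝ) (_ : M) => (1 : ℝ)) = (vol univ).toReal := by
    simp [Cal, Measure.real]
  have e4 : Cal vol (fun (_ : ℝ) (_ : M) => (0 : ℝ)) = 0 := by
    simp [Cal]
  have hpos : 0 < vol (univ : Set M) := (hVOL _ M Ω vol hΩ hvol).1 univ isOpen_univ univ_nonempty
  have h5 : 0 < (vol (univ : Set M)).toReal := ENNReal.toReal_pos hpos.ne' (measure_ne_top _ _)
  rw [e3, e4] at e2
  exact h5.ne' e2

end HDC
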