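import Pool.Agent.Work.MP_c3bd4f_hd.Interface

set_option autoImplicit false

/-! # Block NDG -/

open scoped ContDiff Manifold Topology
open Set MeasureTheory

noncomputable section

namespace HDC

theorem NDG_inv_io {N : ℕ} (a : VV N) : inv (io a : Lam N) = -io a :=
  CliffordAlgebra.involute_ι a

theorem NDG_anti {N : ℕ} (hALG : Stmt_ALG) (a b : VV N) :
    (io a : Lam N) * io b = -(io b * io a) := by
  rw [(hALG N).1 a (io b), NDG_inv_io, neg_mul]

theorem NDG_sum {N : ℕ} (a : VV N) : ∑ i : Fin N, a (ee i) • dx i = (io a : Lam N) := by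
  have h : ∑ i : Fin N, a (ee i) • dxB N i = a := by
    have h1 := (EuclideanSpace.basisFun (Fin N) ℝ).toBasis.sum_dual_apply_smul_coord a
    have h2 : ∀ i, (EuclideanSpace.basisFun (Fin N) ℝ).toBasis i = ee i := by
      intro i
      simp [ee]
    rw [← h1]
    refine Finset.sum_congr rfl fun i _ => ?_
    rw [h1, h2 i]
    congr 1
    simp [dxB]
  conv_rhs => rw [← h]
  rw [map_sum]
  refine Finset.sum_congr rfl fun i _ => ?_
  rw [map_smul]
  rfl

theorem NDG_euler (hALG : Stmt_ALG) (hDEG : Stmt_DEG) (N : ℕ) : ∀ (k : ℕ) (x : Lam N),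
    x ∈ ⋀[ℝ]^k (VV N) → ∑ i : Fin N, dx i * ctr (ee i) x = (k : ℝ) • x := by
  intro k
  induction k with
  | zero =>
    intro x hx
    have h1 : ∀ i : Fin N, dx i * ctr (ee i) x = 0 := by
      intro i
      rw [(hDEG N).2.2.1 x (ee i) hx, mul_zero]
    simp [h1]
  | succ k ih =>
    intro x hx
    have hx' : x ∈ LinearMap.range (ExteriorAlgebra.ι ℝ (M := VV N)) * ⋀[ℝ]^k (VV N) := by
      have h0 : ⋀[ℝ]^(k + 1) (VV N) =
          LinearMap.range (ExteriorAlgebra.ι ℝ (M := VV N)) * ⋀[ℝ]^k (VV N) := pow_succ' _ _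
      rw [← h0]
      exact hx
    refine Submodule.mul_induction_on hx' ?_ ?_
    · rintro _ ⟨a, rfl⟩ y hy
      have h1 : ∀ i : Fin N, dx i * ctr (ee i) (ExteriorAlgebra.ι ℝ a * y) =
          (a (ee i) • dx i) * y + io a * (dx i * ctr (ee i) y) := by
        intro i
        have h2 := (hALG N).2.1 (ee i) (io a) y
        have h3 := (hALG N).2.2.1 (ee i) a
        rw [h3, NDG_inv_io] at h2
        have h4 : ctr (ee i) (ExteriorAlgebra.ι ℝ a * y) =
            algebraMap ℝ (Lam N) (a (ee i)) * y + -io a * ctr (ee i) y := h2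
        rw [h4, mul_add, Algebra.smul_def, neg_mul, mul_neg, ← mul_assoc, ← mul_assoc, ← mul_assoc]
        have h5 : (dx i : Lam N) * io a = -(io a * dx i) := NDG_anti hALG (dxB N i) a
        rw [h5, neg_mul, neg_neg]
        congr 2
        exact (Algebra.commutes _ _).symm
      rw [Finset.sum_congr rfl fun i _ => h1 i, Finset.sum_add_distrib, ← Finset.sum_mul,
        ← Finset.mul_sum, NDG_sum, ih y hy, mul_smul_comm]
      push_cast
      rw [add_smul, one_smul, add_comm]
    · intro x y hx hy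
      simp only [map_add, mul_add, Finset.sum_add_distrib, smul_add]
      rw [hx, hy]

theorem NDG_mem {N : ℕ} (w : Lam N) (hw : w ∈ ⋀[ℝ]^2 (VV N)) (k : ℕ) :
    w ^ k ∈ ⋀[ℝ]^(2 * k) (VV N) := by
  have h := SetLike.pow_mem_graded (A := fun i : ℕ => ⋀[ℝ]^i (VV N)) k hw
  have h2 : k • 2 = 2 * k := by rw [smul_eq_mul, mul_comm]
  rw [h2] at h
  exact h

theorem NDG_pow (hALG : Stmt_ALG) (hDEG : Stmt_DEG) (hCPW : Stmt_CPW) (n : ℕ) (w : Lam (2 * n))
    (hw : Nd w) : ∀ k, k ≤ n → w ^ k ≠ 0 := by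
  intro k
  induction k with
  | zero =>
    intro _
    rw [pow_zero]
    exact one_ne_zero
  | succ k ih =>
    intro hk h0
    have hk1 := ih (by omega)
    have hc : ∀ v, ctr v w * w ^ k = 0 := by
      intro v
      have h1 := (hCPW (2 * n) w hw.1).2 v k
      rw [h0, map_zero] at h1
      have h2 : ((k : ℝ) + 1) ≠ 0 := by positivity
      exact (smul_eq_zero.mp h1.symm).resolve_left h2
    let F : EE (2 * n) →ₗ[ℝ] VV (2 * n) :=
      { toFun := fun v => ExteriorAlgebra.ιInv (ctr v w)
        map_add' := by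
          intro u v
          rw [(hALG (2 * n)).2.2.2.2.2.1 u v w, map_add]
        map_smul' := by
          intro r v
          rw [(hALG (2 * n)).2.2.2.2.2.2 r v w, map_smul]
          rfl }
    have hF : ∀ v, io (F v) = ctr v w := by
      intro v
      have h1 : ctr v w ∈ ⋀[ℝ]^1 (VV (2 * n)) := (hDEG (2 * n)).2.1 1 w v hw.1
      have h2 : ctr v w ∈ LinearMap.range (ExteriorAlgebra.ι ℝ (M := VV (2 * n))) := by
        have h0 : ⋀[ℝ]^1 (VV (2 * n)) =
          LinearMap.range (ExteriorAlgebra.ι ℝ (M := VV (2 * n))) := pow_one _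
        rw [← h0]
        exact h1
      obtain ⟨a, ha⟩ := h2
      change io (ExteriorAlgebra.ιInv (ctr v w)) = ctr v w
      rw [← ha, ExteriorAlgebra.ι_leftInverse a]
    have hinj : Function.Injective F := by
      rw [injective_iff_map_eq_zero]
      intro v hv
      apply hw.2
      rw [← hF v, hv, map_zero]
    have hfr : Module.finrank ℝ (EE (2 * n)) = Module.finrank ℝ (VV (2 * n)) :=
      (Subspace.dual_finrank_eq).symm
    have hsurj : Function.Surjective F :=
      (LinearMap.injective_iff_surjective_of_finrank_eq_finrank hfr).mp hinj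
    have hall : ∀ a : VV (2 * n), (io a : Lam (2 * n)) * w ^ k = 0 := by
      intro a
      obtain ⟨v, rfl⟩ := hsurj a
      rw [hF v]
      exact hc v
    have hcon : ∀ (a : VV (2 * n)) (v : EE (2 * n)),
        a v • w ^ k = io a * ctr v (w ^ k) := by
      intro a v
      have h1 := (hALG (2 * n)).2.1 v (io a) (w ^ k)
      rw [hall a, map_zero, (hALG (2 * n)).2.2.1 v a, NDG_inv_io, ← Algebra.smul_def, neg_mul] at h1
      exact (sub_eq_zero.mp (by rw [sub_eq_add_neg]; exact h1.symm))
    have he := NDG_euler hALG hDEG (2 * n) (2 * k) (w ^ k) (NDG_mem w hw.1 k)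
    have hs : ∑ i : Fin (2 * n), dx i * ctr (ee i) (w ^ k) = ((2 * n : ℕ) : ℝ) • w ^ k := by
      have h1 : ∀ i : Fin (2 * n), dx i * ctr (ee i) (w ^ k) = w ^ k := by
        intro i
        have h2 := hcon (dxB (2 * n) i) (ee i)
        have h3 : (dxB (2 * n) i) (ee i) = 1 := by
          have h4 : (EuclideanSpace.basisFun (Fin (2 * n)) ℝ).toBasis i = ee i := by
            simp [ee]
          rw [← h4]
          unfold dxB
          rw [Module.Basis.dualBasis_apply_self]
          simp
        rw [h3, one_smul] at h2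
        exact h2.symm
      rw [Finset.sum_congr rfl fun i _ => h1 i, Finset.sum_const, Finset.card_univ, Fintype.card_fin,
        Nat.cast_smul_eq_nsmul]
    rw [hs] at he
    have h5 : (((2 * n : ℕ) : ℝ) - ((2 * k : ℕ) : ℝ)) • w ^ k = 0 := by
      rw [sub_smul, he, sub_self]
    rcases smul_eq_zero.mp h5 with h6 | h6
    · have h7 : ((2 * n : ℕ) : ℝ) = ((2 * k : ℕ) : ℝ) := sub_eq_zero.mp h6
      have h8 : 2 * n = 2 * k := by exact_mod_cast h7
      omega
    · exact hk1 h6

theorem p_NDG (hALG : Stmt_ALG) (hDEG : Stmt_DEG) (hTOP : Stmt_TOP) (hCPW : Stmt_CPW) :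
    Stmt_NDG := by
  intro n w hw h
  exact NDG_pow hALG hDEG hCPW n w hw n le_rfl
    ((hTOP (2 * n)).2.2 (w ^ n) (NDG_mem w hw.1 n) h)

end HDC
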