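import Pool.Agent.Work.MP_c3bd4f_hd.Interface

set_option autoImplicit false

open scoped ContDiff Manifold Topology
open Set MeasureTheory

noncomputable section

namespace HDC

/-- A curve with zero velocity in the chart stays where it is. -/
theorem OFK_const {E : Type} [NormedAddCommGroup E] [NormedSpace ℝ E] (g : ℝ → E) (a b : ℝ)
    (ha : 0 ≤ a) (hab : a < b) (hb : b ≤ 1)
    (h : ∀ s ∈ Icc a b, HasDerivWithinAt g 0 (Icc 0 1) s) : g b = g a := by
  have hsub : Icc a b ⊆ Icc (0 : ℝ) 1 := Icc_subset_Icc ha hb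
  have h1 : ∀ s ∈ Icc a b, HasDerivWithinAt g 0 (Icc a b) s := fun s hs => (h s hs).mono hsub
  exact constant_of_derivWithin_zero (fun s hs => (h1 s hs).differentiableWithinAt)
    (fun s hs => (h1 s ⟨hs.1, hs.2.le⟩).derivWithin
      (uniqueDiffOn_Icc hab s ⟨hs.1, hs.2.le⟩)) b ⟨hab.le, le_rfl⟩

theorem p_OFK (hXHS : Stmt_XHS) (hPHL : Stmt_PHL) (hPBX : Stmt_PBX) (hPBA : Stmt_PBA) :
    Stmt_OFK := by
  intro n M _ _ _ _ Ω H Φ K hHS hK hsupp
  obtain ⟨-, hX2, hX3⟩ := hXHS (2 * n) M Ω H hHS.symp.form hHS.symp.nondeg hHS.ham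
  have hFl : Flw (XX Ω H) Φ := hX3 Φ hHS.iso
  have hKo : IsOpen Kᶜ := hK.isClosed.isOpen_compl
  -- near a point outside of `K`
  have hnear : ∀ c ∈ atlas (EE (2 * n)) M, ∀ x ∈ c.target, c.symm x ∉ K →
      ∀ᶠ y in 𝓝 x, y ∈ c.target ∧ c.symm y ∉ K := by
    intro c _ x hx hxK
    exact (c.open_target.eventually_mem hx).and
      ((c.continuousAt_symm hx).eventually_mem (hKo.mem_nhds hxK))
  have h3 : ∀ t ∈ Icc (0 : ℝ) 1, ∀ c ∈ atlas (EE (2 * n)) M, ∀ x ∈ c.target, c.symm x ∉ K →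
      XX Ω H t c x = 0 := by
    intro t ht c hc x hx hxK
    apply hHS.symp.nondeg c hc x hx
    rw [hX2 t ht c hc x hx]
    have h1 : (fun y => H t (c.symm y)) =ᶠ[𝓝 x] fun _ => (0 : ℝ) := by
      filter_upwards [hnear c hc x hx hxK] with y hy
      exact hsupp t ht _ hy.2
    rw [h1.fderiv_eq]
    simp
  have hcont := (hPHL (2 * n) M Φ hFl.smooth).1
  have h1 : ∀ t ∈ Icc (0 : ℝ) 1, ∀ p ∉ K, Φ t p = p := by
    intro t ht p hp
    have hct : ContinuousOn (fun s : ℝ => Φ s p) (Icc 0 1) := by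
      have h2 : ContinuousOn (fun s : ℝ => (s, p)) (Icc 0 1) := by fun_prop
      exact hcont.comp h2 (fun s hs => ⟨hs, mem_univ _⟩)
    have hcl : IsClosed ({s : ℝ | Φ s p = p} ∩ Icc 0 1) := by
      have h2 := hct.preimage_isClosed_of_isClosed isClosed_Icc (isClosed_singleton (x := p))
      rw [inter_comm] at h2
      exact h2
    refine hcl.Icc_subset_of_forall_mem_nhdsWithin (hFl.zero p) ?_ ht
    rintro t0 ⟨ht0, ht01⟩
    have ht0' : Φ t0 p = p := ht0
    have ht0I : t0 ∈ Icc (0 : ℝ) 1 := ⟨ht01.1, ht01.2.le⟩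
    obtain ⟨c, hcdef⟩ : ∃ c : OpenPartialHomeomorph M (EE (2 * n)),
      c = chartAt (EE (2 * n)) p := ⟨_, rfl⟩
    have hc : c ∈ atlas (EE (2 * n)) M := by rw [hcdef]; exact chart_mem_atlas _ _
    have hpc : p ∈ c.source := by rw [hcdef]; exact mem_chart_source _ _
    have hW : c.source ∩ Kᶜ ∈ 𝓝 (Φ t0 p) := by
      rw [ht0']
      exact (c.open_source.inter hKo).mem_nhds ⟨hpc, hp⟩
    have hev : ∀ᶠ s in 𝓝[Icc 0 1] t0, Φ s p ∈ c.source ∩ Kᶜ := hct t0 ht0I hW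
    obtain ⟨ε, hε, hball⟩ := Metric.mem_nhdsWithin_iff.1 hev
    have hmem : Ioo t0 (min (t0 + ε) 1) ∈ 𝓝[>] t0 :=
      Ioo_mem_nhdsGT (lt_min (by linarith) ht01.2)
    filter_upwards [hmem] with s hs
    have hs1 : s < t0 + ε := lt_of_lt_of_le hs.2 (min_le_left _ _)
    have hs2 : s < 1 := lt_of_lt_of_le hs.2 (min_le_right _ _)
    have hin : ∀ u ∈ Icc t0 s, Φ u p ∈ c.source ∩ Kᶜ := by
      intro u hu
      apply hball
      refine ⟨?_, le_trans ht01.1 hu.1, by linarith [hu.2]⟩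
      rw [Metric.mem_ball, Real.dist_eq, abs_lt]
      constructor <;> linarith [hu.1, hu.2]
    have hconst : c (Φ s p) = c (Φ t0 p) := by
      refine OFK_const (fun u => c (Φ u p)) t0 s ht01.1 hs.1 hs2.le ?_
      intro u hu
      have huI : u ∈ Icc (0 : ℝ) 1 := ⟨le_trans ht01.1 hu.1, by linarith [hu.2]⟩
      obtain ⟨hus, huK⟩ := hin u hu
      have h4 := hFl.ode u huI p c hc hus
      rw [h3 u huI c hc (c (Φ u p)) (c.map_source hus) (by rw [c.left_inv hus]; exact huK)] at h4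
      exact h4
    have h5 := c.injOn (hin s ⟨hs.1.le, le_rfl⟩).1 (hin t0 ⟨le_rfl, hs.1.le⟩).1 hconst
    show Φ s p = p
    rw [h5, ht0']
  refine ⟨h1, ?_, h3, ?_⟩
  · intro t ht k f hf c hc x hx hxK
    have hΦx : Φ t (c.symm x) = c.symm x := h1 t ht _ hxK
    rw [hPBX (2 * n) M Φ k f hFl.smooth hf t ht c hc c hc x hx
      (by rw [hΦx]; exact c.map_target hx)]
    have h2 : (fun y => c (Φ t (c.symm y))) =ᶠ[𝓝 x] fun y => y := by
      filter_upwards [hnear c hc x hx hxK] with y hy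
      rw [h1 t ht _ hy.2, c.right_inv hy.1]
    rw [h2.fderiv_eq, hΦx, c.right_inv hx]
    have h3' : fderiv ℝ (fun y : EE (2 * n) => y) x = ContinuousLinearMap.id ℝ (EE (2 * n)) :=
      fderiv_fun_id
    rw [h3']
    exact (hPBA (2 * n)).2.2.1 _
  · intro t ht f c hc x hx hxK
    have h2 : (fun y => ctr (XX Ω H t c y) (f c y)) =ᶠ[𝓝 x] fun _ => (0 : Lam (2 * n)) := by
      filter_upwards [hnear c hc x hx hxK] with y hy
      rw [h3 t ht c hc y hy.1 hy.2]
      simp [ctr]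
    have h4 : D (fun y => ctr (XX Ω H t c y) (f c y)) x = 0 := by
      unfold D
      rw [h2.fderiv_eq]
      simp
    show D (fun y => ctr (XX Ω H t c y) (f c y)) x + ctr (XX Ω H t c x) (D (f c) x) = 0
    rw [h4, h3 t ht c hc x hx hxK]
    simp [ctr]

end HDC
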