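import Pool.Agent.Work.MP_c3bd4f_hd.Interface

set_option autoImplicit false

open scoped ContDiff Manifold Topology
open Set MeasureTheory

noncomputable section

namespace HDC

theorem OMI_const {E : Type*} [NormedAddCommGroup E] [NormedSpace ℝ E] (g : ℝ → E)
    (hc : ContinuousOn g (Icc 0 1)) (hd : ∀ t ∈ Ioo (0 : ℝ) 1, HasDerivAt g 0 t) :
    ∀ t ∈ Icc (0 : ℝ) 1, g t = g 0 := by
  intro t ht
  rcases eq_or_lt_of_le ht.1 with h0 | h0
  · rw [← h0]
  · have h1 : ∀ ε ∈ Ioo (0 : ℝ) t, g t = g ε := by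
      intro ε hε
      refine constant_of_has_deriv_right_zero (f := g) (a := ε) (b := t)
        (hc.mono (Icc_subset_Icc hε.1.le ht.2)) ?_ t ⟨hε.2.le, le_rfl⟩
      intro s hs
      exact (hd s ⟨lt_of_lt_of_le hε.1 hs.1, lt_of_lt_of_le hs.2 ht.2⟩).hasDerivWithinAt
    have h2 : Filter.Tendsto g (𝓝[Ioo 0 t] 0) (𝓝 (g 0)) := by
      have h3 := hc 0 ⟨le_rfl, zero_le_one⟩
      exact h3.mono_left (nhdsWithin_mono _ (fun s hs => ⟨hs.1.le, hs.2.le.trans ht.2⟩))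
    have h4 : Filter.Tendsto g (𝓝[Ioo 0 t] 0) (𝓝 (g t)) := by
      refine tendsto_const_nhds.congr' ?_
      filter_upwards [self_mem_nhdsWithin] with ε hε
      exact h1 ε hε
    have : (𝓝[Ioo 0 t] (0 : ℝ)).NeBot := by
      rw [nhdsWithin_Ioo_eq_nhdsGT h0]
      infer_instance
    exact tendsto_nhds_unique h4 h2

theorem OMI_slice {N : ℕ} (G : ℝ → EE N → Lam N) (S : Set (EE N)) (x : EE N) (hx : x ∈ S)
    (h : ContDiffOn ℝ ∞ (fun q : ℝ × EE N => G q.1 q.2) (Icc 0 1 ×ˢ S)) :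
    ContinuousOn (fun s => G s x) (Icc 0 1) := by
  have hm : Continuous (fun s : ℝ => ((s, x) : ℝ × EE N)) := by fun_prop
  have h2 := ContinuousOn.comp (g := fun q : ℝ × EE N => G q.1 q.2)
    (f := fun s : ℝ => ((s, x) : ℝ × EE N)) (s := Icc 0 1) (t := Icc 0 1 ×ˢ S)
    h.continuousOn hm.continuousOn (fun s hs => ⟨hs, hx⟩)
  exact h2

theorem OMI_zero {N : ℕ} {M : Type} [TopologicalSpace M] [ChartedSpace (EE N) M] (φ : M → M)
    (c : OpenPartialHomeomorph M (EE N)) (x : EE N) : PBK φ (0 : Fam N M) c x = 0 := by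
  unfold PBK
  have h : (0 : Fam N M) (chartAt (EE N) (φ (c.symm x)))
      (chartAt (EE N) (φ (c.symm x)) (φ (c.symm x))) = (0 : Lam N) := rfl
  rw [h]
  exact (pb _).toLinearMap.map_zero

theorem p_OMI (hDDZ : Stmt_DDZ) (hCNG : Stmt_CNG) (hFO2 : Stmt_FO2) (hHMS : Stmt_HMS)
    (hXHS : Stmt_XHS) (hPBT : Stmt_PBT) (hPBO : Stmt_PBO) (hTDF : Stmt_TDF) : Stmt_OMI := by
  intro n M _ _ _ Ω H Φ hS
  have hsm : SmI (2 * n) Φ := hS.iso.smooth
  obtain ⟨hTVF, hX, hFl⟩ := hXHS (2 * n) M Ω H hS.symp.form hS.symp.nondeg hS.ham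
  have hFlw := hFl Φ hS.iso
  obtain ⟨hH1, -, hH3⟩ := hHMS (2 * n) M H hS.ham
  have hLie : ∀ t ∈ Icc (0 : ℝ) 1, EqF (Lie (XX Ω H t) Ω) 0 := by
    intro t ht
    have e1 : EqF (cF (XX Ω H t) Ω) (dF (hF (2 * n) (H t))) := by
      intro c hc x hx
      have hd : DifferentiableAt ℝ (fun y => H t (c.symm y)) x := by
        have h5 : ContDiffOn ℝ ∞ (fun y => H t (c.symm y)) c.target := by
          have hm : ContDiff ℝ ∞ (fun y : EE (2 * n) => ((t, y) : ℝ × EE (2 * n))) :=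
            contDiff_const.prodMk contDiff_id
          exact (hH1 c hc).comp hm.contDiffOn (fun y hy => ⟨ht, hy⟩)
        exact (h5.contDiffAt (c.open_target.mem_nhds hx)).differentiableAt (by simp)
      have h6 := (hDDZ (2 * n)).2 (fun y => H t (c.symm y)) x hd
      change ctr (XX Ω H t c x) (Ω c x) = D (fun y => algebraMap ℝ (Lam (2 * n)) (H t (c.symm y))) x
      rw [h6, hX t ht c hc x hx]
    have e2 := (hCNG.1 (2 * n) M _ _ e1).1
    intro c hc x hx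
    have h7 : dF (dF (hF (2 * n) (H t))) c x = 0 := by
      have h8 : ContDiffAt ℝ ∞ (hF (2 * n) (H t) c) x :=
        ((hH3.form t ht).smooth c hc).contDiffAt (c.open_target.mem_nhds hx)
      exact (hDDZ (2 * n)).1 _ x (by exact_mod_cast contDiffAt_infty.mp h8 2)
    have h9 : cF (XX Ω H t) (dF Ω) c x = 0 := by
      have h10 : dF Ω c x = (0 : Lam (2 * n)) := hS.symp.closed c hc x hx
      change ctr (XX Ω H t c x) (dF Ω c x) = 0
      rw [h10]
      exact LinearMap.map_zero (ctr (XX Ω H t c x))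
    change dF (cF (XX Ω H t) Ω) c x + cF (XX Ω H t) (dF Ω) c x = 0
    rw [e2 c hc x hx, h7, h9, add_zero]
  intro t ht c hc x hx
  have hT : TForm 2 (fun s => PBK (Φ s) Ω) :=
    hPBT (2 * n) M Φ 2 (fun _ => Ω) hsm ((hFO2 (2 * n) M).2.2.2.1 2 Ω hS.symp.form)
  have hcont : ContinuousOn (fun s => PBK (Φ s) Ω c x) (Icc 0 1) := by
    have h11 : ContDiffOn ℝ ∞ (fun q : ℝ × EE (2 * n) => PBK (Φ q.1) Ω c q.2)
      (Icc 0 1 ×ˢ c.target) := hT.smooth c hc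
    exact OMI_slice (fun s => PBK (Φ s) Ω c) c.target x hx h11
  have hd : ∀ s ∈ Ioo (0 : ℝ) 1, HasDerivAt (fun s => PBK (Φ s) Ω c x) 0 s := by
    intro s hs
    have h1 := hTDF (2 * n) M (XX Ω H) Φ 2 Ω hTVF hFlw hS.symp.form c hc x hx s hs
    have h2 : PBK (Φ s) (Lie (XX Ω H s) Ω) c x = 0 := by
      rw [(hCNG.1 (2 * n) M _ _ (hLie s ⟨hs.1.le, hs.2.le⟩)).2.1 (Φ s) c hc x hx]
      exact OMI_zero (Φ s) c x
    rw [h2] at h1
    exact h1
  have h3 := OMI_const _ hcont hd t ht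
  rw [h3]
  exact (hPBO (2 * n) M Φ 2 Ω hsm hS.iso.zero hS.symp.form).2 c hc x hx

end HDC
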