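import Pool.Agent.Work.MP_c3bd4f_hd.Interface

set_option autoImplicit false

/-! # Block PBA (typed by helper12) -/

open scoped ContDiff Manifold Topology
open Set MeasureTheory

noncomputable section

namespace HDC

theorem PBA_io {N : ℕ} (A : EE N →L[ℝ] EE N) (a : VV N) :
    pb A (io a) = io (a ∘ₗ A.toLinearMap) := by
  show ExteriorAlgebra.map A.toLinearMap.dualMap (ExteriorAlgebra.ι ℝ a) = _
  rw [ExteriorAlgebra.map_apply_ι]
  rfl

theorem PBA_sc {N : ℕ} (A : EE N →L[ℝ] EE N) (r : ℝ) :
    pb A (algebraMap ℝ (Lam N) r) = algebraMap ℝ (Lam N) r := (pb A).commutes r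

theorem PBA_inv {N : ℕ} (A : EE N →L[ℝ] EE N) (x : Lam N) : pb A (inv x) = inv (pb A x) := by
  have h0 : ∀ a : VV N, inv (io a) = -(io a : Lam N) := fun a => CliffordAlgebra.involute_ι a
  induction x using ExteriorAlgebra.induction with
  | algebraMap r =>
    rw [PBA_sc, AlgHom.commutes, PBA_sc]
  | ι a =>
    show pb A (inv (io a)) = inv (pb A (io a))
    rw [h0, map_neg, PBA_io, h0]
  | mul x y hx hy => rw [map_mul, map_mul, map_mul, map_mul, hx, hy]
  | add x y hx hy => rw [map_add, map_add, map_add, map_add, hx, hy]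

theorem p_PBA (hA : Stmt_ALG) : Stmt_PBA := by
  intro N
  obtain ⟨-, h2, h3, h4, -, -, -⟩ := hA N
  refine ⟨PBA_io, fun A B x => ?_, fun x => ?_, fun A v x => ?_, PBA_inv⟩
  · have e : (A.comp B).toLinearMap.dualMap =
        B.toLinearMap.dualMap ∘ₗ A.toLinearMap.dualMap := rfl
    show ExteriorAlgebra.map (A.comp B).toLinearMap.dualMap x =
      ExteriorAlgebra.map B.toLinearMap.dualMap (ExteriorAlgebra.map A.toLinearMap.dualMap x)
    rw [e, ← ExteriorAlgebra.map_comp_map]
    rfl
  · have e : (ContinuousLinearMap.id ℝ (EE N)).toLinearMap.dualMap = LinearMap.id := rfl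
    show ExteriorAlgebra.map (ContinuousLinearMap.id ℝ (EE N)).toLinearMap.dualMap x = x
    rw [e, ExteriorAlgebra.map_id]
    rfl
  · induction x using ExteriorAlgebra.induction with
    | algebraMap r => rw [PBA_sc, h4, h4, map_zero]
    | ι a =>
      show pb A (ctr (A v) (io a)) = ctr v (pb A (io a))
      rw [h3, PBA_sc, PBA_io, h3]
      rfl
    | mul x y hx hy =>
      rw [h2, map_add, map_mul, map_mul, map_mul, hx, hy, h2, PBA_inv]
    | add x y hx hy => rw [map_add, map_add, map_add, map_add, hx, hy]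

end HDC
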