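import Pool.Agent.Work.MP_c3bd4f_hd.Interface

set_option autoImplicit false

open scoped ContDiff Manifold Topology
open Set MeasureTheory

noncomputable section

namespace HDC

theorem PBO_near (hPDL : Stmt_PDL) (hPHL : Stmt_PHL) {N : ℕ} {M : Type} [TopologicalSpace M]
    [ChartedSpace (EE N) M] [IsManifold 𝓘(ℝ, EE N) ∞ M] {Φ : ℝ → M → M} (hΦ : SmI N Φ)
    {t : ℝ} (ht : t ∈ Icc (0 : ℝ) 1) {c c' : OpenPartialHomeomorph M (EE N)}
    (hc : c ∈ atlas (EE N) M) (hc' : c' ∈ atlas (EE N) M) {x : EE N} (hx : x ∈ c.target)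
    (hs : Φ t (c.symm x) ∈ c'.source) :
    ContDiffAt ℝ ∞ (fun y => c' (Φ t (c.symm y))) x ∧
      ∀ᶠ y in 𝓝 x, y ∈ c.target ∧ Φ t (c.symm y) ∈ c'.source := by
  obtain ⟨⟨U, hU, hSS⟩, hsm⟩ := (hPHL N M Φ hΦ).2 c hc c' hc'
  have hmem : (t, x) ∈ (Icc (0 : ℝ) 1 ×ˢ (univ : Set (EE N))) ∩ U := by
    rw [← hSS]
    exact ⟨ht, hx, hs⟩
  constructor
  · rw [hSS] at hsm
    exact (hPDL (EE N) (EE N) (fun q : ℝ × EE N => c' (Φ q.1 (c.symm q.2))) U hU hsm).1 (t, x) hmem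
  · have h1 : ∀ᶠ y in 𝓝 x, (t, y) ∈ U := by
      have hcont : Continuous fun y : EE N => ((t, y) : ℝ × EE N) := by fun_prop
      exact hcont.continuousAt.eventually_mem (hU.mem_nhds hmem.2)
    filter_upwards [h1] with y hy
    have : (t, y) ∈ SS Φ c c' := by
      rw [hSS]
      exact ⟨⟨ht, mem_univ _⟩, hy⟩
    exact ⟨this.2.1, this.2.2⟩

theorem p_PBO (hPBA : Stmt_PBA) (hNAT : Stmt_NAT) (hPDL : Stmt_PDL) (hPHL : Stmt_PHL)
    (hPBX : Stmt_PBX) : Stmt_PBO := by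
  intro N M _ _ _ Φ k f hΦ hΦ0 hf
  constructor
  · intro t ht c hc x hx
    set q : M := Φ t (c.symm x) with hq
    have hq1 : q ∈ (chartAt (EE N) q).source := mem_chart_source _ _
    have hc1 : chartAt (EE N) q ∈ atlas (EE N) M := chart_mem_atlas _ _
    obtain ⟨h1, h2⟩ := PBO_near hPDL hPHL hΦ ht hc hc1 hx hq1
    have h3 : (fun y => PBK (Φ t) f c y) =ᶠ[𝓝 x] fun y =>
        pb (fderiv ℝ (fun z => chartAt (EE N) q (Φ t (c.symm z))) y)
          (f (chartAt (EE N) q) (chartAt (EE N) q (Φ t (c.symm y)))) := by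
      filter_upwards [h2] with y hy
      exact hPBX N M Φ k f hΦ hf t ht c hc (chartAt (EE N) q) hc1 y hy.1 hy.2
    have hfd : DifferentiableAt ℝ (f (chartAt (EE N) q)) (chartAt (EE N) q (Φ t (c.symm x))) :=
      ((hf.smooth _ hc1).contDiffAt ((chartAt (EE N) q).open_target.mem_nhds
        (mem_chart_target (EE N) q))).differentiableAt (by simp)
    have h4 := hNAT N (fun z => chartAt (EE N) q (Φ t (c.symm z))) (f (chartAt (EE N) q)) x
      (by exact_mod_cast contDiffAt_infty.mp h1 2) hfd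
    change D (fun y => PBK (Φ t) f c y) x =
      pb (fderiv ℝ (fun y => chartAt (EE N) q (Φ t (c.symm y))) x)
        (D (f (chartAt (EE N) q)) (chartAt (EE N) q q))
    refine Eq.trans ?_ h4
    unfold D
    rw [h3.fderiv_eq]
  · intro c hc x hx
    have h0 : (0 : ℝ) ∈ Icc (0 : ℝ) 1 := ⟨le_rfl, zero_le_one⟩
    have hs : Φ 0 (c.symm x) ∈ c.source := by
      rw [hΦ0]
      exact c.map_target hx
    rw [hPBX N M Φ k f hΦ hf 0 h0 c hc c hc x hx hs]
    have h1 : (fun y => c (Φ 0 (c.symm y))) =ᶠ[𝓝 x] fun y => y := by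
      filter_upwards [c.open_target.mem_nhds hx] with y hy
      rw [hΦ0, c.right_inv hy]
    have h2 : fderiv ℝ (fun y => c (Φ 0 (c.symm y))) x = ContinuousLinearMap.id ℝ (EE N) := by
      rw [h1.fderiv_eq]
      exact fderiv_fun_id
    rw [h2, (hPBA N).2.2.1, h1.eq_of_nhds]

end HDC
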