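import Pool.Agent.Work.MP_c3bd4f_hd.Interface

set_option autoImplicit false

open scoped ContDiff Manifold Topology
open Set MeasureTheory

noncomputable section

namespace HDC

theorem PBX_near (hPDL : Stmt_PDL) (hPHL : Stmt_PHL) {N : ℕ} {M : Type} [TopologicalSpace M]
    [ChartedSpace (EE N) M] [IsManifold 𝓘(ℝ, EE N) ∞ M] {Φ : ℝ → M → M} (hΦ : SmI N Φ)
    {t : ℝ} (ht : t ∈ Icc (0 : ℝ) 1) {c c' : OpenPartialHomeomorph M (EE N)}
    (hc : c ∈ atlas (EE N) M) (hc' : c' ∈ atlas (EE N) M) {x : EE N} (hx : x ∈ c.target)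
    (hs : Φ t (c.symm x) ∈ c'.source) :
    ContDiffAt ℝ ∞ (fun y => c' (Φ t (c.symm y))) x ∧
      ∀ᶠ y in 𝓝 x, y ∈ c.target ∧ Φ t (c.symm y) ∈ c'.source := by
  obtain ⟨⟨U, hU, hSS⟩, hsm⟩ := (hPHL N M Φ hΦ).2 c hc c' hc'
  have hmem : (t, x) ∈ (Icc (0 : ℝ) 1 ×ˢ (univ : Set (EE N))) ∩ U := by
    rw [← hSS]
    exact ⟨ht, hx, hs⟩
  constructor
  · rw [hSS] at hsm
    exact (hPDL (EE N) (EE N) (fun q : ℝ × EE N => c' (Φ q.1 (c.symm q.2))) U hU hsm).1 (t, x) hmem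
  · have h1 : ∀ᶠ y in 𝓝 x, (t, y) ∈ U := by
      have hcont : Continuous fun y : EE N => ((t, y) : ℝ × EE N) := by fun_prop
      exact hcont.continuousAt.eventually_mem (hU.mem_nhds hmem.2)
    filter_upwards [h1] with y hy
    have : (t, y) ∈ SS Φ c c' := by
      rw [hSS]
      exact ⟨⟨ht, mem_univ _⟩, hy⟩
    exact ⟨this.2.1, this.2.2⟩

theorem p_PBX (hPBA : Stmt_PBA) (hPDL : Stmt_PDL) (hTRN : Stmt_TRN) (hPHL : Stmt_PHL) :
    Stmt_PBX := by
  intro N M _ _ _ Φ k f hΦ hf t ht c hc c' hc' x hx hs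
  set q : M := Φ t (c.symm x) with hq
  have hq1 : q ∈ (chartAt (EE N) q).source := mem_chart_source _ _
  have hc1 : chartAt (EE N) q ∈ atlas (EE N) M := chart_mem_atlas _ _
  obtain ⟨h1, h2⟩ := PBX_near hPDL hPHL hΦ ht hc hc1 hx hq1
  obtain ⟨hO, hS, -⟩ := hTRN N M (chartAt (EE N) q) hc1 c' hc'
  have hz : (chartAt (EE N) q) q ∈ {z | z ∈ (chartAt (EE N) q).target ∧
      (chartAt (EE N) q).symm z ∈ c'.source} := by
    refine ⟨mem_chart_target _ _, ?_⟩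
    rw [(chartAt (EE N) q).left_inv hq1]
    exact hs
  have hT : DifferentiableAt ℝ (fun z => c' ((chartAt (EE N) q).symm z)) ((chartAt (EE N) q) q) :=
    (hS.contDiffAt (hO.mem_nhds hz)).differentiableAt (by simp)
  have h3 : (fun y => c' (Φ t (c.symm y))) =ᶠ[𝓝 x]
      (fun z => c' ((chartAt (EE N) q).symm z)) ∘ fun y => chartAt (EE N) q (Φ t (c.symm y)) := by
    filter_upwards [h2] with y hy
    simp only [Function.comp_apply]
    rw [(chartAt (EE N) q).left_inv hy.2]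
  have h4 : fderiv ℝ (fun y => c' (Φ t (c.symm y))) x =
      (fderiv ℝ (fun z => c' ((chartAt (EE N) q).symm z)) ((chartAt (EE N) q) q)).comp
        (fderiv ℝ (fun y => chartAt (EE N) q (Φ t (c.symm y))) x) := by
    rw [h3.fderiv_eq]
    exact fderiv_comp x hT (h1.differentiableAt (by simp))
  have h5 := hf.compat _ hc1 c' hc' ((chartAt (EE N) q) q) (mem_chart_target _ _) hz.2
  rw [(chartAt (EE N) q).left_inv hq1] at h5
  change pb (fderiv ℝ (fun y => chartAt (EE N) q (Φ t (c.symm y))) x)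
    (f (chartAt (EE N) q) (chartAt (EE N) q q)) = _
  rw [h4, (hPBA N).2.1, h5]

end HDC
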