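import Pool.Agent.Work.MP_c3bd4f_hd.Interface

set_option autoImplicit false

open scoped ContDiff Manifold Topology
open Set MeasureTheory

noncomputable section

namespace HDC

theorem p_PDL : Stmt_PDL := by
  intro E F _ _ _ _ f U hU hf
  have hud : UniqueDiffOn ℝ ((Icc (0 : ℝ) 1 ×ˢ (univ : Set E)) ∩ U) :=
    ((uniqueDiffOn_Icc zero_lt_one).prod uniqueDiffOn_univ).inter hU
  have hmaps : ∀ t : ℝ, t ∈ Icc (0 : ℝ) 1 → ∀ y : E, (t, y) ∈ U →
      (t, y) ∈ (Icc (0 : ℝ) 1 ×ˢ (univ : Set E)) ∩ U := fun t ht y hy => ⟨⟨ht, mem_univ _⟩, hy⟩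
  have hopen : ∀ t : ℝ, IsOpen {y : E | (t, y) ∈ U} := fun t =>
    hU.preimage (by fun_prop : Continuous fun y : E => (t, y))
  have hslice : ∀ q ∈ (Icc (0 : ℝ) 1 ×ˢ (univ : Set E)) ∩ U,
      ContDiffOn ℝ ∞ (fun y => f (q.1, y)) {y : E | (q.1, y) ∈ U} := by
    intro q hq
    refine hf.comp (g := f) (f := fun y : E => (q.1, y)) ?_ ?_
    · exact (contDiff_const.prodMk contDiff_id).contDiffOn
    · intro y hy
      exact hmaps q.1 hq.1.1 y hy
  refine ⟨?_, ?_⟩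
  · intro q hq
    exact (hslice q hq).contDiffAt ((hopen q.1).mem_nhds hq.2)
  · have h1 : ContDiffOn ℝ ∞ (fun q => (fderivWithin ℝ f ((Icc (0 : ℝ) 1 ×ˢ (univ : Set E)) ∩ U) q).comp
        (ContinuousLinearMap.inr ℝ ℝ E)) ((Icc (0 : ℝ) 1 ×ˢ (univ : Set E)) ∩ U) := by
      have h2 := hf.fderivWithin (m := ∞) hud (by simp)
      exact h2.clm_comp contDiffOn_const
    refine h1.congr ?_
    intro q hq
    have h3 : HasFDerivWithinAt f (fderivWithin ℝ f ((Icc (0 : ℝ) 1 ×ˢ (univ : Set E)) ∩ U) q)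
        ((Icc (0 : ℝ) 1 ×ˢ (univ : Set E)) ∩ U) q :=
      ((hf q hq).differentiableWithinAt (by simp)).hasFDerivWithinAt
    have h4 : HasFDerivAt (fun y : E => (q.1, y)) (ContinuousLinearMap.inr ℝ ℝ E) q.2 :=
      hasFDerivAt_prodMk_right q.1 q.2
    have h5 : HasFDerivWithinAt (fun y => f (q.1, y))
        ((fderivWithin ℝ f ((Icc (0 : ℝ) 1 ×ˢ (univ : Set E)) ∩ U) q).comp
        (ContinuousLinearMap.inr ℝ ℝ E)) {y : E | (q.1, y) ∈ U} q.2 := by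
      refine HasFDerivWithinAt.comp (g := f) (f := fun y : E => (q.1, y)) q.2 (t := (Icc (0 : ℝ) 1 ×ˢ (univ : Set E)) ∩ U) h3
        h4.hasFDerivWithinAt ?_
      intro y hy
      exact hmaps q.1 hq.1.1 y hy
    exact (h5.hasFDerivAt ((hopen q.1).mem_nhds hq.2)).fderiv

end HDC
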