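import Pool.Agent.Work.MP_c3bd4f_hd.Interface

set_option autoImplicit false

/-!
# Infinite Hofer diameter, block PHL: the local expressions of an isotopy (helper89)
-/

open scoped ContDiff Manifold Topology
open Set MeasureTheory

noncomputable section

namespace HDC

theorem p_PHL : Stmt_PHL := by
  intro N M _ _ _ Φ hΦ
  have hΦ' : ContMDiffOn (𝓘(ℝ, ℝ).prod 𝓘(ℝ, EE N)) 𝓘(ℝ, EE N) ∞ (fun q : ℝ × M => Φ q.1 q.2)
    (Icc 0 1 ×ˢ univ) := hΦ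
  refine ⟨hΦ'.continuousOn, fun c hc c' hc' => ?_⟩
  have hcm : c ∈ IsManifold.maximalAtlas 𝓘(ℝ, EE N) ∞ M := IsManifold.subset_maximalAtlas hc
  have hcm' : c' ∈ IsManifold.maximalAtlas 𝓘(ℝ, EE N) ∞ M := IsManifold.subset_maximalAtlas hc'
  have h1 : ContMDiffOn (𝓘(ℝ, ℝ).prod 𝓘(ℝ, EE N)) (𝓘(ℝ, ℝ).prod 𝓘(ℝ, EE N)) ∞
      (fun q : ℝ × EE N => ((q.1, c.symm q.2) : ℝ × M)) (Icc 0 1 ×ˢ c.target) := by
    refine contMDiffOn_fst.prodMk ?_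
    exact (contMDiffOn_symm_of_mem_maximalAtlas hcm).comp contMDiffOn_snd fun q hq => hq.2
  have hG : ContMDiffOn (𝓘(ℝ, ℝ).prod 𝓘(ℝ, EE N)) 𝓘(ℝ, EE N) ∞
      (fun q : ℝ × EE N => Φ q.1 (c.symm q.2)) (Icc 0 1 ×ˢ c.target) :=
    hΦ'.comp h1 fun q hq => ⟨hq.1, mem_univ _⟩
  constructor
  · obtain ⟨u, hu, hu2⟩ := continuousOn_iff'.1 hG.continuousOn c'.source c'.open_source
    refine ⟨u ∩ (univ ×ˢ c.target), hu.inter (isOpen_univ.prod c.open_target), ?_⟩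
    ext q
    have h2 : q ∈ (fun q : ℝ × EE N => Φ q.1 (c.symm q.2)) ⁻¹' c'.source ∩ Icc 0 1 ×ˢ c.target ↔
        q ∈ u ∩ Icc (0 : ℝ) 1 ×ˢ c.target := by rw [hu2]
    constructor
    · rintro ⟨k1, k2, k3⟩
      have h3 := h2.1 ⟨k3, k1, k2⟩
      exact ⟨⟨k1, mem_univ _⟩, h3.1, mem_univ _, k2⟩
    · rintro ⟨⟨k1, -⟩, k2, -, k3⟩
      have h3 := h2.2 ⟨k2, k1, k3⟩
      exact ⟨k1, k3, h3.1⟩
  · have hsub : SS Φ c c' ⊆ Icc 0 1 ×ˢ c.target := fun q hq => ⟨hq.1, hq.2.1⟩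
    have h2 : ContMDiffOn (𝓘(ℝ, ℝ).prod 𝓘(ℝ, EE N)) 𝓘(ℝ, EE N) ∞
        (fun q : ℝ × EE N => c' (Φ q.1 (c.symm q.2))) (SS Φ c c') :=
      (contMDiffOn_of_mem_maximalAtlas hcm').comp (hG.mono hsub) fun q hq => hq.2.2
    rw [← modelWithCornersSelf_prod, chartedSpaceSelf_prod] at h2
    exact contMDiffOn_iff_contDiffOn.1 h2

end HDC
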