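import Pool.Agent.Work.MP_c3bd4f_hd.Interface

set_option autoImplicit false

open scoped ContDiff Manifold Topology
open Set MeasureTheory

noncomputable section

namespace HDC

theorem PUN_smooth {N : ℕ} {M : Type} [TopologicalSpace M] [ChartedSpace (EE N) M]
    [IsManifold 𝓘(ℝ, EE N) ∞ M] (g : C^∞⟮𝓘(ℝ, EE N), M; 𝓘(ℝ), ℝ⟯)
    (c' : OpenPartialHomeomorph M (EE N)) (hc : c' ∈ atlas (EE N) M) :
    ContDiffOn ℝ ∞ (fun x => g (c'.symm x)) c'.target := by
  have h1 : ContMDiffOn 𝓘(ℝ, EE N) 𝓘(ℝ, EE N) ∞ c'.symm c'.target :=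
    contMDiffOn_symm_of_mem_maximalAtlas (IsManifold.subset_maximalAtlas hc)
  have h2 : ContMDiffOn 𝓘(ℝ, EE N) 𝓘(ℝ) ∞ (fun x => g (c'.symm x)) c'.target :=
    g.contMDiff.comp_contMDiffOn h1
  exact contMDiffOn_iff_contDiffOn.mp h2

theorem p_PUN : Stmt_PUN := by
  intro N M _ _ _ _ _ K hK
  haveI : LocallyCompactSpace M := ChartedSpace.locallyCompactSpace (EE N) M
  obtain ⟨f, hf⟩ := SmoothPartitionOfUnity.exists_isSubordinate_chartAt_source_of_isClosed
    (I := 𝓘(ℝ, EE N)) (M := M) hK.isClosed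
  have hfin := f.locallyFinite.finite_nonempty_inter_compact hK
  set S : Finset K := hfin.toFinset with hS
  let e := S.equivFin
  refine ⟨S.card, fun i => f (e.symm i : K), fun i => chartAt (EE N) ((e.symm i : K) : M),
    fun i => K ∩ tsupport (f (e.symm i : K)), ?_, ?_⟩
  · intro i
    refine ⟨chart_mem_atlas _ _, hK.inter_right (isClosed_tsupport _),
      inter_subset_right.trans (hf _), ?_, ?_⟩
    · intro p hp hpL
      by_contra h
      exact hpL ⟨hp, subset_tsupport _ h⟩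
    · intro c' hc'
      exact PUN_smooth _ c' hc'
  · intro p hp
    have h1 : ∑ᶠ j, f j p = 1 := f.sum_eq_one hp
    have h2 : ∑ᶠ j, f j p = ∑ j ∈ S, f j p := by
      apply finsum_eq_sum_of_support_subset
      intro j hj
      rw [Finset.mem_coe, hS, Set.Finite.mem_toFinset]
      exact ⟨p, hj, hp⟩
    rw [← h1, h2, ← Finset.sum_coe_sort S]
    exact Equiv.sum_comp e.symm (fun j : S => f (j : K) p)

end HDC
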