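import Pool.Agent.Work.MP_c3bd4f_hd.Interface

set_option autoImplicit false

open scoped ContDiff Manifold Topology
open Set MeasureTheory

noncomputable section

namespace HDC

/-- the coordinates of a linear form -/
def SHP_T (N : ℕ) : VV N →ₗ[ℝ] EE N where
  toFun a := WithLp.toLp 2 fun i => a (ee i)
  map_add' a b := by
    ext i
    simp
  map_smul' r a := by
    ext i
    simp

theorem SHP_T_apply (N : ℕ) (a : VV N) (i : Fin N) : SHP_T N a i = a (ee i) := rfl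

theorem SHP_T_inj (N : ℕ) (a b : VV N) (h : SHP_T N a = SHP_T N b) : a = b := by
  refine (EuclideanSpace.basisFun (Fin N) ℝ).toBasis.ext fun i => ?_
  have h1 : SHP_T N a i = SHP_T N b i := by rw [h]
  rw [SHP_T_apply, SHP_T_apply] at h1
  simpa [ee] using h1

/-- the matrix of the `2`-form `w` -/
def SHP_G (N : ℕ) : Lam N →ₗ[ℝ] EE N →ₗ[ℝ] EE N :=
  LinearMap.mk₂ ℝ (fun w v => SHP_T N (ExteriorAlgebra.ιInv (ctr v w)))
    (fun w w' v => by rw [map_add, map_add, map_add])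
    (fun r w v => by rw [map_smul, map_smul, map_smul])
    (fun w v v' => by
      have h1 : ctr (v + v') w = ctr v w + ctr v' w := by
        simp [ctr]
      rw [h1, map_add, map_add])
    (fun r w v => by
      have h1 : ctr (r • v) w = r • ctr v w := by
        simp [ctr]
      rw [h1, map_smul, map_smul])

theorem SHP_G_apply (N : ℕ) (w : Lam N) (v : EE N) :
    SHP_G N w v = SHP_T N (ExteriorAlgebra.ιInv (ctr v w)) := rfl

theorem SHP_io (N : ℕ) (x : Lam N) (hx : x ∈ ⋀[ℝ]^1 (VV N)) :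
    io (ExteriorAlgebra.ιInv x) = x := by
  have h1 : x ∈ LinearMap.range (ExteriorAlgebra.ι ℝ : VV N →ₗ[ℝ] Lam N) := by
    have h2 : (⋀[ℝ]^1 (VV N)) = LinearMap.range (ExteriorAlgebra.ι ℝ : VV N →ₗ[ℝ] Lam N) :=
      pow_one _
    rw [← h2]
    exact hx
  obtain ⟨a, rfl⟩ := h1
  rw [ExteriorAlgebra.ι_leftInverse a]

theorem SHP_iff (hDEG : Stmt_DEG) (N : ℕ) (w : Lam N) (hw : w ∈ ⋀[ℝ]^2 (VV N)) (v : EE N)
    (a : VV N) : ctr v w = io a ↔ SHP_G N w v = SHP_T N a := by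
  have h1 : ctr v w ∈ ⋀[ℝ]^1 (VV N) := (hDEG N).2.1 1 w v hw
  rw [SHP_G_apply]
  constructor
  · intro h
    rw [h, ExteriorAlgebra.ι_leftInverse a]
  · intro h
    rw [← SHP_T_inj N _ _ h, SHP_io N _ h1]

theorem SHP_inj (hDEG : Stmt_DEG) (N : ℕ) (w : Lam N) (hw : Nd w) :
    Function.Injective (SHP_G N w) := by
  rw [injective_iff_map_eq_zero]
  intro v hv
  refine hw.2 v ?_
  have h1 := (SHP_iff hDEG N w hw.1 v 0).mpr (by rw [hv, map_zero])
  rw [h1, map_zero]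

/-- the inverse -/
def SHP_e (hDEG : Stmt_DEG) (N : ℕ) (w : Lam N) (hw : Nd w) : EE N ≃L[ℝ] EE N :=
  (LinearEquiv.ofInjectiveEndo (SHP_G N w) (SHP_inj hDEG N w hw)).toContinuousLinearEquiv

theorem SHP_e_apply (hDEG : Stmt_DEG) (N : ℕ) (w : Lam N) (hw : Nd w) (v : EE N) :
    SHP_e hDEG N w hw v = SHP_G N w v := rfl

theorem SHP_sh (hDEG : Stmt_DEG) (N : ℕ) (w : Lam N) (a : EE N →L[ℝ] ℝ) (hw : Nd w) :
    ctr (sh w a) w = io a.toLinearMap := by
  have h : ∃ v, ctr v w = io a.toLinearMap := by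
    refine ⟨(SHP_e hDEG N w hw).symm (SHP_T N a.toLinearMap), ?_⟩
    rw [SHP_iff hDEG N w hw.1, ← SHP_e_apply hDEG N w hw, ContinuousLinearEquiv.apply_symm_apply]
  rw [sh, dif_pos h]
  exact h.choose_spec

theorem p_SHP (_hALG : Stmt_ALG) (hDEG : Stmt_DEG) (_hSMA : Stmt_SMA) : Stmt_SHP := by
  intro N
  refine ⟨fun w a hw => SHP_sh hDEG N w a hw, ?_⟩
  intro P _ _ S w a hw ha hN
  -- the linear maps
  let L1 : Lam N →ₗ[ℝ] (EE N →L[ℝ] EE N) :=
    (LinearMap.toContinuousLinearMap : (EE N →ₗ[ℝ] EE N) ≃ₗ[ℝ] (EE N →L[ℝ] EE N)).toLinearMap ∘ₗ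
      SHP_G N
  have hL1 : ContDiff ℝ ∞ L1 := (LinearMap.toContinuousLinearMap L1).contDiff
  let L2 : (EE N →L[ℝ] ℝ) →ₗ[ℝ] EE N :=
    SHP_T N ∘ₗ (LinearMap.toContinuousLinearMap : (EE N →ₗ[ℝ] ℝ) ≃ₗ[ℝ] (EE N →L[ℝ] ℝ)).symm.toLinearMap
  have hL2 : ContDiff ℝ ∞ L2 := (LinearMap.toContinuousLinearMap L2).contDiff
  have hL1e : ∀ q, ∀ hq : q ∈ S, L1 (w q) = (SHP_e hDEG N (w q) (hN q hq) : EE N →L[ℝ] EE N) := by
    intro q hq
    ext v
    rfl
  have hL2a : ∀ b : EE N →L[ℝ] ℝ, L2 b = SHP_T N b.toLinearMap := fun b => rfl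
  have key : ContDiffOn ℝ ∞ (fun q => (L1 (w q)).inverse (L2 (a q))) S := by
    intro q hq
    have h1 : ContDiffWithinAt ℝ ∞ (fun q => L1 (w q)) S q :=
      hL1.contDiffAt.comp_contDiffWithinAt q (hw q hq)
    have h2 : ContDiffWithinAt ℝ ∞ (fun q => L2 (a q)) S q :=
      hL2.contDiffAt.comp_contDiffWithinAt q (ha q hq)
    have h3 : ContDiffAt ℝ ∞ ContinuousLinearMap.inverse (L1 (w q)) := by
      rw [hL1e q hq]
      exact contDiffAt_map_inverse _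
    exact (h3.comp_contDiffWithinAt q h1).clm_apply h2
  refine key.congr fun q hq => ?_
  rw [hL1e q hq, ContinuousLinearMap.inverse_equiv, hL2a]
  have h1 := (SHP_iff hDEG N (w q) (hN q hq).1 _ _).mp (SHP_sh hDEG N (w q) (a q) (hN q hq))
  rw [← SHP_e_apply hDEG N (w q) (hN q hq)] at h1
  rw [← h1]
  exact ((SHP_e hDEG N (w q) (hN q hq)).symm_apply_apply _).symm

end HDC
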