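import Pool.Agent.Work.MP_c3bd4f_hd.Interface

set_option autoImplicit false

/-! # Block SMA: smoothness of the operations -/

open scoped ContDiff Manifold Topology
open Set MeasureTheory

noncomputable section

namespace HDC

lemma SMA_bilin {E F G : Type} [NormedAddCommGroup E] [NormedSpace ℝ E] [FiniteDimensional ℝ E]
    [NormedAddCommGroup F] [NormedSpace ℝ F] [FiniteDimensional ℝ F]
    [NormedAddCommGroup G] [NormedSpace ℝ G] (B : E →ₗ[ℝ] F →ₗ[ℝ] G) :
    ContDiff ℝ ∞ (fun q : E × F => B q.1 q.2) := by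
  let T : (F →ₗ[ℝ] G) ≃ₗ[ℝ] (F →L[ℝ] G) := LinearMap.toContinuousLinearMap
  let B' : E →L[ℝ] F →L[ℝ] G := LinearMap.toContinuousLinearMap (T.toLinearMap ∘ₗ B)
  exact B'.isBoundedBilinearMap.contDiff

lemma SMA_lin {E G : Type} [NormedAddCommGroup E] [NormedSpace ℝ E] [FiniteDimensional ℝ E]
    [NormedAddCommGroup G] [NormedSpace ℝ G] (L : E →ₗ[ℝ] G) : ContDiff ℝ ∞ L :=
  (LinearMap.toContinuousLinearMap L).contDiff

lemma SMA_mul (N : ℕ) : ContDiff ℝ ∞ (fun q : Lam N × Lam N => q.1 * q.2) :=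
  SMA_bilin (LinearMap.mul ℝ (Lam N))

lemma SMA_ctr (N : ℕ) : ContDiff ℝ ∞ (fun q : EE N × Lam N => ctr q.1 q.2) :=
  SMA_bilin ((CliffordAlgebra.contractLeft (Q := (0 : QuadraticForm ℝ (VV N)))) ∘ₗ
    Module.Dual.eval ℝ (EE N))

lemma SMA_pb1 (N : ℕ) (y : Lam N) : ContDiff ℝ ∞ (fun A : EE N →L[ℝ] EE N => pb A y) := by
  induction y using ExteriorAlgebra.induction with
  | algebraMap r =>
    have : (fun A : EE N →L[ℝ] EE N => pb A (algebraMap ℝ (Lam N) r)) =
        fun _ => algebraMap ℝ (Lam N) r := by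
      funext A
      exact AlgHom.commutes _ _
    rw [this]
    exact contDiff_const
  | ι a =>
    have h : (fun A : EE N →L[ℝ] EE N => pb A (ExteriorAlgebra.ι ℝ a)) =
        (io ∘ₗ (LinearMap.llcomp ℝ (EE N) (EE N) ℝ a) ∘ₗ
          (ContinuousLinearMap.coeLM ℝ : (EE N →L[ℝ] EE N) →ₗ[ℝ] (EE N →ₗ[ℝ] EE N))) := by
      funext A
      show ExteriorAlgebra.map A.toLinearMap.dualMap (ExteriorAlgebra.ι ℝ a) = _
      rw [ExteriorAlgebra.map_apply_ι]
      rfl
    rw [h]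
    exact SMA_lin _
  | mul x y hx hy =>
    have h : (fun A : EE N →L[ℝ] EE N => pb A (x * y)) = fun A => pb A x * pb A y := by
      funext A
      exact map_mul _ _ _
    rw [h]
    exact (SMA_mul N).comp (hx.prodMk hy)
  | add x y hx hy =>
    have h : (fun A : EE N →L[ℝ] EE N => pb A (x + y)) = fun A => pb A x + pb A y := by
      funext A
      exact map_add _ _ _
    rw [h]
    exact hx.add hy

lemma SMA_pb (N : ℕ) : ContDiff ℝ ∞ (fun q : (EE N →L[ℝ] EE N) × Lam N => pb q.1 q.2) := by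
  have h : (fun q : (EE N →L[ℝ] EE N) × Lam N => pb q.1 q.2) =
      fun q => ∑ s, (dxB N).ExteriorAlgebra.coord s q.2 • pb q.1 ((dxB N).ExteriorAlgebra s) := by
    funext q
    conv_lhs => rw [← (dxB N).ExteriorAlgebra.sum_repr q.2]
    rw [map_sum]
    refine Finset.sum_congr rfl fun s _ => ?_
    rw [map_smul]
    rfl
  rw [h]
  refine ContDiff.sum fun s _ => ?_
  exact ((SMA_lin ((dxB N).ExteriorAlgebra.coord s)).comp contDiff_snd).smul
    ((SMA_pb1 N _).comp contDiff_fst)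

theorem p_SMA : Stmt_SMA := by
  intro N
  refine ⟨SMA_mul N, SMA_ctr N, SMA_pb N, fun L => SMA_lin L, fun L => SMA_lin L, ?_, ?_⟩
  · exact SMA_lin (io ∘ₗ
      (ContinuousLinearMap.coeLM ℝ : (EE N →L[ℝ] ℝ) →ₗ[ℝ] (EE N →ₗ[ℝ] ℝ)))
  · exact SMA_lin (Algebra.linearMap ℝ (Lam N))

end HDC
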