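import Pool.Agent.Work.MP_c3bd4f_hd.Interface

set_option autoImplicit false

/-! # Block STE: Stokes on `ℝ^N` -/

open scoped ContDiff Manifold Topology
open Set MeasureTheory

noncomputable section

namespace HDC

/-- the functional `y ↦ top (dx i * y)` -/
def STE_L (N : ℕ) (i : Fin N) : Lam N →L[ℝ] ℝ :=
  LinearMap.toContinuousLinearMap ((top N).comp (LinearMap.mulLeft ℝ (dx i)))

theorem STE_L_apply (N : ℕ) (i : Fin N) (y : Lam N) : STE_L N i y = top N (dx i * y) := rfl

theorem p_STE : Stmt_STE := by
  intro N g hg hs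
  have hd : Differentiable ℝ g := hg.differentiable one_ne_zero
  have h1 : ∀ (x : EE N), top N (D g x) = ∑ i : Fin N, fderiv ℝ (fun y => STE_L N i (g y)) x (ee i) := by
    intro x
    unfold D
    rw [map_sum]
    refine Finset.sum_congr rfl fun i _ => ?_
    rw [← STE_L_apply]
    have h2 : HasFDerivAt (fun y => STE_L N i (g y)) ((STE_L N i).comp (fderiv ℝ g x)) x :=
      (STE_L N i).hasFDerivAt.comp x (hd x).hasFDerivAt
    rw [h2.fderiv]
    rfl
  simp_rw [h1]
  have hc : ∀ i : Fin N, ContDiff ℝ 1 (fun y => STE_L N i (g y)) := fun i =>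
    (STE_L N i).contDiff.comp hg
  have hsi : ∀ i : Fin N, HasCompactSupport (fun y => STE_L N i (g y)) := fun i =>
    hs.comp_left (g := fun y => STE_L N i y) (map_zero _)
  have hint : ∀ i : Fin N, Integrable (fun x => fderiv ℝ (fun y => STE_L N i (g y)) x (ee i)) volume := by
    intro i
    have h3 : Continuous (fun x => fderiv ℝ (fun y => STE_L N i (g y)) x (ee i)) :=
      ((hc i).continuous_fderiv one_ne_zero).clm_apply continuous_const
    exact h3.integrable_of_hasCompactSupport ((hsi i).fderiv_apply (𝕜 := ℝ) (ee i))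
  rw [integral_finsetSum _ fun i _ => hint i]
  refine Finset.sum_eq_zero fun i _ => ?_
  have h4 := integral_mul_fderiv_eq_neg_fderiv_mul_of_integrable (μ := (volume : Measure (EE N)))
    (f := fun _ : EE N => (1 : ℝ)) (g := fun y => STE_L N i (g y)) (v := ee i)
    (by simp) (by simpa using hint i)
    (by simpa using (hc i).continuous.integrable_of_hasCompactSupport (hsi i))
    (fun _ _ => differentiableAt_const _) (fun x _ => (hc i).differentiable one_ne_zero x)
  simpa using h4

end HDC
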