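import Pool.Agent.Work.MP_c3bd4f_hd.Interface

set_option autoImplicit false

open scoped ContDiff Manifold Topology
open Set MeasureTheory

noncomputable section

namespace HDC

/-- `D` depends only on the germ -/
theorem STL_congr {N : ℕ} (f g : EE N → Lam N) (x : EE N) (h : f =ᶠ[𝓝 x] g) : D f x = D g x := by
  unfold D
  rw [h.fderiv_eq]

theorem STL_zero {N : ℕ} (f : EE N → Lam N) (x : EE N) (h : ∀ᶠ y in 𝓝 x, f y = 0) :
    D f x = 0 := by
  rw [STL_congr f (fun _ => 0) x h]
  unfold D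
  simp

theorem STL_smul {N : ℕ} (f : EE N → Lam N) (x : EE N) (r : ℝ) (h : DifferentiableAt ℝ f x) :
    D (fun y => r • f y) x = r • D f x := by
  unfold D
  rw [fderiv_fun_const_smul h, Finset.smul_sum]
  refine Finset.sum_congr rfl fun i _ => ?_
  rw [smul_apply, mul_smul_comm]

/-- the differential of a form vanishes where the form vanishes -/
theorem STL_CS {N : ℕ} {M : Type} [TopologicalSpace M] [T2Space M] [ChartedSpace (EE N) M]
    (L : Set M) (hL : IsCompact L) (f : Fam N M) (hf : CS L f) : CS L (dF f) := by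
  intro c hc x hx hxL
  refine STL_zero (f c) x ?_
  have hopen : IsOpen (c.target ∩ c.symm ⁻¹' Lᶜ) :=
    c.isOpen_inter_preimage_symm hL.isClosed.isOpen_compl
  filter_upwards [hopen.mem_nhds ⟨hx, hxL⟩] with y hy
  exact hf c hc y hy.1 hy.2

open Classical in
/-- Stokes in a chart, for a form with compact support -/
theorem STL_main (h5 : Stmt_STE) (N : ℕ) (U C : Set (EE N)) (hU : IsOpen U) (hC : IsCompact C)
    (hCU : C ⊆ U) (φ : EE N → Lam N) (hφ : ContDiffOn ℝ ∞ φ U) (h0 : ∀ x ∈ U, x ∉ C → φ x = 0)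
    (τ : EE N → ℝ) (hτ : ContinuousOn τ U) (hτ0 : ∀ x ∈ U, τ x ≠ 0) :
    ∫ x in U, top N (D φ x) / τ x * |τ x| = 0 := by
  set s : EE N → ℝ := fun x => |τ x| / τ x with hs
  set g : EE N → Lam N := fun x => if x ∈ U then s x • φ x else 0 with hg
  have hsloc : ∀ x ∈ U, ∀ᶠ y in 𝓝 x, s y = s x := by
    intro x hx
    have hcont : ContinuousAt τ x := hτ.continuousAt (hU.mem_nhds hx)
    rcases lt_or_gt_of_ne (hτ0 x hx) with h | h
    · filter_upwards [hcont.eventually (gt_mem_nhds h)] with y hy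
      simp only [hs]
      rw [abs_of_neg hy, abs_of_neg h, neg_div, neg_div, div_self hy.ne, div_self h.ne]
    · filter_upwards [hcont.eventually (lt_mem_nhds h)] with y hy
      simp only [hs]
      rw [abs_of_pos hy, abs_of_pos h, div_self hy.ne', div_self h.ne']
  have hgU : ∀ x ∈ U, g =ᶠ[𝓝 x] fun y => s x • φ y := by
    intro x hx
    filter_upwards [hsloc x hx, hU.mem_nhds hx] with y hy hyU
    simp only [hg]
    rw [if_pos hyU, hy]
  have hgC : ∀ x, x ∉ C → g x = 0 := by
    intro x hx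
    simp only [hg]
    split_ifs with hxU
    · rw [h0 x hxU hx, smul_zero]
    · rfl
  have hgC' : ∀ x, x ∉ C → ∀ᶠ y in 𝓝 x, g y = 0 := by
    intro x hx
    filter_upwards [hC.isClosed.isOpen_compl.mem_nhds hx] with y hy
    exact hgC y hy
  have hφd : ∀ x ∈ U, ContDiffAt ℝ ∞ φ x := fun x hx => hφ.contDiffAt (hU.mem_nhds hx)
  have hgsm : ContDiff ℝ 1 g := by
    rw [contDiff_iff_contDiffAt]
    intro x
    by_cases hx : x ∈ U
    · refine ContDiffAt.congr_of_eventuallyEq ?_ (hgU x hx)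
      exact ((hφd x hx).of_le (by exact_mod_cast le_top)).const_smul (s x)
    · refine ContDiffAt.congr_of_eventuallyEq (f := fun _ => (0 : Lam N)) contDiffAt_const ?_
      exact hgC' x (fun h => hx (hCU h))
  have hgcs : HasCompactSupport g := HasCompactSupport.intro hC hgC
  have hst := h5 N g hgsm hgcs
  have hD0 : ∀ x, x ∉ U → top N (D g x) = 0 := by
    intro x hx
    rw [STL_zero g x (hgC' x (fun h => hx (hCU h))), map_zero]
  have e1 : ∫ x in U, top N (D g x) = ∫ x, top N (D g x) :=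
    setIntegral_eq_integral_of_forall_compl_eq_zero hD0
  rw [← hst, ← e1]
  refine setIntegral_congr_fun hU.measurableSet ?_
  intro x hx
  change top N (D φ x) / τ x * |τ x| = top N (D g x)
  rw [STL_congr g _ x (hgU x hx), STL_smul φ x (s x) ((hφd x hx).differentiableAt (by simp)),
    map_smul, smul_eq_mul]
  simp only [hs]
  ring

/-- STL -/
theorem p_STL (h1 : Stmt_FO1) (h2 : Stmt_FO2) (h3 : Stmt_DNC) (h4 : Stmt_VOL) (h5 : Stmt_STE) :
    Stmt_STL := by
  intro n M _ _ _ _ _ _ _ Ω vol hΩ hvol c hc L hL hLc k f hf hCS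
  obtain ⟨-, -, -, f4, f5, f6, -⟩ := h2 (2 * n) M
  obtain ⟨d1, d2, d3, d4, d5⟩ := h3 n M Ω hΩ
  have hdf : IsForm (k + 1) (dF f) :=
    f5 (k + 1) (fun _ => dF f) (h1 (2 * n) M k (fun _ => f) (f4 k f hf)) 0 ⟨le_refl _, zero_le_one⟩
  have hcs := STL_CS L hL f hCS
  have hzero : ∀ p ∉ c.source, dn n Ω (dF f) p = 0 := fun p hp =>
    d5 L (dF f) hcs p (fun h => hp (hLc h))
  rw [(h4 n M Ω vol hΩ hvol).2 c hc (dn n Ω (dF f)) (d4 (k + 1) (dF f) hdf) hzero]
  have e : ∫ x in c.target, dn n Ω (dF f) (c.symm x) * |top (2 * n) ((Ω c x) ^ n)| =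
      ∫ x in c.target, top (2 * n) (D (f c) x) / top (2 * n) ((Ω c x) ^ n) *
        |top (2 * n) ((Ω c x) ^ n)| := by
    refine setIntegral_congr_fun c.open_target.measurableSet ?_
    intro x hx
    change dn n Ω (dF f) (c.symm x) * |top (2 * n) ((Ω c x) ^ n)| = _
    rw [d2 (k + 1) (dF f) hdf c hc (c.symm x) (c.map_target hx), c.right_inv hx]
    rfl
  rw [e]
  refine STL_main h5 (2 * n) c.target (c '' L) c.open_target
    (hL.image_of_continuousOn (c.continuousOn.mono hLc)) ?_ (f c) (hf.smooth c hc) ?_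
    (fun x => top (2 * n) ((Ω c x) ^ n)) ?_ (d1 c hc)
  · rintro _ ⟨p, hp, rfl⟩
    exact c.map_source (hLc hp)
  · intro x hx hxL
    refine hCS c hc x hx fun h => hxL ⟨c.symm x, h, c.right_inv hx⟩
  · have hpow := (f6 n Ω hΩ.form).smooth c hc
    have htop : Continuous (top (2 * n)) := LinearMap.continuous_of_finiteDimensional _
    exact htop.comp_continuousOn hpow.continuousOn

end HDC
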