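import Pool.Agent.Work.MP_c3bd4f_hd.Interface

set_option autoImplicit false

open scoped ContDiff Manifold Topology
open Set MeasureTheory

noncomputable section

namespace HDC

theorem p_TDF (hCTN : Stmt_CTN) (hTDR : Stmt_TDR) (hMXP : Stmt_MXP) (hPHL : Stmt_PHL)
    (hPBX : Stmt_PBX) : Stmt_TDF := by
  intro N M _ _ _ X Φ k f hX hF hf c hc x hx t ht
  have htI : t ∈ Icc (0 : ℝ) 1 := ⟨ht.1.le, ht.2.le⟩
  obtain ⟨c', hc'def⟩ : ∃ c' : OpenPartialHomeomorph M (EE N),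
    c' = chartAt (EE N) (Φ t (c.symm x)) := ⟨_, rfl⟩
  have hc' : c' ∈ atlas (EE N) M := by rw [hc'def]; exact chart_mem_atlas _ _
  have hq0 : Φ t (c.symm x) ∈ c'.source := by rw [hc'def]; exact mem_chart_source _ _
  obtain ⟨-, hloc⟩ := hPHL N M Φ hF.smooth
  obtain ⟨⟨U, hU, hSU⟩, hsm⟩ := hloc c hc c' hc'
  have hmem : (t, x) ∈ SS Φ c c' := ⟨htI, hx, hq0⟩
  have hnh : SS Φ c c' ∈ 𝓝 (t, x) := by
    rw [hSU] at hmem ⊢
    exact Filter.inter_mem (prod_mem_nhds (Icc_mem_nhds ht.1 ht.2) Filter.univ_mem)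
      (hU.mem_nhds hmem.2)
  obtain ⟨φ, hφdef⟩ : ∃ φ : ℝ × EE N → EE N, φ = fun q => c' (Φ q.1 (c.symm q.2)) := ⟨_, rfl⟩
  have hφ : ContDiffAt ℝ ∞ φ (t, x) := by rw [hφdef]; exact hsm.contDiffAt hnh
  have hz : φ (t, x) ∈ c'.target := by rw [hφdef]; exact c'.map_source hq0
  -- the pullback near `t`
  have hcs : ContinuousAt (fun s : ℝ => (s, x)) t := by fun_prop
  have hcy : ContinuousAt (fun y : EE N => (t, y)) x := by fun_prop
  have hev : ∀ᶠ s in 𝓝 t, (s, x) ∈ SS Φ c c' := hcs.eventually_mem hnh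
  have hevy : ∀ᶠ y in 𝓝 x, (t, y) ∈ SS Φ c c' := hcy.eventually_mem hnh
  have hPB : (fun s => PBK (Φ s) f c x) =ᶠ[𝓝 t]
      fun s => pb (fderiv ℝ (fun y => φ (s, y)) x) (f c' (φ (s, x))) := by
    filter_upwards [hev] with s hs
    rw [hφdef]
    exact hPBX N M Φ k f hF.smooth hf s hs.1 c hc c' hc' x hx hs.2.2
  -- the differential equation
  have hode : ∀ᶠ y in 𝓝 x, HasDerivAt (fun s => φ (s, y)) (X t c' (φ (t, y))) t := by
    filter_upwards [hevy] with y hy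
    rw [hφdef]
    exact (hF.ode t htI (c.symm y) c' hc' hy.2.2).hasDerivAt (Icc_mem_nhds ht.1 ht.2)
  have hXd : DifferentiableAt ℝ (X t c') (φ (t, x)) := by
    have h1 : ContDiffAt ℝ ∞ (fun q : ℝ × EE N => X q.1 c' q.2) (t, φ (t, x)) :=
      (hX.smooth c' hc').contDiffAt (prod_mem_nhds (Icc_mem_nhds ht.1 ht.2)
        (c'.open_target.mem_nhds hz))
    have h2 : ContDiffAt ℝ ∞ (fun y : EE N => (t, y)) (φ (t, x)) := by fun_prop
    have h3 : ContDiffAt ℝ ∞ (fun y : EE N => X t c' y) (φ (t, x)) := h1.comp (φ (t, x)) h2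
    exact h3.differentiableAt (by simp)
  have hfd : DifferentiableAt ℝ (f c') (φ (t, x)) :=
    ((hf.smooth c' hc').contDiffAt (c'.open_target.mem_nhds hz)).differentiableAt (by simp)
  have hφy : DifferentiableAt ℝ (fun y => φ (t, y)) x := by
    have h2 : ContDiffAt ℝ ∞ (fun y : EE N => (t, y)) x := by fun_prop
    have h3 : ContDiffAt ℝ ∞ (fun y : EE N => φ (t, y)) x := hφ.comp x h2
    exact h3.differentiableAt (by simp)
  have hA : HasDerivAt (fun s => fderiv ℝ (fun y => φ (s, y)) x)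
      ((fderiv ℝ (X t c') (φ (t, x))).comp (fderiv ℝ (fun y => φ (t, y)) x)) t := by
    have h1 := hMXP (EE N) (EE N) φ t x (hφ.of_le (WithTop.coe_le_coe.2 le_top))
    have h2 : (fun y => deriv (fun s => φ (s, y)) t) =ᶠ[𝓝 x] fun y => X t c' (φ (t, y)) := by
      filter_upwards [hode] with y hy
      exact hy.deriv
    rw [h2.fderiv_eq] at h1
    have h3 : fderiv ℝ (fun y => X t c' (φ (t, y))) x =
        (fderiv ℝ (X t c') (φ (t, x))).comp (fderiv ℝ (fun y => φ (t, y)) x) :=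
      fderiv_comp x hXd hφy
    rw [h3] at h1
    exact h1
  have hg : HasDerivAt (fun s => f c' (φ (s, x)))
      (fderiv ℝ (f c') (φ (t, x)) (X t c' (φ (t, x)))) t :=
    HasFDerivAt.comp_hasDerivAt t hfd.hasFDerivAt hode.self_of_nhds
  have hT := hTDR N (fun s => fderiv ℝ (fun y => φ (s, y)) x) (fderiv ℝ (X t c') (φ (t, x)))
    (fun s => f c' (φ (s, x))) _ t hA hg
  have hC := hCTN N (X t c') (f c') (φ (t, x)) hXd hfd
  have hfin : PBK (Φ t) (Lie (X t) f) c x =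
      pb (fderiv ℝ (fun y => φ (t, y)) x)
        (fderiv ℝ (f c') (φ (t, x)) (X t c' (φ (t, x))) +
          ∑ i, dx i * ctr (fderiv ℝ (X t c') (φ (t, x)) (ee i)) (f c' (φ (t, x)))) := by
    rw [← hC, hφdef, hc'def]
    rfl
  rw [hfin]
  exact hT.congr_of_eventuallyEq hPB

end HDC
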