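import Pool.Agent.Work.MP_c3bd4f_hd.Interface

set_option autoImplicit false

open scoped ContDiff Manifold Topology
open Set MeasureTheory

noncomputable section

namespace HDC

theorem TDR_dual (N : ℕ) (a : VV N) : ∑ i : Fin N, a (ee i) • dx (N := N) i = io a := by
  have h := (EuclideanSpace.basisFun (Fin N) ℝ).toBasis.sum_dual_apply_smul_coord a
  have h2 : io (N := N) (∑ i, a ((EuclideanSpace.basisFun (Fin N) ℝ).toBasis i) •
      (EuclideanSpace.basisFun (Fin N) ℝ).toBasis.coord i) = io a := by rw [h]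
  rw [map_sum] at h2
  rw [← h2]
  refine Finset.sum_congr rfl fun i _ => ?_
  rw [map_smul]
  have e1 : (EuclideanSpace.basisFun (Fin N) ℝ).toBasis i = ee i := by
    rw [OrthonormalBasis.coe_toBasis, EuclideanSpace.basisFun_apply]
    rfl
  have e2 : dx (N := N) i = io ((EuclideanSpace.basisFun (Fin N) ℝ).toBasis.coord i) := by
    unfold dx dxB
    rw [Module.Basis.coe_dualBasis]
  rw [e1, e2]

theorem TDR_claim (hA : Stmt_ALG) (hP : Stmt_PBA) (hD : Stmt_DRV) (N : ℕ)
    (A B : EE N →L[ℝ] EE N) (y : Lam N) :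
    dpb A (B.comp A) y = pb A (∑ i, dx i * ctr (B (ee i)) y) := by
  obtain ⟨hA1, hA2, hA3, hA4, hA5, hA6, hA7⟩ := hA N
  obtain ⟨hP1, hP2, hP3, hP4, hP5⟩ := hP N
  obtain ⟨-, -, -, hD4, hD5, hD6, hD7⟩ := hD N ℝ 0
  induction y using ExteriorAlgebra.induction with
  | algebraMap r =>
    rw [hD7]
    simp only [hA4, mul_zero, Finset.sum_const_zero, map_zero]
  | ι a =>
    rw [hD4]
    have h1 : ∑ i : Fin N, dx (N := N) i * ctr (B (ee i)) (io a) = io (a ∘ₗ B.toLinearMap) := by
      rw [← TDR_dual N (a ∘ₗ B.toLinearMap)]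
      refine Finset.sum_congr rfl fun i _ => ?_
      rw [hA3, ← Algebra.commutes, ← Algebra.smul_def]
      rfl
    rw [h1, hP1]
    rfl
  | mul y z hy hz =>
    rw [hD5, hy, hz, ← map_mul, ← map_mul, ← map_add]
    congr 1
    rw [Finset.sum_mul, Finset.mul_sum, ← Finset.sum_add_distrib]
    refine Finset.sum_congr rfl fun i _ => ?_
    rw [hA2, mul_add, mul_assoc]
    congr 1
    have h1 : dx (N := N) i * inv y = y * dx i := by
      have h := hA1 (dxB N i) (inv y)
      rw [CliffordAlgebra.involute_involute] at h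
      exact h
    rw [← mul_assoc, ← mul_assoc, h1]
  | add y z hy hz =>
    rw [hD6, hy, hz, ← map_add, ← Finset.sum_add_distrib]
    congr 1
    refine Finset.sum_congr rfl fun i _ => ?_
    rw [map_add, mul_add]

theorem p_TDR (hA : Stmt_ALG) (hP : Stmt_PBA) (hD : Stmt_DRV) : Stmt_TDR := by
  intro N A B g g' t hAt hg
  obtain ⟨-, -, hD3, -⟩ := hD N ℝ t
  obtain ⟨L, hL, hL'⟩ := hD3 A g _ _ hAt.hasFDerivAt hg.hasFDerivAt
  have h := hL.hasDerivAt
  rw [hL' 1] at h
  have e1 : (ContinuousLinearMap.toSpanSingleton ℝ (B.comp (A t))) (1 : ℝ) = B.comp (A t) := by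
    simp
  have e2 : (ContinuousLinearMap.toSpanSingleton ℝ g') (1 : ℝ) = g' := by
    simp
  rw [e1, e2, TDR_claim hA hP hD, ← map_add, add_comm] at h
  exact h

end HDC
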