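import Pool.Agent.Work.MP_c3bd4f_hd.Interface

set_option autoImplicit false

/-! Block TOP (helper69). -/

open scoped ContDiff Manifold Topology
open Set MeasureTheory

noncomputable section

namespace HDC

theorem TOP_coord (N k : ℕ) (x : Lam N) (hx : x ∈ ⋀[ℝ]^k (VV N)) (s : Finset (Fin N))
    (hs : s.card ≠ k) : (dxB N).ExteriorAlgebra.repr x s = 0 := by
  have h1 := ((dxB N).exteriorPower k).sum_repr ⟨x, hx⟩
  have h2 := congrArg (fun y : ⋀[ℝ]^k (VV N) => (y : Lam N)) h1
  simp only [Submodule.coe_sum, Submodule.coe_smul] at h2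
  rw [← h2, map_sum, Finsupp.finsetSum_apply]
  refine Finset.sum_eq_zero fun t _ => ?_
  rw [← ExteriorAlgebra.basis_eq_coe_basis, map_smul, Module.Basis.repr_self, Finsupp.smul_apply,
    Finsupp.single_apply, if_neg, smul_zero]
  intro h
  apply hs
  rw [← h]
  exact t.2

theorem TOP_eq (N : ℕ) (x : Lam N) (hx : x ∈ ⋀[ℝ]^N (VV N)) :
    x = top N x • (dxB N).ExteriorAlgebra Finset.univ := by
  have h1 := (dxB N).ExteriorAlgebra.sum_repr x
  rw [Finset.sum_eq_single Finset.univ] at h1
  · exact h1.symm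
  · intro s _ hs
    rw [TOP_coord N N x hx s, zero_smul]
    intro h
    apply hs
    rw [← Finset.card_eq_iff_eq_univ, h, Fintype.card_fin]
  · intro h
    exact absurd (Finset.mem_univ _) h

theorem p_TOP : Stmt_TOP := by
  intro N
  refine ⟨?_, ?_, ?_⟩
  · intro k x hk hx
    refine TOP_coord N k x hx Finset.univ ?_
    rw [Finset.card_univ, Fintype.card_fin]
    exact hk.symm
  · intro x y hx hy
    conv_lhs => rw [TOP_eq N y hy]
    conv_rhs => rw [TOP_eq N x hx]
    rw [smul_smul, smul_smul, mul_comm]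
  · intro x hx h
    rw [TOP_eq N x hx, h, zero_smul]

end HDC
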