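import Pool.Agent.Work.MP_c3bd4f_hd.Interface

set_option autoImplicit false

/-!
# Block TRL: transport
-/

open scoped ContDiff Manifold Topology
open Set MeasureTheory

noncomputable section

namespace HDC

/-- The linear functional `y ↦ top (y * z) / r`. -/
def TRL_L {N : ℕ} (z : Lam N) (r : ℝ) : Lam N →ₗ[ℝ] ℝ :=
  r⁻¹ • (top N ∘ₗ LinearMap.mulRight ℝ z)

theorem TRL_L_apply {N : ℕ} (z : Lam N) (r : ℝ) (y : Lam N) :
    TRL_L z r y = top N (y * z) / r := by
  unfold TRL_L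
  rw [LinearMap.smul_apply, LinearMap.comp_apply, LinearMap.mulRight_apply, smul_eq_mul,
    div_eq_inv_mul]

theorem TRL_deriv {N : ℕ} (z a : Lam N) (r : ℝ) (w : ℝ → Lam N) (w' : Lam N) (t : ℝ)
    (h : HasDerivAt w w' t) :
    HasDerivAt (fun s => top N ((w s - a) * z) / r) (top N (w' * z) / r) t := by
  have h1 : HasDerivAt (fun s => w s - a) w' t := h.sub_const a
  have h2 := (TRL_L z r).toContinuousLinearMap.hasFDerivAt.comp_hasDerivAt t h1
  have e1 : (fun s => top N ((w s - a) * z) / r) =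
      (TRL_L z r).toContinuousLinearMap ∘ (fun s => w s - a) := by
    funext s
    exact (TRL_L_apply z r (w s - a)).symm
  rw [e1]
  have e2 : (TRL_L z r).toContinuousLinearMap w' = top N (w' * z) / r := TRL_L_apply z r w'
  rw [← e2]
  exact h2

theorem p_TRL (hFO2 : Stmt_FO2) (hLIE : Stmt_LIE) (hXHS : Stmt_XHS) (hPBT : Stmt_PBT)
    (hPBO : Stmt_PBO) (hTDF : Stmt_TDF) (hOFK : Stmt_OFK) (hDNC : Stmt_DNC) : Stmt_TRL := by
  intro n M _ _ _ _ _ _ _ Ω vol _ H Φ K hHS hK hHK k l f g hf hg T hT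
  obtain ⟨F1, F2, -, F4, -, -, -, -⟩ := hFO2 (2 * n) M
  obtain ⟨hX, -, hFl⟩ := hXHS (2 * n) M Ω H hHS.symp.form hHS.symp.nondeg hHS.ham
  have hFlw : Flw (XX Ω H) Φ := hFl Φ hHS.iso
  have hSm : SmI (2 * n) Φ := hHS.iso.smooth
  obtain ⟨-, O2, -, O4⟩ := hOFK n M Ω H Φ K hHS hK hHK
  obtain ⟨-, -, D3, -, D5⟩ := hDNC n M Ω hHS.symp
  have hfT : TForm (k + 1) (fun _ => f) := F4 (k + 1) f hf
  have hgT : TForm l (fun _ => g) := F4 l g hg
  have hLT : TForm (k + 1) (fun t => Lie (XX Ω H t) f) := hLIE (2 * n) M k (XX Ω H) (fun _ => f) hX hfT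
  have hPL : TForm (k + 1) (fun t => PBK (Φ t) (Lie (XX Ω H t) f)) :=
    hPBT (2 * n) M Φ (k + 1) (fun t => Lie (XX Ω H t) f) hSm hLT
  have hG : TForm (k + 1 + l) (fun t => PBK (Φ t) (Lie (XX Ω H t) f) * g) :=
    F1 (k + 1) l _ _ hPL hgT
  have hPf : TForm (k + 1) (fun t => PBK (Φ t) f) := hPBT (2 * n) M Φ (k + 1) (fun _ => f) hSm hfT
  have hDf : TForm (k + 1) (fun t => PBK (Φ t) f - f) := (F2 (k + 1) _ _ hPf hfT).2
  have hU : TForm (k + 1 + l) (fun t => (PBK (Φ t) f - f) * g) := F1 (k + 1) l _ _ hDf hgT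
  obtain ⟨W, hW⟩ : ∃ W : M → ℝ → ℝ, ∀ p t, W p t = dn n Ω (PBK (Φ t) (Lie (XX Ω H t) f) * g) p :=
    ⟨fun p t => dn n Ω (PBK (Φ t) (Lie (XX Ω H t) f) * g) p, fun _ _ => rfl⟩
  have hWc : ContinuousOn (fun q : ℝ × M => W q.2 q.1) (Icc 0 1 ×ˢ univ) := by
    have h := D3 (k + 1 + l) (fun t => PBK (Φ t) (Lie (XX Ω H t) f) * g) hG
    refine h.congr ?_
    intro q _
    exact hW q.2 q.1
  have hUc : ContinuousOn (fun q : ℝ × M => dn n Ω ((PBK (Φ q.1) f - f) * g) q.2)
      (Icc 0 1 ×ˢ univ) := D3 (k + 1 + l) (fun t => (PBK (Φ t) f - f) * g) hU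
  -- zero outside of `K`
  have hW0 : ∀ t ∈ Icc (0 : ℝ) 1, ∀ p ∉ K, W p t = 0 := by
    intro t ht p hp
    rw [hW]
    refine D5 K (PBK (Φ t) (Lie (XX Ω H t) f) * g) ?_ p hp
    intro c hc x hx hxK
    have h1 : PBK (Φ t) (Lie (XX Ω H t) f) c x = Lie (XX Ω H t) f c x :=
      O2 t ht (k + 1) _ (hLT.form t ht) c hc x hx hxK
    have h2 : Lie (XX Ω H t) f c x = 0 := O4 t ht f c hc x hx hxK
    show PBK (Φ t) (Lie (XX Ω H t) f) c x * g c x = 0
    rw [h1, h2, zero_mul]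
  -- the bound
  obtain ⟨C, hC⟩ := (isCompact_Icc.prod hK).exists_bound_of_continuousOn
    (hWc.mono (prod_mono_right (subset_univ K)))
  have hbound : ∀ t ∈ Icc (0 : ℝ) 1, ∀ p, ‖W p t‖ ≤ max C 0 := by
    intro t ht p
    by_cases hp : p ∈ K
    · exact (hC (t, p) ⟨ht, hp⟩).trans (le_max_left _ _)
    · rw [hW0 t ht p hp, norm_zero]
      exact le_max_right _ _
  -- for each point
  have hpt : ∀ p : M, dn n Ω ((PBK (Φ T) f - f) * g) p = ∫ t in (0 : ℝ)..T, W p t := by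
    intro p
    obtain ⟨u, hu⟩ : ∃ u : ℝ → ℝ, ∀ s, u s = dn n Ω ((PBK (Φ s) f - f) * g) p :=
      ⟨fun s => dn n Ω ((PBK (Φ s) f - f) * g) p, fun _ => rfl⟩
    rw [← hu T]
    have hsl : ContinuousOn (fun s : ℝ => (s, p)) (Icc 0 1) := by fun_prop
    have huc : ContinuousOn u (Icc 0 1) := by
      refine (hUc.comp hsl (fun s hs => ⟨hs, mem_univ p⟩)).congr ?_
      intro s _
      exact hu s
    have hWp : ContinuousOn (fun t => W p t) (Icc 0 1) :=
      hWc.comp hsl (fun s hs => ⟨hs, mem_univ p⟩)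
    have hc : chartAt (EE (2 * n)) p ∈ atlas (EE (2 * n)) M := chart_mem_atlas _ p
    have hx : chartAt (EE (2 * n)) p p ∈ (chartAt (EE (2 * n)) p).target :=
      mem_chart_target _ p
    have hu0 : u 0 = 0 := by
      have h1 : PBK (Φ 0) f (chartAt (EE (2 * n)) p) (chartAt (EE (2 * n)) p p) =
          f (chartAt (EE (2 * n)) p) (chartAt (EE (2 * n)) p p) :=
        (hPBO (2 * n) M Φ (k + 1) f hSm hHS.iso.zero hf).2 _ hc _ hx
      have h2 : ((PBK (Φ 0) f - f) * g) (chartAt (EE (2 * n)) p) (chartAt (EE (2 * n)) p p) = 0 := by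
        show (PBK (Φ 0) f (chartAt (EE (2 * n)) p) (chartAt (EE (2 * n)) p p) -
          f (chartAt (EE (2 * n)) p) (chartAt (EE (2 * n)) p p)) *
            g (chartAt (EE (2 * n)) p) (chartAt (EE (2 * n)) p p) = 0
        rw [h1, sub_self, zero_mul]
      rw [hu 0]
      unfold dn
      rw [h2, map_zero, zero_div]
    have hder : ∀ t ∈ Ioo (0 : ℝ) 1, HasDerivAt u (W p t) t := by
      intro t ht
      have h1 := hTDF (2 * n) M (XX Ω H) Φ (k + 1) f hX hFlw hf _ hc _ hx t ht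
      have h2 := TRL_deriv (g (chartAt (EE (2 * n)) p) (chartAt (EE (2 * n)) p p))
        (f (chartAt (EE (2 * n)) p) (chartAt (EE (2 * n)) p p))
        (top (2 * n) ((Ω (chartAt (EE (2 * n)) p) (chartAt (EE (2 * n)) p p)) ^ n)) _ _ t h1
      have e1 : u = fun s => top (2 * n) ((PBK (Φ s) f (chartAt (EE (2 * n)) p)
          (chartAt (EE (2 * n)) p p) - f (chartAt (EE (2 * n)) p) (chartAt (EE (2 * n)) p p)) *
          g (chartAt (EE (2 * n)) p) (chartAt (EE (2 * n)) p p)) /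
          top (2 * n) ((Ω (chartAt (EE (2 * n)) p) (chartAt (EE (2 * n)) p p)) ^ n) := by
        funext s
        rw [hu s]
        rfl
      rw [e1, hW p t]
      exact h2
    have hsub : Icc (0 : ℝ) T ⊆ Icc 0 1 := Icc_subset_Icc_right hT.2
    have hint : IntervalIntegrable (fun t => W p t) volume 0 T := by
      apply ContinuousOn.intervalIntegrable
      rw [uIcc_of_le hT.1]
      exact hWp.mono hsub
    have h := intervalIntegral.integral_eq_sub_of_hasDerivAt_of_le hT.1 (huc.mono hsub)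
      (fun t ht => hder t ⟨ht.1, lt_of_lt_of_le ht.2 hT.2⟩) hint
    rw [h, hu0, sub_zero]
  -- exchange of the integrals
  have hmeas : AEStronglyMeasurable (Function.uncurry W)
      (vol.prod (volume.restrict (Ioc 0 T))) := by
    have h1 : ContinuousOn (Function.uncurry W) ((univ : Set M) ×ˢ Icc (0 : ℝ) 1) := by
      have h2 : ContinuousOn (fun q : M × ℝ => (q.2, q.1)) ((univ : Set M) ×ˢ Icc (0 : ℝ) 1) := by
        fun_prop
      exact hWc.comp h2 (fun q hq => ⟨hq.2, mem_univ _⟩)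
    have h3 : ContinuousOn (Function.uncurry W) ((univ : Set M) ×ˢ Ioc (0 : ℝ) T) :=
      h1.mono (prod_mono_right (Ioc_subset_Icc_self.trans (Icc_subset_Icc_right hT.2)))
    have h4 : vol.prod ((volume : Measure ℝ).restrict (Ioc 0 T)) =
        (vol.prod (volume : Measure ℝ)).restrict ((univ : Set M) ×ˢ Ioc (0 : ℝ) T) := by
      rw [← Measure.prod_restrict, Measure.restrict_univ]
    rw [h4]
    exact h3.aestronglyMeasurable (MeasurableSet.univ.prod measurableSet_Ioc)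
  have hae : ∀ᵐ q ∂(vol.prod ((volume : Measure ℝ).restrict (Ioc 0 T))),
      ‖Function.uncurry W q‖ ≤ max C 0 := by
    have h4 : vol.prod ((volume : Measure ℝ).restrict (Ioc 0 T)) =
        (vol.prod (volume : Measure ℝ)).restrict ((univ : Set M) ×ˢ Ioc (0 : ℝ) T) := by
      rw [← Measure.prod_restrict, Measure.restrict_univ]
    rw [h4, ae_restrict_iff' (MeasurableSet.univ.prod measurableSet_Ioc)]
    refine Filter.Eventually.of_forall ?_
    intro q hq
    exact hbound q.2 ⟨hq.2.1.le, hq.2.2.trans hT.2⟩ q.1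
  have hIntg : Integrable (Function.uncurry W) (vol.prod (volume.restrict (Ioc 0 T))) :=
    Integrable.of_bound hmeas _ hae
  have hswap := integral_integral_swap hIntg
  have e1 : ∀ p, dn n Ω ((PBK (Φ T) f - f) * g) p = ∫ t in Ioc (0 : ℝ) T, W p t := by
    intro p
    rw [hpt p, intervalIntegral.integral_of_le hT.1]
  have e2 : ∫ p, dn n Ω ((PBK (Φ T) f - f) * g) p ∂vol =
      ∫ p, (∫ t in Ioc (0 : ℝ) T, W p t) ∂vol := integral_congr_ae (Filter.Eventually.of_forall e1)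
  have e3 : ∀ t, ∫ p, dn n Ω (PBK (Φ t) (Lie (XX Ω H t) f) * g) p ∂vol = ∫ p, W p t ∂vol := by
    intro t
    exact integral_congr_ae (Filter.Eventually.of_forall fun p => (hW p t).symm)
  rw [intervalIntegral.integral_of_le hT.1, e2]
  refine hswap.trans ?_
  exact integral_congr_ae (Filter.Eventually.of_forall fun t => (e3 t).symm)

end HDC
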