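import Pool.Agent.Work.MP_c3bd4f_hd.Interface

/-!
# Block VOL (MP_c3bd4f_gt, THEOREM HC): the volume measure in a chart
-/

set_option autoImplicit false

open scoped ContDiff Manifold Topology
open Set MeasureTheory

noncomputable section

namespace HDC

lemma VOL_cmul {N : ℕ} : Continuous fun p : Lam N × Lam N => p.1 * p.2 := by
  have h := ((LinearMap.mul ℝ (Lam N)).toContinuousBilinearMap).continuous₂
  exact h

lemma VOL_cpow {N : ℕ} {s : Set (EE N)} {f : EE N → Lam N} (hf : ContinuousOn f s) (n : ℕ) :
    ContinuousOn (fun x => f x ^ n) s := by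
  induction n with
  | zero => simpa using continuousOn_const
  | succ n ih =>
    have h : ContinuousOn (fun x => f x ^ n * f x) s :=
      VOL_cmul.comp_continuousOn (ih.prodMk hf)
    simpa only [pow_succ] using h

lemma VOL_ctop {N : ℕ} : Continuous (top N) := LinearMap.continuous_of_finiteDimensional _

/-- block VOL -/
theorem p_VOL (hDNC : Stmt_DNC) : Stmt_VOL := by
  intro n M _ _ _ _ _ _ _ Ω vol hΩ hvol
  obtain ⟨hne, -⟩ := hDNC n M Ω hΩ
  have hcont : ∀ c ∈ atlas (EE (2 * n)) M,
      ContinuousOn (fun x => top (2 * n) ((Ω c x) ^ n)) c.target := fun c hc =>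
    VOL_ctop.comp_continuousOn (VOL_cpow (hΩ.form.smooth c hc).continuousOn n)
  have hρm : ∀ c ∈ atlas (EE (2 * n)) M,
      AEMeasurable (fun x => ENNReal.ofReal |top (2 * n) ((Ω c x) ^ n)|)
        (volume.restrict c.target) := fun c hc =>
    ((hcont c hc).abs.aemeasurable c.open_target.measurableSet).ennreal_ofReal
  refine ⟨?_, ?_⟩
  · intro U hU hUne
    obtain ⟨p, hp⟩ := hUne
    have hc : chartAt (EE (2 * n)) p ∈ atlas (EE (2 * n)) M := chart_mem_atlas _ _
    set c := chartAt (EE (2 * n)) p with hcdef
    have hSo : IsOpen (c.target ∩ c.symm ⁻¹' U) := c.isOpen_inter_preimage_symm hU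
    have hps : p ∈ c.source := mem_chart_source _ _
    have hSne : (c.target ∩ c.symm ⁻¹' U).Nonempty :=
      ⟨c p, c.map_source hps, by
        simpa only [mem_preimage, c.left_inv hps] using hp⟩
    have h1 := hvol c hc _ hSo.measurableSet inter_subset_left
    have hsub : c.symm '' (c.target ∩ c.symm ⁻¹' U) ⊆ U := by
      rintro _ ⟨x, hx, rfl⟩
      exact hx.2
    refine lt_of_lt_of_le ?_ (measure_mono hsub)
    rw [h1, pos_iff_ne_zero]
    intro h0
    have hm : AEMeasurable (fun x => ENNReal.ofReal |top (2 * n) ((Ω c x) ^ n)|)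
        (volume.restrict (c.target ∩ c.symm ⁻¹' U)) :=
      (hρm c hc).mono_measure (Measure.restrict_mono inter_subset_left le_rfl)
    rw [lintegral_eq_zero_iff' hm] at h0
    have h2 : ∀ᵐ x ∂(volume.restrict (c.target ∩ c.symm ⁻¹' U)), False := by
      filter_upwards [h0, ae_restrict_mem hSo.measurableSet] with x hx hxS
      have h3 : |top (2 * n) ((Ω c x) ^ n)| ≤ 0 := ENNReal.ofReal_eq_zero.1 hx
      exact hne c hc x hxS.1 (abs_eq_zero.1 (le_antisymm h3 (abs_nonneg _)))
    have h4 : volume.restrict (c.target ∩ c.symm ⁻¹' U) = 0 :=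
      ae_eq_bot.1 (Filter.eventually_false_iff_eq_bot.1 h2)
    have h5 : volume (c.target ∩ c.symm ⁻¹' U) = 0 := Measure.restrict_eq_zero.1 h4
    exact (hSo.measure_pos volume hSne).ne' h5
  · intro c hc g hg hg0
    set ρ : EE (2 * n) → ENNReal := fun x => ENNReal.ofReal |top (2 * n) ((Ω c x) ^ n)| with hρ
    set ν : Measure (EE (2 * n)) := (volume.restrict c.target).withDensity ρ with hν
    have htm : MeasurableSet c.target := c.open_target.measurableSet
    have hsm : MeasurableSet c.source := c.open_source.measurableSet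
    have hsymm : AEMeasurable c.symm (volume.restrict c.target) :=
      c.continuousOn_symm.aemeasurable htm
    have hsν : AEMeasurable c.symm ν := hsymm.mono_ac (withDensity_absolutelyContinuous _ _)
    have hmap : vol.restrict c.source = ν.map c.symm := by
      ext A hA
      rw [Measure.restrict_apply hA, Measure.map_apply_of_aemeasurable hsν hA, hν,
        withDensity_apply', Measure.restrict_restrict' htm]
      have hm : MeasurableSet (c.symm ⁻¹' A ∩ c.target) := by
        have h1 : Measurable (c.target.domRestrict c.symm) :=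
          (continuousOn_iff_continuous_domRestrict.1 c.continuousOn_symm).measurable
        have h2 : c.symm ⁻¹' A ∩ c.target = Subtype.val '' ((c.target.domRestrict c.symm) ⁻¹' A) := by
          ext x
          simp only [mem_inter_iff, mem_preimage, mem_image, domRestrict_apply, Subtype.exists,
            exists_and_right, exists_eq_right]
          constructor
          · rintro ⟨h, h'⟩
            exact ⟨h', h⟩
          · rintro ⟨h, h'⟩
            exact ⟨h', h⟩
        rw [h2]
        exact MeasurableSet.subtype_image htm (h1 hA)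
      rw [← hvol c hc _ hm inter_subset_right]
      congr 1
      ext p
      constructor
      · rintro ⟨hpA, hps⟩
        exact ⟨c p, ⟨by simpa only [mem_preimage, c.left_inv hps] using hpA, c.map_source hps⟩,
          c.left_inv hps⟩
      · rintro ⟨x, ⟨hxA, hxt⟩, rfl⟩
        exact ⟨hxA, c.map_target hxt⟩
    have h1 : ∫ p, g p ∂vol = ∫ p in c.source, g p ∂vol :=
      (setIntegral_eq_integral_of_forall_compl_eq_zero hg0).symm
    rw [h1, hmap, integral_map hsν hg.aestronglyMeasurable, hν,
      integral_withDensity_eq_integral_toReal_smul₀ (hρm c hc)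
        (Filter.Eventually.of_forall fun _ => ENNReal.ofReal_lt_top)]
    congr 1
    funext x
    rw [ENNReal.toReal_ofReal (abs_nonneg _), smul_eq_mul, mul_comm]

end HDC
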