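import Pool.Agent.Work.MP_c3bd4f_hd.Interface

set_option autoImplicit false

/-! # Block XHS: the Hamiltonian vector field (helper57) -/

open scoped ContDiff Manifold Topology
open Set MeasureTheory

noncomputable section

namespace HDC

theorem XHS_sub {N : ℕ} (u v : EE N) (w : Lam N) : ctr (u - v) w = ctr u w - ctr v w := by
  unfold ctr
  rw [map_sub, map_sub, LinearMap.sub_apply]

theorem XHS_uniq {N : ℕ} {w : Lam N} (hw : ∀ v, ctr v w = 0 → v = 0) {u v : EE N}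
    (h : ctr u w = ctr v w) : u = v := by
  have h1 := hw (u - v) (by rw [XHS_sub, h, sub_self])
  exact sub_eq_zero.1 h1

theorem XHS_set {N : ℕ} (T : Set (EE N)) :
    ((Icc (0 : ℝ) 1 ×ˢ (univ : Set (EE N))) ∩ ((univ : Set ℝ) ×ˢ T)) = Icc (0 : ℝ) 1 ×ˢ T := by
  rw [prod_inter_prod, inter_univ, univ_inter]

theorem p_XHS (hPBA : Stmt_PBA) (hSHP : Stmt_SHP) (hTRN : Stmt_TRN) (hPDL : Stmt_PDL)
    (hHMS : Stmt_HMS) : Stmt_XHS := by
  intro N M _ _ _ Ω H hΩ hnd hH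
  obtain ⟨hP1, hP2, hP3, hP4, -⟩ := hPBA N
  obtain ⟨hS1, hS2⟩ := hSHP N
  obtain ⟨hH1, -, -⟩ := hHMS N M H hH
  have hNd : ∀ c ∈ atlas (EE N) M, ∀ x ∈ c.target, Nd (Ω c x) := fun c hc x hx =>
    ⟨hΩ.deg c hc x hx, hnd c hc x hx⟩
  have hD : ∀ c ∈ atlas (EE N) M,
      (∀ q ∈ Icc (0 : ℝ) 1 ×ˢ c.target, ContDiffAt ℝ ∞ (fun y => H q.1 (c.symm y)) q.2) ∧
      ContDiffOn ℝ ∞ (fun q : ℝ × EE N => fderiv ℝ (fun y => H q.1 (c.symm y)) q.2)
        (Icc (0 : ℝ) 1 ×ˢ c.target) := by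
    intro c hc
    have h1 := hPDL (EE N) ℝ (fun q : ℝ × EE N => H q.1 (c.symm q.2))
      ((univ : Set ℝ) ×ˢ c.target) (isOpen_univ.prod c.open_target)
    rw [XHS_set] at h1
    exact h1 (hH1 c hc)
  have hX : ∀ t ∈ Icc (0 : ℝ) 1, ∀ c ∈ atlas (EE N) M, ∀ x ∈ c.target,
      ctr (XX Ω H t c x) (Ω c x) =
        io (fderiv ℝ (fun y => H t (c.symm y)) x).toLinearMap := fun t _ c hc x hx =>
    hS1 _ _ (hNd c hc x hx)
  refine ⟨⟨?_, ?_⟩, hX, ?_⟩
  · intro c hc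
    exact hS2 (ℝ × EE N) (Icc (0 : ℝ) 1 ×ˢ c.target) (fun q => Ω c q.2)
      (fun q => fderiv ℝ (fun y => H q.1 (c.symm y)) q.2)
      ((hΩ.smooth c hc).comp contDiff_snd.contDiffOn fun q hq => hq.2) (hD c hc).2
      fun q hq => hNd c hc q.2 hq.2
  · intro t ht c hc c' hc' x hx hxs
    obtain ⟨ho, hsm, -⟩ := hTRN N M c hc c' hc'
    obtain ⟨-, -, hinv⟩ := hTRN N M c' hc' c hc
    have hx' : c' (c.symm x) ∈ c'.target := c'.map_source hxs
    have hback : c'.symm (c' (c.symm x)) = c.symm x := c'.left_inv hxs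
    have hinv' := hinv (c' (c.symm x)) hx' (by rw [hback]; exact c.map_target hx)
    rw [hback, c.right_inv hx] at hinv'
    set T : EE N →L[ℝ] EE N := fderiv ℝ (fun y => c' (c.symm y)) x with hT
    set T' : EE N →L[ℝ] EE N := fderiv ℝ (fun y => c (c'.symm y)) (c' (c.symm x)) with hT'
    have hinj : ∀ y z : Lam N, pb T y = pb T z → y = z := by
      intro y z hyz
      have h1 : ∀ w : Lam N, pb T' (pb T w) = w := by
        intro w
        rw [← hP2 T T' w, hinv', hP3]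
      rw [← h1 y, hyz, h1 z]
    refine XHS_uniq (hnd c' hc' _ hx') (hinj _ _ ?_)
    have hTd : HasFDerivAt (fun y => c' (c.symm y)) T x := by
      have h1 : ContDiffAt ℝ ∞ (fun y => c' (c.symm y)) x :=
        hsm.contDiffAt (ho.mem_nhds ⟨hx, hxs⟩)
      exact (h1.differentiableAt (by simp)).hasFDerivAt
    have hgd : HasFDerivAt (fun z => H t (c'.symm z))
        (fderiv ℝ (fun z => H t (c'.symm z)) (c' (c.symm x))) (c' (c.symm x)) :=
      (((hD c' hc').1 (t, c' (c.symm x)) ⟨ht, hx'⟩).differentiableAt (by simp)).hasFDerivAt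
    have hcomp : HasFDerivAt (fun y => H t (c'.symm (c' (c.symm y))))
        ((fderiv ℝ (fun z => H t (c'.symm z)) (c' (c.symm x))).comp T) x :=
      HasFDerivAt.comp (g := fun z => H t (c'.symm z)) (f := fun y => c' (c.symm y)) x hgd hTd
    have hev : (fun y => H t (c.symm y)) =ᶠ[𝓝 x] fun y => H t (c'.symm (c' (c.symm y))) := by
      filter_upwards [ho.mem_nhds ⟨hx, hxs⟩] with y hy
      rw [c'.left_inv hy.2]
    have hfd : fderiv ℝ (fun y => H t (c.symm y)) x =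
        (fderiv ℝ (fun z => H t (c'.symm z)) (c' (c.symm x))).comp T := by
      rw [hev.fderiv_eq]
      exact hcomp.fderiv
    rw [hP4, ← hΩ.compat c hc c' hc' x hx hxs, hX t ht c hc x hx, hX t ht c' hc' _ hx', hP1,
      hfd]
    rfl
  · intro Φ hΦ
    refine ⟨hΦ.smooth, hΦ.zero, ?_⟩
    intro t ht p c hc hps
    obtain ⟨v, hv, hv2⟩ := hΦ.ode t ht p c hc hps
    have hx : c (Φ t p) ∈ c.target := c.map_source hps
    have h1 : v = XX Ω H t c (c (Φ t p)) := by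
      refine XHS_uniq (hnd c hc _ hx) ?_
      rw [hv2, hX t ht c hc _ hx]
    rw [← h1]
    exact hv

end HDC
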