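import Pool.Agent.Work.MP_c3bd4f_hd.Flow0
import Pool.Agent.Work.MP_c3bd4f_hd.B_ALG
import Pool.Agent.Work.MP_c3bd4f_hd.B_SMA
import Pool.Agent.Work.MP_c3bd4f_hd.B_PBA
import Pool.Agent.Work.MP_c3bd4f_hd.B_DEG
import Pool.Agent.Work.MP_c3bd4f_hd.B_FO2
import Pool.Agent.Work.MP_c3bd4f_hd.B_DRV
import Pool.Agent.Work.MP_c3bd4f_hd.B_NAT
import Pool.Agent.Work.MP_c3bd4f_hd.B_PDL
import Pool.Agent.Work.MP_c3bd4f_hd.B_TRN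
import Pool.Agent.Work.MP_c3bd4f_hd.B_DGD
import Pool.Agent.Work.MP_c3bd4f_hd.B_FO1
import Pool.Agent.Work.MP_c3bd4f_hd.B_FO3
import Pool.Agent.Work.MP_c3bd4f_hd.B_LIE
import Pool.Agent.Work.MP_c3bd4f_hd.B_SHP
import Pool.Agent.Work.MP_c3bd4f_hd.B_HMS
import Pool.Agent.Work.MP_c3bd4f_hd.B_XHS
import Pool.Agent.Work.MP_c3bd4f_hd.B_PHL
import Pool.Agent.Work.MP_c3bd4f_hd.B_PBX
import Pool.Agent.Work.MP_c3bd4f_hd.B_PBT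
import Pool.Agent.Work.MP_c3bd4f_hd.B_PBO
import Pool.Agent.Work.MP_c3bd4f_hd.B_CTN
import Pool.Agent.Work.MP_c3bd4f_hd.B_TDR
import Pool.Agent.Work.MP_c3bd4f_hd.B_MXP
import Pool.Agent.Work.MP_c3bd4f_hd.B_TDF
import Pool.Agent.Work.MP_c3bd4f_hd.B_OFK
import Pool.Agent.Work.MP_c3bd4f_hd.B_TOP
import Pool.Agent.Work.MP_c3bd4f_hd.B_CPW
import Pool.Agent.Work.MP_c3bd4f_hd.B_NDG
import Pool.Agent.Work.MP_c3bd4f_hd.B_DNC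
import Pool.Agent.Work.MP_c3bd4f_hd.B_TRL
import Pool.Agent.Work.MP_c3bd4f_hd.B_DDZ
import Pool.Agent.Work.MP_c3bd4f_hd.B_LBZ
import Pool.Agent.Work.MP_c3bd4f_hd.B_CNG
import Pool.Agent.Work.MP_c3bd4f_hd.B_INT
import Pool.Agent.Work.MP_c3bd4f_hd.B_VOL
import Pool.Agent.Work.MP_c3bd4f_hd.B_STE
import Pool.Agent.Work.MP_c3bd4f_hd.B_STL
import Pool.Agent.Work.MP_c3bd4f_hd.B_PUN
import Pool.Agent.Work.MP_c3bd4f_hd.B_STM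
import Pool.Agent.Work.MP_c3bd4f_hd.B_MN1
import Pool.Agent.Work.MP_c3bd4f_hd.B_OMI
import Pool.Agent.Work.MP_c3bd4f_hd.B_INV
import Pool.Agent.Work.MP_c3bd4f_hd.B_MN2
import Pool.Agent.Work.MP_c3bd4f_hd.B_CAL
import Pool.Agent.Work.MP_c3bd4f_hd.B_DET
import Pool.Agent.Work.MP_c3bd4f_hd.B_EX1
import Pool.Agent.Work.MP_c3bd4f_hd.B_EX2
import Pool.Agent.Work.MP_c3bd4f_hd.B_EX3
import Pool.Agent.Work.MP_c3bd4f_hd.B_LIG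
import Pool.Agent.Work.MP_c3bd4f_hd.B_FSD
import Pool.Agent.Work.MP_c3bd4f_hd.B_FCO
import Pool.Agent.Work.MP_c3bd4f_hd.B_FSM
import Pool.Agent.Work.MP_c3bd4f_hd.B_GFL
import Pool.Agent.Work.MP_c3bd4f_hd.B_FXP
import Pool.Agent.Work.MP_c3bd4f_hd.B_EXH
import Pool.Agent.Work.MP_c3bd4f_hd.B_EXV
import Pool.Agent.Work.MP_c3bd4f_hd.B_NCP
import Pool.Agent.Work.MP_c3bd4f_hd.B_LNI
import Pool.Agent.Work.MP_c3bd4f_hd.B_HOF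
import Pool.Agent.Work.MP_c3bd4f_hd.B_FIN

set_option autoImplicit false

/-! # Assembly of the blocks -/

namespace HDC

theorem q_ALG : Stmt_ALG := p_ALG 

theorem q_SMA : Stmt_SMA := p_SMA 

theorem q_PBA : Stmt_PBA := p_PBA q_ALG

theorem q_DEG : Stmt_DEG := p_DEG q_ALG q_PBA

theorem q_FO2 : Stmt_FO2 := p_FO2 q_SMA q_DEG

theorem q_DRV : Stmt_DRV := p_DRV q_SMA

theorem q_NAT : Stmt_NAT := p_NAT q_ALG q_PBA q_DRV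

theorem q_PDL : Stmt_PDL := p_PDL 

theorem q_TRN : Stmt_TRN := p_TRN 

theorem q_DGD : Stmt_DGD := p_DGD q_SMA

theorem q_FO1 : Stmt_FO1 := p_FO1 q_NAT q_PDL q_TRN q_SMA q_DGD

theorem q_FO3 : Stmt_FO3 := p_FO3 q_SMA q_DEG q_PBA

theorem q_LIE : Stmt_LIE := p_LIE q_FO1 q_FO2 q_FO3

theorem q_SHP : Stmt_SHP := p_SHP q_ALG q_DEG q_SMA

theorem q_HMS : Stmt_HMS := p_HMS q_DEG

theorem q_XHS : Stmt_XHS := p_XHS q_PBA q_SHP q_TRN q_PDL q_HMS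

theorem q_PHL : Stmt_PHL := p_PHL 

theorem q_PBX : Stmt_PBX := p_PBX q_PBA q_PDL q_TRN q_PHL

theorem q_PBT : Stmt_PBT := p_PBT q_PBA q_DEG q_SMA q_PDL q_TRN q_PHL q_PBX

theorem q_PBO : Stmt_PBO := p_PBO q_PBA q_NAT q_PDL q_PHL q_PBX

theorem q_CTN : Stmt_CTN := p_CTN q_ALG q_DRV

theorem q_TDR : Stmt_TDR := p_TDR q_ALG q_PBA q_DRV

theorem q_MXP : Stmt_MXP := p_MXP 

theorem q_TDF : Stmt_TDF := p_TDF q_CTN q_TDR q_MXP q_PHL q_PBX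

theorem q_OFK : Stmt_OFK := p_OFK q_XHS q_PHL q_PBX q_PBA

theorem q_TOP : Stmt_TOP := p_TOP 

theorem q_CPW : Stmt_CPW := p_CPW q_ALG q_DEG

theorem q_NDG : Stmt_NDG := p_NDG q_ALG q_DEG q_TOP q_CPW

theorem q_DNC : Stmt_DNC := p_DNC q_DEG q_TOP q_NDG q_SMA

theorem q_TRL : Stmt_TRL := p_TRL q_FO2 q_LIE q_XHS q_PBT q_PBO q_TDF q_OFK q_DNC

theorem q_DDZ : Stmt_DDZ := p_DDZ q_ALG

theorem q_LBZ : Stmt_LBZ := p_LBZ q_ALG q_DRV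

theorem q_CNG : Stmt_CNG := p_CNG 

theorem q_INT : Stmt_INT := p_INT q_DNC

theorem q_VOL : Stmt_VOL := p_VOL q_DNC

theorem q_STE : Stmt_STE := p_STE 

theorem q_STL : Stmt_STL := p_STL q_FO1 q_FO2 q_DNC q_VOL q_STE

theorem q_PUN : Stmt_PUN := p_PUN 

theorem q_STM : Stmt_STM := p_STM q_CNG q_FO1 q_FO2 q_INT q_STL q_PUN

theorem q_MN1 : Stmt_MN1 := p_MN1 q_ALG q_DEG q_CPW q_DDZ q_LBZ q_CNG q_FO1 q_FO2 q_HMS q_XHS q_DNC q_INT q_STM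

theorem q_OMI : Stmt_OMI := p_OMI q_DDZ q_CNG q_FO2 q_HMS q_XHS q_PBT q_PBO q_TDF

theorem q_INV : Stmt_INV := p_INV q_DEG q_CNG q_FO1 q_FO2 q_FO3 q_XHS q_PBT q_PBO q_OFK q_INT q_STM q_TRL

theorem q_MN2 : Stmt_MN2 := p_MN2 q_DEG q_CPW q_DDZ q_LBZ q_CNG q_FO1 q_FO2 q_FO3 q_HMS q_XHS q_PBT q_PBO q_OMI q_OFK q_INT q_STM q_INV

theorem q_CAL : Stmt_CAL := p_CAL q_FO2 q_TRL q_MN1 q_MN2

theorem q_DET : Stmt_DET := p_DET q_TOP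

theorem q_EX1 : Stmt_EX1 := p_EX1 q_SHP

theorem q_EX2 : Stmt_EX2 := p_EX2 

theorem q_EX3 : Stmt_EX3 := p_EX3 q_TRN q_XHS q_EX2

theorem q_LIG : Stmt_LIG := p_LIG p_LIN

theorem q_FSD : Stmt_FSD := p_FSD (p_FLW p_LIN p_LPF p_USD) q_LIG

theorem q_FCO : Stmt_FCO := p_FCO p_LPF

theorem q_FSM : Stmt_FSM := p_FSM q_FSD q_FCO

theorem q_GFL : Stmt_GFL := p_GFL 

theorem q_FXP : Stmt_FXP := p_FXP 

theorem q_EXH : Stmt_EXH := p_EXH q_VOL q_FSM q_GFL q_FXP q_EX1 q_EX2 q_EX3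

theorem q_EXV : Stmt_EXV := p_EXV q_TRN q_DNC q_DET

theorem q_NCP : Stmt_NCP := p_NCP q_VOL q_CAL

theorem q_LNI : Stmt_LNI := p_LNI q_HMS

theorem q_HOF : Stmt_HOF := p_HOF q_HMS q_LNI

theorem q_FIN : Stmt_FIN := p_FIN q_CAL q_NCP q_HOF q_EXH

end HDC
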