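import Pool.Agent.Work.MP_c3bd4f_hd.Interface

set_option autoImplicit false

/-! Block DNC: the density. -/

open scoped ContDiff Manifold Topology
open Set MeasureTheory

noncomputable section

namespace HDC

theorem DNC_ratio (hTOP : Stmt_TOP) (N : ℕ) (A : EE N →L[ℝ] EE N) (y w : Lam N)
    (hy : y ∈ ⋀[ℝ]^N (VV N)) (hw : w ∈ ⋀[ℝ]^N (VV N)) (h0 : top N w ≠ 0)
    (h1 : top N (pb A w) ≠ 0) : top N (pb A y) / top N (pb A w) = top N y / top N w := by
  have h2 : top N w • y = top N y • w := (hTOP N).2.1 w y hw hy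
  have h3 := congrArg (fun z => top N (pb A z)) h2
  simp only [map_smul, smul_eq_mul] at h3
  rw [div_eq_div_iff h1 h0]
  linarith

theorem DNC_pow (hSMA : Stmt_SMA) (N n : ℕ) : Continuous fun x : Lam N => x ^ n := by
  induction n with
  | zero => simpa using continuous_const
  | succ n ih =>
    have h := (hSMA N).1.continuous.comp (ih.prodMk continuous_id)
    refine h.congr fun x => ?_
    simp [pow_succ]

theorem DNC_cont (n : ℕ) (M : Type) [TopologicalSpace M] [ChartedSpace (EE (2 * n)) M]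
    (hSMA : Stmt_SMA) (Ω : Fam (2 * n) M) (hΩ : ∀ c ∈ atlas (EE (2 * n)) M, ContinuousOn (Ω c) c.target)
    (F : ℝ → Fam (2 * n) M)
    (hF : ∀ c ∈ atlas (EE (2 * n)) M,
      ContinuousOn (fun q : ℝ × EE (2 * n) => F q.1 c q.2) (Icc 0 1 ×ˢ c.target))
    (h1 : ∀ c ∈ atlas (EE (2 * n)) M, ∀ x ∈ c.target, top (2 * n) ((Ω c x) ^ n) ≠ 0)
    (h2 : ∀ t ∈ Icc (0 : ℝ) 1, ∀ c ∈ atlas (EE (2 * n)) M, ∀ p ∈ c.source,
      dn n Ω (F t) p = top (2 * n) (F t c (c p)) / top (2 * n) ((Ω c (c p)) ^ n)) :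
    ContinuousOn (fun q : ℝ × M => dn n Ω (F q.1) q.2) (Icc 0 1 ×ˢ univ) := by
  rintro ⟨t0, p0⟩ ⟨ht0, -⟩
  simp only at ht0
  set c := chartAt (EE (2 * n)) p0 with hc
  have hca : c ∈ atlas (EE (2 * n)) M := chart_mem_atlas _ _
  have hp0 : p0 ∈ c.source := mem_chart_source _ _
  have htop : Continuous (top (2 * n)) := ((hSMA (2 * n)).2.2.2.2.1 (top (2 * n))).continuous
  have hcc : ContinuousOn (fun q : ℝ × M => (q.1, c q.2)) (Icc 0 1 ×ˢ c.source) :=
    continuousOn_fst.prodMk (c.continuousOn.comp continuousOn_snd fun q hq => hq.2)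
  have hmap : MapsTo (fun q : ℝ × M => (q.1, c q.2)) (Icc 0 1 ×ˢ c.source) (Icc 0 1 ×ˢ c.target) :=
    fun q hq => ⟨hq.1, c.map_source hq.2⟩
  have hn : ContinuousOn (fun q : ℝ × M => top (2 * n) (F q.1 c (c q.2))) (Icc 0 1 ×ˢ c.source) :=
    htop.comp_continuousOn ((hF c hca).comp hcc hmap)
  have hd : ContinuousOn (fun q : ℝ × M => top (2 * n) ((Ω c (c q.2)) ^ n))
      (Icc 0 1 ×ˢ c.source) := by
    refine htop.comp_continuousOn ((DNC_pow hSMA _ n).comp_continuousOn ?_)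
    exact (hΩ c hca).comp (c.continuousOn.comp continuousOn_snd fun q hq => hq.2)
      fun q hq => c.map_source hq.2
  have hq : ContinuousOn (fun q : ℝ × M => dn n Ω (F q.1) q.2) (Icc 0 1 ×ˢ c.source) := by
    refine (hn.div hd fun q hq => h1 c hca _ (c.map_source hq.2)).congr fun q hq => ?_
    exact h2 q.1 hq.1 c hca q.2 hq.2
  have hmem : (Icc (0 : ℝ) 1 ×ˢ c.source) ∈ 𝓝[Icc (0 : ℝ) 1 ×ˢ univ] (t0, p0) := by
    refine mem_nhdsWithin.2 ⟨univ ×ˢ c.source, isOpen_univ.prod c.open_source, ⟨mem_univ _, hp0⟩, ?_⟩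
    rintro q ⟨hq1, hq2⟩
    exact ⟨hq2.1, hq1.2⟩
  exact (hq (t0, p0) ⟨ht0, hp0⟩).mono_of_mem_nhdsWithin hmem

theorem p_DNC (hDEG : Stmt_DEG) (hTOP : Stmt_TOP) (hNDG : Stmt_NDG) (hSMA : Stmt_SMA) :
    Stmt_DNC := by
  intro n M _ _ _ Ω hΩ
  have h1 : ∀ c ∈ atlas (EE (2 * n)) M, ∀ x ∈ c.target, top (2 * n) ((Ω c x) ^ n) ≠ 0 :=
    fun c hc x hx => hNDG n (Ω c x) ⟨hΩ.form.deg c hc x hx, hΩ.nondeg c hc x hx⟩
  have hpw : ∀ c ∈ atlas (EE (2 * n)) M, ∀ x ∈ c.target,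
      (Ω c x) ^ n ∈ ⋀[ℝ]^(2 * n) (VV (2 * n)) := by
    intro c hc x hx
    have h := SetLike.pow_mem_graded (A := fun i : ℕ => ⋀[ℝ]^i (VV (2 * n))) n
      (hΩ.form.deg c hc x hx)
    rw [show n • 2 = 2 * n by simp [mul_comm]] at h
    exact h
  have h2 : ∀ (k : ℕ) (f : Fam (2 * n) M), IsForm k f → ∀ c ∈ atlas (EE (2 * n)) M,
      ∀ p ∈ c.source, dn n Ω f p = top (2 * n) (f c (c p)) / top (2 * n) ((Ω c (c p)) ^ n) := by
    intro k f hf c hc p hp
    set c1 := chartAt (EE (2 * n)) p with hc1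
    have hc1a : c1 ∈ atlas (EE (2 * n)) M := chart_mem_atlas _ _
    have hp1 : p ∈ c1.source := mem_chart_source _ _
    have hx : c1 p ∈ c1.target := c1.map_source hp1
    have hsy : c1.symm (c1 p) = p := c1.left_inv hp1
    have e1 := hf.compat c1 hc1a c hc (c1 p) hx (by rw [hsy]; exact hp)
    have e2 := hΩ.form.compat c1 hc1a c hc (c1 p) hx (by rw [hsy]; exact hp)
    rw [hsy] at e1 e2
    set A := fderiv ℝ (fun y => c (c1.symm y)) (c1 p) with hA
    have hcp : c p ∈ c.target := c.map_source hp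
    show top (2 * n) (f c1 (c1 p)) / top (2 * n) ((Ω c1 (c1 p)) ^ n) = _
    rw [e1, e2, ← map_pow]
    by_cases hk : k = 2 * n
    · subst hk
      refine DNC_ratio hTOP _ A _ _ (hf.deg c hc _ hcp) (hpw c hc _ hcp) (h1 c hc _ hcp) ?_
      rw [map_pow, ← e2]
      exact h1 c1 hc1a _ hx
    · rw [(hTOP (2 * n)).1 k _ hk ((hDEG (2 * n)).2.2.2.1 k A _ (hf.deg c hc _ hcp)),
        (hTOP (2 * n)).1 k _ hk (hf.deg c hc _ hcp), zero_div, zero_div]
  have hΩc : ∀ c ∈ atlas (EE (2 * n)) M, ContinuousOn (Ω c) c.target :=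
    fun c hc => (hΩ.form.smooth c hc).continuousOn
  have h3 : ∀ (k : ℕ) (F : ℝ → Fam (2 * n) M), TForm k F →
      ContinuousOn (fun q : ℝ × M => dn n Ω (F q.1) q.2) (Icc 0 1 ×ˢ univ) := by
    intro k F hF
    exact DNC_cont n M hSMA Ω hΩc F (fun c hc => (hF.smooth c hc).continuousOn) h1
      fun t ht c hc p hp => h2 k (F t) (hF.form t ht) c hc p hp
  refine ⟨h1, h2, h3, ?_, ?_⟩
  · intro k f hf
    have h := DNC_cont n M hSMA Ω hΩc (fun _ => f)
      (fun c hc => ((hf.smooth c hc).continuousOn).comp continuousOn_snd fun q hq => hq.2) h1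
      fun t ht c hc p hp => h2 k f hf c hc p hp
    exact h.comp_continuous (f := fun p : M => ((0 : ℝ), p)) (by fun_prop)
      fun p => ⟨⟨le_refl _, zero_le_one⟩, mem_univ _⟩
  · intro K f hf p hp
    have hp1 : p ∈ (chartAt (EE (2 * n)) p).source := mem_chart_source _ _
    show top (2 * n) (f (chartAt (EE (2 * n)) p) (chartAt (EE (2 * n)) p p)) / _ = 0
    rw [hf _ (chart_mem_atlas _ _) _ ((chartAt (EE (2 * n)) p).map_source hp1)
      (by rw [(chartAt (EE (2 * n)) p).left_inv hp1]; exact hp), map_zero, zero_div]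

end HDC
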