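import Pool.Agent.Work.MP_c3bd4f_hd.Interface

/-!
# Block HOF: the Hofer length bounds the Calabi invariant
-/

set_option autoImplicit false

open scoped ContDiff Manifold Topology
open Set MeasureTheory

noncomputable section

namespace HDC

theorem p_HOF (_ : Stmt_HMS) (hLNI : Stmt_LNI) : Stmt_HOF := by
  intro N M _ _ _ _ _ vol _ H hH ⟨p0, hp0⟩
  obtain ⟨hS, hI, hB⟩ := hLNI N M H hH
  have hbd : ∀ t ∈ Icc (0 : ℝ) 1, ‖∫ p, H t p ∂vol‖ ≤
      ((⨆ p, H t p) - ⨅ p, H t p) * (vol univ).toReal := by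
    intro t ht
    obtain ⟨hA, hL⟩ := hB t ht
    refine norm_integral_le_of_norm_le_const (Filter.Eventually.of_forall fun p => ?_)
    have h1 : H t p ≤ ⨆ p, H t p := le_ciSup hA p
    have h2 : ⨅ p, H t p ≤ H t p := ciInf_le hL p
    have h3 : H t p0 ≤ ⨆ p, H t p := le_ciSup hA p0
    have h4 : ⨅ p, H t p ≤ H t p0 := ciInf_le hL p0
    rw [hp0 t ht] at h3 h4
    rw [Real.norm_eq_abs, abs_le]
    constructor <;> linarith
  have h5 : IntervalIntegrable (fun t => ((⨆ p, H t p) - ⨅ p, H t p) * (vol univ).toReal)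
      volume 0 1 :=
    ((hS.sub hI).mul continuousOn_const).intervalIntegrable_of_Icc zero_le_one
  have h6 : ‖∫ t in (0 : ℝ)..1, ∫ p, H t p ∂vol‖ ≤
      ∫ t in (0 : ℝ)..1, ((⨆ p, H t p) - ⨅ p, H t p) * (vol univ).toReal :=
    intervalIntegral.norm_integral_le_of_norm_le zero_le_one
      (Filter.Eventually.of_forall fun t ht => hbd t (Ioc_subset_Icc_self ht)) h5
  rw [intervalIntegral.integral_mul_const] at h6
  rw [Cal, len, ← Real.norm_eq_abs, mul_comm]
  exact h6

end HDC
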