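import Pool.Agent.Work.MP_c3bd4f_hd.Interface

set_option autoImplicit false

open scoped ContDiff Manifold Topology
open Set MeasureTheory

noncomputable section

namespace HDC

theorem X_LIG_uniq {W : Type} [NormedAddCommGroup W] [NormedSpace ℝ W]
    {A : ℝ → W →L[ℝ] W} (hA : Continuous A) {R : ℝ} (hR : 0 < R) {y z : ℝ → W}
    (h0 : y 0 = z 0) (hy : ∀ t ∈ Ioo (-R) R, HasDerivAt y (A t (y t)) t)
    (hz : ∀ t ∈ Ioo (-R) R, HasDerivAt z (A t (z t)) t) :
    ∀ t ∈ Ioo (-R) R, y t = z t := by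
  obtain ⟨C, hC⟩ := (isCompact_Icc (a := -R) (b := R)).exists_bound_of_continuousOn
    hA.continuousOn
  have h := ODE_solution_unique_of_mem_Ioo (v := fun t y => A t y) (s := fun _ => univ)
    (K := Real.toNNReal C) (f := y) (g := z) (a := -R) (b := R) (t₀ := 0)
    (fun t ht => by
      have h1 : LipschitzWith (Real.toNNReal C) (A t) :=
        (A t).lipschitz.weaken (by
          rw [← NNReal.coe_le_coe]
          exact (hC t ⟨ht.1.le, ht.2.le⟩).trans (Real.le_coe_toNNReal C))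
      exact h1.lipschitzOnWith)
    ⟨by linarith, hR⟩ (fun t ht => ⟨hy t ht, mem_univ _⟩) (fun t ht => ⟨hz t ht, mem_univ _⟩) h0
  exact fun t ht => h ht

theorem X_LIG_loc (hLIN : Stmt_LIN) {W : Type} [NormedAddCommGroup W] [NormedSpace ℝ W]
    [FiniteDimensional ℝ W] {A : ℝ → W →L[ℝ] W} (hA : Continuous A) (w : W) {R : ℝ}
    (hR : 0 < R) : ∃ y : ℝ → W, y 0 = w ∧ ∀ t ∈ Ioo (-R) R, HasDerivAt y (A t (y t)) t := by
  have hc : Continuous (fun s : ℝ => R • A (R * s)) := by fun_prop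
  obtain ⟨z, hz0, hz⟩ := hLIN W (fun s => R • A (R * s)) hc 0
    ⟨by norm_num, by norm_num⟩ w
  refine ⟨fun t => z (R⁻¹ * t), by simp [hz0], fun t ht => ?_⟩
  have h1 : R⁻¹ * t ∈ Ioo (-1 : ℝ) 2 := by
    have h2 : R⁻¹ * t < 1 := by
      rw [inv_mul_lt_iff₀ hR]; linarith [ht.2]
    have h3 : -1 < R⁻¹ * t := by
      rw [lt_inv_mul_iff₀ hR]; linarith [ht.1]
    exact ⟨h3, by linarith⟩
  have h4 := hz _ h1
  have h5 : HasDerivAt (fun s : ℝ => R⁻¹ * s) R⁻¹ t := by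
    simpa using (hasDerivAt_id t).const_mul R⁻¹
  have h6 := h4.scomp t h5
  have h7 : R * (R⁻¹ * t) = t := by field_simp
  rw [h7] at h6
  have h8 : R⁻¹ • (R • A t) (z (R⁻¹ * t)) = A t (z (R⁻¹ * t)) := by
    rw [ContinuousLinearMap.smul_apply, smul_smul, inv_mul_cancel₀ hR.ne', one_smul]
  rw [h8] at h6
  exact h6

theorem p_LIG (hLIN : Stmt_LIN) : Stmt_LIG := by
  intro W _ _ _ A hA w
  have hex : ∀ R : ℝ, ∃ y : ℝ → W, 0 < R → (y 0 = w ∧
      ∀ t ∈ Ioo (-R) R, HasDerivAt y (A t (y t)) t) := by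
    intro R
    by_cases hR : 0 < R
    · obtain ⟨y, hy⟩ := X_LIG_loc hLIN hA w hR
      exact ⟨y, fun _ => hy⟩
    · exact ⟨fun _ => w, fun h => absurd h hR⟩
  choose y hy using hex
  have hcmp : ∀ R S : ℝ, 0 < R → R ≤ S → ∀ t ∈ Ioo (-R) R, y R t = y S t := by
    intro R S hR hRS
    have hS : 0 < S := hR.trans_le hRS
    refine X_LIG_uniq hA hR ?_ (hy R hR).2 (fun t ht => (hy S hS).2 t ⟨?_, ?_⟩)
    · rw [(hy R hR).1, (hy S hS).1]
    · linarith [ht.1]
    · linarith [ht.2]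
  have hpos : ∀ t : ℝ, 0 < |t| + 1 := fun t => by positivity
  have hmem : ∀ t R : ℝ, |t| < R → t ∈ Ioo (-R) R := fun t R h => abs_lt.1 h
  refine ⟨fun t => y (|t| + 1) t, ?_, fun t => ?_⟩
  · exact (hy _ (hpos 0)).1
  · have h1 : (fun s => y (|s| + 1) s) =ᶠ[𝓝 t] y (|t| + 2) := by
      have h2 : ∀ᶠ s in 𝓝 t, |s| < |t| + 1 :=
        (continuous_abs.tendsto t).eventually_lt_const (by linarith)
      filter_upwards [h2] with s hs
      exact hcmp _ _ (hpos s) (by linarith) s (hmem s _ (by linarith))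
    have h3 : HasDerivAt (y (|t| + 2)) (A t (y (|t| + 2) t)) t :=
      (hy _ (by positivity)).2 t (hmem t _ (by linarith))
    have h4 : y (|t| + 1) t = y (|t| + 2) t := h1.eq_of_nhds
    have h5 := h3.congr_of_eventuallyEq h1
    rw [← h4] at h5
    exact h5

end HDC
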