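import Pool.Agent.Work.MP_c3bd4f_hd.Interface

set_option autoImplicit false

/-! # Block PBT: the pullback of a time dependent form (helper97) -/

open scoped ContDiff Manifold Topology
open Set MeasureTheory

noncomputable section

namespace HDC

/-- smoothness of a pullback -/
theorem PBT_pb (hSMA : Stmt_SMA) {N : ℕ} {S : Set (ℝ × EE N)}
    {A : ℝ × EE N → EE N →L[ℝ] EE N} {G : ℝ × EE N → Lam N}
    (hA : ContDiffOn ℝ ∞ A S) (hG : ContDiffOn ℝ ∞ G S) :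
    ContDiffOn ℝ ∞ (fun q => pb (A q) (G q)) S := by
  have h1 : ContDiff ℝ ∞ (fun q : (EE N →L[ℝ] EE N) × Lam N => pb q.1 q.2) := (hSMA N).2.2.1
  exact ContDiff.comp_contDiffOn (g := fun q : (EE N →L[ℝ] EE N) × Lam N => pb q.1 q.2)
    (f := fun q => (A q, G q)) h1 (hA.prodMk hG)

/-- composition -/
theorem PBT_F {N : ℕ} {F : ℝ × EE N → Lam N} {φ : ℝ × EE N → EE N} {S : Set (ℝ × EE N)}
    {T : Set (EE N)} (hF : ContDiffOn ℝ ∞ F (Icc 0 1 ×ˢ T)) (hφ : ContDiffOn ℝ ∞ φ S)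
    (h : ∀ q ∈ S, q.1 ∈ Icc (0 : ℝ) 1 ∧ φ q ∈ T) :
    ContDiffOn ℝ ∞ (fun q => F (q.1, φ q)) S := by
  have h1 : ContDiffOn ℝ ∞ (fun q : ℝ × EE N => ((q.1, φ q) : ℝ × EE N)) S :=
    contDiff_fst.contDiffOn.prodMk hφ
  exact ContDiffOn.comp (g := F) (f := fun q : ℝ × EE N => ((q.1, φ q) : ℝ × EE N)) hF h1
    fun q hq => ⟨(h q hq).1, (h q hq).2⟩

/-- restriction to a neighbourhood -/
theorem PBT_loc {N : ℕ} {f g : ℝ × EE N → Lam N} {S V U : Set (ℝ × EE N)} {q0 : ℝ × EE N}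
    (hU : IsOpen U) (hq : q0 ∈ U) (hS : q0 ∈ S) (hsub : V ∩ U ⊆ S) (hg : ContDiffOn ℝ ∞ g S)
    (hfg : ∀ q ∈ S, f q = g q) : ContDiffWithinAt ℝ ∞ f V q0 := by
  rw [← contDiffWithinAt_inter (hU.mem_nhds hq)]
  exact ((hg q0 hS).mono hsub).congr (fun q hq => hfg q (hsub hq)) (hfg q0 hS)

/-- restriction to a slice -/
theorem PBT_slice {N : ℕ} {f : ℝ × EE N → Lam N} {T : Set (EE N)} {t : ℝ}
    (ht : t ∈ Icc (0 : ℝ) 1) (hf : ContDiffOn ℝ ∞ f (Icc 0 1 ×ˢ T)) :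
    ContDiffOn ℝ ∞ (fun x => f (t, x)) T := by
  have h2 : ContDiff ℝ ∞ (fun x : EE N => ((t, x) : ℝ × EE N)) := contDiff_const.prodMk contDiff_id
  exact ContDiffOn.comp (g := f) (f := fun x : EE N => ((t, x) : ℝ × EE N)) hf h2.contDiffOn
    fun x hx => ⟨ht, hx⟩

theorem PBT_near (hPDL : Stmt_PDL) (hPHL : Stmt_PHL) {N : ℕ} {M : Type} [TopologicalSpace M]
    [ChartedSpace (EE N) M] [IsManifold 𝓘(ℝ, EE N) ∞ M] {Φ : ℝ → M → M} (hΦ : SmI N Φ)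
    {t : ℝ} (ht : t ∈ Icc (0 : ℝ) 1) {c c' : OpenPartialHomeomorph M (EE N)}
    (hc : c ∈ atlas (EE N) M) (hc' : c' ∈ atlas (EE N) M) {x : EE N} (hx : x ∈ c.target)
    (hs : Φ t (c.symm x) ∈ c'.source) :
    ContDiffAt ℝ ∞ (fun y => c' (Φ t (c.symm y))) x := by
  obtain ⟨⟨U, hU, hSS⟩, hsm⟩ := (hPHL N M Φ hΦ).2 c hc c' hc'
  have hmem : (t, x) ∈ (Icc (0 : ℝ) 1 ×ˢ (univ : Set (EE N))) ∩ U := by
    rw [← hSS]
    exact ⟨ht, hx, hs⟩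
  rw [hSS] at hsm
  exact (hPDL (EE N) (EE N) (fun q : ℝ × EE N => c' (Φ q.1 (c.symm q.2))) U hU hsm).1 (t, x) hmem

/-- the local expression is smooth -/
theorem PBT_S (hSMA : Stmt_SMA) (hPDL : Stmt_PDL) (hPHL : Stmt_PHL)
    {N : ℕ} {M : Type} [TopologicalSpace M]
    [ChartedSpace (EE N) M] [IsManifold 𝓘(ℝ, EE N) ∞ M] {Φ : ℝ → M → M} {k : ℕ}
    {F : ℝ → Fam N M} (hΦ : SmI N Φ) (hF : TForm k F) {c c' : OpenPartialHomeomorph M (EE N)}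
    (hc : c ∈ atlas (EE N) M) (hc' : c' ∈ atlas (EE N) M) :
    ContDiffOn ℝ ∞ (fun q : ℝ × EE N =>
      pb (fderiv ℝ (fun y => c' (Φ q.1 (c.symm y))) q.2) (F q.1 c' (c' (Φ q.1 (c.symm q.2)))))
      (SS Φ c c') := by
  obtain ⟨⟨U, hU, hSS⟩, hsm⟩ := (hPHL N M Φ hΦ).2 c hc c' hc'
  have hA : ContDiffOn ℝ ∞
      (fun q : ℝ × EE N => fderiv ℝ (fun y => c' (Φ q.1 (c.symm y))) q.2) (SS Φ c c') := by
    have h1 := hsm
    rw [hSS] at h1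
    have h2 := (hPDL (EE N) (EE N) (fun q : ℝ × EE N => c' (Φ q.1 (c.symm q.2))) U hU h1).2
    rw [hSS]
    exact h2
  have hG : ContDiffOn ℝ ∞ (fun q : ℝ × EE N => F q.1 c' (c' (Φ q.1 (c.symm q.2))))
      (SS Φ c c') :=
    PBT_F (F := fun q : ℝ × EE N => F q.1 c' q.2) (φ := fun q : ℝ × EE N => c' (Φ q.1 (c.symm q.2)))
      (hF.smooth c' hc') hsm fun q hq => ⟨hq.1, c'.map_source hq.2.2⟩
  exact PBT_pb hSMA hA hG

theorem PBT_smooth (hSMA : Stmt_SMA) (hPDL : Stmt_PDL) (hPHL : Stmt_PHL) (hPBX : Stmt_PBX)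
    {N : ℕ} {M : Type} [TopologicalSpace M]
    [ChartedSpace (EE N) M] [IsManifold 𝓘(ℝ, EE N) ∞ M] {Φ : ℝ → M → M} {k : ℕ}
    {F : ℝ → Fam N M} (hΦ : SmI N Φ) (hF : TForm k F) {c : OpenPartialHomeomorph M (EE N)}
    (hc : c ∈ atlas (EE N) M) :
    ContDiffOn ℝ ∞ (fun q : ℝ × EE N => PBK (Φ q.1) (F q.1) c q.2) (Icc 0 1 ×ˢ c.target) := by
  intro q hq
  have hc' : chartAt (EE N) (Φ q.1 (c.symm q.2)) ∈ atlas (EE N) M := chart_mem_atlas _ _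
  have hq1 : Φ q.1 (c.symm q.2) ∈ (chartAt (EE N) (Φ q.1 (c.symm q.2))).source :=
    mem_chart_source _ _
  generalize chartAt (EE N) (Φ q.1 (c.symm q.2)) = c' at hc' hq1
  obtain ⟨⟨U, hU, hSS⟩, -⟩ := (hPHL N M Φ hΦ).2 c hc c' hc'
  have hmem : q ∈ SS Φ c c' := ⟨hq.1, hq.2, hq1⟩
  have hmemU : q ∈ U := by
    rw [hSS] at hmem
    exact hmem.2
  have hsub : (Icc (0 : ℝ) 1 ×ˢ c.target) ∩ U ⊆ SS Φ c c' := by
    rintro q ⟨hq, hqU⟩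
    rw [hSS]
    exact ⟨⟨hq.1, mem_univ _⟩, hqU⟩
  exact PBT_loc hU hmemU hmem hsub (PBT_S hSMA hPDL hPHL hΦ hF hc hc') fun q hq =>
    hPBX N M Φ k (F q.1) hΦ (hF.form q.1 hq.1) q.1 hq.1 c hc c' hc' q.2 hq.2.1 hq.2.2

/-- compatibility -/
theorem PBT_compat (hPBA : Stmt_PBA) (hPDL : Stmt_PDL)
    (hTRN : Stmt_TRN) (hPHL : Stmt_PHL) (hPBX : Stmt_PBX) {N : ℕ} {M : Type} [TopologicalSpace M]
    [ChartedSpace (EE N) M] [IsManifold 𝓘(ℝ, EE N) ∞ M] {Φ : ℝ → M → M} {k : ℕ}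
    {f : Fam N M} (hΦ : SmI N Φ) {t : ℝ} (ht : t ∈ Icc (0 : ℝ) 1) (hf : IsForm k f)
    {c c2 : OpenPartialHomeomorph M (EE N)} (hc : c ∈ atlas (EE N) M) (hc2 : c2 ∈ atlas (EE N) M)
    {x : EE N} (hx : x ∈ c.target) (hxs : c.symm x ∈ c2.source) :
    PBK (Φ t) f c x =
      pb (fderiv ℝ (fun y => c2 (c.symm y)) x) (PBK (Φ t) f c2 (c2 (c.symm x))) := by
  have hc' : chartAt (EE N) (Φ t (c.symm x)) ∈ atlas (EE N) M := chart_mem_atlas _ _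
  have hq1 : Φ t (c.symm x) ∈ (chartAt (EE N) (Φ t (c.symm x))).source := mem_chart_source _ _
  generalize chartAt (EE N) (Φ t (c.symm x)) = c' at hc' hq1
  have hx2 : c2 (c.symm x) ∈ c2.target := c2.map_source hxs
  have hx2s : c2.symm (c2 (c.symm x)) = c.symm x := c2.left_inv hxs
  have hq2 : Φ t (c2.symm (c2 (c.symm x))) ∈ c'.source := by rw [hx2s]; exact hq1
  have e1 := hPBX N M Φ k f hΦ hf t ht c hc c' hc' x hx hq1
  have e2 := hPBX N M Φ k f hΦ hf t ht c2 hc2 c' hc' _ hx2 hq2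
  obtain ⟨hO, hsm, -⟩ := hTRN N M c hc c2 hc2
  have hxO : x ∈ {x | x ∈ c.target ∧ c.symm x ∈ c2.source} := ⟨hx, hxs⟩
  have dT : DifferentiableAt ℝ (fun y => c2 (c.symm y)) x :=
    (hsm.contDiffAt (hO.mem_nhds hxO)).differentiableAt (by simp)
  have dB : DifferentiableAt ℝ (fun y => c' (Φ t (c2.symm y))) (c2 (c.symm x)) :=
    (PBT_near hPDL hPHL hΦ ht hc2 hc' hx2 hq2).differentiableAt (by simp)
  have hev : (fun y => c' (Φ t (c.symm y))) =ᶠ[𝓝 x]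
      (fun z => c' (Φ t (c2.symm z))) ∘ (fun y => c2 (c.symm y)) := by
    filter_upwards [hO.mem_nhds hxO] with y hy
    show c' (Φ t (c.symm y)) = c' (Φ t (c2.symm (c2 (c.symm y))))
    rw [c2.left_inv hy.2]
  have hcomp : fderiv ℝ (fun y => c' (Φ t (c.symm y))) x =
      (fderiv ℝ (fun z => c' (Φ t (c2.symm z))) (c2 (c.symm x))).comp
        (fderiv ℝ (fun y => c2 (c.symm y)) x) := by
    rw [hev.fderiv_eq]
    exact fderiv_comp x dB dT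
  rw [e1, e2, hcomp, (hPBA N).2.1, hx2s]

theorem p_PBT (hPBA : Stmt_PBA) (hDEG : Stmt_DEG) (hSMA : Stmt_SMA) (hPDL : Stmt_PDL)
    (hTRN : Stmt_TRN) (hPHL : Stmt_PHL) (hPBX : Stmt_PBX) : Stmt_PBT := by
  intro N M _ _ _ Φ k F hΦ hF
  have hS := fun c (hc : c ∈ atlas (EE N) M) => PBT_smooth hSMA hPDL hPHL hPBX hΦ hF hc
  refine TForm.mk hS fun t ht => IsForm.mk ?_ ?_ ?_
  · intro c hc
    exact PBT_slice (f := fun q : ℝ × EE N => PBK (Φ q.1) (F q.1) c q.2) ht (hS c hc)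
  · intro c hc c2 hc2 x hx hxs
    exact PBT_compat hPBA hPDL hTRN hPHL hPBX hΦ ht (hF.form t ht) hc hc2 hx hxs
  · intro c hc x hx
    exact (hDEG N).2.2.2.1 k _ _ ((hF.form t ht).deg _ (chart_mem_atlas _ _) _
      (mem_chart_target (EE N) (Φ t (c.symm x))))

end HDC
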