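import Pool.Agent.Work.MP_c3bd4f_hd.Interface

/-! # Block STM: Stokes on the manifold (helper71) -/

set_option autoImplicit false

open scoped ContDiff Manifold Topology
open Set MeasureTheory

noncomputable section

namespace HDC

/-- The exterior derivative vanishes outside of the closed set `L`. -/
theorem STM_csd {N : ℕ} {M : Type} [TopologicalSpace M] [ChartedSpace (EE N) M] {L : Set M}
    (hL : IsClosed L) {f : Fam N M} (hf : CS L f) : CS L (dF f) := by
  intro c hc x hx hxL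
  have h1 : ∀ᶠ y in 𝓝 x, y ∈ c.target := c.open_target.mem_nhds hx
  have h2 : ∀ᶠ y in 𝓝 x, c.symm y ∉ L := by
    have h3 : ContinuousAt c.symm x := c.continuousAt_symm hx
    exact h3.eventually (hL.isOpen_compl.mem_nhds hxL)
  have h3 : f c =ᶠ[𝓝 x] fun _ => 0 := by
    filter_upwards [h1, h2] with y hy1 hy2
    exact hf c hc y hy1 hy2
  show D (f c) x = 0
  unfold D
  rw [h3.fderiv_eq]
  simp

/-- `D` is additive. -/
theorem STM_Dsum {N : ℕ} {ι : Type} (s : Finset ι) (g : ι → EE N → Lam N) (x : EE N)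
    (hg : ∀ i ∈ s, DifferentiableAt ℝ (g i) x) :
    D (fun y => ∑ i ∈ s, g i y) x = ∑ i ∈ s, D (g i) x := by
  unfold D
  rw [fderiv_fun_sum hg, Finset.sum_comm]
  refine Finset.sum_congr rfl fun j _ => ?_
  rw [← Finset.mul_sum]
  congr 1
  simp

theorem p_STM (hCNG : Stmt_CNG) (hFO1 : Stmt_FO1) (hFO2 : Stmt_FO2) (hINT : Stmt_INT)
    (hSTL : Stmt_STL) (hPUN : Stmt_PUN) : Stmt_STM := by
  intro n M _ _ _ _ _ _ _ Ω vol _ hΩ hvol K hK k f hf hKf
  obtain ⟨m, ρ, c, L, hρ, hsum⟩ := hPUN (2 * n) M K hK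
  obtain ⟨-, -, -, hcon, hat, -, hrho, -⟩ := hFO2 (2 * n) M
  set g : Fin m → Fam (2 * n) M := fun i c' x => ρ i (c'.symm x) • f c' x with hg
  have hgF : ∀ i, IsForm k (g i) := fun i => hrho k f (ρ i) (hρ i).2.2.2.2 hf
  have hgC : ∀ i, CS (L i) (g i) := by
    intro i c' hc' x hx hxL
    show ρ i (c'.symm x) • f c' x = 0
    by_cases hxK : c'.symm x ∈ K
    · rw [(hρ i).2.2.2.1 _ hxK hxL, zero_smul]
    · rw [hKf c' hc' x hx hxK, smul_zero]
  have hdg : ∀ i, IsForm (k + 1) (dF (g i)) := fun i =>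
    (hFO1 (2 * n) M k (fun _ => g i) (hcon k _ (hgF i))).form 0 ⟨le_rfl, zero_le_one⟩
  have hdC : ∀ i, CS (L i) (dF (g i)) := fun i =>
    STM_csd (hρ i).2.1.isClosed (hgC i)
  have hfg : ∀ c' ∈ atlas (EE (2 * n)) M, ∀ x ∈ c'.target, f c' x = ∑ i, g i c' x := by
    intro c' hc' x hx
    show f c' x = ∑ i, ρ i (c'.symm x) • f c' x
    by_cases hxK : c'.symm x ∈ K
    · rw [← Finset.sum_smul, hsum _ hxK, one_smul]
    · rw [hKf c' hc' x hx hxK]
      simp
  have hdfg : ∀ c' ∈ atlas (EE (2 * n)) M, ∀ x ∈ c'.target,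
      dF f c' x = ∑ i, dF (g i) c' x := by
    intro c' hc' x hx
    have h1 : f c' =ᶠ[𝓝 x] fun y => ∑ i, g i c' y := by
      filter_upwards [c'.open_target.mem_nhds hx] with y hy
      exact hfg c' hc' y hy
    show D (f c') x = ∑ i, D (g i c') x
    rw [← STM_Dsum Finset.univ (fun i => g i c') x]
    · unfold D
      rw [h1.fderiv_eq]
    · intro i _
      exact ((hgF i).smooth c' hc').contDiffAt (c'.open_target.mem_nhds hx)
        |>.differentiableAt (by simp)
  have hdn : ∀ p, dn n Ω (dF f) p = ∑ i, dn n Ω (dF (g i)) p := by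
    intro p
    unfold dn
    rw [hdfg _ (chart_mem_atlas _ p) _ (mem_chart_target _ p), map_sum, Finset.sum_div]
  have h1 : ∫ p, dn n Ω (dF f) p ∂vol = ∫ p, ∑ i, dn n Ω (dF (g i)) p ∂vol := by
    congr 1
    ext p
    exact hdn p
  rw [h1, integral_finsetSum]
  · refine Finset.sum_eq_zero fun i _ => ?_
    exact hSTL n M Ω vol hΩ hvol (c i) (hρ i).1 (L i) (hρ i).2.1 (hρ i).2.2.1 k (g i) (hgF i)
      (hgC i)
  · intro i _
    exact hINT n M Ω vol hΩ (k + 1) (dF (g i)) (L i) (hdg i) (hρ i).2.1 (hdC i)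

end HDC
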