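import Pool.Agent.Work.MP_c3bd4f_hd.Interface

set_option autoImplicit false

open scoped ContDiff Manifold Topology
open Set MeasureTheory

noncomputable section

namespace HDC

theorem TRN_open (N : ℕ) (M : Type) [TopologicalSpace M]
    (c c' : OpenPartialHomeomorph M (EE N)) :
    IsOpen {x | x ∈ c.target ∧ c.symm x ∈ c'.source} :=
  (c.symm.trans c').open_source

theorem TRN_smooth (N : ℕ) (M : Type) [TopologicalSpace M] [ChartedSpace (EE N) M]
    [IsManifold 𝓘(ℝ, EE N) ∞ M] (c : OpenPartialHomeomorph M (EE N)) (hc : c ∈ atlas (EE N) M)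
    (c' : OpenPartialHomeomorph M (EE N)) (hc' : c' ∈ atlas (EE N) M) :
    ContDiffOn ℝ ∞ (fun y => c' (c.symm y)) {x | x ∈ c.target ∧ c.symm x ∈ c'.source} := by
  have h := HasGroupoid.compatible (G := contDiffGroupoid ∞ 𝓘(ℝ, EE N)) hc hc'
  have h2 := (mem_groupoid_of_pregroupoid.1 h).1
  simp only [contDiffPregroupoid, modelWithCornersSelf_coe, modelWithCornersSelf_coe_symm,
    Function.comp_id, Function.id_comp, preimage_id_eq, id_eq, range_id, inter_univ] at h2
  exact h2

theorem p_TRN : Stmt_TRN := by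
  intro N M _ _ _ c hc c' hc'
  refine ⟨TRN_open N M c c', TRN_smooth N M c hc c' hc', ?_⟩
  intro x hx hx'
  have h1 : ContDiffAt ℝ ∞ (fun y => c' (c.symm y)) x :=
    (TRN_smooth N M c hc c' hc').contDiffAt ((TRN_open N M c c').mem_nhds ⟨hx, hx'⟩)
  have hz : c' (c.symm x) ∈ c'.target := c'.map_source hx'
  have hz' : c'.symm (c' (c.symm x)) ∈ c.source := by
    rw [c'.left_inv hx']
    exact c.map_target hx
  have h2 : ContDiffAt ℝ ∞ (fun y => c (c'.symm y)) (c' (c.symm x)) :=
    (TRN_smooth N M c' hc' c hc).contDiffAt ((TRN_open N M c' c).mem_nhds ⟨hz, hz'⟩)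
  have h3 : HasFDerivAt ((fun y => c (c'.symm y)) ∘ (fun y => c' (c.symm y)))
      ((fderiv ℝ (fun y => c (c'.symm y)) (c' (c.symm x))).comp
      (fderiv ℝ (fun y => c' (c.symm y)) x)) x :=
    HasFDerivAt.comp x (h2.differentiableAt (by simp)).hasFDerivAt
      (h1.differentiableAt (by simp)).hasFDerivAt
  have h4 : ((fun y => c (c'.symm y)) ∘ (fun y => c' (c.symm y))) =ᶠ[𝓝 x] id := by
    filter_upwards [(TRN_open N M c c').mem_nhds ⟨hx, hx'⟩] with y hy
    simp only [Function.comp, id]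
    rw [c'.left_inv hy.2, c.right_inv hy.1]
  have h5 : HasFDerivAt ((fun y => c (c'.symm y)) ∘ (fun y => c' (c.symm y)))
      (ContinuousLinearMap.id ℝ (EE N)) x := (hasFDerivAt_id x).congr_of_eventuallyEq h4
  exact h3.unique h5

end HDC
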