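import Pool.Agent.Work.MP_c3bd4f_hd.DefsS
import Pool.Agent.Work.MP_c3bd4f_hd.All

set_option autoImplicit false

/-! # The definitions of `DefsS` and of `Defs` agree -/

open scoped ContDiff Manifold Topology
open Set MeasureTheory

noncomputable section

namespace HDB

open HDC (EE VV Lam dxB io ctr top dx ee)

theorem coef_eq {N : ℕ} (S : Finset (Fin N)) (w : HDS.Lam N) :
    HDS.coef S w = (dxB N).ExteriorAlgebra.coord S w := rfl

theorem vol_iff (n : ℕ) {M : Type} [TopologicalSpace M] [ChartedSpace (EE (2 * n)) M]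
    [MeasurableSpace M] (Ω : HDS.Fam (2 * n) M) (vol : Measure M) :
    HDS.IsVol n Ω vol ↔ HDC.IsVol n Ω vol := Iff.rfl

theorem bas1 {N : ℕ} (i : Fin N) : (dxB N).ExteriorAlgebra {i} = io (dxB N i) := by
  rw [ExteriorAlgebra.basis_apply_ofCard (dxB N) (Finset.card_singleton i)]
  unfold ExteriorAlgebra.ιMulti_family
  rw [ExteriorAlgebra.ιMulti_apply, Set.powersetCard.ofFinEmbEquiv_symm_apply]
  simp only [List.ofFn_succ, List.ofFn_zero, List.prod_cons, List.prod_nil, mul_one]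
  exact congrArg (fun k => io (dxB N k)) (Finset.orderEmbOfFin_singleton i 0)

theorem bas2 {N : ℕ} {i j : Fin N} (h : i < j) :
    (dxB N).ExteriorAlgebra {i, j} = io (dxB N i) * io (dxB N j) := by
  have hcard : ({i, j} : Finset (Fin N)).card = 2 := Finset.card_pair h.ne
  rw [ExteriorAlgebra.basis_apply_ofCard (dxB N) hcard]
  unfold ExteriorAlgebra.ιMulti_family
  rw [ExteriorAlgebra.ιMulti_apply, Set.powersetCard.ofFinEmbEquiv_symm_apply]
  have h2 : (![i, j] : Fin 2 → Fin N) = ({i, j} : Finset (Fin N)).orderEmbOfFin hcard := by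
    refine Finset.orderEmbOfFin_unique hcard ?_ ?_
    · intro x
      fin_cases x <;> simp
    · intro a b hab
      fin_cases a <;> fin_cases b <;> simp_all
  simp only [List.ofFn_succ, List.ofFn_zero, List.prod_cons, List.prod_nil, mul_one]
  have e0 : (({i, j} : Finset (Fin N)).orderEmbOfFin hcard) 0 = i := by rw [← h2]; rfl
  have e1 : (({i, j} : Finset (Fin N)).orderEmbOfFin hcard) 1 = j := by rw [← h2]; rfl
  exact congrArg₂ (fun k l => io (dxB N k) * io (dxB N l)) e0 e1

/-- the contraction of a decomposable `2`-form -/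
theorem ctr2 {N : ℕ} (v : EE N) (a b : VV N) : ctr v (io a * io b) = io (a v • b - b v • a) := by
  unfold ctr
  rw [map_sub, map_smul, map_smul]
  have h1 := CliffordAlgebra.contractLeft_ι_mul (Q := (0 : QuadraticForm ℝ (VV N)))
    (Module.Dual.eval ℝ (EE N) v) a (CliffordAlgebra.ι 0 b)
  have h2 := CliffordAlgebra.contractLeft_ι (Q := (0 : QuadraticForm ℝ (VV N)))
    (Module.Dual.eval ℝ (EE N) v) b
  rw [h2] at h1
  refine h1.trans ?_
  congr 1
  rw [← Algebra.commutes, ← Algebra.smul_def]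
  rfl

theorem dxB_apply {N : ℕ} (i : Fin N) (v : EE N) : dxB N i v = v i := by
  unfold HDC.dxB
  simp

/-- sums over the pairs `i < j` -/
theorem sum_pairs {N : ℕ} {V : Type} [AddCommMonoid V] (F : Finset (Fin N) → V)
    (hF : ∀ S, S.card ≠ 2 → F S = 0) :
    ∑ S : Finset (Fin N), F S = ∑ i : Fin N, ∑ j ∈ Finset.Ioi i, F {i, j} := by
  rw [Finset.sum_sigma']
  have h1 : ∑ S : Finset (Fin N), F S = ∑ S ∈ Finset.univ.filter (fun S => S.card = 2), F S := by
    rw [Finset.sum_filter]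
    refine Finset.sum_congr rfl fun S _ => ?_
    split_ifs with h
    · rfl
    · exact hF S h
  rw [h1]
  symm
  refine Finset.sum_bij (fun p _ => {p.1, p.2}) ?_ ?_ ?_ ?_
  · rintro ⟨i, j⟩ hp
    simp only [Finset.mem_sigma, Finset.mem_univ, Finset.mem_Ioi, true_and] at hp
    simp only [Finset.mem_filter, Finset.mem_univ, true_and]
    exact Finset.card_pair hp.ne
  · rintro ⟨i, j⟩ hp ⟨k, l⟩ hq h
    simp only [Finset.mem_sigma, Finset.mem_univ, Finset.mem_Ioi, true_and] at hp hq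
    simp only at h
    have hi : i ∈ ({k, l} : Finset (Fin N)) := by rw [← h]; simp
    have hj : j ∈ ({k, l} : Finset (Fin N)) := by rw [← h]; simp
    simp only [Finset.mem_insert, Finset.mem_singleton] at hi hj
    rcases hi with rfl | rfl <;> rcases hj with rfl | rfl
    · exact absurd hp (lt_irrefl _)
    · rfl
    · exact absurd hp (not_lt.2 hq.le)
    · exact absurd hp (lt_irrefl _)
  · intro S hS
    simp only [Finset.mem_filter, Finset.mem_univ, true_and] at hS
    obtain ⟨x, y, hxy, rfl⟩ := Finset.card_eq_two.1 hS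
    rcases lt_or_gt_of_ne hxy with h | h
    · exact ⟨⟨x, y⟩, by simp [h], rfl⟩
    · exact ⟨⟨y, x⟩, by simp [h], Finset.pair_comm _ _⟩
  · intro _ _
    rfl

/-- the coefficients of degree different from `k` vanish -/
def Dg {N : ℕ} (k : ℕ) (w : HDS.Lam N) : Prop := ∀ S : Finset (Fin N), S.card ≠ k → HDS.coef S w = 0

theorem expand {N : ℕ} (w : Lam N) :
    w = ∑ S : Finset (Fin N), (dxB N).ExteriorAlgebra.coord S w • (dxB N).ExteriorAlgebra S :=
  ((dxB N).ExteriorAlgebra.sum_repr w).symm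

theorem Dg_iff {N : ℕ} (k : ℕ) (w : Lam N) : Dg k w ↔ w ∈ ⋀[ℝ]^k (VV N) := by
  constructor
  · intro h
    rw [expand w]
    refine Submodule.sum_mem _ fun S _ => ?_
    by_cases hS : S.card = k
    · refine Submodule.smul_mem _ _ ?_
      have h1 := ExteriorAlgebra.basis_eq_coe_basis (dxB N) (Set.powersetCard.ofCard hS)
      have h2 : (dxB N).ExteriorAlgebra S =
          ((dxB N).exteriorPower k (Set.powersetCard.ofCard hS) : ExteriorAlgebra ℝ (VV N)) := h1
      rw [h2]
      exact Subtype.mem _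
    · have h1 : (dxB N).ExteriorAlgebra.coord S w = 0 := h S hS
      rw [h1, zero_smul]
      exact Submodule.zero_mem _
  · intro h S hS
    exact HDC.TOP_coord N k w h S hS

/-- the functional `ι(v) w` for a `2`-form `w` -/
def cov {N : ℕ} (w : Lam N) (v : EE N) : VV N :=
  ∑ i : Fin N, ∑ j ∈ Finset.Ioi i, (dxB N).ExteriorAlgebra.coord {i, j} w •
    (v i • dxB N j - v j • dxB N i)

theorem cov_apply {N : ℕ} (w : Lam N) (v u : EE N) : cov w v u = HDS.val w v u := by
  unfold cov HDS.val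
  rw [LinearMap.sum_apply]
  refine Finset.sum_congr rfl fun i _ => ?_
  rw [LinearMap.sum_apply]
  refine Finset.sum_congr rfl fun j _ => ?_
  rw [LinearMap.smul_apply, LinearMap.sub_apply, LinearMap.smul_apply, LinearMap.smul_apply,
    dxB_apply, dxB_apply, smul_eq_mul, smul_eq_mul, smul_eq_mul, coef_eq]

theorem ctr_eq {N : ℕ} {w : Lam N} (hw : Dg 2 w) (v : EE N) : ctr v w = io (cov w v) := by
  have h1 := expand w
  rw [sum_pairs (fun S => (dxB N).ExteriorAlgebra.coord S w • (dxB N).ExteriorAlgebra S)] at h1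
  · conv_lhs => rw [h1]
    unfold cov
    rw [map_sum, map_sum]
    refine Finset.sum_congr rfl fun i _ => ?_
    rw [map_sum, map_sum]
    refine Finset.sum_congr rfl fun j hj => ?_
    rw [map_smul, map_smul, bas2 (Finset.mem_Ioi.1 hj), ctr2, dxB_apply, dxB_apply]
  · intro S hS
    have h2 : (dxB N).ExteriorAlgebra.coord S w = 0 := hw S hS
    rw [h2, zero_smul]

/-- `ι(v) w = a` -/
theorem ctr_iff {N : ℕ} {w : Lam N} (hw : Dg 2 w) (v : EE N) (a : EE N →L[ℝ] ℝ) :
    ctr v w = io a.toLinearMap ↔ ∀ u, HDS.val w v u = a u := by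
  rw [ctr_eq hw v]
  constructor
  · intro h u
    have h1 : cov w v = a.toLinearMap := (ExteriorAlgebra.ι_inj ℝ _ _).1 h
    rw [← cov_apply, h1]
    rfl
  · intro h
    congr 1
    refine LinearMap.ext fun u => ?_
    rw [cov_apply, h u]
    rfl

theorem nondeg_iff {N : ℕ} {w : Lam N} (hw : Dg 2 w) (v : EE N) :
    ctr v w = 0 ↔ ∀ u, HDS.val w v u = 0 := by
  have h1 := ctr_iff hw v 0
  have h2 : io (N := N) (0 : EE N →L[ℝ] ℝ).toLinearMap = 0 := by
    have h3 : ((0 : EE N →L[ℝ] ℝ).toLinearMap : VV N) = 0 := rfl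
    rw [h3, map_zero]
  rw [h2] at h1
  exact h1

/-- smoothness is smoothness of the coefficients -/
theorem smooth_of {N : ℕ} {f : EE N → Lam N} {s : Set (EE N)}
    (h : ∀ S : Finset (Fin N), ContDiffOn ℝ ∞ (fun x => HDS.coef S (f x)) s) :
    ContDiffOn ℝ ∞ f s := by
  have h1 : f = fun x => ∑ S : Finset (Fin N),
      (dxB N).ExteriorAlgebra.coord S (f x) • (dxB N).ExteriorAlgebra S := by
    funext x
    exact expand (f x)
  rw [h1]
  refine ContDiffOn.sum fun S _ => ?_
  exact ContDiffOn.smul (h S) contDiffOn_const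

/-- the coefficient as a continuous linear functional -/
def cf {N : ℕ} (S : Finset (Fin N)) : Lam N →L[ℝ] ℝ :=
  LinearMap.toContinuousLinearMap ((dxB N).ExteriorAlgebra.coord S)

theorem D_eq {N : ℕ} {f : EE N → Lam N} {x : EE N} (h : DifferentiableAt ℝ f x) :
    HDS.D f x = HDC.D f x := by
  unfold HDC.D
  refine Finset.sum_congr rfl fun i _ => ?_
  have h1 : ∀ S : Finset (Fin N), fderiv ℝ (fun y => HDS.coef S (f y)) x =
      (cf S).comp (fderiv ℝ f x) := fun S => ((cf S).hasFDerivAt.comp x h.hasFDerivAt).fderiv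
  have h2 : fderiv ℝ f x (ee i) = ∑ S : Finset (Fin N),
      (fderiv ℝ (fun y => HDS.coef S (f y)) x (ee i)) • (dxB N).ExteriorAlgebra S := by
    conv_lhs => rw [expand (fderiv ℝ f x (ee i))]
    refine Finset.sum_congr rfl fun S _ => ?_
    rw [h1 S]
    rfl
  rw [h2, Finset.mul_sum]
  refine Finset.sum_congr rfl fun S _ => ?_
  rw [mul_smul_comm]
  have h3 : dx i = (dxB N).ExteriorAlgebra {i} := (bas1 i).symm
  rw [h3]
  rfl

section mfd

variable {N : ℕ} {M : Type} [TopologicalSpace M] [ChartedSpace (EE N) M]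

theorem form_of {k : ℕ} {f : HDS.Fam N M} (h : HDS.IsForm k f) : HDC.IsForm k (N := N) f where
  smooth c hc := smooth_of (h.smooth c hc)
  compat c hc c' hc' x hx hx' := h.compat c hc c' hc' x hx hx'
  deg c hc x hx := (Dg_iff k _).1 (h.deg c hc x hx)

theorem D_form {k : ℕ} {f : HDS.Fam N M} (h : HDS.IsForm k f)
    {c : OpenPartialHomeomorph M (EE N)} (hc : c ∈ atlas (EE N) M) {x : EE N} (hx : x ∈ c.target) :
    HDS.D (f c) x = HDC.D (N := N) (f c) x := by
  exact D_eq (N := N) (f := f c) (x := x) (((smooth_of (N := N) (f := f c)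
    (h.smooth c hc)).contDiffAt (c.open_target.mem_nhds hx)).differentiableAt (by simp))

theorem iso_iff {Ω : HDS.Fam N M} (h : HDS.IsForm 2 Ω) (H : ℝ → M → ℝ) (Φ : ℝ → M → M) :
    HDS.IsIso Ω H Φ ↔ HDC.IsIso (N := N) Ω H Φ := by
  constructor
  · intro hi
    refine ⟨hi.smooth, hi.zero, fun t ht p c hc hp => ?_⟩
    obtain ⟨v, h1, h2⟩ := hi.ode t ht p c hc hp
    exact ⟨v, h1, (ctr_iff (h.deg c hc _ (c.map_source hp)) v _).2 h2⟩
  · intro hi
    refine ⟨hi.smooth, hi.zero, fun t ht p c hc hp => ?_⟩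
    obtain ⟨v, h1, h2⟩ := hi.ode t ht p c hc hp
    exact ⟨v, h1, (ctr_iff (h.deg c hc _ (c.map_source hp)) v _).1 h2⟩

theorem ham_iff (H : ℝ → M → ℝ) : HDS.IsHam N H ↔ HDC.IsHam N H :=
  ⟨fun h => ⟨h.smooth, h.supp⟩, fun h => ⟨h.smooth, h.supp⟩⟩

theorem gen_iff {Ω : HDS.Fam N M} (h : HDS.IsForm 2 Ω) (H : ℝ → M → ℝ) (φ : M → M) :
    HDS.Generates Ω H φ ↔ HDC.Generates (N := N) Ω H φ :=
  exists_congr fun Φ => and_congr (iso_iff h H Φ) Iff.rfl

theorem hofer_eq {Ω : HDS.Fam N M} (h : HDS.IsForm 2 Ω) (φ : M → M) :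
    HDS.hofer Ω φ = HDC.hofer (N := N) Ω φ := by
  unfold HDS.hofer HDC.hofer
  congr 1
  ext l
  exact exists_congr fun H => and_congr (ham_iff H) (and_congr (gen_iff h H φ) Iff.rfl)

theorem Ham_eq {Ω : HDS.Fam N M} (h : HDS.IsForm 2 Ω) :
    HDS.Ham Ω = HDC.Ham (N := N) Ω := by
  ext φ
  exact exists_congr fun H => and_congr (ham_iff H) (gen_iff h H φ)

end mfd

theorem symp_of {n : ℕ} {M : Type} [TopologicalSpace M] [ChartedSpace (EE (2 * n)) M]
    {Ω : HDS.Fam (2 * n) M} (h : HDS.IsSymplectic n Ω) : HDC.IsSymplectic n Ω where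
  form := form_of h.form
  closed c hc x hx := (D_form h.form hc hx).symm.trans (h.closed c hc x hx).symm
  nondeg c hc x hx v hv := h.nondeg c hc x hx v ((nondeg_iff (h.form.deg c hc x hx) v).1 hv)

end HDB
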