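import Mathlib

set_option autoImplicit false

/-!
# Calabi invariant and Hofer norm on symplectic manifolds with `Ω ^ j` exact: definitions

`M` is a smooth manifold without boundary of dimension `N` (a Mathlib `ChartedSpace` over
`ℝ^N` with `IsManifold 𝓘(ℝ, ℝ^N) ∞ M`).  A differential form is given by its local expressions in the
charts of the atlas: functions on `ℝ^N` with values in the exterior algebra of the dual space.
-/

open scoped ContDiff Manifold Topology
open Set MeasureTheory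

noncomputable section

namespace HDC

/-! ## Forms at a point -/

/-- The coordinate space `ℝ^N`. -/
abbrev EE (N : ℕ) := EuclideanSpace ℝ (Fin N)

/-- The dual space of `ℝ^N`. -/
abbrev VV (N : ℕ) := Module.Dual ℝ (EE N)

/-- The exterior algebra of the dual space of `ℝ^N`: the alternating forms on `ℝ^N`. -/
abbrev Lam (N : ℕ) := ExteriorAlgebra ℝ (VV N)

/-- The basis `dx_1, .., dx_N` of the dual space. -/
def dxB (N : ℕ) : Module.Basis (Fin N) ℝ (VV N) :=
  (EuclideanSpace.basisFun (Fin N) ℝ).toBasis.dualBasis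

instance instFin (N : ℕ) : Module.Finite ℝ (Lam N) := Module.Finite.of_basis (dxB N).ExteriorAlgebra

/-- The exterior algebra has finite dimension; we use the sup norm of the coefficients. -/
instance instNACG (N : ℕ) : NormedAddCommGroup (Lam N) :=
  NormedAddCommGroup.induced (Lam N) (Finset (Fin N) → ℝ)
    (dxB N).ExteriorAlgebra.equivFun.toLinearMap (dxB N).ExteriorAlgebra.equivFun.injective

instance instNS (N : ℕ) : NormedSpace ℝ (Lam N) :=
  NormedSpace.induced ℝ (Lam N) (Finset (Fin N) → ℝ)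
    (dxB N).ExteriorAlgebra.equivFun.toLinearMap

/-- The inclusion of the dual space in its exterior algebra (linear forms are `1`-forms). -/
abbrev io {N : ℕ} : VV N →ₗ[ℝ] Lam N := ExteriorAlgebra.ι ℝ

/-- The interior product with the vector `v` (the antiderivation of degree `-1` with
`ctr v (io a) = a v`). -/
def ctr {N : ℕ} (v : EE N) : Lam N →ₗ[ℝ] Lam N :=
  CliffordAlgebra.contractLeft (Module.Dual.eval ℝ (EE N) v)

/-- The pullback of forms by the linear map `A`. -/
def pb {N : ℕ} (A : EE N →L[ℝ] EE N) : Lam N →ₐ[ℝ] Lam N :=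
  ExteriorAlgebra.map A.toLinearMap.dualMap

/-- The standard basis vectors of `ℝ^N`. -/
def ee {N : ℕ} (i : Fin N) : EE N := EuclideanSpace.single i (1 : ℝ)

/-- The `1`-forms `dx_1, .., dx_N`. -/
def dx {N : ℕ} (i : Fin N) : Lam N := io (dxB N i)

/-- The coefficient of `dx_1 ∧ .. ∧ dx_N`. -/
def top (N : ℕ) : Lam N →ₗ[ℝ] ℝ := (dxB N).ExteriorAlgebra.coord Finset.univ

/-- The exterior derivative `d f = ∑ dx_i ∧ ∂_i f` of a form on (an open subset of) `ℝ^N`. -/
def D {N : ℕ} (f : EE N → Lam N) (x : EE N) : Lam N := ∑ i : Fin N, dx i * fderiv ℝ f x (ee i)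

/-! ## Forms on a manifold -/

section mfd

variable {N : ℕ} {M : Type} [TopologicalSpace M]

/-- Local expressions: for each chart `c` a function `f c` on `ℝ^N` (only the values on `c.target`,
for the charts `c` of the atlas, matter). -/
abbrev Fam (N : ℕ) (M : Type) [TopologicalSpace M] := OpenPartialHomeomorph M (EE N) → EE N → Lam N

variable [ChartedSpace (EE N) M]

/-- `f` is (the family of local expressions of) a smooth differential form of degree `k` on `M`:
in each chart of the atlas the local expression is smooth and of degree `k`, and two local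
expressions are related by the pullback by the transition map. -/
structure IsForm (k : ℕ) (f : Fam N M) : Prop where
  smooth : ∀ c ∈ atlas (EE N) M, ContDiffOn ℝ ∞ (f c) c.target
  compat : ∀ c ∈ atlas (EE N) M, ∀ c' ∈ atlas (EE N) M, ∀ x ∈ c.target, c.symm x ∈ c'.source →
    f c x = pb (fderiv ℝ (fun y => c' (c.symm y)) x) (f c' (c' (c.symm x)))
  deg : ∀ c ∈ atlas (EE N) M, ∀ x ∈ c.target, f c x ∈ ⋀[ℝ]^k (VV N)

/-- Two families define the same form. -/
def EqF (f g : Fam N M) : Prop := ∀ c ∈ atlas (EE N) M, ∀ x ∈ c.target, f c x = g c x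

/-- The exterior derivative. -/
def dF (f : Fam N M) : Fam N M := fun c x => D (f c) x

end mfd

section symp

variable {M : Type} [TopologicalSpace M]

/-- `Ω` is a symplectic form on the manifold `M` of dimension `2 n`: a smooth closed nondegenerate
`2`-form. -/
structure IsSymplectic (n : ℕ) [ChartedSpace (EE (2 * n)) M] (Ω : Fam (2 * n) M) : Prop where
  form : IsForm 2 Ω
  closed : EqF (dF Ω) 0
  nondeg : ∀ c ∈ atlas (EE (2 * n)) M, ∀ x ∈ c.target, ∀ v, ctr v (Ω c x) = 0 → v = 0

/-- `vol` is the symplectic volume measure `|Ω ^ n|`: in each chart of the atlas its density with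
respect to the Lebesgue measure is the absolute value of the coefficient of `Ω ^ n`. -/
def IsVol (n : ℕ) [ChartedSpace (EE (2 * n)) M] [MeasurableSpace M] (Ω : Fam (2 * n) M)
    (vol : Measure M) : Prop :=
  ∀ c ∈ atlas (EE (2 * n)) M, ∀ S : Set (EE (2 * n)), MeasurableSet S → S ⊆ c.target →
    vol (c.symm '' S) = ∫⁻ x in S, ENNReal.ofReal |top (2 * n) ((Ω c x) ^ n)|

end symp

section ham

variable {N : ℕ} {M : Type} [TopologicalSpace M] [ChartedSpace (EE N) M]

/-- `H : [0, 1] × M → ℝ` is a smooth function with compact support. -/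
structure IsHam (N : ℕ) {M : Type} [TopologicalSpace M] [ChartedSpace (EE N) M]
    (H : ℝ → M → ℝ) : Prop where
  smooth : ContMDiffOn (𝓘(ℝ, ℝ).prod 𝓘(ℝ, EE N)) 𝓘(ℝ, ℝ) ∞ (fun q : ℝ × M => H q.1 q.2)
    (Icc 0 1 ×ˢ univ)
  supp : ∃ K : Set M, IsCompact K ∧ ∀ t ∈ Icc (0 : ℝ) 1, ∀ p ∉ K, H t p = 0

/-- `Φ` is the Hamiltonian isotopy generated by `H`: it is smooth on `[0, 1] × M`, `Φ 0 = id`, and
the velocity `v` of `t ↦ Φ t p` satisfies `ι(v) Ω = d H_t` at the point `Φ t p` (in every chart). -/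
structure IsIso (Ω : Fam N M) (H : ℝ → M → ℝ) (Φ : ℝ → M → M) : Prop where
  smooth : ContMDiffOn (𝓘(ℝ, ℝ).prod 𝓘(ℝ, EE N)) 𝓘(ℝ, EE N) ∞ (fun q : ℝ × M => Φ q.1 q.2)
    (Icc 0 1 ×ˢ univ)
  zero : ∀ p, Φ 0 p = p
  ode : ∀ t ∈ Icc (0 : ℝ) 1, ∀ p, ∀ c ∈ atlas (EE N) M, Φ t p ∈ c.source →
    ∃ v : EE N, HasDerivWithinAt (fun s => c (Φ s p)) v (Icc 0 1) t ∧
      ctr v (Ω c (c (Φ t p))) =
        io (fderiv ℝ (fun y => H t (c.symm y)) (c (Φ t p))).toLinearMap

/-- `φ` is the time one map of the Hamiltonian isotopy generated by `H`. -/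
def Generates (Ω : Fam N M) (H : ℝ → M → ℝ) (φ : M → M) : Prop :=
  ∃ Φ : ℝ → M → M, IsIso Ω H Φ ∧ Φ 1 = φ

/-- The group `Ham_c(M, Ω)` (as a set of maps). -/
def Ham (Ω : Fam N M) : Set (M → M) := {φ | ∃ H, IsHam N H ∧ Generates Ω H φ}

/-- The Hofer length of a Hamiltonian. -/
def len (H : ℝ → M → ℝ) : ℝ := ∫ t in (0 : ℝ)..1, ((⨆ p, H t p) - ⨅ p, H t p)

/-- The Hofer distance `ρ(id, φ)`. -/
def hofer (Ω : Fam N M) (φ : M → M) : ℝ :=
  sInf {l | ∃ H, IsHam N H ∧ Generates Ω H φ ∧ len H = l}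

/-- The Calabi invariant of a Hamiltonian. -/
def Cal [MeasurableSpace M] (vol : Measure M) (H : ℝ → M → ℝ) : ℝ :=
  ∫ t in (0 : ℝ)..1, ∫ p, H t p ∂vol

end ham

end HDC
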