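import Mathlib

set_option autoImplicit false

/-!
# Calabi invariant and Hofer norm on symplectic manifolds with `Ω ^ j` exact: definitions

`M` is a smooth manifold without boundary of dimension `N` (a Mathlib `ChartedSpace` over
`ℝ^N` with `IsManifold 𝓘(ℝ, ℝ^N) ∞ M`).  A differential form is given by its local expressions in the
charts of the atlas: functions on `ℝ^N` with values in the exterior algebra of the dual space.
(`VV` and `Lam` are definitions and not abbreviations only to keep the terms short: their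
vector space and ring structures are the ones of Mathlib.)
-/

open scoped ContDiff Manifold Topology
open Set MeasureTheory

noncomputable section

namespace HDS

/-! ## Forms at a point -/

/-- The dual space of `ℝ^N`. -/
def VV (N : ℕ) : Type := Module.Dual ℝ (EuclideanSpace ℝ (Fin N))

instance instVG (N : ℕ) : AddCommGroup (VV N) :=
  (LinearMap.addCommGroup : AddCommGroup (Module.Dual ℝ (EuclideanSpace ℝ (Fin N))))

instance instVM (N : ℕ) : Module ℝ (VV N) :=
  (LinearMap.module : Module ℝ (Module.Dual ℝ (EuclideanSpace ℝ (Fin N))))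

/-- The exterior algebra of the dual space of `ℝ^N`: the alternating forms on `ℝ^N`. -/
def Lam (N : ℕ) : Type := ExteriorAlgebra ℝ (VV N)

instance instLR (N : ℕ) : Ring (Lam N) :=
  (CliffordAlgebra.instRing _ : Ring (ExteriorAlgebra ℝ (VV N)))

instance instLA (N : ℕ) : Algebra ℝ (Lam N) :=
  (CliffordAlgebra.instAlgebra _ : Algebra ℝ (ExteriorAlgebra ℝ (VV N)))

/-- The basis `dx_1, .., dx_N` of the dual space of `ℝ^N`. -/
def dxB (N : ℕ) : Module.Basis (Fin N) ℝ (VV N) :=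
  (EuclideanSpace.basisFun (Fin N) ℝ).toBasis.dualBasis

/-- The basis `dx_S = dx_(i_1) ∧ .. ∧ dx_(i_k)`, `S = {i_1 < .. < i_k}`, of the exterior algebra. -/
def dxS (N : ℕ) : Module.Basis (Finset (Fin N)) ℝ (Lam N) := (dxB N).ExteriorAlgebra

/-- The coefficient of `dx_S` in the form `w`. -/
def coef {N : ℕ} (S : Finset (Fin N)) (w : Lam N) : ℝ := (dxS N).coord S w

/-- The value `w (u, v)` of the `2`-form `w = ∑_(i < j) w_ij dx_i ∧ dx_j` on the vectors `u`, `v`. -/
def val {N : ℕ} (w : Lam N) (u v : EuclideanSpace ℝ (Fin N)) : ℝ :=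
  ∑ i : Fin N, ∑ j ∈ Finset.Ioi i, coef {i, j} w * (u i * v j - u j * v i)

/-- The dual map of `A`. -/
def dmap {N : ℕ} (A : EuclideanSpace ℝ (Fin N) →L[ℝ] EuclideanSpace ℝ (Fin N)) :
    VV N →ₗ[ℝ] VV N := A.toLinearMap.dualMap

/-- The pullback of forms by the linear map `A`. -/
def pb {N : ℕ} (A : EuclideanSpace ℝ (Fin N) →L[ℝ] EuclideanSpace ℝ (Fin N)) (w : Lam N) : Lam N :=
  ExteriorAlgebra.map (dmap A) w

/-- The exterior derivative `d (∑ f_S dx_S) = ∑ ∂_i f_S dx_i ∧ dx_S` of a form on (an open subset of)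
`ℝ^N`. -/
def D {N : ℕ} (f : EuclideanSpace ℝ (Fin N) → Lam N) (x : EuclideanSpace ℝ (Fin N)) : Lam N :=
  ∑ i : Fin N, ∑ S : Finset (Fin N),
    fderiv ℝ (fun y => coef S (f y)) x (EuclideanSpace.single i 1) • (dxS N {i} * dxS N S)

/-! ## Forms on a manifold -/

/-- Local expressions: for each chart `c` a function `f c` on `ℝ^N` (only the values on `c.target`,
for the charts `c` of the atlas, matter). -/
abbrev Fam (N : ℕ) (M : Type) [TopologicalSpace M] :=
  OpenPartialHomeomorph M (EuclideanSpace ℝ (Fin N)) → EuclideanSpace ℝ (Fin N) → Lam N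

/-- `f` is (the family of local expressions of) a smooth differential form of degree `k` on `M`:
in each chart of the atlas the coefficients are smooth and the local expression is of degree `k`,
and two local expressions are related by the pullback by the transition map. -/
structure IsForm {N : ℕ} {M : Type} [TopologicalSpace M]
    [ChartedSpace (EuclideanSpace ℝ (Fin N)) M] (k : ℕ) (f : Fam N M) : Prop where
  smooth : ∀ c ∈ atlas (EuclideanSpace ℝ (Fin N)) M, ∀ S : Finset (Fin N),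
    ContDiffOn ℝ ∞ (fun x => coef S (f c x)) c.target
  compat : ∀ c ∈ atlas (EuclideanSpace ℝ (Fin N)) M, ∀ c' ∈ atlas (EuclideanSpace ℝ (Fin N)) M,
    ∀ x ∈ c.target, c.symm x ∈ c'.source →
      f c x = pb (fderiv ℝ (fun y => c' (c.symm y)) x) (f c' (c' (c.symm x)))
  deg : ∀ c ∈ atlas (EuclideanSpace ℝ (Fin N)) M, ∀ x ∈ c.target, ∀ S : Finset (Fin N),
    S.card ≠ k → coef S (f c x) = 0

/-- `f = d g`. -/
def IsD {N : ℕ} {M : Type} [TopologicalSpace M]
    [ChartedSpace (EuclideanSpace ℝ (Fin N)) M] (f g : Fam N M) : Prop :=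
  ∀ c ∈ atlas (EuclideanSpace ℝ (Fin N)) M, ∀ x ∈ c.target, f c x = D (g c) x

/-- `Ω` is a symplectic form on the manifold `M` of dimension `2 n`: a smooth closed nondegenerate
`2`-form. -/
structure IsSymplectic {M : Type} [TopologicalSpace M] (n : ℕ)
    [ChartedSpace (EuclideanSpace ℝ (Fin (2 * n))) M] (Ω : Fam (2 * n) M) : Prop where
  form : IsForm 2 Ω
  closed : IsD 0 Ω
  nondeg : ∀ c ∈ atlas (EuclideanSpace ℝ (Fin (2 * n))) M, ∀ x ∈ c.target, ∀ u,
    (∀ v, val (Ω c x) u v = 0) → u = 0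

/-- `vol` is the symplectic volume measure `|Ω ^ n|`: in each chart of the atlas its density with
respect to the Lebesgue measure is the absolute value of the coefficient of `Ω ^ n`. -/
def IsVol {M : Type} [TopologicalSpace M] (n : ℕ)
    [ChartedSpace (EuclideanSpace ℝ (Fin (2 * n))) M] [MeasurableSpace M] (Ω : Fam (2 * n) M)
    (vol : Measure M) : Prop :=
  ∀ c ∈ atlas (EuclideanSpace ℝ (Fin (2 * n))) M, ∀ S : Set (EuclideanSpace ℝ (Fin (2 * n))),
    MeasurableSet S → S ⊆ c.target →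
      vol (c.symm '' S) = ∫⁻ x in S, ENNReal.ofReal |coef Finset.univ ((Ω c x) ^ n)|

/-! ## Hamiltonians -/

/-- `H : [0, 1] × M → ℝ` is a smooth function with compact support. -/
structure IsHam (N : ℕ) {M : Type} [TopologicalSpace M]
    [ChartedSpace (EuclideanSpace ℝ (Fin N)) M] (H : ℝ → M → ℝ) : Prop where
  smooth : ContMDiffOn (𝓘(ℝ, ℝ).prod 𝓘(ℝ, EuclideanSpace ℝ (Fin N))) 𝓘(ℝ, ℝ) ∞
    (fun q : ℝ × M => H q.1 q.2) (Icc 0 1 ×ˢ univ)
  supp : ∃ K : Set M, IsCompact K ∧ ∀ t ∈ Icc (0 : ℝ) 1, ∀ p ∉ K, H t p = 0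

/-- `Φ` is the Hamiltonian isotopy generated by `H`: it is smooth on `[0, 1] × M`, `Φ 0 = id`, and
the velocity `v` of `t ↦ Φ t p` satisfies `Ω (v, w) = d H_t (w)` for all `w` at the point `Φ t p` (in
every chart). -/
structure IsIso {N : ℕ} {M : Type} [TopologicalSpace M]
    [ChartedSpace (EuclideanSpace ℝ (Fin N)) M] (Ω : Fam N M) (H : ℝ → M → ℝ) (Φ : ℝ → M → M) :
    Prop where
  smooth : ContMDiffOn (𝓘(ℝ, ℝ).prod 𝓘(ℝ, EuclideanSpace ℝ (Fin N)))
    𝓘(ℝ, EuclideanSpace ℝ (Fin N)) ∞ (fun q : ℝ × M => Φ q.1 q.2) (Icc 0 1 ×ˢ univ)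
  zero : ∀ p, Φ 0 p = p
  ode : ∀ t ∈ Icc (0 : ℝ) 1, ∀ p, ∀ c ∈ atlas (EuclideanSpace ℝ (Fin N)) M, Φ t p ∈ c.source →
    ∃ v : EuclideanSpace ℝ (Fin N), HasDerivWithinAt (fun s => c (Φ s p)) v (Icc 0 1) t ∧
      ∀ w, val (Ω c (c (Φ t p))) v w = fderiv ℝ (fun y => H t (c.symm y)) (c (Φ t p)) w

/-- `φ` is the time one map of the Hamiltonian isotopy generated by `H`. -/
def Generates {N : ℕ} {M : Type} [TopologicalSpace M]
    [ChartedSpace (EuclideanSpace ℝ (Fin N)) M] (Ω : Fam N M) (H : ℝ → M → ℝ) (φ : M → M) : Prop :=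
  ∃ Φ : ℝ → M → M, IsIso Ω H Φ ∧ Φ 1 = φ

/-- The group `Ham_c(M, Ω)` (as a set of maps). -/
def Ham {N : ℕ} {M : Type} [TopologicalSpace M] [ChartedSpace (EuclideanSpace ℝ (Fin N)) M]
    (Ω : Fam N M) : Set (M → M) := {φ | ∃ H, IsHam N H ∧ Generates Ω H φ}

/-- The Hofer length of a Hamiltonian. -/
def len {M : Type} (H : ℝ → M → ℝ) : ℝ := ∫ t in (0 : ℝ)..1, ((⨆ p, H t p) - ⨅ p, H t p)

/-- The Hofer distance `ρ(id, φ)`. -/
def hofer {N : ℕ} {M : Type} [TopologicalSpace M]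
    [ChartedSpace (EuclideanSpace ℝ (Fin N)) M] (Ω : Fam N M) (φ : M → M) : ℝ :=
  sInf {l | ∃ H, IsHam N H ∧ Generates Ω H φ ∧ len H = l}

/-- The Calabi invariant of a Hamiltonian. -/
def Cal {M : Type} [MeasurableSpace M] (vol : Measure M) (H : ℝ → M → ℝ) : ℝ :=
  ∫ t in (0 : ℝ)..1, ∫ p, H t p ∂vol

end HDS
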