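import Pool.Agent.Work.MP_c3bd4f_hd.Interface

set_option autoImplicit false

/-! # Linear equations and the derivative of a flow (copied from the team's blocks LIN, LPF, USD, FLW
of `MP_a6f1bd_R`) -/

noncomputable section

namespace HDC

/-- uniform strict differentiability along a compact curve -/
def Stmt_USD : Prop := ∀ (V : Type) [NormedAddCommGroup V] [NormedSpace ℝ V]
  [FiniteDimensional ℝ V] (F : V → V) (c : ℝ → V) (ε : ℝ), ContDiff ℝ 1 F → Continuous c → 0 < ε →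
  ∃ η : ℝ, 0 < η ∧ ∀ t ∈ Set.Icc (0 : ℝ) 1, ∀ u v : V, ‖u - c t‖ ≤ η → ‖v - c t‖ ≤ η →
    ‖F u - F v - fderiv ℝ F (c t) (u - v)‖ ≤ ε * ‖u - v‖

section

open Real Filter Topology Set
open scoped ContDiff NNReal

namespace X_LIN

theorem cutoff (W : Type) [NormedAddCommGroup W] [NormedSpace ℝ W] [FiniteDimensional ℝ W]
    (R : ℝ) (hR : 0 < R) : ∃ χ : W → W, (∀ y, ‖y‖ ≤ R → χ y = y) ∧ (∀ y, ‖χ y‖ ≤ ‖y‖) ∧
      (∀ y, ‖χ y‖ ≤ 2 * R) ∧ ∃ L : ℝ≥0, LipschitzWith L χ := by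
  let ρ : ContDiffBump (0 : W) := ⟨R, 2 * R, hR, by linarith⟩
  have h1 : ∀ y, ‖ρ y • y‖ ≤ ‖y‖ := by
    intro y
    rw [norm_smul, Real.norm_of_nonneg ρ.nonneg]
    exact mul_le_of_le_one_left (norm_nonneg _) ρ.le_one
  refine ⟨fun y => ρ y • y, ?_, h1, ?_, ?_⟩
  · intro y hy
    have : ρ y = 1 := ρ.one_of_mem_closedBall (by simpa using hy)
    simp [this]
  · intro y
    by_cases hy : ‖y‖ ≤ 2 * R
    · exact (h1 y).trans hy
    · have : ρ y = 0 := ρ.zero_of_le_dist (by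
        rw [dist_zero_right]; exact (not_le.1 hy).le)
      simp only [this, zero_smul, norm_zero]
      linarith
  · have hc : ContDiff ℝ 1 (fun y : W => ρ y • y) := ρ.contDiff.smul contDiff_id
    have hs : HasCompactSupport (fun y : W => ρ y • y) := ρ.hasCompactSupport.smul_right
    exact hc.lipschitzWith_of_hasCompactSupport hs (by norm_num)

end X_LIN

theorem p_LIN : Stmt_LIN := by
  intro W _ _ _ A hA t0 ht0 w
  obtain ⟨ht1, ht2⟩ := ht0
  obtain ⟨M, hM1, hM⟩ : ∃ M : ℝ, 1 ≤ M ∧ ∀ t ∈ Icc (-2 : ℝ) 3, ‖A t‖ ≤ M := by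
    obtain ⟨C, hC⟩ := (isCompact_Icc (a := (-2 : ℝ)) (b := 3)).exists_bound_of_continuousOn
      hA.continuousOn
    exact ⟨max C 1, le_max_right _ _, fun t ht => (hC t ht).trans (le_max_left _ _)⟩
  have hM0 : 0 ≤ M := by linarith
  set R : ℝ := (‖w‖ + 1) * exp (5 * M) with hRdef
  have hR : 0 < R := by positivity
  obtain ⟨χ, hχ1, hχ2, hχ3, L0, hL0⟩ := X_LIN.cutoff W R hR
  set L : ℝ≥0 := ⟨M * (2 * R), by positivity⟩ with hL
  have hPL : IsPicardLindelof (fun t y => A t (χ y)) (tmin := -2) (tmax := 3)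
      ⟨t0, by constructor <;> linarith⟩ w (5 * L) 0 L (⟨M, hM0⟩ * L0) := by
    refine ⟨?_, ?_, ?_, ?_⟩
    · intro t ht
      have h1 : LipschitzWith ⟨M, hM0⟩ (A t) :=
        (A t).lipschitz.weaken (by rw [← NNReal.coe_le_coe]; exact hM t ht)
      exact (h1.comp hL0).lipschitzOnWith
    · intro x _
      exact (hA.clm_apply continuous_const).continuousOn
    · intro t ht x _
      exact ((A t).le_opNorm _).trans (mul_le_mul (hM t ht) (hχ3 x) (norm_nonneg _) hM0)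
    · have h1 : max ((3 : ℝ) - t0) (t0 - (-2)) ≤ 5 := max_le (by linarith) (by linarith)
      have h2 : (0 : ℝ) ≤ L := L.2
      have h3 : (L : ℝ) * max ((3 : ℝ) - t0) (t0 - (-2)) ≤ L * 5 :=
        mul_le_mul_of_nonneg_left h1 h2
      push_cast
      linarith
  obtain ⟨y, hy0, hy⟩ := hPL.exists_eq_forall_mem_Icc_hasDerivWithinAt₀
  have hy0' : y t0 = w := hy0
  have hcont : ContinuousOn y (Icc (-2) 3) := fun t ht => (hy t ht).continuousWithinAt
  have hder : ∀ t ∈ Ioo (-2 : ℝ) 3, HasDerivAt y (A t (χ (y t))) t := fun t ht =>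
    (hy t ⟨ht.1.le, ht.2.le⟩).hasDerivAt (Icc_mem_nhds ht.1 ht.2)
  have hbd : ∀ t ∈ Icc (-2 : ℝ) 3, ‖A t (χ (y t))‖ ≤ M * ‖y t‖ := fun t ht =>
    ((A t).le_opNorm _).trans (mul_le_mul (hM t ht) (hχ2 _) (norm_nonneg _) hM0)
  have hexp : ∀ s : ℝ, s ≤ 5 → ‖w‖ * exp (M * s) ≤ R := by
    intro s hs
    rw [hRdef]
    refine mul_le_mul (by linarith) ?_ (exp_pos _).le (by positivity)
    rw [exp_le_exp]
    nlinarith
  have key : ∀ t ∈ Ioo (-1 : ℝ) 2, ‖y t‖ ≤ R := by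
    intro t ht
    rcases le_total t0 t with h | h
    · have h1 := norm_le_gronwallBound_of_norm_deriv_right_le (f := y)
        (f' := fun t => A t (χ (y t))) (δ := ‖w‖) (K := M) (ε := 0) (a := t0) (b := t)
        (hcont.mono (Icc_subset_Icc (by linarith) (by linarith [ht.2])))
        (fun x hx => (hder x ⟨by linarith [hx.1], by linarith [hx.2, ht.2]⟩).hasDerivWithinAt)
        (by rw [hy0'])
        (fun x hx => by
          rw [add_zero]
          exact hbd x ⟨by linarith [hx.1], by linarith [hx.2, ht.2]⟩) t ⟨h, le_rfl⟩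
      rw [gronwallBound_ε0] at h1
      exact h1.trans (hexp _ (by linarith [ht.2]))
    · have h1 := norm_le_gronwallBound_of_norm_deriv_right_le (f := fun s => y (t0 - s))
        (f' := fun s => -(A (t0 - s) (χ (y (t0 - s))))) (δ := ‖w‖) (K := M) (ε := 0) (a := 0)
        (b := t0 - t)
        (hcont.comp (continuous_const.sub continuous_id).continuousOn (fun s hs =>
          ⟨by linarith [hs.2, ht.1], by linarith [hs.1]⟩))
        (fun s hs => ((hder (t0 - s) ⟨by linarith [hs.2, ht.1], by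
          linarith [hs.1]⟩).comp_const_sub t0 s).hasDerivWithinAt)
        (by rw [sub_zero, hy0'])
        (fun s hs => by
          rw [add_zero, norm_neg]
          exact hbd _ ⟨by linarith [hs.2, ht.1], by linarith [hs.1]⟩) (t0 - t)
          ⟨by linarith, le_rfl⟩
      rw [gronwallBound_ε0, sub_zero] at h1
      simp only [sub_sub_cancel] at h1
      exact h1.trans (hexp _ (by linarith [ht.1]))
  refine ⟨y, hy0', fun t ht => ?_⟩
  have h1 := hder t ⟨by linarith [ht.1], by linarith [ht.2]⟩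
  rwa [hχ1 _ (key t ht)] at h1

end

section

open Real Filter Topology Set
open scoped ContDiff NNReal

namespace X_LPF

theorem gron {V : Type} [NormedAddCommGroup V] [NormedSpace ℝ V] {F : V → V} {Φ : ℝ → V → V}
    (hΦ : IsFlow F Φ) {B : Set V} {L : ℝ≥0} (hL : LipschitzOnWith L F B) {x y : V} {τ : ℝ}
    (hx : ∀ t ∈ Ico (0 : ℝ) τ, Φ t x ∈ B) (hy : ∀ t ∈ Ico (0 : ℝ) τ, Φ t y ∈ B) :
    ∀ t ∈ Icc (0 : ℝ) τ, ‖Φ t x - Φ t y‖ ≤ ‖x - y‖ * exp (L * t) := by
  intro t ht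
  have hd := hΦ.2
  have h := dist_le_of_trajectories_ODE_of_mem (v := fun _ => F) (s := fun _ => B) (K := L)
    (f := fun t => Φ t x) (g := fun t => Φ t y) (a := 0) (b := τ) (δ := ‖x - y‖)
    (fun t _ => hL) (fun t _ => (hd x t).continuousAt.continuousWithinAt)
    (fun t _ => (hd x t).hasDerivWithinAt) hx
    (fun t _ => (hd y t).continuousAt.continuousWithinAt)
    (fun t _ => (hd y t).hasDerivWithinAt) hy (by rw [hΦ.1, hΦ.1, dist_eq_norm]) t ht
  rw [dist_eq_norm, sub_zero] at h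
  exact h

end X_LPF

theorem p_LPF : Stmt_LPF := by
  intro V _ _ _ F Φ hF hΦ x0
  have hd := hΦ.2
  have hc : ∀ x, Continuous fun t => Φ t x := fun x =>
    continuous_iff_continuousAt.2 fun t => (hd x t).continuousAt
  obtain ⟨R, hR⟩ := (isCompact_Icc (a := (0 : ℝ)) (b := 1)).exists_bound_of_continuousOn
    (hc x0).continuousOn
  have hfd : Continuous (fderiv ℝ F) := hF.continuous_fderiv (by norm_num)
  obtain ⟨C, hC⟩ := (isCompact_closedBall (0 : V) (R + 1)).exists_bound_of_continuousOn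
    hfd.continuousOn
  set L : ℝ≥0 := Real.toNNReal C with hLdef
  have hLip : LipschitzOnWith L F (Metric.closedBall (0 : V) (R + 1)) := by
    refine Convex.lipschitzOnWith_of_nnnorm_fderiv_le (𝕜 := ℝ)
      (fun z _ => (hF.differentiable (by norm_num)) z) (fun z hz => ?_)
      (convex_closedBall _ _)
    rw [← NNReal.coe_le_coe, coe_nnnorm]
    exact (hC z hz).trans (Real.le_coe_toNNReal C)
  have hL0 : (0 : ℝ) ≤ L := L.2
  have hδ : 0 < exp (-L) / 2 := by positivity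
  have hδL : exp (-L) / 2 * exp L = 1 / 2 := by
    rw [div_mul_eq_mul_div, ← Real.exp_add, neg_add_cancel, Real.exp_zero]
  have hδ2 : exp (-L) / 2 ≤ 1 / 2 := by
    have : exp (-(L : ℝ)) ≤ 1 := Real.exp_le_one_iff.2 (by linarith)
    linarith
  have h0B : ∀ t ∈ Icc (0 : ℝ) 1, Φ t x0 ∈ Metric.closedBall (0 : V) (R + 1) := by
    intro t ht
    rw [mem_closedBall_zero_iff]
    linarith [hR t ht]
  have hB : ∀ x t, t ∈ Icc (0 : ℝ) 1 → ‖Φ t x - Φ t x0‖ < 1 →
      Φ t x ∈ Metric.closedBall (0 : V) (R + 1) := by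
    intro x t ht h
    rw [mem_closedBall_zero_iff]
    have h1 := hR t ht
    have h2 : ‖Φ t x‖ ≤ ‖Φ t x - Φ t x0‖ + ‖Φ t x0‖ := by
      simpa using norm_add_le (Φ t x - Φ t x0) (Φ t x0)
    linarith
  have claim : ∀ x ∈ Metric.ball x0 (exp (-L) / 2), ∀ t ∈ Icc (0 : ℝ) 1,
      ‖Φ t x - Φ t x0‖ < 1 := by
    intro x hx
    rw [Metric.mem_ball, dist_eq_norm] at hx
    by_contra hcon
    push Not at hcon
    obtain ⟨t1, ht1, h1⟩ := hcon
    have hcl : IsClosed {t : ℝ | 1 ≤ ‖Φ t x - Φ t x0‖} :=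
      isClosed_le continuous_const (((hc x).sub (hc x0)).norm)
    obtain ⟨τ, ⟨hτ, hτ1⟩, hmin⟩ := (isCompact_Icc.inter_right hcl).exists_isLeast ⟨t1, ht1, h1⟩
    have hlt : ∀ t ∈ Ico (0 : ℝ) τ, ‖Φ t x - Φ t x0‖ < 1 := by
      intro t ht
      by_contra h2
      push Not at h2
      exact absurd (hmin ⟨⟨ht.1, ht.2.le.trans hτ.2⟩, h2⟩) (not_le.2 ht.2)
    have h3 := X_LPF.gron hΦ hLip (x := x) (y := x0) (τ := τ)
      (fun t ht => hB x t ⟨ht.1, ht.2.le.trans hτ.2⟩ (hlt t ht))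
      (fun t ht => h0B t ⟨ht.1, ht.2.le.trans hτ.2⟩) τ ⟨hτ.1, le_rfl⟩
    have h4 : exp (L * τ) ≤ exp L := Real.exp_le_exp.2 (by
      have := mul_le_mul_of_nonneg_left hτ.2 hL0
      linarith)
    have h5 : ‖x - x0‖ * exp (L * τ) ≤ exp (-L) / 2 * exp L :=
      mul_le_mul hx.le h4 (Real.exp_pos _).le hδ.le
    have h6 : (1 : ℝ) ≤ ‖Φ τ x - Φ τ x0‖ := hτ1
    linarith
  refine ⟨exp (-L) / 2, exp L, hδ, (Real.exp_pos _).le, ?_⟩
  intro x hx y hy t ht
  have h3 := X_LPF.gron hΦ hLip (x := x) (y := y) (τ := 1)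
    (fun t ht => hB x t ⟨ht.1, ht.2.le⟩ (claim x hx t ⟨ht.1, ht.2.le⟩))
    (fun t ht => hB y t ⟨ht.1, ht.2.le⟩ (claim y hy t ⟨ht.1, ht.2.le⟩)) t ht
  have h4 : exp (L * t) ≤ exp L := Real.exp_le_exp.2 (by
    have := mul_le_mul_of_nonneg_left ht.2 hL0
    linarith)
  calc ‖Φ t x - Φ t y‖ ≤ ‖x - y‖ * exp (L * t) := h3
    _ ≤ ‖x - y‖ * exp L := mul_le_mul_of_nonneg_left h4 (norm_nonneg _)
    _ = exp L * ‖x - y‖ := mul_comm _ _

end

section

open Real Filter Topology Set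
open scoped ContDiff

theorem p_USD : Stmt_USD := by
  intro V _ _ _ F c ε hF hc hε
  have hprop : ProperSpace V := FiniteDimensional.proper ℝ V
  obtain ⟨R, hR⟩ := isCompact_Icc.exists_bound_of_continuousOn
    (s := Icc (0 : ℝ) 1) (f := c) hc.continuousOn
  have hcont : Continuous (fderiv ℝ F) := hF.continuous_fderiv (by norm_num)
  have huc := (isCompact_closedBall (0 : V) (R + 1)).uniformContinuousOn_of_continuous
    hcont.continuousOn
  rw [Metric.uniformContinuousOn_iff_le] at huc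
  obtain ⟨δ, hδ, h⟩ := huc ε hε
  refine ⟨min δ 1, lt_min hδ one_pos, fun t ht u v hu hv => ?_⟩
  have hsub : Metric.closedBall (c t) (min δ 1) ⊆ Metric.closedBall (0 : V) (R + 1) := by
    intro x hx
    have h1 : dist x (c t) ≤ 1 := hx.trans (min_le_right _ _)
    have h2 : ‖x‖ ≤ ‖c t‖ + ‖x - c t‖ := by
      have := norm_add_le (c t) (x - c t)
      rwa [add_sub_cancel] at this
    rw [dist_eq_norm] at h1
    rw [mem_closedBall_zero_iff]
    linarith [hR t ht]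
  have hct : c t ∈ Metric.closedBall (c t) (min δ 1) :=
    Metric.mem_closedBall_self (lt_min hδ one_pos).le
  refine Convex.norm_image_sub_le_of_norm_hasFDerivWithin_le' (𝕜 := ℝ)
    (s := Metric.closedBall (c t) (min δ 1)) (f' := fderiv ℝ F)
    (fun x _ => ((hF.differentiable (by norm_num)) x).hasFDerivAt.hasFDerivWithinAt) ?_
    (convex_closedBall _ _) ?_ ?_
  · intro x hx
    have h3 := h x (hsub hx) (c t) (hsub hct) (hx.trans (min_le_left _ _))
    rwa [dist_eq_norm] at h3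
  · rwa [Metric.mem_closedBall, dist_eq_norm]
  · rwa [Metric.mem_closedBall, dist_eq_norm]

end

section

open Real Filter Topology Set
open scoped ContDiff

namespace X_FLW

/-- the bound of Gronwall with zero initial value -/
theorem gron {M e t : ℝ} (hM : 1 ≤ M) (he : 0 ≤ e) (ht1 : t ≤ 1) :
    gronwallBound 0 M e t ≤ e * Real.exp M := by
  rw [gronwallBound_of_K_ne_0 (by positivity)]
  have h1 : Real.exp (M * t) ≤ Real.exp M := Real.exp_le_exp.2 (by nlinarith)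
  have h2 : e / M ≤ e := div_le_self he hM
  have h3 : Real.exp (M * t) - 1 ≤ Real.exp M := by linarith
  have h4 : 0 ≤ e / M := by positivity
  calc 0 * Real.exp (M * t) + e / M * (Real.exp (M * t) - 1)
      = e / M * (Real.exp (M * t) - 1) := by ring
    _ ≤ e / M * Real.exp M := mul_le_mul_of_nonneg_left h3 h4
    _ ≤ e * Real.exp M := mul_le_mul_of_nonneg_right h2 (Real.exp_pos M).le

end X_FLW

theorem p_FLW (hLIN : Stmt_LIN) (hLPF : Stmt_LPF) (hUSD : Stmt_USD) : Stmt_FLW := by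
  intro V _ _ _ F Φ hF hΦ x0
  obtain ⟨hΦ0, hΦd⟩ := hΦ
  have hc : Continuous fun t => Φ t x0 :=
    continuous_iff_continuousAt.2 fun t => (hΦd x0 t).continuousAt
  have hA : Continuous fun t => fderiv ℝ F (Φ t x0) := (hF.continuous_fderiv one_ne_zero).comp hc
  have : FiniteDimensional ℝ (V →L[ℝ] V) :=
    LinearEquiv.finiteDimensional (LinearMap.toContinuousLinearMap : (V →ₗ[ℝ] V) ≃ₗ[ℝ] V →L[ℝ] V)
  obtain ⟨D, hD0, hD⟩ := hLIN (V →L[ℝ] V)
    (fun t => ContinuousLinearMap.compL ℝ V V V (fderiv ℝ F (Φ t x0)))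
    ((ContinuousLinearMap.compL ℝ V V V).continuous.comp hA) 0 ⟨by norm_num, by norm_num⟩
    (ContinuousLinearMap.id ℝ V)
  have hD' : ∀ t ∈ Ioo (-1 : ℝ) 2, HasDerivAt D ((fderiv ℝ F (Φ t x0)).comp (D t)) t := by
    intro t ht
    exact hD t ht
  refine ⟨D, hD0, hD', ?_⟩
  -- the bound of the derivative along the trajectory
  obtain ⟨M, hM1, hM⟩ : ∃ M : ℝ, 1 ≤ M ∧ ∀ t ∈ Icc (0 : ℝ) 1, ‖fderiv ℝ F (Φ t x0)‖ ≤ M := by
    obtain ⟨M, hM⟩ := isCompact_Icc.exists_bound_of_continuousOn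
      (s := Icc (0 : ℝ) 1) hA.continuousOn
    exact ⟨max 1 M, le_max_left _ _, fun t ht => le_trans (hM t ht) (le_max_right _ _)⟩
  obtain ⟨δ, C, hδ, hC, hLip⟩ := hLPF V F Φ hF ⟨hΦ0, hΦd⟩ x0
  intro t ht
  rw [hasStrictFDerivAt_iff_isLittleO, Asymptotics.isLittleO_iff]
  intro ε' hε'
  have hden : 0 < C * Real.exp M + 1 := by positivity
  obtain ⟨ε, hε, hεε⟩ : ∃ ε : ℝ, 0 < ε ∧ ε * C * Real.exp M ≤ ε' := by
    refine ⟨ε' / (C * Real.exp M + 1), by positivity, ?_⟩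
    rw [mul_assoc, div_mul_eq_mul_div, div_le_iff₀ hden]
    nlinarith
  obtain ⟨η, hη, hU⟩ := hUSD V F (fun t => Φ t x0) ε hF hc hε
  obtain ⟨ρ, hρ, hρδ, hρη⟩ : ∃ ρ : ℝ, 0 < ρ ∧ ρ ≤ δ ∧ C * ρ ≤ η := by
    refine ⟨min δ (η / (C + 1)), lt_min hδ (by positivity), min_le_left _ _, ?_⟩
    have h1 : C * min δ (η / (C + 1)) ≤ C * (η / (C + 1)) :=
      mul_le_mul_of_nonneg_left (min_le_right _ _) hC
    have h2 : C * (η / (C + 1)) ≤ η := by
      rw [mul_div_assoc', div_le_iff₀ (by positivity)]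
      nlinarith
    linarith
  have hnh : Metric.ball x0 ρ ×ˢ Metric.ball x0 ρ ∈ 𝓝 (x0, x0) :=
    prod_mem_nhds (Metric.ball_mem_nhds x0 hρ) (Metric.ball_mem_nhds x0 hρ)
  filter_upwards [hnh]
  rintro ⟨x, y⟩ ⟨hx, hy⟩
  change x ∈ Metric.ball x0 ρ at hx
  change y ∈ Metric.ball x0 ρ at hy
  change ‖Φ t x - Φ t y - D t (x - y)‖ ≤ ε' * ‖x - y‖
  have hxδ : x ∈ Metric.ball x0 δ := Metric.ball_subset_ball hρδ hx
  have hyδ : y ∈ Metric.ball x0 δ := Metric.ball_subset_ball hρδ hy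
  have h0δ : x0 ∈ Metric.ball x0 δ := Metric.mem_ball_self hδ
  have hnear : ∀ z ∈ Metric.ball x0 ρ, ∀ s ∈ Icc (0 : ℝ) 1, ‖Φ s z - Φ s x0‖ ≤ η := by
    intro z hz s hs
    have h1 := hLip z (Metric.ball_subset_ball hρδ hz) x0 h0δ s hs
    have h2 : ‖z - x0‖ ≤ ρ := by
      rw [← dist_eq_norm]
      exact (Metric.mem_ball.1 hz).le
    exact le_trans h1 (le_trans (mul_le_mul_of_nonneg_left h2 hC) hρη)
  -- Gronwall
  have hZd : ∀ s ∈ Icc (0 : ℝ) 1, HasDerivAt (fun s => Φ s x - Φ s y - D s (x - y))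
      (F (Φ s x) - F (Φ s y) - ((fderiv ℝ F (Φ s x0)).comp (D s)) (x - y)) s := by
    intro s hs
    have h1 : HasDerivAt (fun s => D s (x - y))
        (((fderiv ℝ F (Φ s x0)).comp (D s)) (x - y)) s := by
      have h2 := (hD' s ⟨by linarith [hs.1], by linarith [hs.2]⟩).clm_apply
        (hasDerivAt_const s (x - y))
      simpa using h2
    exact ((hΦd x s).sub (hΦd y s)).sub h1
  have hgr := norm_le_gronwallBound_of_norm_deriv_right_le
    (f := fun s => Φ s x - Φ s y - D s (x - y))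
    (f' := fun s => F (Φ s x) - F (Φ s y) - ((fderiv ℝ F (Φ s x0)).comp (D s)) (x - y))
    (δ := 0) (K := M) (ε := ε * C * ‖x - y‖) (a := 0) (b := 1)
    (fun s hs => (hZd s hs).continuousAt.continuousWithinAt)
    (fun s hs => (hZd s ⟨hs.1, hs.2.le⟩).hasDerivWithinAt)
    (by
      change ‖Φ 0 x - Φ 0 y - D 0 (x - y)‖ ≤ 0
      rw [hΦ0, hΦ0, hD0]
      simp)
    (by
      intro s hs
      have hs' : s ∈ Icc (0 : ℝ) 1 := ⟨hs.1, hs.2.le⟩
      have h1 : F (Φ s x) - F (Φ s y) - ((fderiv ℝ F (Φ s x0)).comp (D s)) (x - y) =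
          (F (Φ s x) - F (Φ s y) - fderiv ℝ F (Φ s x0) (Φ s x - Φ s y)) +
            fderiv ℝ F (Φ s x0) (Φ s x - Φ s y - D s (x - y)) := by
        rw [ContinuousLinearMap.comp_apply, map_sub (fderiv ℝ F (Φ s x0)) (Φ s x - Φ s y)]
        abel
      change ‖F (Φ s x) - F (Φ s y) - ((fderiv ℝ F (Φ s x0)).comp (D s)) (x - y)‖ ≤
        M * ‖Φ s x - Φ s y - D s (x - y)‖ + ε * C * ‖x - y‖
      rw [h1]
      have h2 := hU s hs' (Φ s x) (Φ s y) (hnear x hx s hs') (hnear y hy s hs')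
      have h3 := hLip x hxδ y hyδ s hs'
      have h4 := (fderiv ℝ F (Φ s x0)).le_opNorm (Φ s x - Φ s y - D s (x - y))
      have h5 : ‖fderiv ℝ F (Φ s x0)‖ * ‖Φ s x - Φ s y - D s (x - y)‖ ≤
          M * ‖Φ s x - Φ s y - D s (x - y)‖ :=
        mul_le_mul_of_nonneg_right (hM s hs') (norm_nonneg _)
      have h6 : ε * ‖Φ s x - Φ s y‖ ≤ ε * C * ‖x - y‖ := by
        rw [mul_assoc]
        exact mul_le_mul_of_nonneg_left h3 hε.le
      refine le_trans (norm_add_le _ _) ?_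
      change ‖F (Φ s x) - F (Φ s y) - fderiv ℝ F (Φ s x0) (Φ s x - Φ s y)‖ ≤
        ε * ‖Φ s x - Φ s y‖ at h2
      linarith)
    t ht
  have he : 0 ≤ ε * C * ‖x - y‖ := by positivity
  have hfin := X_FLW.gron (t := t - 0) hM1 he (by linarith [ht.2])
  change ‖Φ t x - Φ t y - D t (x - y)‖ ≤ _ at hgr
  refine le_trans hgr (le_trans hfin ?_)
  calc ε * C * ‖x - y‖ * Real.exp M = ε * C * Real.exp M * ‖x - y‖ := by ring
    _ ≤ ε' * ‖x - y‖ := mul_le_mul_of_nonneg_right hεε (norm_nonneg _)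

end

end HDC
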