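import Pool.Agent.Work.MP_c3bd4f_hd.Defs

set_option autoImplicit false

/-!
# Infinite Hofer diameter when `ω ^ j` is exact: interface

The file of block `X` is `Pool/Agent/Work/MP_c3bd4f_hd/B_X.lean`: `import` this file, open the same
namespaces, `namespace HDC`, `theorem p_X (hA : Stmt_A) (hB : Stmt_B) .. : Stmt_X` with the blocks of
the column `uses` as hypotheses in that order; auxiliary lemmas with prefix `X_`.

NOTATION.  The symplectic form is `Ω`.  `Fam N M` is a function type, so `f * g`, `f + g`, `r • f`, `f ^ k`, `f - g`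
are pointwise and `(f * g) c x = f c x * g c x` holds by `rfl`.  `inv` is the grading involution.
`CliffordAlgebra.contractLeft` lemmas apply to `ctr` (`ExteriorAlgebra R M = CliffordAlgebra (0 : QuadraticForm R M)`
and `ExteriorAlgebra.ι R = CliffordAlgebra.ι 0` by `rfl`); `ExteriorAlgebra.induction` is the induction
principle.  The degree `k` part is `⋀[ℝ]^k (VV N) : Submodule ℝ (Lam N)` (a power of
`LinearMap.range (ExteriorAlgebra.ι ℝ)`, graded by `ExteriorAlgebra.gradedAlgebra`; products: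
`SetLike.mul_mem_graded`; span of products: `ExteriorAlgebra.ιMulti_span_fixedDegree`).
-/

open scoped ContDiff Manifold Topology
open Set MeasureTheory

noncomputable section

namespace HDC

/-! ## Auxiliary definitions -/

/-- The grading involution. -/
abbrev inv {N : ℕ} : Lam N →ₐ[ℝ] Lam N := CliffordAlgebra.involute

/-- Nondegenerate `2`-forms. -/
def Nd {N : ℕ} (w : Lam N) : Prop := w ∈ ⋀[ℝ]^2 (VV N) ∧ ∀ v, ctr v w = 0 → v = 0

open scoped Classical in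
/-- The vector `v` with `ctr v w = a`. -/
def sh {N : ℕ} (w : Lam N) (a : EE N →L[ℝ] ℝ) : EE N :=
  if h : ∃ v, ctr v w = io a.toLinearMap then h.choose else 0

/-- The derivative of `pb` at `A` in the direction `B`. -/
def dpb {N : ℕ} (A B : EE N →L[ℝ] EE N) (x : Lam N) : Lam N := deriv (fun s : ℝ => pb (A + s • B) x) 0

section mfd

variable {N : ℕ} {M : Type} [TopologicalSpace M]

/-- Contraction with a vector field given by its local expressions. -/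
def cF (X : OpenPartialHomeomorph M (EE N) → EE N → EE N) (f : Fam N M) : Fam N M :=
  fun c x => ctr (X c x) (f c x)

/-- The Lie derivative (Cartan formula). -/
def Lie (X : OpenPartialHomeomorph M (EE N) → EE N → EE N) (f : Fam N M) : Fam N M :=
  dF (cF X f) + cF X (dF f)

/-- The local expression of `H` as a `0`-form. -/
def hF (N : ℕ) (h : M → ℝ) : Fam N M := fun c x => algebraMap ℝ (Lam N) (h (c.symm x))

/-- The Hamiltonian vector field. -/
def XX (Ω : Fam N M) (H : ℝ → M → ℝ) (t : ℝ) (c : OpenPartialHomeomorph M (EE N)) (x : EE N) :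
    EE N := sh (Ω c x) (fderiv ℝ (fun y => H t (c.symm y)) x)

variable [ChartedSpace (EE N) M]

/-- The pullback by the map `φ`. -/
def PBK (φ : M → M) (f : Fam N M) : Fam N M := fun c x =>
  pb (fderiv ℝ (fun y => chartAt (EE N) (φ (c.symm x)) (φ (c.symm y))) x)
    (f (chartAt (EE N) (φ (c.symm x))) (chartAt (EE N) (φ (c.symm x)) (φ (c.symm x))))

/-- `f` vanishes outside of `K`. -/
def CS (K : Set M) (f : Fam N M) : Prop :=
  ∀ c ∈ atlas (EE N) M, ∀ x ∈ c.target, c.symm x ∉ K → f c x = 0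

/-- Time dependent forms, smooth on `[0, 1] × M`. -/
structure TForm (k : ℕ) (F : ℝ → Fam N M) : Prop where
  smooth : ∀ c ∈ atlas (EE N) M,
    ContDiffOn ℝ ∞ (fun q : ℝ × EE N => F q.1 c q.2) (Icc 0 1 ×ˢ c.target)
  form : ∀ t ∈ Icc (0 : ℝ) 1, IsForm k (F t)

/-- Time dependent vector fields, smooth on `[0, 1] × M`. -/
structure TVF (X : ℝ → OpenPartialHomeomorph M (EE N) → EE N → EE N) : Prop where
  smooth : ∀ c ∈ atlas (EE N) M,
    ContDiffOn ℝ ∞ (fun q : ℝ × EE N => X q.1 c q.2) (Icc 0 1 ×ˢ c.target)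
  compat : ∀ t ∈ Icc (0 : ℝ) 1, ∀ c ∈ atlas (EE N) M, ∀ c' ∈ atlas (EE N) M, ∀ x ∈ c.target,
    c.symm x ∈ c'.source → fderiv ℝ (fun y => c' (c.symm y)) x (X t c x) = X t c' (c' (c.symm x))

/-- `Φ` is the smooth isotopy of the vector field `X`. -/
structure Flw (X : ℝ → OpenPartialHomeomorph M (EE N) → EE N → EE N) (Φ : ℝ → M → M) : Prop where
  smooth : ContMDiffOn (𝓘(ℝ, ℝ).prod 𝓘(ℝ, EE N)) 𝓘(ℝ, EE N) ∞ (fun q : ℝ × M => Φ q.1 q.2)
    (Icc 0 1 ×ˢ univ)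
  zero : ∀ p, Φ 0 p = p
  ode : ∀ t ∈ Icc (0 : ℝ) 1, ∀ p, ∀ c ∈ atlas (EE N) M, Φ t p ∈ c.source →
    HasDerivWithinAt (fun s => c (Φ s p)) (X t c (c (Φ t p))) (Icc 0 1) t

/-- `Φ` is smooth on `[0, 1] × M`. -/
def SmI (N : ℕ) {M : Type} [TopologicalSpace M] [ChartedSpace (EE N) M] (Φ : ℝ → M → M) : Prop :=
  ContMDiffOn (𝓘(ℝ, ℝ).prod 𝓘(ℝ, EE N)) 𝓘(ℝ, EE N) ∞ (fun q : ℝ × M => Φ q.1 q.2)
    (Icc 0 1 ×ˢ univ)

/-- The points `(t, x)` where the local expression of `Φ` in the charts `c`, `c'` is defined. -/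
def SS (Φ : ℝ → M → M) (c c' : OpenPartialHomeomorph M (EE N)) : Set (ℝ × EE N) :=
  {q | q.1 ∈ Icc (0 : ℝ) 1 ∧ q.2 ∈ c.target ∧ Φ q.1 (c.symm q.2) ∈ c'.source}

end mfd

/-- The density of `f` with respect to `Ω ^ n`. -/
def dn (n : ℕ) {M : Type} [TopologicalSpace M] [ChartedSpace (EE (2 * n)) M]
    (Ω f : Fam (2 * n) M) (p : M) : ℝ :=
  top (2 * n) (f (chartAt (EE (2 * n)) p) (chartAt (EE (2 * n)) p p)) /
    top (2 * n) ((Ω (chartAt (EE (2 * n)) p) (chartAt (EE (2 * n)) p p)) ^ n)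

/-- The form `(i + 1) H Ω ^ i + ι(X) μ`. -/
def bet {N : ℕ} {M : Type} [TopologicalSpace M] (i : ℕ) (Ω μ : Fam N M) (H : ℝ → M → ℝ) (t : ℝ) :
    Fam N M := ((i : ℝ) + 1) • (hF N (H t) * Ω ^ i) + cF (XX Ω H t) μ

open scoped Classical in
/-- The function on `M` with the local expression `b` in the chart `c`, `0` outside. -/
def exH {N : ℕ} {M : Type} [TopologicalSpace M] (c : OpenPartialHomeomorph M (EE N)) (b : EE N → ℝ)
    (p : M) : ℝ := if p ∈ c.source then b (c p) else 0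

open scoped Classical in
/-- The isotopy of `M` with the local expression `ψ` in the chart `c`, the identity outside. -/
def exPhi {N : ℕ} {M : Type} [TopologicalSpace M] (c : OpenPartialHomeomorph M (EE N))
    (ψ : ℝ → EE N → EE N) (t : ℝ) (p : M) : M := if p ∈ c.source then c.symm (ψ t (c p)) else p

/-- A Hamiltonian isotopy of a symplectic manifold. -/
structure HS (n : ℕ) {M : Type} [TopologicalSpace M] [ChartedSpace (EE (2 * n)) M]
    (Ω : Fam (2 * n) M) (H : ℝ → M → ℝ) (Φ : ℝ → M → M) : Prop where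
  symp : IsSymplectic n Ω
  ham : IsHam (2 * n) H
  iso : IsIso Ω H Φ

/-- `Φ` is the global flow of the vector field `F`. -/
def IsFlow {V : Type} [NormedAddCommGroup V] [NormedSpace ℝ V] (F : V → V) (Φ : ℝ → V → V) : Prop :=
  (∀ x, Φ 0 x = x) ∧ ∀ x t, HasDerivAt (fun s => Φ s x) (F (Φ t x)) t

/-! ## A. Algebra -/

/-- BLOCK ALG (uses nothing): commutation rules.
PROOF.  (1) induction on `x` (`ExteriorAlgebra.induction`): scalars commute; `io a * io b = - io b * io a`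
(`ExteriorAlgebra.ι_add_mul_swap`) and `inv (io b) = - io b` (`CliffordAlgebra.involute_ι`); products and sums.
(2) induction on `x` (all `y`): `x` scalar: `CliffordAlgebra.contractLeft_algebraMap_mul`, `ctr` of a scalar is `0`;
`x = io a`: `CliffordAlgebra.contractLeft_ι_mul` (`ctr v (io a * y) = a v • y - io a * ctr v y`) and
`CliffordAlgebra.contractLeft_ι`; `x = x1 * x2`: associate and use both hypotheses.
(3) `CliffordAlgebra.contractLeft_ι`, (4) `CliffordAlgebra.contractLeft_algebraMap`.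
(5) induction on `x` with (2).  (6), (7): `Module.Dual.eval` and `contractLeft` are linear. -/
def Stmt_ALG : Prop := ∀ N : ℕ,
  (∀ (a : VV N) (x : Lam N), io a * x = inv x * io a) ∧
  (∀ (v : EE N) (x y : Lam N), ctr v (x * y) = ctr v x * y + inv x * ctr v y) ∧
  (∀ (v : EE N) (a : VV N), ctr v (io a) = algebraMap ℝ (Lam N) (a v)) ∧
  (∀ (v : EE N) (r : ℝ), ctr v (algebraMap ℝ (Lam N) r) = 0) ∧
  (∀ (v : EE N) (x : Lam N), ctr v (inv x) = -inv (ctr v x)) ∧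
  (∀ (v u : EE N) (x : Lam N), ctr (v + u) x = ctr v x + ctr u x) ∧
  (∀ (r : ℝ) (v : EE N) (x : Lam N), ctr (r • v) x = r • ctr v x)

/-- BLOCK PBA (uses ALG): pullback rules.
PROOF.  (1) `ExteriorAlgebra.map_apply_ι`.  (2) `ExteriorAlgebra.map_comp_map`, (3) `ExteriorAlgebra.map_id`
(`LinearMap.dualMap_comp_dualMap`, `LinearMap.dualMap_id`).  (4), (5): induction on `x`
(`ExteriorAlgebra.induction`): scalars; `io a`: both sides of (4) are the scalar `a (A v)`; products: ALG (2) and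
(5); sums. -/
def Stmt_PBA : Prop := ∀ N : ℕ,
  (∀ (A : EE N →L[ℝ] EE N) (a : VV N), pb A (io a) = io (a ∘ₗ A.toLinearMap)) ∧
  (∀ (A B : EE N →L[ℝ] EE N) (x : Lam N), pb (A.comp B) x = pb B (pb A x)) ∧
  (∀ x : Lam N, pb (ContinuousLinearMap.id ℝ (EE N)) x = x) ∧
  (∀ (A : EE N →L[ℝ] EE N) (v : EE N) (x : Lam N), pb A (ctr (A v) x) = ctr v (pb A x)) ∧
  (∀ (A : EE N →L[ℝ] EE N) (x : Lam N), pb A (inv x) = inv (pb A x))

/-- BLOCK DEG (uses ALG, PBA): degrees.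
PROOF.  `⋀[ℝ]^k V` is the span of the products `ιMulti ℝ k v = io (v 0) * .. * io (v (k-1))`
(`ExteriorAlgebra.ιMulti_span_fixedDegree`), and `⋀[ℝ]^(k+1) V = range ι * ⋀[ℝ]^k V` (`pow_succ'`): use
`Submodule.mul_induction_on` and induction on `k` for (1), (2), (4), (6): `x = io a * y`:
(1) `inv x = - io a * inv y`.  (2) `ctr v (io a * y) = a v • y - io a * ctr v y`; for `k = 0` in (2) `y` is a scalar.
(3) a scalar is killed by `ctr` (`⋀^0` is `1 = range of algebraMap`, `Submodule.mem_one`).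
(4) `pb A (io a * y) = io _ * pb A y`.
(5) `⋀[ℝ]^k V = 0` for `k > N`: by `ιMulti_span_fixedDegree` it suffices that `ιMulti ℝ k v = 0`, an alternating map
of `k > finrank` linearly dependent vectors: `AlternatingMap.map_linearDependent`; or
`exteriorPower.finrank_eq` (`Nat.choose N k = 0`) and `Submodule.finrank_eq_zero`.
(6) `x ∈ ⋀^k`: induction on `k`: `io a * z * y` with `io a * (z * y) = inv (z * y) * io a`; with (1) the sign is
`(-1)^(k l)`.  Note that `(-1)^k` acts by `•` with `(-1 : ℝ)^k`.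
(7) `pow_one`, `Submodule.mem_one`. -/
def Stmt_DEG : Prop := ∀ N : ℕ,
  (∀ (k : ℕ) (x : Lam N), x ∈ ⋀[ℝ]^k (VV N) → inv x = (-1 : ℝ) ^ k • x) ∧
  (∀ (k : ℕ) (x : Lam N) (v : EE N), x ∈ ⋀[ℝ]^(k + 1) (VV N) → ctr v x ∈ ⋀[ℝ]^k (VV N)) ∧
  (∀ (x : Lam N) (v : EE N), x ∈ ⋀[ℝ]^0 (VV N) → ctr v x = 0) ∧
  (∀ (k : ℕ) (A : EE N →L[ℝ] EE N) (x : Lam N), x ∈ ⋀[ℝ]^k (VV N) → pb A x ∈ ⋀[ℝ]^k (VV N)) ∧
  (∀ (k : ℕ) (x : Lam N), N < k → x ∈ ⋀[ℝ]^k (VV N) → x = 0) ∧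
  (∀ (k l : ℕ) (x y : Lam N), x ∈ ⋀[ℝ]^k (VV N) → y ∈ ⋀[ℝ]^l (VV N) →
    x * y = (-1 : ℝ) ^ (k * l) • (y * x)) ∧
  (∀ a : VV N, io a ∈ ⋀[ℝ]^1 (VV N)) ∧ (∀ r : ℝ, algebraMap ℝ (Lam N) r ∈ ⋀[ℝ]^0 (VV N))

/-- BLOCK TOP (uses nothing): the top coefficient.
PROOF.  `b = (dxB N).ExteriorAlgebra` is a basis indexed by `Finset (Fin N)`, `b s ∈ ⋀^(s.card)` and the `b s` with
`s.card = k` span `⋀^k` (`ExteriorAlgebra.basis_eq_coe_basis`, `Module.Basis.exteriorPower`).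
(1) for `k ≠ N` the basis of `⋀^k` consists of `b s`, `s ≠ univ` (card `N` iff `s = univ`), whose `univ` coordinate is `0`.
(2), (3): `⋀^N` is the line spanned by `b univ`: `x = top x • b univ` for `x ∈ ⋀^N`. -/
def Stmt_TOP : Prop := ∀ N : ℕ,
  (∀ (k : ℕ) (x : Lam N), k ≠ N → x ∈ ⋀[ℝ]^k (VV N) → top N x = 0) ∧
  (∀ x y : Lam N, x ∈ ⋀[ℝ]^N (VV N) → y ∈ ⋀[ℝ]^N (VV N) → top N x • y = top N y • x) ∧
  (∀ x : Lam N, x ∈ ⋀[ℝ]^N (VV N) → top N x = 0 → x = 0)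

/-- BLOCK CPW (uses ALG, DEG): contraction of a power.
PROOF.  `w` commutes with everything (DEG (6): the sign is `(-1)^(2 l)` on `⋀^l`; every element is a sum of
homogeneous ones; or: induction on `y` with `ExteriorAlgebra.induction`).  Induction on `k` with ALG (2), `inv w = w` (DEG (1)). -/
def Stmt_CPW : Prop := ∀ (N : ℕ) (w : Lam N), w ∈ ⋀[ℝ]^2 (VV N) →
  (∀ y : Lam N, w * y = y * w) ∧
  ∀ (v : EE N) (k : ℕ), ctr v (w ^ (k + 1)) = ((k : ℝ) + 1) • (ctr v w * w ^ k)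

/-- BLOCK NDG (uses ALG, DEG, TOP, CPW): the top power of a nondegenerate `2`-form is not `0`.
PROOF.  (Euler) `∑ i, dx i * ctr (ee i) x = k • x` for `x ∈ ⋀^k`: induction on `k` (`x = io a * y`, `y ∈ ⋀^k`:
`dx i * ctr (ee i) (io a * y) = dx i * (a (ee i) • y) - dx i * io a * ctr (ee i) y`, `∑ a (ee i) • dx i = io a`
(dual basis), `dx i * io a = - io a * dx i`).
Claim `w ^ k ≠ 0` for `k ≤ n`, by induction: let `k < n`, `w ^ k ≠ 0`, and suppose `w ^ (k + 1) = 0`.  By CPW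
`ctr v w * w ^ k = 0` for all `v`.  The map `v ↦ a` with `io a = ctr v w` (`ctr v w ∈ ⋀^1 = range io` by DEG (2), `a`
is given by the left inverse `ExteriorAlgebra.ιInv`) is linear and injective from `EE N` to `VV N`, so surjective
(equal finite dimensions): `io a * w ^ k = 0` for all `a`.  Apply `ctr v`: `a v • w ^ k = io a * ctr v (w ^ k)`; with
`a = dxB i`, `v = ee i` and the sum over `i`: `N • w ^ k = ∑ dx i * ctr (ee i) (w ^ k) = 2 k • w ^ k`, but `2 k < N = 2 n`: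
contradiction.  So `w ^ n ≠ 0`, and TOP (3). -/
def Stmt_NDG : Prop := ∀ (n : ℕ) (w : Lam (2 * n)), Nd w → top (2 * n) (w ^ n) ≠ 0

/-- BLOCK SMA (uses nothing): smoothness of the operations.
PROOF.  All spaces have finite dimension.  (1) `(x, y) ↦ x * y` is bilinear: `LinearMap.mul ℝ (Lam N)` gives a continuous
bilinear map (`LinearMap.toContinuousLinearMap` twice), `ContDiff.clm_apply`, or `IsBoundedBilinearMap.contDiff`.
(2) `ctr` is bilinear, same argument.  (4) linear: `LinearMap.toContinuousLinearMap`.  (5) linear in `a`.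
(3) With the basis `b = (dxB N).ExteriorAlgebra` of `Lam N`: `pb A x = ∑ s, b.coord s x • pb A (b s)`, so it suffices that
`A ↦ pb A y` is smooth for each `y`: `ExteriorAlgebra.induction`: scalars are constant; `pb A (io a) = io (a ∘ A)` is linear
in `A`; products by (1); sums. -/
def Stmt_SMA : Prop := ∀ N : ℕ,
  ContDiff ℝ ∞ (fun q : Lam N × Lam N => q.1 * q.2) ∧
  ContDiff ℝ ∞ (fun q : EE N × Lam N => ctr q.1 q.2) ∧
  ContDiff ℝ ∞ (fun q : (EE N →L[ℝ] EE N) × Lam N => pb q.1 q.2) ∧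
  (∀ L : Lam N →ₗ[ℝ] Lam N, ContDiff ℝ ∞ L) ∧ (∀ L : Lam N →ₗ[ℝ] ℝ, ContDiff ℝ ∞ L) ∧
  ContDiff ℝ ∞ (fun a : EE N →L[ℝ] ℝ => io (N := N) a.toLinearMap) ∧
  ContDiff ℝ ∞ (fun r : ℝ => algebraMap ℝ (Lam N) r)

/-- BLOCK DRV (uses SMA): derivatives of products, contractions and pullbacks.
PROOF.  (1), (2): bilinear maps (`HasFDerivAt` of a bounded bilinear map, or `HasFDerivAt.mul'` style computation).
(3) `G (A, y) = pb A y` is smooth (SMA), linear in `y`; its derivative at `(A, y)` is `(B, z) ↦ dpb A B y + pb A z`: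
the partial derivative in the direction `(B, 0)` is `deriv (s ↦ pb (A + s B) y) 0`.  Chain rule with `x ↦ (A x, f x)`.
(4), (5), (6): `s ↦ pb (A + s • B) y` is differentiable (SMA) and `pb` is an algebra homomorphism: derivative of
`io (a ∘ (A + s B))`, of a product, of a constant; additivity in `y`. -/
def Stmt_DRV : Prop := ∀ (N : ℕ) (P : Type) [NormedAddCommGroup P] [NormedSpace ℝ P] (x : P),
  (∀ (f g : P → Lam N) (f' g' : P →L[ℝ] Lam N), HasFDerivAt f f' x → HasFDerivAt g g' x →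
    ∃ L : P →L[ℝ] Lam N, HasFDerivAt (fun y => f y * g y) L x ∧
      ∀ v, L v = f' v * g x + f x * g' v) ∧
  (∀ (X : P → EE N) (f : P → Lam N) (X' : P →L[ℝ] EE N) (f' : P →L[ℝ] Lam N),
    HasFDerivAt X X' x → HasFDerivAt f f' x →
    ∃ L : P →L[ℝ] Lam N, HasFDerivAt (fun y => ctr (X y) (f y)) L x ∧
      ∀ v, L v = ctr (X' v) (f x) + ctr (X x) (f' v)) ∧
  (∀ (A : P → EE N →L[ℝ] EE N) (f : P → Lam N) (A' : P →L[ℝ] (EE N →L[ℝ] EE N))
    (f' : P →L[ℝ] Lam N), HasFDerivAt A A' x → HasFDerivAt f f' x →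
    ∃ L : P →L[ℝ] Lam N, HasFDerivAt (fun y => pb (A y) (f y)) L x ∧
      ∀ v, L v = dpb (A x) (A' v) (f x) + pb (A x) (f' v)) ∧
  (∀ (A B : EE N →L[ℝ] EE N) (a : VV N), dpb A B (io a) = io (a ∘ₗ B.toLinearMap)) ∧
  (∀ (A B : EE N →L[ℝ] EE N) (y z : Lam N), dpb A B (y * z) = dpb A B y * pb A z + pb A y * dpb A B z) ∧
  (∀ (A B : EE N →L[ℝ] EE N) (y z : Lam N), dpb A B (y + z) = dpb A B y + dpb A B z) ∧
  (∀ (A B : EE N →L[ℝ] EE N) (r : ℝ), dpb A B (algebraMap ℝ (Lam N) r) = 0)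

/-- BLOCK SHP (uses ALG, DEG, SMA): the vector `sh w a`.
PROOF.  For `w ∈ ⋀^2` the element `ctr v w` is in `⋀^1 = range io` (DEG (2), `pow_one`), so `ctr v w = io (ιInv (ctr v w))`
(`ExteriorAlgebra.ι_leftInverse`).  Let `G w : EE N →L[ℝ] EE N` be the continuous linear map
`v ↦ (i ↦ ιInv (ctr v w) (ee i))` and `u a = (i ↦ a (ee i)) : EE N`; `ctr v w = io a` iff `G w v = u a` (a linear form is
determined by its values on the basis `ee`).  `Nd w` means that `G w` is injective, so it is invertible: this is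
(1) (`Exists.choose_spec`).  (2) `sh (w q) (a q) = (G (w q)).inverse (u (a q))` on `S` (uniqueness by injectivity), `G` is
linear in `w`, so `q ↦ G (w q)` is smooth, `contDiffAt_map_inverse` at the invertible `G (w q)`, `ContDiffWithinAt.clm_apply`. -/
def Stmt_SHP : Prop := ∀ N : ℕ,
  (∀ (w : Lam N) (a : EE N →L[ℝ] ℝ), Nd w → ctr (sh w a) w = io a.toLinearMap) ∧
  ∀ (P : Type) [NormedAddCommGroup P] [NormedSpace ℝ P] (S : Set P) (w : P → Lam N)
    (a : P → EE N →L[ℝ] ℝ), ContDiffOn ℝ ∞ w S → ContDiffOn ℝ ∞ a S → (∀ q ∈ S, Nd (w q)) →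
    ContDiffOn ℝ ∞ (fun q => sh (w q) (a q)) S

/-! ## B. Calculus on `ℝ^N` -/

/-- BLOCK LBZ (uses ALG, DRV): Leibniz rule.
PROOF.  DRV (1) for the product, `D (f g) x = ∑ dx i * (f' (ee i) * g x + f x * g' (ee i))` and
`dx i * f x = inv (f x) * dx i` (ALG (1)). -/
def Stmt_LBZ : Prop := ∀ (N : ℕ) (f g : EE N → Lam N) (x : EE N), DifferentiableAt ℝ f x →
  DifferentiableAt ℝ g x → D (fun y => f y * g y) x = D f x * g x + inv (f x) * D g x

/-- BLOCK NAT (uses ALG, PBA, DRV): `d` commutes with pullbacks.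
PROOF.  `A = fderiv ℝ φ`, `A'` its derivative at `x`, symmetric: `A' v u = A' u v` (`ContDiffAt.isSymmSndFDerivAt`).
DRV (3): `D (..) x = ∑ dx i * dpb (A x) (A' (ee i)) (f (φ x)) + ∑ dx i * pb (A x) (f' (A x (ee i)))`, `f'` the derivative of
`f` at `φ x` (chain rule).
First sum `= 0`: for all `y`, `S y = ∑ dx i * dpb (A x) (A' (ee i)) y = 0` by `ExteriorAlgebra.induction`: scalars; `y = io a`:
`a ∘ A' (ee i) = ∑ l, a (A' (ee i) (ee l)) • dxB l`, so `S y = ∑ i l, a (A' (ee i) (ee l)) • (dx i * dx l)`, symmetric times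
antisymmetric (`ExteriorAlgebra.ι_add_mul_swap`, `ι_sq_zero`), `= 0`; `S (y z) = S y * pb z + inv (pb y) * S z`
(`dx i * pb y = inv (pb y) * dx i`).
Second sum: `A x (ee i) = ∑ k, dxB k (A x (ee i)) • ee k`, `f'` and `pb` linear, exchange the sums:
`∑ k, (∑ i, dxB k (A x (ee i)) • dx i) * pb (A x) (f' (ee k)) = ∑ k, pb (A x) (dx k) * pb (A x) (f' (ee k))`. -/
def Stmt_NAT : Prop := ∀ (N : ℕ) (φ : EE N → EE N) (f : EE N → Lam N) (x : EE N),
  ContDiffAt ℝ 2 φ x → DifferentiableAt ℝ f (φ x) →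
  D (fun y => pb (fderiv ℝ φ y) (f (φ y))) x = pb (fderiv ℝ φ x) (D f (φ x))

/-- BLOCK CTN (uses ALG, DRV): Cartan formula.
PROOF.  DRV (2): `D (..) x = ∑ dx i * (ctr (X' (ee i)) (f x) + ctr (X x) (f' (ee i)))`; ALG (2), (3):
`ctr (X x) (dx i * f' (ee i)) = dxB i (X x) • f' (ee i) - dx i * ctr (X x) (f' (ee i))`; sum, and
`∑ dxB i (X x) • f' (ee i) = f' (X x)`. -/
def Stmt_CTN : Prop := ∀ (N : ℕ) (X : EE N → EE N) (f : EE N → Lam N) (x : EE N),
  DifferentiableAt ℝ X x → DifferentiableAt ℝ f x →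
  D (fun y => ctr (X y) (f y)) x + ctr (X x) (D f x) =
    fderiv ℝ f x (X x) + ∑ i, dx i * ctr (fderiv ℝ X x (ee i)) (f x)

/-- BLOCK TDR (uses ALG, PBA, DRV): time derivative of a pullback.
PROOF.  DRV (3) for `P = ℝ`: the derivative is `dpb (A t) (B ∘ A t) (g t) + pb (A t) g'`.  Claim
`dpb A (B ∘ A) y = pb A (∑ dx i * ctr (B (ee i)) y)` for all `y`, by `ExteriorAlgebra.induction`: scalars `0 = 0`; `y = io a`:
`io (a ∘ B ∘ A) = pb A (io (a ∘ B))` and `∑ a (B (ee i)) • dx i = io (a ∘ B)`; products: with ALG (2) and `dx i * inv y = y * dx i`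
(ALG (1) for `inv y`, `inv (inv y) = y`) both sides satisfy the same product rule. -/
def Stmt_TDR : Prop := ∀ (N : ℕ) (A : ℝ → EE N →L[ℝ] EE N) (B : EE N →L[ℝ] EE N) (g : ℝ → Lam N)
  (g' : Lam N) (t : ℝ), HasDerivAt A (B.comp (A t)) t → HasDerivAt g g' t →
  HasDerivAt (fun s => pb (A s) (g s)) (pb (A t) (g' + ∑ i, dx i * ctr (B (ee i)) (g t))) t

/-- BLOCK DDZ (uses ALG): `d d = 0` and the differential of a function.
PROOF.  (1) `D (D f) x = ∑ i k, dx k * dx i * f'' (ee k) (ee i)` (left multiplication by `dx i` is linear and continuous,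
`f''` the second derivative, symmetric by `ContDiffAt.isSymmSndFDerivAt`); symmetric times antisymmetric is `0`.
(2) `fderiv ℝ (algebraMap ∘ h) x v = algebraMap (fderiv ℝ h x v)`, and `∑ (h' (ee i)) • dx i = io h'`. -/
def Stmt_DDZ : Prop := ∀ N : ℕ,
  (∀ (f : EE N → Lam N) (x : EE N), ContDiffAt ℝ 2 f x → D (D f) x = 0) ∧
  (∀ (h : EE N → ℝ) (x : EE N), DifferentiableAt ℝ h x →
    D (fun y => algebraMap ℝ (Lam N) (h y)) x = io (fderiv ℝ h x).toLinearMap)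

/-- BLOCK STE (uses nothing): Stokes on `ℝ^N`.
PROOF.  `top (D g x) = ∑ i, fderiv ℝ (fun y => top (dx i * g y)) x (ee i)` (a continuous linear functional of `g`).  Each
integral is `0`: `integral_mul_fderiv_eq_neg_fderiv_mul_of_integrable` with `f = 1` (the products are continuous with
compact support). -/
def Stmt_STE : Prop := ∀ (N : ℕ) (g : EE N → Lam N), ContDiff ℝ 1 g → HasCompactSupport g →
  ∫ x, top N (D g x) = 0

/-- BLOCK DGD (uses SMA): `d` raises the degree by one.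
PROOF.  If `f` is not differentiable at `x` then `D f x = 0`.  Otherwise let `P` be a linear projection of `Lam N` onto
`W = ⋀^k` (`Submodule.exists_isCompl` or `LinearMap.exists_leftInverse_of_injective`); `f = P ∘ f` near `x`, so
`fderiv f x v = P (fderiv f x v) ∈ W`.  `dx i * W ⊆ ⋀^(k+1)` (`SetLike.mul_mem_graded`, `1 + k = k + 1`). -/
def Stmt_DGD : Prop := ∀ (N k : ℕ) (f : EE N → Lam N) (x : EE N),
  (∀ᶠ y in 𝓝 x, f y ∈ ⋀[ℝ]^k (VV N)) → D f x ∈ ⋀[ℝ]^(k + 1) (VV N)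

/-- BLOCK PDL (uses nothing): the partial derivative in the second variable is smooth.
PROOF.  `S = (Icc 0 1 ×ˢ univ) ∩ U` has unique differentials (`UniqueDiffOn.prod`, `uniqueDiffOn_Icc`,
`UniqueDiffOn.inter`), so `q ↦ fderivWithin ℝ f S q` is `ContDiffOn ℝ ∞` on `S`.  For `q = (t, x) ∈ S` the slice
`y ↦ f (t, y)` is the composition of `f` with `y ↦ (t, y)`, which maps the neighbourhood `{y | (t, y) ∈ U}` of `x` into `S`:
it is `ContDiffAt` at `x` and `HasFDerivWithinAt.comp` gives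
`fderiv ℝ (fun y => f (t, y)) x = (fderivWithin ℝ f S (t, x)).comp (ContinuousLinearMap.inr ℝ ℝ E)`. -/
def Stmt_PDL : Prop := ∀ (E F : Type) [NormedAddCommGroup E] [NormedSpace ℝ E]
  [NormedAddCommGroup F] [NormedSpace ℝ F] (f : ℝ × E → F) (U : Set (ℝ × E)), IsOpen U →
  ContDiffOn ℝ ∞ f ((Icc 0 1 ×ˢ univ) ∩ U) →
  (∀ q ∈ (Icc (0 : ℝ) 1 ×ˢ univ) ∩ U, ContDiffAt ℝ ∞ (fun y => f (q.1, y)) q.2) ∧
  ContDiffOn ℝ ∞ (fun q => fderiv ℝ (fun y => f (q.1, y)) q.2) ((Icc 0 1 ×ˢ univ) ∩ U)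

/-- BLOCK MXP (uses nothing): mixed partial derivatives commute.
PROOF.  `f` is `C²` near `(t, x)`; near `(t, x)`: `fderiv ℝ (fun y => f (s, y)) z = (fderiv ℝ f (s, z)).comp inr` and
`deriv (fun s => f (s, y)) s = fderiv ℝ f (s, y) (1, 0)`.  With `f'' = fderiv ℝ (fderiv ℝ f) (t, x)`: the left side has the
derivative `v ↦ f'' (1, 0) (0, v)`, the right side is `v ↦ f'' (0, v) (1, 0)`; symmetry
(`ContDiffAt.isSymmSndFDerivAt`). -/
def Stmt_MXP : Prop := ∀ (E F : Type) [NormedAddCommGroup E] [NormedSpace ℝ E]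
  [NormedAddCommGroup F] [NormedSpace ℝ F] (f : ℝ × E → F) (t : ℝ) (x : E),
  ContDiffAt ℝ 2 f (t, x) → HasDerivAt (fun s => fderiv ℝ (fun y => f (s, y)) x)
    (fderiv ℝ (fun y => deriv (fun s => f (s, y)) t) x) t

/-! ## C. Forms on a manifold -/

/-- BLOCK TRN (uses nothing): the transition maps.
PROOF.  The set is `(c.symm ≫ₕ c').source`, open, and `contDiffGroupoid ∞ 𝓘(ℝ, EE N)` contains `c.symm ≫ₕ c'`
(`HasGroupoid.compatible`, `IsManifold` is `HasGroupoid M (contDiffGroupoid ∞ _)`), which for the trivial model says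
that `c' ∘ c.symm` is `ContDiffOn ℝ ∞` there (`contDiffGroupoid`, `contDiffPregroupoid`, `mem_groupoid_of_pregroupoid`, simp).
(3): `c ∘ c'.symm` is smooth near `c' (c.symm x)` and `(c ∘ c'.symm) ∘ (c' ∘ c.symm) = id` near `x`: chain rule. -/
def Stmt_TRN : Prop := ∀ (N : ℕ) (M : Type) [TopologicalSpace M] [ChartedSpace (EE N) M]
  [IsManifold 𝓘(ℝ, EE N) ∞ M],
  ∀ c ∈ atlas (EE N) M, ∀ c' ∈ atlas (EE N) M,
  IsOpen {x | x ∈ c.target ∧ c.symm x ∈ c'.source} ∧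
  ContDiffOn ℝ ∞ (fun y => c' (c.symm y)) {x | x ∈ c.target ∧ c.symm x ∈ c'.source} ∧
  ∀ x ∈ c.target, c.symm x ∈ c'.source →
    (fderiv ℝ (fun y => c (c'.symm y)) (c' (c.symm x))).comp
      (fderiv ℝ (fun y => c' (c.symm y)) x) = ContinuousLinearMap.id ℝ (EE N)

/-- BLOCK CNG (uses nothing): only the values on `c.target` for the charts of the atlas matter.
PROOF.  `c.target` is open, so `f c = g c` near each of its points (`Filter.EventuallyEq.fderiv_eq`).  `PBK` and `dn` evaluate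
at `(chartAt _ q) q ∈ (chartAt _ q).target` (`mem_chart_target`, `chart_mem_atlas`). -/
def Stmt_CNG : Prop :=
  (∀ (N : ℕ) (M : Type) [TopologicalSpace M] [ChartedSpace (EE N) M] (f g : Fam N M), EqF f g →
    EqF (dF f) (dF g) ∧ (∀ φ : M → M, EqF (PBK φ f) (PBK φ g)) ∧
    ∀ X : OpenPartialHomeomorph M (EE N) → EE N → EE N, EqF (cF X f) (cF X g)) ∧
  ∀ (n : ℕ) (M : Type) [TopologicalSpace M] [ChartedSpace (EE (2 * n)) M]
    (Ω f g : Fam (2 * n) M), EqF f g → dn n Ω f = dn n Ω g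

/-- BLOCK FO1 (uses NAT, PDL, TRN, SMA, DGD): the exterior derivative of a form is a form.
PROOF.  Smooth: `D (F t c) x = ∑ dx i * fderiv ℝ (F t c) x (ee i)` and PDL with `U = univ ×ˢ c.target`
(`(Icc 0 1 ×ˢ univ) ∩ U = Icc 0 1 ×ˢ c.target`), products by SMA.  For `t` fixed compose with `x ↦ (t, x)`.
Compatibility: near `x` (TRN: an open set) `F t c y = pb (fderiv ψ y) (F t c' (ψ y))` with `ψ y = c' (c.symm y)` smooth near `x`;
so `D (F t c) x = pb (fderiv ψ x) (D (F t c') (ψ x))` by NAT.  Degree: DGD (`c.target` is open). -/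
def Stmt_FO1 : Prop := ∀ (N : ℕ) (M : Type) [TopologicalSpace M] [ChartedSpace (EE N) M]
  [IsManifold 𝓘(ℝ, EE N) ∞ M]
  (k : ℕ) (F : ℝ → Fam N M), TForm k F → TForm (k + 1) (fun t => dF (F t))

/-- BLOCK FO2 (uses SMA, DEG): algebraic operations on forms.
PROOF.  All pointwise.  `pb T` is an algebra homomorphism (`map_mul`, `map_add`, `map_smul`); smoothness of products: SMA (1);
degrees: `SetLike.mul_mem_graded`, submodule.  (5) restrict.  (6) induction on `j` (`2 * (j + 1) = 2 * j + 2`; `Ω ^ 0 = 1` is in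
`⋀^0` and `pb T 1 = 1`).  (7): `ρ (c.symm x) = ρ (c'.symm (c' (c.symm x)))`.  (8): `compat` and `deg` only use values on the targets. -/
def Stmt_FO2 : Prop := ∀ (N : ℕ) (M : Type) [TopologicalSpace M] [ChartedSpace (EE N) M]
  [IsManifold 𝓘(ℝ, EE N) ∞ M],
  (∀ (k l : ℕ) (F G : ℝ → Fam N M), TForm k F → TForm l G → TForm (k + l) (fun t => F t * G t)) ∧
  (∀ (k : ℕ) (F G : ℝ → Fam N M), TForm k F → TForm k G →
    TForm k (fun t => F t + G t) ∧ TForm k (fun t => F t - G t)) ∧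
  (∀ (k : ℕ) (F : ℝ → Fam N M) (r : ℝ), TForm k F → TForm k (fun t => r • F t)) ∧
  (∀ (k : ℕ) (f : Fam N M), IsForm k f → TForm k (fun _ => f)) ∧
  (∀ (k : ℕ) (F : ℝ → Fam N M), TForm k F → ∀ t ∈ Icc (0 : ℝ) 1, IsForm k (F t)) ∧
  (∀ (j : ℕ) (f : Fam N M), IsForm 2 f → IsForm (2 * j) (f ^ j)) ∧
  (∀ (k : ℕ) (f : Fam N M) (ρ : M → ℝ),
    (∀ c ∈ atlas (EE N) M, ContDiffOn ℝ ∞ (fun x => ρ (c.symm x)) c.target) → IsForm k f →
    IsForm k (fun c x => ρ (c.symm x) • f c x)) ∧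
  (∀ (k : ℕ) (F G : ℝ → Fam N M), (∀ t ∈ Icc (0 : ℝ) 1, EqF (F t) (G t)) → TForm k F → TForm k G)

/-- BLOCK FO3 (uses SMA, DEG, PBA): contraction of a form with a vector field.
PROOF.  Smooth: SMA (2).  Compatibility: `T = fderiv ℝ (fun y => c' (c.symm y)) x`, `T (X t c x) = X t c' x'` (`TVF.compat`), so
`ctr (X t c x) (pb T y) = pb T (ctr (T (X t c x)) y)` (PBA (4)).  Degree: DEG (2). -/
def Stmt_FO3 : Prop := ∀ (N : ℕ) (M : Type) [TopologicalSpace M] [ChartedSpace (EE N) M]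
  [IsManifold 𝓘(ℝ, EE N) ∞ M]
  (k : ℕ) (X : ℝ → OpenPartialHomeomorph M (EE N) → EE N → EE N) (F : ℝ → Fam N M), TVF X →
  TForm (k + 1) F → TForm k (fun t => cF (X t) (F t))

/-- BLOCK LIE (uses FO1, FO2, FO3): the Lie derivative of a form is a form.
PROOF.  `Lie (X t) (F t) = dF (cF (X t) (F t)) + cF (X t) (dF (F t))`: FO3 then FO1; FO1 then FO3; FO2. -/
def Stmt_LIE : Prop := ∀ (N : ℕ) (M : Type) [TopologicalSpace M] [ChartedSpace (EE N) M]
  [IsManifold 𝓘(ℝ, EE N) ∞ M]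
  (k : ℕ) (X : ℝ → OpenPartialHomeomorph M (EE N) → EE N → EE N) (F : ℝ → Fam N M), TVF X →
  TForm (k + 1) F → TForm (k + 1) (fun t => Lie (X t) (F t))

/-- BLOCK HMS (uses DEG): the local expressions of a Hamiltonian.
PROOF.  `H ∘ (id × c.symm)` with `contMDiffOn_symm_of_mem_maximalAtlas` (`IsManifold.subset_maximalAtlas`) is `ContMDiffOn`
on `Icc 0 1 ×ˢ c.target`, and `contMDiffOn_iff_contDiffOn` after `modelWithCornersSelf_prod`, `chartedSpaceSelf_prod`.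
`ContMDiffOn.continuousOn`.  `TForm 0`: `algebraMap` is linear and continuous; `pb T (algebraMap r) = algebraMap r`
(`AlgHom.commutes`), `c'.symm (c' (c.symm x)) = c.symm x`; DEG (8). -/
def Stmt_HMS : Prop := ∀ (N : ℕ) (M : Type) [TopologicalSpace M] [ChartedSpace (EE N) M]
  [IsManifold 𝓘(ℝ, EE N) ∞ M]
  (H : ℝ → M → ℝ), IsHam N H →
  (∀ c ∈ atlas (EE N) M,
    ContDiffOn ℝ ∞ (fun q : ℝ × EE N => H q.1 (c.symm q.2)) (Icc 0 1 ×ˢ c.target)) ∧
  ContinuousOn (fun q : ℝ × M => H q.1 q.2) (Icc 0 1 ×ˢ univ) ∧ TForm 0 (fun t => hF N (H t))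

/-- BLOCK XHS (uses PBA, SHP, TRN, PDL, HMS): the Hamiltonian vector field.
PROOF.  (2) is SHP (1).  Smooth: HMS (1), PDL (with `U = univ ×ˢ c.target`), SHP (2).
Compatibility: `T = fderiv ℝ (fun y => c' (c.symm y)) x`, `v = XX Ω H t c x`, `x' = c' (c.symm x)`.  Claim `T v = XX Ω H t c' x'`: by
nondegeneracy it suffices that `ctr (T v) (Ω c' x') = io (d (H_t ∘ c'.symm) x')`; `pb T` is injective (TRN (3), PBA (2), (3)), and
`pb T (ctr (T v) (Ω c' x')) = ctr v (pb T (Ω c' x')) = ctr v (Ω c x) = io (d (H_t ∘ c.symm) x)`,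
`pb T (io (d (H_t ∘ c'.symm) x')) = io (d (H_t ∘ c'.symm) x' ∘ T)`, equal by the chain rule for
`H_t ∘ c.symm = (H_t ∘ c'.symm) ∘ (c' ∘ c.symm)` near `x`.
(3) The vector `v` of `IsIso.ode` satisfies the equation of `XX`, so it is equal to it (nondegeneracy). -/
def Stmt_XHS : Prop := ∀ (N : ℕ) (M : Type) [TopologicalSpace M] [ChartedSpace (EE N) M]
  [IsManifold 𝓘(ℝ, EE N) ∞ M]
  (Ω : Fam N M) (H : ℝ → M → ℝ), IsForm 2 Ω →
  (∀ c ∈ atlas (EE N) M, ∀ x ∈ c.target, ∀ v, ctr v (Ω c x) = 0 → v = 0) → IsHam N H →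
  TVF (XX Ω H) ∧
  (∀ t ∈ Icc (0 : ℝ) 1, ∀ c ∈ atlas (EE N) M, ∀ x ∈ c.target, ctr (XX Ω H t c x) (Ω c x) =
    io (fderiv ℝ (fun y => H t (c.symm y)) x).toLinearMap) ∧
  ∀ Φ : ℝ → M → M, IsIso Ω H Φ → Flw (XX Ω H) Φ

/-- BLOCK PHL (uses nothing): the local expressions of an isotopy.
PROOF.  `ContMDiffOn.continuousOn`.  `G q = Φ q.1 (c.symm q.2)` is continuous on `Icc 0 1 ×ˢ c.target`, so
`SS Φ c c' = (Icc 0 1 ×ˢ c.target) ∩ G ⁻¹' c'.source` is relatively open (`continuousOn_iff'`).  Smoothness: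
`c' ∘ Φ ∘ (id × c.symm)` with `contMDiffOn_of_mem_maximalAtlas`, `contMDiffOn_symm_of_mem_maximalAtlas`, and
`contMDiffOn_iff_contDiffOn` after `modelWithCornersSelf_prod`, `chartedSpaceSelf_prod`. -/
def Stmt_PHL : Prop := ∀ (N : ℕ) (M : Type) [TopologicalSpace M] [ChartedSpace (EE N) M]
  [IsManifold 𝓘(ℝ, EE N) ∞ M]
  (Φ : ℝ → M → M), SmI N Φ →
  ContinuousOn (fun q : ℝ × M => Φ q.1 q.2) (Icc 0 1 ×ˢ univ) ∧
  ∀ c ∈ atlas (EE N) M, ∀ c' ∈ atlas (EE N) M,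
    (∃ U : Set (ℝ × EE N), IsOpen U ∧ SS Φ c c' = (Icc 0 1 ×ˢ univ) ∩ U) ∧
    ContDiffOn ℝ ∞ (fun q : ℝ × EE N => c' (Φ q.1 (c.symm q.2))) (SS Φ c c')

/-- BLOCK PBX (uses PBA, PDL, TRN, PHL): the pullback does not depend on the chart at the image point.
PROOF.  `q = Φ t (c.symm x)`, `c1 = chartAt q`, `ψ1 y = c1 (Φ t (c.symm y))`, `ψ' y = c' (Φ t (c.symm y))`, both smooth at `x` (PHL and
PDL (1)).  Near `x`: `ψ' = (c' ∘ c1.symm) ∘ ψ1` (`Φ t (c.symm y) ∈ c1.source` for `y` near `x`, continuity), so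
`fderiv ψ' x = T ∘ fderiv ψ1 x`, `T = fderiv (c' ∘ c1.symm) (c1 q)`.  `IsForm.compat` for `c1, c'` at `c1 q`:
`f c1 (c1 q) = pb T (f c' (c' q))`.  PBA (2). -/
def Stmt_PBX : Prop := ∀ (N : ℕ) (M : Type) [TopologicalSpace M] [ChartedSpace (EE N) M]
  [IsManifold 𝓘(ℝ, EE N) ∞ M]
  (Φ : ℝ → M → M) (k : ℕ) (f : Fam N M), SmI N Φ → IsForm k f →
  ∀ t ∈ Icc (0 : ℝ) 1, ∀ c ∈ atlas (EE N) M, ∀ c' ∈ atlas (EE N) M, ∀ x ∈ c.target,
  Φ t (c.symm x) ∈ c'.source → PBK (Φ t) f c x =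
    pb (fderiv ℝ (fun y => c' (Φ t (c.symm y))) x) (f c' (c' (Φ t (c.symm x))))

/-- BLOCK PBT (uses PBA, DEG, SMA, PDL, TRN, PHL, PBX): the pullback of a time dependent form.
PROOF.  Smooth at `(t0, x0) ∈ Icc 0 1 ×ˢ c.target`: `c' = chartAt (Φ t0 (c.symm x0))`; on `SS Φ c c'`, a neighbourhood of `(t0, x0)` in
`Icc 0 1 ×ˢ c.target` (PHL), PBX gives `PBK (Φ t) (F t) c x = pb (A (t, x)) (F t c' (φ (t, x)))`, `φ (t, x) = c' (Φ t (c.symm x))`, `A` its
partial derivative, smooth (PDL); `(t, x) ↦ (t, φ (t, x))` maps `SS Φ c c'` to `Icc 0 1 ×ˢ c'.target`; SMA (3).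
For fixed `t`: smooth by restriction; degree: DEG (4); compatibility for `c, c2` at `x`, `x2 = c2 (c.symm x)`: with the same chart
`c'` at the image point, `c' ∘ Φ t ∘ c.symm = (c' ∘ Φ t ∘ c2.symm) ∘ (c2 ∘ c.symm)` near `x`, chain rule and PBA (2). -/
def Stmt_PBT : Prop := ∀ (N : ℕ) (M : Type) [TopologicalSpace M] [ChartedSpace (EE N) M]
  [IsManifold 𝓘(ℝ, EE N) ∞ M]
  (Φ : ℝ → M → M) (k : ℕ) (F : ℝ → Fam N M), SmI N Φ → TForm k F →
  TForm k (fun t => PBK (Φ t) (F t))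

/-- BLOCK PBO (uses PBA, NAT, PDL, PHL, PBX): `d` commutes with the pullback; the pullback by the identity.
PROOF.  (1) at `x`: `c' = chartAt (Φ t (c.symm x))`, `ψ y = c' (Φ t (c.symm y))` smooth at `x` (PHL, PDL (1)); for `y` near `x` PBX gives
`PBK (Φ t) f c y = pb (fderiv ψ y) (f c' (ψ y))`, so NAT: `D (..) x = pb (fderiv ψ x) (D (f c') (ψ x))`, which is
`PBK (Φ t) (dF f) c x` by definition.  (2) PBX with `t = 0`, `c' = c`: `c (Φ 0 (c.symm y)) = y` near `x`, `fderiv = id`, PBA (3). -/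
def Stmt_PBO : Prop := ∀ (N : ℕ) (M : Type) [TopologicalSpace M] [ChartedSpace (EE N) M]
  [IsManifold 𝓘(ℝ, EE N) ∞ M]
  (Φ : ℝ → M → M) (k : ℕ) (f : Fam N M), SmI N Φ → (∀ p, Φ 0 p = p) → IsForm k f →
  (∀ t ∈ Icc (0 : ℝ) 1, EqF (dF (PBK (Φ t) f)) (PBK (Φ t) (dF f))) ∧ EqF (PBK (Φ 0) f) f

/-- BLOCK TDF (uses CTN, TDR, MXP, PHL, PBX): the time derivative of the pullback.
PROOF.  `q0 = Φ t (c.symm x)`, `c' = chartAt q0`, `φ (s, y) = c' (Φ s (c.symm y))` is `C^∞` near `(t, x)` (PHL: `SS Φ c c'` is a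
neighbourhood of `(t, x)` since `0 < t < 1`).  For `s` near `t` PBX: `PBK (Φ s) f c x = pb (A s) (f c' (z s))`,
`A s = fderiv ℝ (fun y => φ (s, y)) x`, `z s = φ (s, x)`.  `Flw.ode` (at interior times `HasDerivWithinAt` is `HasDerivAt`):
`deriv (fun s => φ (s, y)) t = X t c' (φ (t, y))` for `y` near `x`, so `z' = X t c' (z t)` and by MXP
`A' = fderiv ℝ (fun y => X t c' (φ (t, y))) x = (fderiv ℝ (X t c') (z t)).comp (A t)`.  TDR with `g s = f c' (z s)`,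
`g' = fderiv ℝ (f c') (z t) (X t c' (z t))`; the bracket is `D (fun y => ctr (X t c' y) (f c' y)) + ctr (X t c' _) (D (f c') _)`
at `z t` by CTN, which is `Lie (X t) f c' (z t)`. -/
def Stmt_TDF : Prop := ∀ (N : ℕ) (M : Type) [TopologicalSpace M] [ChartedSpace (EE N) M]
  [IsManifold 𝓘(ℝ, EE N) ∞ M]
  (X : ℝ → OpenPartialHomeomorph M (EE N) → EE N → EE N) (Φ : ℝ → M → M) (k : ℕ) (f : Fam N M),
  TVF X → Flw X Φ → IsForm k f → ∀ c ∈ atlas (EE N) M, ∀ x ∈ c.target, ∀ t ∈ Ioo (0 : ℝ) 1,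
  HasDerivAt (fun s => PBK (Φ s) f c x) (PBK (Φ t) (Lie (X t) f) c x) t

/-- BLOCK OMI (uses DDZ, CNG, FO2, HMS, XHS, PBT, PBO, TDF): Hamiltonian isotopies preserve `Ω`.
PROOF.  `X = XX Ω H`.  `EqF (Lie (X t) Ω) 0` for `t ∈ Icc 0 1`: `cF (X t) Ω` is `io (d (H_t ∘ c.symm))` (XHS (2)), equal to
`dF (hF (H t))` (DDZ (2)), so `dF (cF (X t) Ω) = 0` by CNG and DDZ (1) (`H_t ∘ c.symm` is smooth, HMS); `cF (X t) (dF Ω) = 0` since `Ω`
is closed (`ctr v 0 = 0`).  So for fixed `c`, `x` the function `s ↦ PBK (Φ s) Ω c x` is continuous on `[0, 1]` (PBT, `TForm.smooth`) with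
derivative `PBK (Φ t) 0 c x = 0` on `(0, 1)` (TDF, CNG); it is constant (`constant_of_derivWithin_zero`, or the mean value
inequality), with the value `Ω c x` at `0` (PBO (2)). -/
def Stmt_OMI : Prop := ∀ (n : ℕ) (M : Type) [TopologicalSpace M] [ChartedSpace (EE (2 * n)) M]
  [IsManifold 𝓘(ℝ, EE (2 * n)) ∞ M] (Ω : Fam (2 * n) M) (H : ℝ → M → ℝ) (Φ : ℝ → M → M),
  HS n Ω H Φ → ∀ t ∈ Icc (0 : ℝ) 1, EqF (PBK (Φ t) Ω) Ω

/-- BLOCK OFK (uses XHS, PHL, PBX, PBA): outside of the support nothing moves.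
PROOF.  `K` is closed.  (3) `H_t ∘ c.symm = 0` near `x`, so its derivative is `0` and `ctr (XX ..) (Ω c x) = 0`, nondegenerate.
(1) `p ∉ K`; `S = {t ∈ Icc 0 1 | Φ t p = p}` is closed (`t ↦ Φ t p` is continuous on `Icc 0 1` by PHL, `T2Space`), contains `0`, and is
relatively open: if `Φ t0 p = p`, let `c = chartAt p`; for `t` in a relatively open interval around `t0` `Φ t p ∈ c.source \ K`, there
`s ↦ c (Φ s p)` has derivative `X t c (c (Φ t p)) = 0` (`Flw.ode`, (3)), so it is constant on the interval.  `Icc 0 1` is connected.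
(2) `c.symm y ∉ K` for `y` near `x`, so `Φ t (c.symm y) = c.symm y`, PBX with `c' = c`: `fderiv = id`, PBA (3).
(4) `X t c = 0` near `x` (3), so `cF (X t) f c = 0` near `x` and `ctr 0 _ = 0`. -/
def Stmt_OFK : Prop := ∀ (n : ℕ) (M : Type) [TopologicalSpace M] [T2Space M]
  [ChartedSpace (EE (2 * n)) M] [IsManifold 𝓘(ℝ, EE (2 * n)) ∞ M] (Ω : Fam (2 * n) M)
  (H : ℝ → M → ℝ) (Φ : ℝ → M → M) (K : Set M), HS n Ω H Φ → IsCompact K →
  (∀ t ∈ Icc (0 : ℝ) 1, ∀ p ∉ K, H t p = 0) →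
  (∀ t ∈ Icc (0 : ℝ) 1, ∀ p ∉ K, Φ t p = p) ∧
  (∀ t ∈ Icc (0 : ℝ) 1, ∀ (k : ℕ) (f : Fam (2 * n) M), IsForm k f →
    ∀ c ∈ atlas (EE (2 * n)) M, ∀ x ∈ c.target, c.symm x ∉ K → PBK (Φ t) f c x = f c x) ∧
  (∀ t ∈ Icc (0 : ℝ) 1, ∀ c ∈ atlas (EE (2 * n)) M, ∀ x ∈ c.target, c.symm x ∉ K →
    XX Ω H t c x = 0) ∧
  (∀ t ∈ Icc (0 : ℝ) 1, ∀ f : Fam (2 * n) M, CS K (Lie (XX Ω H t) f))

/-! ## D. Integration -/

/-- BLOCK DNC (uses DEG, TOP, NDG, SMA): the density.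
PROOF.  (1) NDG.  (2) `c1 = chartAt p`, `T = fderiv (c ∘ c1.symm) (c1 p)`: `f c1 (c1 p) = pb T (f c (c p))` and
`Ω c1 (c1 p) ^ n = pb T (Ω c (c p) ^ n)` (compatibility).  If `k ≠ 2 n` both sides are `0` (TOP (1)).  If `k = 2 n`: TOP (2) for
`y = f c (c p)`, `w = Ω c (c p) ^ n` (`w ∈ ⋀^(2 n)`: `SetLike.pow_mem_graded`, `n • 2 = 2 * n`): `top w • y = top y • w`; apply `pb T` and
`top`: `top w * top (pb T y) = top y * top (pb T w)`, and (1).
(3) near `(t0, p0)` use (2) with `c = chartAt p0`: quotient of continuous functions of `(t, c p)`.  (4) special case of (3) (or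
directly).  (5) `c (p) ∈ c.target`, `c.symm (c p) = p ∉ K`. -/
def Stmt_DNC : Prop := ∀ (n : ℕ) (M : Type) [TopologicalSpace M] [ChartedSpace (EE (2 * n)) M]
  [IsManifold 𝓘(ℝ, EE (2 * n)) ∞ M] (Ω : Fam (2 * n) M), IsSymplectic n Ω →
  (∀ c ∈ atlas (EE (2 * n)) M, ∀ x ∈ c.target, top (2 * n) ((Ω c x) ^ n) ≠ 0) ∧
  (∀ (k : ℕ) (f : Fam (2 * n) M), IsForm k f → ∀ c ∈ atlas (EE (2 * n)) M, ∀ p ∈ c.source,
    dn n Ω f p = top (2 * n) (f c (c p)) / top (2 * n) ((Ω c (c p)) ^ n)) ∧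
  (∀ (k : ℕ) (F : ℝ → Fam (2 * n) M), TForm k F →
    ContinuousOn (fun q : ℝ × M => dn n Ω (F q.1) q.2) (Icc 0 1 ×ˢ univ)) ∧
  (∀ (k : ℕ) (f : Fam (2 * n) M), IsForm k f → Continuous (dn n Ω f)) ∧
  (∀ (K : Set M) (f : Fam (2 * n) M), CS K f → ∀ p ∉ K, dn n Ω f p = 0)

/-- BLOCK INT (uses DNC): integrability.
PROOF.  `dn n Ω f` is continuous, `0` outside of the compact set `K`: bounded and measurable, `vol` finite
(`Continuous.integrable_of_hasCompactSupport`, or `Integrable.of_bound`). -/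
def Stmt_INT : Prop := ∀ (n : ℕ) (M : Type) [TopologicalSpace M] [T2Space M]
  [SecondCountableTopology M] [ChartedSpace (EE (2 * n)) M] [IsManifold 𝓘(ℝ, EE (2 * n)) ∞ M]
  [MeasurableSpace M] [BorelSpace M] (Ω : Fam (2 * n) M) (vol : Measure M) [IsFiniteMeasure vol],
  IsSymplectic n Ω → ∀ (k : ℕ) (f : Fam (2 * n) M) (K : Set M), IsForm k f → IsCompact K →
  CS K f → Integrable (dn n Ω f) vol

/-- BLOCK VOL (uses DNC): the volume measure in a chart.
PROOF.  `ρ x = ENNReal.ofReal |top (Ω c x ^ n)|` is continuous and positive on `c.target` (DNC (1)).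
(1) `p ∈ U`, `c = chartAt p`, `S = c.target ∩ c.symm ⁻¹' U` is open (`c.isOpen_inter_preimage_symm`) and nonempty; `c.symm '' S ⊆ U` has measure
`∫⁻ x in S, ρ x > 0` (`MeasureTheory.setLIntegral_pos_iff`, `IsOpen.measure_pos`).
(2) `vol.restrict c.source = ((volume.restrict c.target).withDensity ρ).map c.symm` (on a measurable set `A` both are the value of
`IsVol` for `S = c.target ∩ c.symm ⁻¹' A`; `c.symm` is continuous on `c.target`, so a.e. measurable for this measure), then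
`integral_map` (`g` continuous), `integral_withDensity_eq_integral_toReal_smul` (or the `NNReal` version),
`setIntegral_eq_integral_of_forall_compl_eq_zero`. -/
def Stmt_VOL : Prop := ∀ (n : ℕ) (M : Type) [TopologicalSpace M] [T2Space M]
  [SecondCountableTopology M] [ChartedSpace (EE (2 * n)) M] [IsManifold 𝓘(ℝ, EE (2 * n)) ∞ M]
  [MeasurableSpace M] [BorelSpace M] (Ω : Fam (2 * n) M) (vol : Measure M),
  IsSymplectic n Ω → IsVol n Ω vol →
  (∀ U : Set M, IsOpen U → U.Nonempty → 0 < vol U) ∧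
  ∀ c ∈ atlas (EE (2 * n)) M, ∀ g : M → ℝ, Continuous g → (∀ p ∉ c.source, g p = 0) →
    ∫ p, g p ∂vol = ∫ x in c.target, g (c.symm x) * |top (2 * n) ((Ω c x) ^ n)|

/-- BLOCK STL (uses FO1, FO2, DNC, VOL, STE): Stokes for a form supported in a chart.
PROOF.  `dF f` is a form (FO2 (4), FO1).  By VOL (2) and DNC (2) the integral is
`∫ x in c.target, top (D (f c) x) / τ x * |τ x|`, `τ x = top (Ω c x ^ n) ≠ 0` continuous on `c.target`
(`dn (dF f) p = 0` for `p ∉ c.source`: `dF f` is `0` outside of `L` because `f` is `0` near such points, `L` closed).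
Put `g x = (|τ x| / τ x) • f c x` on `c.target` and `0` outside: the sign is locally constant on `c.target` (`τ` continuous
and nonzero), `g` is `0` outside of the compact set `c '' L ⊆ c.target`, so `g` is `C^∞` on `EE` (on `c.target` and on the complement of
`c '' L`) with compact support, and `D g x = (|τ x| / τ x) • D (f c) x` on `c.target`, `D g x = 0` outside.  STE. -/
def Stmt_STL : Prop := ∀ (n : ℕ) (M : Type) [TopologicalSpace M] [T2Space M]
  [SecondCountableTopology M] [ChartedSpace (EE (2 * n)) M] [IsManifold 𝓘(ℝ, EE (2 * n)) ∞ M]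
  [MeasurableSpace M] [BorelSpace M] (Ω : Fam (2 * n) M) (vol : Measure M),
  IsSymplectic n Ω → IsVol n Ω vol → ∀ c ∈ atlas (EE (2 * n)) M, ∀ L : Set M, IsCompact L →
  L ⊆ c.source → ∀ (k : ℕ) (f : Fam (2 * n) M), IsForm k f → CS L f →
  ∫ p, dn n Ω (dF f) p ∂vol = 0

/-- BLOCK PUN (uses nothing): partition of unity.
PROOF.  `M` is `σ`-compact (`ChartedSpace.locallyCompactSpace`, second countable).
`SmoothPartitionOfUnity.exists_isSubordinate_chartAt_source_of_isClosed` for `K`: functions `ρ i` (`i ∈ K`), `tsupport (ρ i) ⊆` the source of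
the chart at `i`, locally finite, `∑ᶠ ρ i p = 1` on `K`.  Only finitely many `ρ i` are not identically `0` on the compact set `K`
(`LocallyFinite.finite_nonempty_inter_compact`): index them by `Fin m`; `L i = K ∩ tsupport (ρ i)`.  Smoothness in charts:
`(ρ i).contMDiff` composed with `contMDiffOn_symm_of_mem_maximalAtlas`, `contMDiffOn_iff_contDiffOn`. -/
def Stmt_PUN : Prop := ∀ (N : ℕ) (M : Type) [TopologicalSpace M] [T2Space M]
  [SecondCountableTopology M] [ChartedSpace (EE N) M] [IsManifold 𝓘(ℝ, EE N) ∞ M] (K : Set M),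
  IsCompact K → ∃ (m : ℕ) (ρ : Fin m → M → ℝ) (c : Fin m → OpenPartialHomeomorph M (EE N))
    (L : Fin m → Set M),
    (∀ i, c i ∈ atlas (EE N) M ∧ IsCompact (L i) ∧ L i ⊆ (c i).source ∧
      (∀ p ∈ K, p ∉ L i → ρ i p = 0) ∧
      ∀ c' ∈ atlas (EE N) M, ContDiffOn ℝ ∞ (fun x => ρ i (c'.symm x)) c'.target) ∧
    ∀ p ∈ K, ∑ i, ρ i p = 1

/-- BLOCK STM (uses CNG, FO1, FO2, INT, STL, PUN): Stokes on `M`.
PROOF.  PUN for `K`; `f_i c x = ρ i (c.symm x) • f c x` is a form (FO2 (7)), `CS (L i) f_i` (if `c.symm x ∈ K` use `ρ i = 0`, otherwise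
`f c x = 0`).  `EqF f (∑ i, f_i)`, so `EqF (dF f) (∑ i, dF (f_i))` (each `f_i c` is differentiable on the open `c.target`; or induction on
finite sums), `dn` is additive: `dn (dF f) = ∑ dn (dF f_i)` (CNG).  Each `dn (dF f_i)` is integrable (INT: `dF f_i` is a form and vanishes
outside of the closed set `L i`) with integral `0` (STL). -/
def Stmt_STM : Prop := ∀ (n : ℕ) (M : Type) [TopologicalSpace M] [T2Space M]
  [SecondCountableTopology M] [ChartedSpace (EE (2 * n)) M] [IsManifold 𝓘(ℝ, EE (2 * n)) ∞ M]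
  [MeasurableSpace M] [BorelSpace M] (Ω : Fam (2 * n) M) (vol : Measure M) [IsFiniteMeasure vol],
  IsSymplectic n Ω → IsVol n Ω vol → ∀ K : Set M, IsCompact K →
  ∀ (k : ℕ) (f : Fam (2 * n) M), IsForm k f → CS K f → ∫ p, dn n Ω (dF f) p ∂vol = 0

/-- BLOCK TRL (uses FO2, LIE, XHS, PBT, PBO, TDF, OFK, DNC): transport.
PROOF.  `X = XX Ω H`, `G t = PBK (Φ t) (Lie (X t) f) * g` is a `TForm` (LIE, PBT, FO2), `CS K (G t)` (OFK (4), (2)).  For each `p`,
`c = chartAt p`, `x = c p`: `u s = dn n Ω ((PBK (Φ s) f - f) * g) p` (by definition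
`top ((PBK (Φ s) f c x - f c x) * g c x) / top (Ω c x ^ n)`) is continuous on `[0, 1]` (PBT) with `u 0 = 0` (PBO (2)) and
`HasDerivAt u (dn n Ω (G t) p) t` on `(0, 1)` (TDF: linear functional of `PBK (Φ s) f c x`); so
`u T = ∫ t in 0..T, dn n Ω (G t) p` (`intervalIntegral.integral_eq_sub_of_hasDerivAt_of_le`).  Integrate over `M` and exchange
(`MeasureTheory.integral_integral_swap`, or `intervalIntegral_integral_interchange`): `(t, p) ↦ dn n Ω (G t) p` is continuous on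
`Icc 0 1 ×ˢ univ` (DNC (3)) and `0` for `p ∉ K` (DNC (5)): bounded and measurable, product of finite measures. -/
def Stmt_TRL : Prop := ∀ (n : ℕ) (M : Type) [TopologicalSpace M] [T2Space M]
  [SecondCountableTopology M] [ChartedSpace (EE (2 * n)) M] [IsManifold 𝓘(ℝ, EE (2 * n)) ∞ M]
  [MeasurableSpace M] [BorelSpace M] (Ω : Fam (2 * n) M) (vol : Measure M) [IsFiniteMeasure vol]
  (H : ℝ → M → ℝ) (Φ : ℝ → M → M) (K : Set M), HS n Ω H Φ → IsCompact K →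
  (∀ t ∈ Icc (0 : ℝ) 1, ∀ p ∉ K, H t p = 0) → ∀ (k l : ℕ) (f g : Fam (2 * n) M),
  IsForm (k + 1) f → IsForm l g → ∀ T ∈ Icc (0 : ℝ) 1,
  ∫ p, dn n Ω ((PBK (Φ T) f - f) * g) p ∂vol =
    ∫ t in (0 : ℝ)..T, ∫ p, dn n Ω (PBK (Φ t) (Lie (XX Ω H t) f) * g) p ∂vol

/-- BLOCK INV (uses DEG, CNG, FO1, FO2, FO3, XHS, PBT, PBO, OFK, INT, STM, TRL): the integral is invariant.
PROOF.  `n = 0`: `2 * n = 0`, excluded by `1 ≤ n`; write `2 * n = k + 1`.  TRL with `g = 1` (a form of degree `0`: `f ^ 0` in FO2 (6), or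
directly).  `dF f` has degree `2 n + 1`, so `EqF (dF f) 0` (FO1, DEG (5)) and `EqF (Lie (X t) f) (dF h)`, `h = cF (X t) f` a form (FO3,
XHS); `EqF (PBK (Φ t) (dF h)) (dF (PBK (Φ t) h))` (PBO (1)), `PBK (Φ t) h` is a form (PBT), zero outside of `K` (OFK (2), (3)):
STM gives `∫ dn (PBK (Φ t) (Lie ..) * 1) = 0`.  So `∫ dn ((PBK (Φ T) f - f) * 1) = 0`, and `dn` is additive, both parts integrable (INT). -/
def Stmt_INV : Prop := ∀ (n : ℕ) (M : Type) [TopologicalSpace M] [T2Space M]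
  [SecondCountableTopology M] [ChartedSpace (EE (2 * n)) M] [IsManifold 𝓘(ℝ, EE (2 * n)) ∞ M]
  [MeasurableSpace M] [BorelSpace M] (Ω : Fam (2 * n) M) (vol : Measure M) [IsFiniteMeasure vol]
  (H : ℝ → M → ℝ) (Φ : ℝ → M → M) (K : Set M), 1 ≤ n → HS n Ω H Φ → IsVol n Ω vol →
  IsCompact K → (∀ t ∈ Icc (0 : ℝ) 1, ∀ p ∉ K, H t p = 0) → ∀ f : Fam (2 * n) M,
  IsForm (2 * n) f → CS K f → ∀ t ∈ Icc (0 : ℝ) 1,
  ∫ p, dn n Ω (PBK (Φ t) f) p ∂vol = ∫ p, dn n Ω f p ∂vol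

/-! ## E. The main identity -/

/-- BLOCK MN1 (uses ALG, DEG, CPW, DDZ, LBZ, CNG, FO1, FO2, HMS, XHS, DNC, INT, STM): the integral of
`bet * Ω ^ (i + m + 1)`.
PROOF.  `n = 2 i + 1 + m`.  At `x ∈ c.target`, `c` in the atlas: `w = Ω c x`, `u = μ c x`, `h = H t (c.symm x)`, `X = XX Ω H t c x`,
`a = ctr X w = io (d (H_t ∘ c.symm) x)` (XHS (2)); `w` commutes with everything (CPW (1)).
(a) `u * w ^ (i+m+1)` has degree `4 i + 2 m + 3 > 2 n`, so it is `0` (DEG (5)); apply `ctr X` (ALG (2), `inv u = - u` by DEG (1)):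
`ctr X u * w ^ (i+m+1) = u * ctr X (w ^ (i+m+1)) = (i+m+1) • (u * a * w ^ (i+m))` (CPW (2)), and `u * a = - a * u` (DEG (6), (7)).
(b) `f = hF (H t) * (μ * Ω ^ (i+m))` is a form (HMS, FO2), `CS K f`, and
`D (f c) x = a * u * w ^ (i+m) + h • w ^ n`: LBZ, DDZ (2) (`D (hF ..) = a`), `D (μ c) x = w ^ (i+1)`, `D (Ω c ^ k) x = 0` (induction on `k`
from closedness, LBZ), `(-1)^..` signs: `D (μ Ω^k) = D μ * Ω^k - μ * D (Ω^k)`.
(c) Hence `EqF (bet * Ω ^ (i+m+1)) ((2 i + m + 2) • (hF (H t) * Ω ^ n) - (i+m+1) • dF f)`: indeed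
`bet * w^(i+m+1) = (i+1) h • w^n + (i+m+1) • (u * a * w^(i+m))` and `u * a * w^(i+m) = - a * u * w^(i+m) = h • w^n - D (f c) x`.
(d) `dn (hF (H t) * Ω ^ n) p = H t p` (DNC (1)), `dn` is linear, CNG; integrate: `dn (dF f)` is integrable (INT, FO1; `dF f` vanishes
outside of the closed set `K`) with integral `0` (STM); `H t` is integrable (INT for `hF (H t) * Ω ^ n`). -/
def Stmt_MN1 : Prop := ∀ (i m : ℕ) (M : Type) [TopologicalSpace M] [T2Space M]
  [SecondCountableTopology M]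
  [ChartedSpace (EE (2 * (2 * i + 1 + m))) M] [IsManifold 𝓘(ℝ, EE (2 * (2 * i + 1 + m))) ∞ M]
  [MeasurableSpace M] [BorelSpace M] (Ω μ : Fam (2 * (2 * i + 1 + m)) M) (vol : Measure M)
  [IsFiniteMeasure vol] (H : ℝ → M → ℝ) (K : Set M), IsSymplectic (2 * i + 1 + m) Ω →
  IsVol (2 * i + 1 + m) Ω vol → IsHam (2 * (2 * i + 1 + m)) H → IsCompact K →
  (∀ t ∈ Icc (0 : ℝ) 1, ∀ p ∉ K, H t p = 0) → IsForm (2 * i + 1) μ →
  EqF (dF μ) (Ω ^ (i + 1)) → ∀ t ∈ Icc (0 : ℝ) 1,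
  ∫ p, dn (2 * i + 1 + m) Ω (bet i Ω μ H t * Ω ^ (i + m + 1)) p ∂vol =
    (2 * (i : ℝ) + m + 2) * ∫ p, H t p ∂vol

/-- BLOCK MN2 (uses DEG, CPW, DDZ, LBZ, CNG, FO1, FO2, FO3, HMS, XHS, PBT, PBO, OMI, OFK, INT, STM, INV):
integration by parts.
PROOF.  `n = 2 i + 1 + m`, `X = XX Ω H`.  `bet` is a form of degree `2 i` (time dependent: HMS, FO2, FO3 for `μ` of degree `2 i + 1`,
`0 + 2 * i = 2 * i`), zero outside of `K`.
(a) `EqF (Lie (X t) μ) (dF (bet t))`: `cF (X t) (dF μ)` is `ctr X (w ^ (i+1)) = (i+1) • (a * w ^ i)` (CNG, CPW (2), XHS (2),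
`a = io (d (H_t ∘ c.symm) x)`), and `D ((i+1) • (hF * Ω ^ i)) = (i+1) • (a * w ^ i)` (LBZ, DDZ (2), `D (Ω ^ i) = 0` by induction from
closedness).
(b) `b = PBK (Φ t) (bet t)` is a form of degree `2 i` (PBT), zero outside of `K` (OFK (2)), and
`EqF (PBK (Φ t) (Lie (X t) μ)) (dF b)` (CNG, PBO (1)).
(c) `D` of `b * (μ * Ω ^ m)` is `dF b * (μ * Ω ^ m) + b * Ω ^ (i+1+m)` (LBZ, `inv b = b` in degree `2 i`, `D (μ Ω^m) = Ω^(i+1) Ω^m`), and
`EqF (b * Ω ^ (i+m+1)) (PBK (Φ t) (bet t * Ω ^ (i+m+1)))` (OMI, `pb` is an algebra homomorphism).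
(d) Integrate: STM for `b * (μ * Ω ^ m)`, INV for `bet t * Ω ^ (i+m+1)` (degree `2 i + 2 (i+m+1) = 2 n`, `CS K`); additivity of the
integral with INT. -/
def Stmt_MN2 : Prop := ∀ (i m : ℕ) (M : Type) [TopologicalSpace M] [T2Space M]
  [SecondCountableTopology M]
  [ChartedSpace (EE (2 * (2 * i + 1 + m))) M] [IsManifold 𝓘(ℝ, EE (2 * (2 * i + 1 + m))) ∞ M]
  [MeasurableSpace M] [BorelSpace M] (Ω μ : Fam (2 * (2 * i + 1 + m)) M) (vol : Measure M)
  [IsFiniteMeasure vol] (H : ℝ → M → ℝ) (Φ : ℝ → M → M) (K : Set M),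
  HS (2 * i + 1 + m) Ω H Φ → IsVol (2 * i + 1 + m) Ω vol → IsCompact K →
  (∀ t ∈ Icc (0 : ℝ) 1, ∀ p ∉ K, H t p = 0) → IsForm (2 * i + 1) μ →
  EqF (dF μ) (Ω ^ (i + 1)) → ∀ t ∈ Icc (0 : ℝ) 1,
  ∫ p, dn (2 * i + 1 + m) Ω (PBK (Φ t) (Lie (XX Ω H t) μ) * (μ * Ω ^ m)) p ∂vol =
    -∫ p, dn (2 * i + 1 + m) Ω (bet i Ω μ H t * Ω ^ (i + m + 1)) p ∂vol

/-- BLOCK CAL (uses FO2, TRL, MN1, MN2): the Calabi invariant depends on the time one map only.
PROOF.  `Generates` gives `Φ` with `Φ 1 = φ`; `K` from `IsHam.supp`.  TRL with `T = 1`, `f = μ`, `g = μ * Ω ^ m`, and MN2, MN1 under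
the integral over `[0, 1]` (`intervalIntegral.integral_congr`). -/
def Stmt_CAL : Prop := ∀ (i m : ℕ) (M : Type) [TopologicalSpace M] [T2Space M]
  [SecondCountableTopology M]
  [ChartedSpace (EE (2 * (2 * i + 1 + m))) M] [IsManifold 𝓘(ℝ, EE (2 * (2 * i + 1 + m))) ∞ M]
  [MeasurableSpace M] [BorelSpace M] (Ω μ : Fam (2 * (2 * i + 1 + m)) M) (vol : Measure M)
  [IsFiniteMeasure vol] (H : ℝ → M → ℝ) (φ : M → M), IsSymplectic (2 * i + 1 + m) Ω →
  IsVol (2 * i + 1 + m) Ω vol → IsForm (2 * i + 1) μ → EqF (dF μ) (Ω ^ (i + 1)) →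
  IsHam (2 * (2 * i + 1 + m)) H → Generates Ω H φ →
  Cal vol H = -(1 / (2 * (i : ℝ) + m + 2)) *
    ∫ p, dn (2 * i + 1 + m) Ω ((PBK φ μ - μ) * (μ * Ω ^ m)) p ∂vol

/-- BLOCK NCP (uses VOL, CAL): `M` is not compact.
PROOF.  Otherwise `K = univ` is compact.  `H = 1` is an `IsHam` with `K = univ`, and `H = 0` too; both generate `id` with `Φ t p = p`
(`contMDiffOn_snd`; the velocity is `0`, the differential of a constant is `0`).  By CAL `Cal vol 1 = Cal vol 0 = 0`, but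
`Cal vol 1 = (vol univ).toReal > 0` (VOL (1)). -/
def Stmt_NCP : Prop := ∀ (i m : ℕ) (M : Type) [TopologicalSpace M] [T2Space M]
  [SecondCountableTopology M]
  [ChartedSpace (EE (2 * (2 * i + 1 + m))) M] [IsManifold 𝓘(ℝ, EE (2 * (2 * i + 1 + m))) ∞ M]
  [MeasurableSpace M] [BorelSpace M] [Nonempty M] (Ω μ : Fam (2 * (2 * i + 1 + m)) M)
  (vol : Measure M) [IsFiniteMeasure vol], IsSymplectic (2 * i + 1 + m) Ω →
  IsVol (2 * i + 1 + m) Ω vol → IsForm (2 * i + 1) μ → EqF (dF μ) (Ω ^ (i + 1)) →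
  ∀ K : Set M, IsCompact K → ∃ p, p ∉ K

/-- BLOCK LNI (uses HMS): the Hofer length is an integral of a continuous function.
PROOF.  `K` compact with `H t p = 0` off `K`; `(t, p) ↦ H t p` is continuous on `Icc 0 1 ×ˢ univ`.  Boundedness: on `K` compact, `0`
outside.  Continuity at `t0`: for `ε > 0` there is `δ` with `|H t p - H t0 p| ≤ ε` for all `p ∈ K` (hence all `p`) and `t ∈ Icc 0 1`,
`|t - t0| < δ` (tube lemma, or `IsCompact.uniformContinuousOn_of_continuous` is not available: use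
`ContinuousOn` on `Icc 0 1 ×ˢ K` and `IsCompact.mem_uniformity_of_prod`, `generalized_tube_lemma`, or `isCompact.induction_on`).  Then
`|⨆ H t - ⨆ H t0| ≤ ε` (`ciSup_le`, `le_ciSup`), same for `⨅`. -/
def Stmt_LNI : Prop := ∀ (N : ℕ) (M : Type) [TopologicalSpace M] [ChartedSpace (EE N) M]
  [IsManifold 𝓘(ℝ, EE N) ∞ M] [Nonempty M] (H : ℝ → M → ℝ), IsHam N H →
  ContinuousOn (fun t => ⨆ p, H t p) (Icc 0 1) ∧ ContinuousOn (fun t => ⨅ p, H t p) (Icc 0 1) ∧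
  ∀ t ∈ Icc (0 : ℝ) 1, BddAbove (range (H t)) ∧ BddBelow (range (H t))

/-- BLOCK HOF (uses HMS, LNI): the Hofer length bounds the Calabi invariant.
PROOF.  `t ∈ Icc 0 1`, `S = ⨆ H t`, `I = ⨅ H t`; `I ≤ 0 ≤ S` (the point `p0`), `I ≤ H t p ≤ S`, so `|H t p| ≤ S - I` and
`|∫ H t| ≤ (S - I) * (vol univ).toReal` (`norm_integral_le_of_norm_le_const`).  Integrate:
`intervalIntegral.norm_integral_le_of_norm_le` with the interval integrable bound (LNI), `intervalIntegral.integral_mul_const`. -/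
def Stmt_HOF : Prop := ∀ (N : ℕ) (M : Type) [TopologicalSpace M] [ChartedSpace (EE N) M]
  [IsManifold 𝓘(ℝ, EE N) ∞ M] [MeasurableSpace M] [Nonempty M] (vol : Measure M)
  [IsFiniteMeasure vol] (H : ℝ → M → ℝ), IsHam N H → (∃ p, ∀ t ∈ Icc (0 : ℝ) 1, H t p = 0) →
  |Cal vol H| ≤ (vol univ).toReal * len H

/-! ## F. Flows -/

/-- BLOCK LIG (uses LIN of `Flow0`, given as hypothesis): global solutions of linear equations.
PROOF.  For `R ≥ 1` apply LIN to `s ↦ R • A (R s)`, `t0 = 0`: `z` on `(-1, 2)`, and `s ↦ z (s / R)` solves `y' = A y` on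
`(-R, 2 R)`.  Two solutions with the same value at `0` agree on the common interval (`ODE_solution_unique_of_mem_Ioo` or
`ODE_solution_unique_of_mem_Icc`, `y ↦ A t y` is Lipschitz with constant `‖A t‖`, bounded on compact intervals).  Put
`y t = y_R t` with `R = |t| + 1`; near each `t` it agrees with `y_R`, `R = |t| + 2`. -/
def Stmt_LIG : Prop := ∀ (W : Type) [NormedAddCommGroup W] [NormedSpace ℝ W]
  [FiniteDimensional ℝ W] (A : ℝ → W →L[ℝ] W), Continuous A → ∀ w : W,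
  ∃ y : ℝ → W, y 0 = w ∧ ∀ t, HasDerivAt y (A t (y t)) t

/-- LIN (proved in `Flow0`). -/
def Stmt_LIN : Prop := ∀ (W : Type) [NormedAddCommGroup W] [NormedSpace ℝ W]
  [FiniteDimensional ℝ W] (A : ℝ → W →L[ℝ] W), Continuous A → ∀ t0 ∈ Ioo (-1 : ℝ) 2, ∀ w : W,
  ∃ y : ℝ → W, y t0 = w ∧ ∀ t ∈ Ioo (-1 : ℝ) 2, HasDerivAt y (A t (y t)) t

/-- LPF (proved in `Flow0`): the flow is locally Lipschitz in the initial value. -/
def Stmt_LPF : Prop := ∀ (V : Type) [NormedAddCommGroup V] [NormedSpace ℝ V]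
  [FiniteDimensional ℝ V] (F : V → V) (Φ : ℝ → V → V), ContDiff ℝ 1 F → IsFlow F Φ → ∀ x0 : V,
  ∃ δ C : ℝ, 0 < δ ∧ 0 ≤ C ∧ ∀ x ∈ Metric.ball x0 δ, ∀ y ∈ Metric.ball x0 δ,
    ∀ t ∈ Icc (0 : ℝ) 1, ‖Φ t x - Φ t y‖ ≤ C * ‖x - y‖

/-- FLW (proved in `Flow0`): the flow is strictly differentiable in the initial value. -/
def Stmt_FLW : Prop := ∀ (V : Type) [NormedAddCommGroup V] [NormedSpace ℝ V]
  [FiniteDimensional ℝ V] (F : V → V) (Φ : ℝ → V → V), ContDiff ℝ 1 F → IsFlow F Φ → ∀ x0 : V,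
  ∃ D : ℝ → V →L[ℝ] V, D 0 = ContinuousLinearMap.id ℝ V ∧
    (∀ t ∈ Ioo (-1 : ℝ) 2, HasDerivAt D ((fderiv ℝ F (Φ t x0)).comp (D t)) t) ∧
    ∀ t ∈ Icc (0 : ℝ) 1, HasStrictFDerivAt (Φ t) (D t) x0

/-- BLOCK FSD (uses FLW, LIG): the derivative of the flow, for all times.
PROOF.  `J · x` is the solution of LIG for `W = V →L[ℝ] V` and `A t = compL (fderiv ℝ F (Φ t x))` (`t ↦ Φ t x` is continuous).
For `t ≥ 0` let `R = t + 1`; `Φ' s = Φ (R s)` is the flow of `R • F`; FLW gives `D` on `(-1, 2)` with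
`D' = R • fderiv F (Φ (R s) x) ∘ D`, and `s ↦ J (R s) x` solves the same linear equation: they agree on `[0, 1]` (uniqueness), so
`HasStrictFDerivAt (Φ t) (J t x) x`.  For `t < 0` apply this to `-F` and `s ↦ Φ (-s)`, `J (-s)`. -/
def Stmt_FSD : Prop := ∀ (V : Type) [NormedAddCommGroup V] [NormedSpace ℝ V]
  [FiniteDimensional ℝ V] (F : V → V) (Φ : ℝ → V → V), ContDiff ℝ 1 F → IsFlow F Φ →
  ∃ J : ℝ → V → V →L[ℝ] V, (∀ x, J 0 x = ContinuousLinearMap.id ℝ V) ∧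
    (∀ x t, HasDerivAt (fun s => J s x) ((fderiv ℝ F (Φ t x)).comp (J t x)) t) ∧
    ∀ t x, HasStrictFDerivAt (Φ t) (J t x) x

/-- BLOCK FCO (uses LPF): the flow is continuous.
PROOF.  At `(t0, x0)` with `t0 ≥ 0`: scale (`R = t0 + 1`, `R • F`, `Φ (R s)`), LPF: `‖Φ t x - Φ t x0‖ ≤ C ‖x - x0‖` for `t ∈ [0, R]`, `x` near
`x0`, and `t ↦ Φ t x0` is continuous.  For `t0 ≤ 0` use `-F` and `Φ (-s)`; at `t0 = 0` combine both sides (the estimate holds for
`t ∈ [-1, 1]`). -/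
def Stmt_FCO : Prop := ∀ (V : Type) [NormedAddCommGroup V] [NormedSpace ℝ V]
  [FiniteDimensional ℝ V] (F : V → V) (Φ : ℝ → V → V), ContDiff ℝ 1 F → IsFlow F Φ →
  Continuous (fun q : ℝ × V => Φ q.1 q.2)

/-- BLOCK FSM (uses FSD, FCO): the flow is smooth.
PROOF.  Induction on `k` for all `V`, `F`, `Φ`; `k = 0` is FCO.  Step: `J` from FSD.  On `V2 = V × (V →L[ℝ] V)` the field
`F2 (x, A) = (F x, (fderiv ℝ F x).comp A)` is smooth with the flow `Φ2 t (x, A) = (Φ t x, (J t x).comp A)`; by induction (and FCO)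
`Φ2` is `C^k`, so `(t, x) ↦ J t x` (the second component at `(x, id)`) is `C^k` and continuous.  By
`hasStrictFDerivAt_uncurry_coprod` (`Mathlib/Analysis/Calculus/FDeriv/Partial.lean`; `f = Φ`, `f₁ t x = toSpanSingleton (F (Φ t x))`,
`f₂ = J`) `(t, x) ↦ Φ t x` has everywhere the derivative `coprod (toSpanSingleton ℝ (F (Φ t x))) (J t x)`, which is `C^k` in
`(t, x)`; `contDiff_succ_iff_hasFDerivAt` or `contDiff_succ_iff_fderiv`. -/
def Stmt_FSM : Prop := ∀ (k : ℕ) (V : Type) [NormedAddCommGroup V] [NormedSpace ℝ V]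
  [FiniteDimensional ℝ V] (F : V → V) (Φ : ℝ → V → V), ContDiff ℝ ∞ F → IsFlow F Φ →
  ContDiff ℝ k (fun q : ℝ × V => Φ q.1 q.2)

/-- BLOCK GFL (uses nothing): compactly supported fields have global flows.
PROOF.  `F` is bounded by `L` and Lipschitz (`ContDiff.lipschitzWith_of_hasCompactSupport`).  For `T > 0`: `IsPicardLindelof` for
`fun _ => F` on `Icc (-T) T`, radius `a = L T`, and `IsPicardLindelof.exists_eq_forall_mem_Icc_hasDerivWithinAt₀` give a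
solution on `[-T, T]` with value `x` at `0`.  Uniqueness (`ODE_solution_unique_of_mem_Icc`, or on `Ioo`) glues them:
`Φ t x = α_(|t| + 1) t`. -/
def Stmt_GFL : Prop := ∀ (V : Type) [NormedAddCommGroup V] [NormedSpace ℝ V]
  [FiniteDimensional ℝ V] (F : V → V), ContDiff ℝ ∞ F → HasCompactSupport F →
  ∃ Φ : ℝ → V → V, IsFlow F Φ

/-- BLOCK FXP (uses nothing): the flow outside of the support.
PROOF.  `F` is Lipschitz on `V` (compact support).  (1) the constant curve `x` is a solution: uniqueness on `Icc (-T) T`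
(`ODE_solution_unique_univ`).  (2) let `x ∈ C` and `y = Φ t x ∉ C`; the constant curve `y` and `s ↦ Φ s x` are solutions with the
same value at time `t`, so `x = Φ 0 x = y`, a contradiction. -/
def Stmt_FXP : Prop := ∀ (V : Type) [NormedAddCommGroup V] [NormedSpace ℝ V]
  [FiniteDimensional ℝ V] (F : V → V) (Φ : ℝ → V → V) (C : Set V), ContDiff ℝ ∞ F →
  HasCompactSupport F → IsFlow F Φ → (∀ x ∉ C, F x = 0) →
  (∀ t, ∀ x ∉ C, Φ t x = x) ∧ ∀ t, ∀ x ∈ C, Φ t x ∈ C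

/-! ## G. An example of a Hamiltonian isotopy -/

/-- BLOCK EX1 (uses SHP): a bump function in a chart and its Hamiltonian vector field.
PROOF.  `p0 : M` the given point, `c = chartAt p0`, `x0 = c p0`, `closedBall x0 r ⊆ c.target`, `C` this ball, `b` a `ContDiffBump x0` with `rIn = r / 2`, `rOut = r`
(`ContDiffBump.contDiff`, support `= ball x0 r`, `b x0 = 1`).  `Y x = sh (Ω c x) (fderiv ℝ b x)` on `c.target` and `0` outside.  SHP (1), and
SHP (2) on `c.target`; for `x ∈ c.target \ C` `b = 0` near `x`, so `ctr (Y x) (Ω c x) = 0`, `Y x = 0`; so `Y` is smooth on `c.target` and on the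
complement of `C`, both open. -/
def Stmt_EX1 : Prop := ∀ (n : ℕ) (M : Type) [TopologicalSpace M] [ChartedSpace (EE (2 * n)) M]
  [IsManifold 𝓘(ℝ, EE (2 * n)) ∞ M] (Ω : Fam (2 * n) M), IsSymplectic n Ω → M →
  ∃ c ∈ atlas (EE (2 * n)) M, ∃ (C : Set (EE (2 * n))) (b : EE (2 * n) → ℝ)
    (Y : EE (2 * n) → EE (2 * n)), IsCompact C ∧ C ⊆ c.target ∧ ContDiff ℝ ∞ b ∧
    (∀ x ∉ C, b x = 0) ∧ (∀ x, 0 ≤ b x) ∧ (∃ x ∈ C, 0 < b x) ∧ ContDiff ℝ ∞ Y ∧
    (∀ x ∉ C, Y x = 0) ∧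
    ∀ x ∈ c.target, ctr (Y x) (Ω c x) = io (fderiv ℝ b x).toLinearMap

/-- BLOCK EX2 (uses nothing): the function `exH c b`.
PROOF.  `K = c.symm '' C` is compact (`c.symm` is continuous on `c.target`), so closed, `K ⊆ c.source`.  `exH c b` is `0` outside of `K`
and equal to `b ∘ c` on the open set `c.source`: `ContMDiff` on `c.source` (`contMDiffOn_of_mem_maximalAtlas`) and on `Kᶜ`.  Compose with
`contMDiff_snd`. -/
def Stmt_EX2 : Prop := ∀ (N : ℕ) (M : Type) [TopologicalSpace M] [T2Space M]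
  [ChartedSpace (EE N) M] [IsManifold 𝓘(ℝ, EE N) ∞ M], ∀ c ∈ atlas (EE N) M,
  ∀ (C : Set (EE N)) (b : EE N → ℝ), IsCompact C → C ⊆ c.target → ContDiff ℝ ∞ b →
  (∀ x ∉ C, b x = 0) → Continuous (exH c b) ∧ IsCompact (c.symm '' C) ∧
  (∀ p ∉ c.symm '' C, exH c b p = 0) ∧ ∀ s : ℝ, IsHam N (fun _ p => s * exH c b p)

/-- BLOCK EX3 (uses TRN, XHS, EX2): the isotopy `exPhi c ψ`.
PROOF.  `K = c.symm '' C` closed, `K ⊆ c.source`, `H = fun _ p => s * exH c b p` (EX2: `IsHam`).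
`ψ t` maps `c.target` to itself (`ψ t x = x` off `C`, `ψ t C ⊆ C`).
Smooth: `c.source ∪ Kᶜ = univ`, both open.  On `ℝ × c.source`: `Φ = c.symm ∘ (ψ ∘ (id × c))` (`contMDiffOn_of_mem_maximalAtlas`,
`contMDiffOn_symm_of_mem_maximalAtlas`; `ψ` smooth on `ℝ × EE N` gives `ContMDiff` for the product model by
`modelWithCornersSelf_prod`, `chartedSpaceSelf_prod`).  On `ℝ × Kᶜ`: `Φ t p = p` (if `p ∈ c.source \ K`, `c p ∉ C`, `ψ t (c p) = c p`).
`Φ 0 p = p`.
ODE at `t`, `p`, `c'`, `q = Φ t p ∈ c'.source`.  If `p ∈ c.source`: `z = ψ t (c p) ∈ c.target`, `q = c.symm z`, near `t`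
`c' (Φ s p) = (c' ∘ c.symm) (ψ s (c p))` has the derivative `v = fderiv (c' ∘ c.symm) z (s • Y z)` (TRN).  `XX Ω H t c z = s • Y z`: both have
the same contraction with `Ω c z` (XHS (2), `exH c b (c.symm y) = b y` near `z`), nondegenerate; so `v = XX Ω H t c' (c' q)`
(`TVF.compat` in XHS (1)), and XHS (2) in the chart `c'` is the claim.  If `p ∉ c.source`: `Φ s p = p`, `v = 0`, `H = 0` near `p`
(`p ∈ Kᶜ` open), so both sides are `0`. -/
def Stmt_EX3 : Prop := ∀ (N : ℕ) (M : Type) [TopologicalSpace M] [T2Space M]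
  [ChartedSpace (EE N) M] [IsManifold 𝓘(ℝ, EE N) ∞ M] (Ω : Fam N M), IsForm 2 Ω →
  (∀ c ∈ atlas (EE N) M, ∀ x ∈ c.target, ∀ v, ctr v (Ω c x) = 0 → v = 0) →
  ∀ c ∈ atlas (EE N) M, ∀ (C : Set (EE N)) (b : EE N → ℝ) (Y : EE N → EE N) (s : ℝ)
    (ψ : ℝ → EE N → EE N), IsCompact C → C ⊆ c.target → ContDiff ℝ ∞ b → (∀ x ∉ C, b x = 0) →
  (∀ x ∈ c.target, ctr (Y x) (Ω c x) = io (fderiv ℝ b x).toLinearMap) →
  ContDiff ℝ ∞ (fun q : ℝ × EE N => ψ q.1 q.2) → IsFlow (fun x => s • Y x) ψ →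
  (∀ t, ∀ x ∉ C, ψ t x = x) → (∀ t, ∀ x ∈ C, ψ t x ∈ C) →
  IsIso Ω (fun _ p => s * exH c b p) (exPhi c ψ)

/-- BLOCK EXH (uses VOL, FSM, GFL, FXP, EX1, EX2, EX3): Hamiltonian isotopies with positive Calabi
invariant.
PROOF.  `c`, `C`, `b`, `Y` from EX1 at some point; `H0 = exH c b ≥ 0` is continuous, positive at `c.symm x1`, zero outside of a compact
set (EX2): its integral is positive (`Continuous.integral_pos_of_hasCompactSupport_nonneg_nonzero` needs `IsOpenPosMeasure`: VOL (1)).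
For `s`: `s • Y` is smooth with compact support (it vanishes off `C`), `ψ` its flow (GFL), smooth (FSM for all `k`:
`contDiff_infty`), FXP, EX3. -/
def Stmt_EXH : Prop := ∀ (n : ℕ) (M : Type) [TopologicalSpace M] [T2Space M]
  [SecondCountableTopology M]
  [ChartedSpace (EE (2 * n)) M] [IsManifold 𝓘(ℝ, EE (2 * n)) ∞ M] [MeasurableSpace M]
  [BorelSpace M] [Nonempty M] (Ω : Fam (2 * n) M) (vol : Measure M) [IsFiniteMeasure vol],
  IsSymplectic n Ω → IsVol n Ω vol → ∃ H0 : M → ℝ, 0 < ∫ p, H0 p ∂vol ∧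
    ∀ s : ℝ, IsHam (2 * n) (fun _ p => s * H0 p) ∧
      ∃ φ : M → M, Generates Ω (fun _ p => s * H0 p) φ

/-! ## H. The volume measure exists and is unique -/

/-- BLOCK DET (uses TOP): the top coefficient of a pullback.
PROOF.  For `x ∈ ⋀^k`, `k ≠ N`, both sides are `0` (TOP (1); `pb A` preserves the degree: `ExteriorAlgebra.map_apply_ιMulti` and
`ExteriorAlgebra.ιMulti_span_fixedDegree`), and every `x` is a sum of homogeneous elements
(`DirectSum.Decomposition`, or `ExteriorAlgebra.lhom_ext`: two linear maps on `ExteriorAlgebra` are equal if they agree after all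
`ιMulti ℝ k`).  For `k = N`: `top ∘ ιMulti ℝ N` is an alternating map in `N` variables on `VV N`, so it is
`top (ιMulti (dxB)) • (dxB N).det` (`AlternatingMap.eq_smul_basis_det`); `pb A (ιMulti v) = ιMulti (A.dualMap ∘ v)`,
`Module.Basis.det_comp`, `LinearMap.det_dualMap`. -/
def Stmt_DET : Prop := ∀ (N : ℕ) (A : EE N →L[ℝ] EE N) (x : Lam N),
  top N (pb A x) = LinearMap.det A.toLinearMap * top N x

/-- BLOCK EXV (uses TRN, DNC, DET): existence and uniqueness of the volume measure.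
PROOF.  `ρ c x = ENNReal.ofReal |top (Ω c x ^ n)|`, continuous on `c.target` (compose with an indicator to have it measurable).
Countably many charts `c_k` of the atlas cover `M` (second countable: `TopologicalSpace.countable_cover_nhds` for `(chartAt p).source`; if
`M` is empty everything is `0`); `M_k = (c_k).source \ ⋃ l < k, (c_l).source` (`disjointed`) is a measurable partition.
`vol = Measure.sum k, ((volume.restrict (c_k.target ∩ c_k.symm ⁻¹' M_k)).withDensity (ρ c_k)).map c_k.symm`.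
Let `c` be in the atlas and `S ⊆ c.target` measurable, `S_k = S ∩ c.symm ⁻¹' M_k`.  `vol (c.symm '' S) = ∑' k, ∫⁻ y in T_k '' S_k, ρ c_k y`
with `T_k = c_k ∘ c.symm` (injective on `S_k`, `T_k '' S_k = {y ∈ c_k.target | c_k.symm y ∈ M_k ∩ c.symm '' S}`), and
`MeasureTheory.lintegral_image_eq_lintegral_abs_det_fderiv_mul` (TRN) gives `∫⁻ x in S_k, |det T_k'| * ρ c_k (T_k x) = ∫⁻ x in S_k, ρ c x`
since `Ω c x = pb T_k' (Ω c_k (T_k x))` and DET; sum over `k` (`lintegral_iUnion`).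
Uniqueness: a measurable `A` is the disjoint union of `A ∩ M_k = c_k.symm '' (c_k.target ∩ c_k.symm ⁻¹' (A ∩ M_k))`, on which
`IsVol` determines the measure. -/
def Stmt_EXV : Prop := ∀ (n : ℕ) (M : Type) [TopologicalSpace M] [T2Space M]
  [SecondCountableTopology M]
  [ChartedSpace (EE (2 * n)) M] [IsManifold 𝓘(ℝ, EE (2 * n)) ∞ M] [MeasurableSpace M]
  [BorelSpace M] (Ω : Fam (2 * n) M), IsSymplectic n Ω →
  ∃ vol : Measure M, IsVol n Ω vol ∧ ∀ vol' : Measure M, IsVol n Ω vol' → vol' = vol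

/-! ## I. The theorem -/

/-- BLOCK FIN (uses CAL, NCP, HOF, EXH): the theorem.
PROOF.  `j = i + 1`, `n = 2 i + 1 + m` (`obtain ⟨i, rfl⟩`, `obtain ⟨m, rfl⟩`: from `2 (i + 1) ≤ n + 1`).  (1) CAL for `H` and `H'`.
(2) every `H'` generating `φ` has `Cal vol H' = Cal vol H` and `|Cal vol H'| ≤ vol * len H'` (HOF with a point `p ∉ K`, NCP), so
`|Cal vol H| / vol ≤ len H'` for all elements of the set (`vol univ > 0`, otherwise `Cal = 0` and the claim is
`0 ≤ 0`): `le_csInf`.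
(3) `s = C * vol / ∫ H0` in EXH: `Cal vol (s H0) = s ∫ H0` (integral of a constant over `[0, 1]`), (2) (with `vol > 0`, which follows
from `∫ H0 > 0`). -/
def Stmt_FIN : Prop := ∀ (n j : ℕ) (M : Type) [TopologicalSpace M] [T2Space M]
  [SecondCountableTopology M]
  [ChartedSpace (EE (2 * n)) M] [IsManifold 𝓘(ℝ, EE (2 * n)) ∞ M] [MeasurableSpace M]
  [BorelSpace M] [Nonempty M] (Ω μ : Fam (2 * n) M) (vol : Measure M), 1 ≤ j → 2 * j ≤ n + 1 →
  IsSymplectic n Ω → IsVol n Ω vol → vol univ < ⊤ → IsForm (2 * j - 1) μ →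
  EqF (dF μ) (Ω ^ j) →
  (∀ (H H' : ℝ → M → ℝ) (φ : M → M), IsHam (2 * n) H → IsHam (2 * n) H' → Generates Ω H φ →
    Generates Ω H' φ → Cal vol H = Cal vol H') ∧
  (∀ (H : ℝ → M → ℝ) (φ : M → M), IsHam (2 * n) H → Generates Ω H φ →
    |Cal vol H| ≤ (vol univ).toReal * hofer Ω φ) ∧
  ∀ C : ℝ, ∃ φ ∈ Ham Ω, C ≤ hofer Ω φ

end HDC
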